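import Pool.Agent.P8H2.PB8

/-!
# The size of the conjugates of the determinant
-/

open Polynomial Pool.Agent.H337R2 Pool.Agent.W165.OZ Filter Topology

namespace Pool.Agent.P8H2

noncomputable section

namespace PB

/-- the logarithm of the error factor -/
lemma log_K2 (h n : ℕ) (hh : 1 ≤ h) (hn : 1 ≤ n) (Z : ℝ) (hZ : 0 ≤ Z) :
    0 < K2 h n Z ∧ Real.log (K2 h n Z) =
      (Real.log (2 * h * (Z + 1)) + 2 * h * Real.log 2 + 2 * (Real.log 2 + 10 * h) + 2 * h * Real.log 4) +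
        (3 + 4 * h) * Real.log n := by
  have h1 : (1 : ℝ) ≤ h := by exact_mod_cast hh
  have h2 : (1 : ℝ) ≤ n := by exact_mod_cast hn
  unfold K2 K1
  refine ⟨by positivity, ?_⟩
  have hE : 0 < Real.exp (10 * (h : ℝ)) := Real.exp_pos _
  have e1 : Real.log ((4 * (n : ℝ) ^ 2) ^ (2 * h)) = 2 * h * (Real.log 4 + 2 * Real.log n) := by
    rw [Real.log_pow, Real.log_mul (by positivity) (by positivity), Real.log_pow]
    push_cast
    ring
  have e2 : Real.log ((2 * Real.exp (10 * (h : ℝ))) ^ 2) = 2 * (Real.log 2 + 10 * h) := by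
    rw [Real.log_pow, Real.log_mul (by positivity) (by positivity), Real.log_exp]
    push_cast
    ring
  have e3 : Real.log ((n : ℝ) * (2 * Real.exp (10 * h)) ^ 2 * (4 * (n : ℝ) ^ 2) ^ (2 * h)) =
      Real.log n + 2 * (Real.log 2 + 10 * h) + 2 * h * (Real.log 4 + 2 * Real.log n) := by
    rw [Real.log_mul (by positivity) (by positivity), Real.log_mul (by positivity) (by positivity), e1, e2]
  have e4 : Real.log ((2 : ℝ) ^ (2 * h)) = 2 * h * Real.log 2 := by
    rw [Real.log_pow]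
    push_cast
    ring
  have e5 : Real.log ((n : ℝ) ^ 2) = 2 * Real.log n := by
    rw [Real.log_pow]
    push_cast
    ring
  rw [Real.log_mul (by positivity) (by positivity), Real.log_mul (x := 2 * h * (Z + 1)) (by positivity) (by positivity),
    Real.log_mul (x := (2 : ℝ) ^ (2 * h)) (by positivity) (by positivity), e3, e4, e5]
  ring

/-- the constant part of the error of one row -/
def eA (h : ℕ) (Z : ℝ) : ℝ :=
  Real.log h + (Real.log (2 * h * (Z + 1)) + 2 * h * Real.log 2 + 2 * (Real.log 2 + 10 * h) +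
    2 * h * Real.log 4) + 2 * (h + 1 / 2 + Real.log (2 * h)) + (Real.log (4 * h) + 1)

/-- the logarithmic part of the error of one row -/
def eB (h : ℕ) : ℝ := 1 + (3 + 4 * h) + 2 * (h + 1)

lemma bound (h ν : ℕ) (hh : 1 ≤ h) (hν : 1 ≤ ν) (Z : ℝ) (hZ : 0 ≤ Z) (z : ℕ → ℂ)
    (hz : ∀ i, ‖z i‖ ≤ Z) :
    ‖DH (mo (10 * ν) h 1 w1 z) (5 * (h * ν))‖ ≤
      Real.exp (((10 * ν : ℕ) : ℝ) ^ 2 * (-(1 / 2) * (h : ℝ) ^ 2 * Real.log ((10 * ν : ℕ) : ℝ) + PP h) +
        (5 * (h * ν) : ℕ) * (eA h Z + eB h * Real.log ((10 * ν : ℕ) : ℝ)) + (h + 1) / 2) := by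
  refine (det_bound h ν hh hν Z hZ z hz).trans ?_
  set n := 10 * ν with hn
  set r := 5 * (h * ν) with hr
  set L := Real.log ((n : ℕ) : ℝ) with hL
  have hn1 : (1 : ℝ) ≤ n := by exact_mod_cast (by omega : 1 ≤ n)
  have hh1 : (1 : ℝ) ≤ h := by exact_mod_cast hh
  have hL0 : 0 ≤ L := Real.log_nonneg hn1
  have hrpos : 1 ≤ r := by
    have : 1 ≤ h * ν := Nat.mul_pos hh hν
    omega
  have hr1 : (1 : ℝ) ≤ r := by exact_mod_cast hrpos
  have hrn : (r : ℝ) ≤ h * n := by
    have : r ≤ h * n := by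
      rw [hr, hn]
      calc 5 * (h * ν) ≤ 10 * (h * ν) := Nat.mul_le_mul_right _ (by norm_num)
        _ = h * (10 * ν) := by ring
    exact_mod_cast this
  obtain ⟨hK0, hK⟩ := log_K2 h n hh (by omega) Z hZ
  have hP0 : 0 < ∏ i ∈ Finset.range r, AAi h ν i ^ 2 :=
    Finset.prod_pos fun i _ => pow_pos (AAi_pos h ν i hh hν) 2
  have hf0 : (0 : ℝ) < (r.factorial : ℕ) := by exact_mod_cast Nat.factorial_pos r
  rw [← Real.log_le_iff_le_exp (by positivity), Real.log_mul (by positivity) hP0.ne',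
    Real.log_mul (by positivity) (by positivity), Real.log_pow, Real.log_prod
      (fun i _ => (pow_pos (AAi_pos h ν i hh hν) 2).ne')]
  -- the factorial
  have h1 : Real.log ((r.factorial : ℕ) : ℝ) ≤ r * (Real.log h + L) := by
    have h2 : ((r.factorial : ℕ) : ℝ) ≤ (r : ℝ) ^ r := by exact_mod_cast Nat.factorial_le_pow r
    have h3 := Real.log_le_log hf0 h2
    rw [Real.log_pow] at h3
    refine h3.trans (mul_le_mul_of_nonneg_left ?_ (by positivity))
    rw [hL, ← Real.log_mul (by positivity) (by positivity)]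
    exact Real.log_le_log (by positivity) hrn
  -- the basis
  have h4 : ∑ i ∈ Finset.range r, Real.log (AAi h ν i ^ 2) ≤
      ∑ i ∈ Finset.range r, ell L (n : ℝ) (gi h ν i) (mi h ν i) +
        r * (2 * (h * (L + 1) + 1 / 2 + (Real.log (2 * h) + L))) := by
    have h5 : ∀ i ∈ Finset.range r, Real.log (AAi h ν i ^ 2) ≤
        ell L (n : ℝ) (gi h ν i) (mi h ν i) + 2 * (h * (L + 1) + 1 / 2 + (Real.log (2 * h) + L)) := by
      intro i hi
      rw [Finset.mem_range] at hi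
      refine (log_AAi h ν i hh hν hi).trans ?_
      have h6 : Real.log (h * ((10 * ν : ℕ) : ℝ) + 1) ≤ Real.log (2 * h) + L := by
        rw [hL, ← Real.log_mul (by positivity) (by positivity)]
        apply Real.log_le_log (by positivity)
        rw [← hn]
        nlinarith
      rw [← hn, ← hL]
      rw [← hn] at h6
      linarith
    refine (Finset.sum_le_sum h5).trans (le_of_eq ?_)
    rw [Finset.sum_add_distrib, Finset.sum_const, Finset.card_range, nsmul_eq_mul]
  have h7 := total ν h hν hh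
  rw [← hn, ← hr, ← hL] at h7
  rw [hK, ← hL]
  have h8 : (5 * (h : ℝ) * ν) = r := by rw [hr]; push_cast; ring
  rw [h8] at h7
  unfold eA eB
  nlinarith

end PB

open PB in
theorem sp_main (h : ℕ) (hh : 1 ≤ h) (c : ℝ) (hc : PP h ≤ c * (h : ℝ) ^ 2) : S_P h c := by
  intro Z ε hε
  set Z' : ℝ := max Z 0 with hZ'
  have hZ0 : 0 ≤ Z' := le_max_right _ _
  have hh1 : (1 : ℝ) ≤ h := by exact_mod_cast hh
  have e1 : ∀ᶠ n : ℕ in atTop, |PB.eA h Z'| ≤ ε / 3 * n := by
    have := tendsto_natCast_atTop_atTop (R := ℝ)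
    filter_upwards [this.eventually_ge_atTop (|PB.eA h Z'| / (ε / 3))] with n hn
    rw [div_le_iff₀ (by positivity)] at hn
    linarith
  have e2 : ∀ᶠ n : ℕ in atTop, PB.eB h * Real.log n ≤ ε / 3 * n := by
    have hB : 0 < PB.eB h := by unfold PB.eB; positivity
    have h1 := Real.isLittleO_log_id_atTop.def (show 0 < ε / 3 / PB.eB h by positivity)
    have h2 := (tendsto_natCast_atTop_atTop (R := ℝ)).eventually h1
    filter_upwards [h2, eventually_ge_atTop 1] with n hn hn1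
    have hnr : (1 : ℝ) ≤ n := by exact_mod_cast hn1
    rw [Real.norm_eq_abs, Real.norm_eq_abs, id, abs_of_nonneg (Real.log_nonneg hnr), abs_of_nonneg (by positivity)] at hn
    have h3 := mul_le_mul_of_nonneg_left hn hB.le
    refine h3.trans (le_of_eq ?_)
    field_simp
  have e3 : ∀ᶠ n : ℕ in atTop, ((h : ℝ) + 1) / 2 ≤ ε / 3 * n := by
    have := tendsto_natCast_atTop_atTop (R := ℝ)
    filter_upwards [this.eventually_ge_atTop ((((h : ℝ) + 1) / 2) / (ε / 3))] with n hn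
    rw [div_le_iff₀ (by positivity)] at hn
    linarith
  obtain ⟨n0, hn0⟩ := eventually_atTop.1 (e1.and (e2.and (e3.and (eventually_ge_atTop 1))))
  refine ⟨n0, fun n hn hdvd z hz => ?_⟩
  obtain ⟨f1, f2, f3, f4⟩ := hn0 n hn
  obtain ⟨ν, hν⟩ := hdvd
  subst hν
  have hν1 : 1 ≤ ν := by omega
  have hr : h * (10 * ν) / 2 = 5 * (h * ν) := by
    rw [show h * (10 * ν) = 2 * (5 * (h * ν)) by ring]
    exact Nat.mul_div_cancel_left _ (by norm_num)
  rw [hr]
  refine (PB.bound h ν hh hν1 Z' hZ0 z (fun i => (hz i).trans (le_max_left _ _))).trans ?_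
  apply Real.exp_le_exp.2
  set n := 10 * ν with hn'
  set L := Real.log ((n : ℕ) : ℝ) with hL
  have hn1 : (1 : ℝ) ≤ n := by exact_mod_cast f4
  have hrn : ((5 * (h * ν) : ℕ) : ℝ) ≤ h * n := by
    have : 5 * (h * ν) ≤ h * n := by
      rw [hn']
      calc 5 * (h * ν) ≤ 10 * (h * ν) := Nat.mul_le_mul_right _ (by norm_num)
        _ = h * (10 * ν) := by ring
    exact_mod_cast this
  have hr0 : (0 : ℝ) ≤ ((5 * (h * ν) : ℕ) : ℝ) := Nat.cast_nonneg _
  have g1 : PB.eA h Z' + PB.eB h * L ≤ ε / 3 * n + ε / 3 * n := by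
    have := le_abs_self (PB.eA h Z')
    linarith
  have g2 : ((5 * (h * ν) : ℕ) : ℝ) * (PB.eA h Z' + PB.eB h * L) ≤ (h * n) * (ε / 3 * n + ε / 3 * n) := by
    have : (0 : ℝ) ≤ ε / 3 * n + ε / 3 * n := by positivity
    exact (mul_le_mul_of_nonneg_left g1 hr0).trans (mul_le_mul_of_nonneg_right hrn this)
  have g3 : (h * (n : ℝ)) * (ε / 3 * n + ε / 3 * n) ≤ (2 * ε / 3) * ((h : ℝ) * n) ^ 2 := by
    have h1 : (h : ℝ) * (n : ℝ) ^ 2 ≤ (h : ℝ) ^ 2 * (n : ℝ) ^ 2 :=
      mul_le_mul_of_nonneg_right (by nlinarith) (by positivity)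
    have h2 := mul_le_mul_of_nonneg_left h1 (by positivity : 0 ≤ 2 * ε / 3)
    nlinarith
  have g4 : ε / 3 * (n : ℝ) ≤ ε / 3 * ((h : ℝ) * n) ^ 2 := by
    apply mul_le_mul_of_nonneg_left _ (by positivity)
    have h1 : (n : ℝ) ≤ h * n := by nlinarith
    nlinarith
  have g5 : (n : ℝ) ^ 2 * PB.PP h ≤ c * ((h : ℝ) * n) ^ 2 := by
    have := mul_le_mul_of_nonneg_left hc (by positivity : (0 : ℝ) ≤ (n : ℝ) ^ 2)
    nlinarith
  nlinarith

open PB in
/-- P: the size of the conjugates -/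
theorem sp (h : ℕ) (hh : 1 ≤ h) : S_P h (383 / 500 + 1 / (25 * h)) := by
  apply sp_main h hh
  have hh1 : (1 : ℝ) ≤ h := by exact_mod_cast hh
  refine (PP_le h).trans ((sum_ub h).trans (le_of_eq ?_))
  field_simp

open PB in
/-- P for large `h` -/
theorem sp' (h : ℕ) (hh : 8 ≤ h) : S_P h (383 / 500 + 1 / (100 * h)) := by
  apply sp_main h (by omega)
  have hh1 : (8 : ℝ) ≤ h := by exact_mod_cast hh
  refine (PP_le h).trans ((sum_ub' h hh).trans (le_of_eq ?_))
  field_simp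

end

end Pool.Agent.P8H2
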