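import Pool.Agent.P8H2.PJ
import Pool.Agent.W165.OZ.DL
import Pool.Agent.W165.OZ.SI

/-!
# The arithmetic part
-/

open Polynomial Pool.Agent.H337R2 Pool.Agent.W165.OZ Filter Topology

namespace Pool.Agent.P8H2

noncomputable section

/-- the size of `Dl` -/
lemma log_Dl (δ : ℝ) (hδ : 0 < δ) : ∀ᶠ n : ℕ in atTop, Real.log (Dl n 1) ≤ (1 + δ) * n := by
  have h1 : Tendsto (fun n : ℕ => Chebyshev.theta ((1 : ℝ) * n) / (n : ℝ)) atTop (𝓝 1) :=
    Pool.Agent.H336R2.HD.theta_tendsto 1 one_pos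
  have h2 := h1.eventually (eventually_lt_nhds (show (1 : ℝ) < 1 + δ / 2 by linarith))
  have h3 : Tendsto (fun x : ℝ => Real.log x / x ^ (1 / 2 : ℝ)) atTop (𝓝 0) :=
    (isLittleO_log_rpow_atTop (by norm_num)).tendsto_div_nhds_zero
  have h4 : Tendsto (fun n : ℕ => Real.log (n : ℝ) / (n : ℝ) ^ (1 / 2 : ℝ)) atTop (𝓝 0) :=
    h3.comp tendsto_natCast_atTop_atTop
  have h5 := h4.eventually (eventually_lt_nhds (show (0 : ℝ) < δ / 2 by linarith))
  filter_upwards [h2, h5, eventually_ge_atTop 1] with n hn2 hn5 hn1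
  have hn0 : (0 : ℝ) < n := by exact_mod_cast hn1
  rw [div_lt_iff₀ hn0, one_mul] at hn2
  have hn1' : (1 : ℝ) ≤ n := by exact_mod_cast hn1
  have hln : 0 ≤ Real.log n := Real.log_nonneg hn1'
  have e1 : Real.log (Dl n 1) = ∑ p ∈ (Finset.range (n + 1)).filter Nat.Prime,
      Real.log ((p ^ Nat.log p (1 * n) : ℕ) : ℝ) := by
    unfold Dl
    rw [Nat.cast_prod, Real.log_prod]
    intro p hp
    rw [Finset.mem_filter] at hp
    have := Nat.pow_pos (n := Nat.log p (1 * n)) hp.2.pos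
    exact_mod_cast this.ne'
  have e2 : Real.log (Dl n 1) ≤ ∑ p ∈ (Finset.range (n + 1)).filter Nat.Prime,
      (Real.log p + (if p * p ≤ n then Real.log (n : ℝ) else 0)) := by
    rw [e1]
    apply Finset.sum_le_sum
    intro p hp
    rw [Finset.mem_filter] at hp
    have := dl_term (1 * n) p (by omega) hp.2
    rw [one_mul] at this ⊢
    exact this
  rw [Finset.sum_add_distrib] at e2
  have e3 : ∑ p ∈ (Finset.range (n + 1)).filter Nat.Prime, Real.log (p : ℝ) = Chebyshev.theta (n : ℝ) := by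
    rw [Chebyshev.theta_eq_sum_Icc, Nat.floor_natCast]
    congr 2
    ext x
    rw [Finset.mem_range, Finset.mem_Icc]
    omega
  have e4 : ∑ p ∈ (Finset.range (n + 1)).filter Nat.Prime,
      (if p * p ≤ n then Real.log (n : ℝ) else 0) ≤ Real.sqrt n * Real.log n := by
    rw [← Finset.sum_filter, Finset.sum_const, nsmul_eq_mul]
    have hsub : ((Finset.range (n + 1)).filter Nat.Prime).filter (fun p => p * p ≤ n) ⊆
        Finset.Icc 1 (Nat.sqrt n) := by
      intro p hp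
      rw [Finset.mem_filter, Finset.mem_filter] at hp
      rw [Finset.mem_Icc]
      exact ⟨hp.1.2.pos, Nat.le_sqrt.2 hp.2⟩
    have hc := Finset.card_le_card hsub
    rw [Nat.card_Icc, Nat.add_sub_cancel] at hc
    have hc' : ((((Finset.range (n + 1)).filter Nat.Prime).filter
        (fun p => p * p ≤ n)).card : ℝ) ≤ Real.sqrt n := by
      refine le_trans (Nat.cast_le.2 hc) ?_
      exact Real.nat_sqrt_le_real_sqrt (a := n)
    exact mul_le_mul_of_nonneg_right hc' hln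
  have e5 : Real.sqrt n * Real.log n ≤ δ / 2 * n := by
    rw [div_lt_iff₀ (by positivity), ← Real.sqrt_eq_rpow] at hn5
    have h6 : Real.sqrt n * Real.sqrt n = n := Real.mul_self_sqrt hn0.le
    calc Real.sqrt n * Real.log n ≤ Real.sqrt n * (δ / 2 * Real.sqrt n) :=
          mul_le_mul_of_nonneg_left hn5.le (Real.sqrt_nonneg _)
      _ = δ / 2 * (Real.sqrt n * Real.sqrt n) := by ring
      _ = δ / 2 * n := by rw [h6]
  rw [e3] at e2
  linarith

lemma sum_div_modR (h m : ℕ) (hm : 0 < m) (F : ℕ → ℕ → ℝ) :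
    ∑ i ∈ Finset.range (h * m), F (i / m) (i % m) = ∑ a ∈ Finset.range h, ∑ j ∈ Finset.range m, F a j := by
  induction h with
  | zero => simp
  | succ h ih =>
    rw [Nat.succ_mul, Finset.sum_range_add, ih, Finset.sum_range_succ]
    congr 1
    refine Finset.sum_congr rfl fun j hj => ?_
    rw [Finset.mem_range] at hj
    have h1 : (h * m + j) / m = h := by
      rw [mul_comm, Nat.mul_add_div hm, Nat.div_eq_of_lt hj, add_zero]
    have h2 : (h * m + j) % m = j := by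
      rw [mul_comm, Nat.mul_add_mod, Nat.mod_eq_of_lt hj]
    rw [h1, h2]

/-- the sum of `x log x` -/
lemma sum_xlog (m : ℕ) (hm : 1 ≤ m) : (m : ℝ) ^ 2 * Real.log (2 * m) - (m : ℝ) ^ 2 / 2 - m * (Real.log (2 * m) + 3) ≤
    ∑ j ∈ Finset.range m, (2 * (j : ℝ)) * Real.log (2 * j) := by
  induction m, hm using Nat.le_induction with
  | base =>
    simp
    linarith
  | succ m hm ih =>
    rw [Finset.sum_range_succ]
    have hm0 : (0 : ℝ) < m := by exact_mod_cast hm
    have hm1 : (1 : ℝ) ≤ m := by exact_mod_cast hm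
    push_cast
    have h1 : Real.log (2 * ((m : ℝ) + 1)) = Real.log (2 * m) + Real.log (1 + 1 / m) := by
      rw [← Real.log_mul (by positivity) (by positivity)]
      congr 1
      field_simp
    have h2 : Real.log (1 + 1 / (m : ℝ)) ≤ 1 / m := by
      have := Real.log_le_sub_one_of_pos (show (0 : ℝ) < 1 + 1 / m by positivity)
      linarith
    have h3 : 0 ≤ Real.log (1 + 1 / (m : ℝ)) := Real.log_nonneg (by
      have : 0 < 1 / (m : ℝ) := by positivity
      linarith)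
    rw [h1]
    obtain ⟨e, he⟩ : ∃ e, Real.log (1 + 1 / (m : ℝ)) = e := ⟨_, rfl⟩
    obtain ⟨l, hl⟩ : ∃ l, Real.log (2 * (m : ℝ)) = l := ⟨_, rfl⟩
    rw [he] at h2 h3 ⊢
    rw [hl] at ih ⊢
    have h4 : (m : ℝ) * e ≤ 1 := by
      calc (m : ℝ) * e ≤ m * (1 / m) := mul_le_mul_of_nonneg_left h2 hm0.le
        _ = 1 := by field_simp
    have h5 : (m : ℝ) ^ 2 * e ≤ m := by
      calc (m : ℝ) ^ 2 * e = m * (m * e) := by ring
        _ ≤ m * 1 := mul_le_mul_of_nonneg_left h4 hm0.le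
        _ = m := mul_one _
    have h6 : e ≤ 1 := h2.trans (by rw [div_le_one hm0]; exact hm1)
    nlinarith

/-- the size of the product of the scaling factors -/
theorem log_SC (h : ℕ) (hh : 1 ≤ h) (δ : ℝ) (hδ : 0 < δ) : ∀ᶠ n : ℕ in atTop, Even n →
    Real.log (SC n h) ≤ ((1 / 2) * Real.log n * (h : ℝ) ^ 2 + (11 / 4) * h + δ) * (n : ℝ) ^ 2 := by
  have hh0 : (1 : ℝ) ≤ h := by exact_mod_cast hh
  obtain ⟨δ', hδ'⟩ : ∃ δ' : ℝ, δ' = δ / (4 * (h * (h + 1) + 4 * h)) := ⟨_, rfl⟩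
  have hδ0 : 0 < δ' := by rw [hδ']; positivity
  have h1 := log_Dl δ' hδ0
  have h3 : Tendsto (fun x : ℝ => Real.log x / x ^ (1 : ℝ)) atTop (𝓝 0) :=
    (isLittleO_log_rpow_atTop (by norm_num)).tendsto_div_nhds_zero
  have h4 : Tendsto (fun n : ℕ => Real.log (n : ℝ) / (n : ℝ) ^ (1 : ℝ)) atTop (𝓝 0) :=
    h3.comp tendsto_natCast_atTop_atTop
  have h5 := h4.eventually (eventually_lt_nhds hδ0)
  obtain ⟨N, hN⟩ : ∃ N : ℕ, 3 / δ' ≤ N := exists_nat_ge _
  filter_upwards [h1, h5, eventually_ge_atTop 2, eventually_ge_atTop N] with n hD hL hn2 hnN he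
  obtain ⟨m, hm⟩ := he
  have hm1 : 1 ≤ m := by omega
  have hnm : n / 2 = m := by omega
  have hr : h * n / 2 = h * m := by
    have : h * n = h * m * 2 := by rw [hm]; ring
    rw [this, Nat.mul_div_cancel _ (by norm_num)]
  have hn0 : (0 : ℝ) < n := by
    have : 0 < n := by omega
    exact_mod_cast this
  rw [Real.rpow_one, div_lt_iff₀ hn0] at hL
  have hL3 : 3 ≤ δ' * n := by
    have : 3 / δ' ≤ n := hN.trans (by exact_mod_cast hnN)
    rw [div_le_iff₀ hδ0] at this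
    linarith
  have hnm' : (n : ℝ) = 2 * m := by rw [hm]; push_cast; ring
  have hDpos : (0 : ℝ) < (Dl n 1 : ℝ) := by exact_mod_cast PRaux.Dl_pos n 1
  have hfpos : (0 : ℝ) < (n.factorial : ℝ) := by positivity
  obtain ⟨F, hF⟩ : ∃ F, Real.log (n.factorial : ℝ) = F := ⟨_, rfl⟩
  obtain ⟨D, hDd⟩ : ∃ D, Real.log (Dl n 1 : ℝ) = D := ⟨_, rfl⟩
  have hFle := si_fact_le n (by omega)
  rw [hF] at hFle
  rw [hDd] at hD
  -- the sum of the logarithms
  have e1 : Real.log (SC n h : ℝ) = ∑ i ∈ Finset.range (h * m), 2 * (((h - i / m : ℕ) : ℝ) * F +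
      ((h - i / m + 2 : ℕ) : ℝ) * D - Real.log ((2 * (i % m)).factorial : ℝ)) := by
    unfold SC
    rw [hr]
    push_cast
    rw [Real.log_prod]
    · refine Finset.sum_congr rfl fun i _ => ?_
      rw [Real.log_pow]
      unfold sc
      rw [hnm]
      push_cast
      rw [Real.log_div (by positivity) (by positivity), Real.log_mul (by positivity) (by positivity),
        Real.log_pow, Real.log_pow, hF, hDd]
      push_cast
      ring
    · intro i _
      have := PRaux.sc_pos n h 1 i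
      have h8 : (0 : ℝ) < (sc n h 1 i : ℝ) := by exact_mod_cast this
      positivity
  rw [sum_div_modR h m (by omega) (fun a j => 2 * (((h - a : ℕ) : ℝ) * F +
      ((h - a + 2 : ℕ) : ℝ) * D - Real.log ((2 * j).factorial : ℝ)))] at e1
  obtain ⟨G, hG⟩ : ∃ G, ∑ j ∈ Finset.range m, Real.log ((2 * j).factorial : ℝ) = G := ⟨_, rfl⟩
  have e2 : ∑ a ∈ Finset.range h, ∑ j ∈ Finset.range m, 2 * (((h - a : ℕ) : ℝ) * F +
      ((h - a + 2 : ℕ) : ℝ) * D - Real.log ((2 * j).factorial : ℝ)) =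
      m * (h * (h + 1)) * F + (m * (h * (h + 1)) + 4 * m * h) * D - 2 * h * G := by
    have h6 : ∀ a ∈ Finset.range h, ∑ j ∈ Finset.range m, 2 * (((h - a : ℕ) : ℝ) * F +
      ((h - a + 2 : ℕ) : ℝ) * D - Real.log ((2 * j).factorial : ℝ)) =
        (2 * m * (F + D)) * ((h : ℝ) - a) + (4 * m * D - 2 * G) := by
      intro a ha
      rw [Finset.mem_range] at ha
      rw [← Finset.mul_sum, Finset.sum_sub_distrib, Finset.sum_const, Finset.card_range, nsmul_eq_mul, hG]
      push_cast [ha.le]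
      ring
    rw [Finset.sum_congr rfl h6, Finset.sum_add_distrib, ← Finset.mul_sum, Finset.sum_const,
      Finset.card_range, nsmul_eq_mul]
    have h7 : 2 * ∑ a ∈ Finset.range h, ((h : ℝ) - a) = h * (h + 1) := by
      have : ∀ H : ℕ, 2 * ∑ a ∈ Finset.range H, ((H : ℝ) - a) = H * (H + 1) := by
        intro H
        induction H with
        | zero => simp
        | succ H ih =>
          rw [Finset.sum_range_succ']
          have h6 : ∀ a : ℕ, (((H + 1 : ℕ) : ℝ) - ((a + 1 : ℕ) : ℝ)) = (H : ℝ) - a := by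
            intro a; push_cast; ring
          simp only [h6]
          rw [mul_add, ih]
          push_cast
          ring
      exact this h
    have h8 : (2 * m * (F + D)) * ∑ a ∈ Finset.range h, ((h : ℝ) - a) = m * (F + D) * (h * (h + 1)) := by
      calc _ = (m * (F + D)) * (2 * ∑ a ∈ Finset.range h, ((h : ℝ) - a)) := by ring
        _ = _ := by rw [h7]
    rw [h8]
    ring
  rw [e2] at e1
  -- the factorials
  have e3 : (m : ℝ) ^ 2 * Real.log (2 * m) - (m : ℝ) ^ 2 / 2 - m * (Real.log (2 * m) + 3) - m * (m - 1) ≤ G := by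
    have h6 : ∑ j ∈ Finset.range m, ((2 * (j : ℝ)) * Real.log (2 * j) - 2 * j) ≤ G := by
      rw [← hG]
      apply Finset.sum_le_sum
      intro j _
      have := si_fact_ge (2 * j)
      push_cast at this
      exact this
    rw [Finset.sum_sub_distrib] at h6
    have h7 : ∑ j ∈ Finset.range m, 2 * (j : ℝ) = m * (m - 1) := by
      have : ∀ H : ℕ, ∑ j ∈ Finset.range H, 2 * (j : ℝ) = H * (H - 1) := by
        intro H
        induction H with
        | zero => simp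
        | succ H ih => rw [Finset.sum_range_succ, ih]; push_cast; ring
      exact this m
    rw [h7] at h6
    have h8 := sum_xlog m hm1
    linarith
  rw [← hnm'] at e3
  obtain ⟨l, hl⟩ : ∃ l, Real.log (n : ℝ) = l := ⟨_, rfl⟩
  rw [hl] at e3 hFle hL ⊢
  have hl0 : 0 ≤ l := by rw [← hl]; exact Real.log_nonneg (by linarith [show (1 : ℝ) ≤ m by exact_mod_cast hm1])
  rw [e1]
  have hmn : (m : ℝ) = n / 2 := by linarith
  rw [hmn] at e3 ⊢
  have k1 : (n : ℝ) / 2 * (h * (h + 1)) * F ≤ (n : ℝ) / 2 * (h * (h + 1)) * (n * l - n + l + 1) :=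
    mul_le_mul_of_nonneg_left hFle (by positivity)
  have k2 : ((n : ℝ) / 2 * (h * (h + 1)) + 4 * (n / 2) * h) * D ≤
      ((n : ℝ) / 2 * (h * (h + 1)) + 4 * (n / 2) * h) * ((1 + δ') * n) :=
    mul_le_mul_of_nonneg_left hD (by positivity)
  have k3 := mul_le_mul_of_nonneg_left e3 (by positivity : (0 : ℝ) ≤ 2 * h)
  have k4 : δ = δ' * (4 * (h * (h + 1) + 4 * h)) := by
    rw [hδ']; field_simp
  have k5 : (n : ℝ) / 2 * (h * (h + 1)) * (l + 1) ≤ (n : ℝ) / 2 * (h * (h + 1)) * (2 * δ' * n) :=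
    mul_le_mul_of_nonneg_left (by linarith) (by positivity)
  have k6 : (h : ℝ) * n * (l + 3) ≤ h * n * (2 * δ' * n) :=
    mul_le_mul_of_nonneg_left (by linarith) (by positivity)
  rw [k4]
  have k7 : 0 ≤ δ' * ((n : ℝ) ^ 2 * h) := by positivity
  have k8 : 0 ≤ δ' * ((n : ℝ) ^ 2 * h ^ 2) := by positivity
  have k9 : 0 ≤ (h : ℝ) * n := by positivity
  nlinarith

/-- the arithmetic part -/
theorem t_A (h : ℕ) (hh : 1 ≤ h) : S_A h (-3 / 8 + 3 / (8 * h)) := by
  intro ε hε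
  have hh0 : (1 : ℝ) ≤ h := by exact_mod_cast hh
  obtain ⟨J, hJ⟩ : ∃ J : ℕ, (h : ℝ) ^ 2 / 4 + 9 * h / 4 ≤ ε / 3 * J := by
    obtain ⟨J, hJ⟩ := exists_nat_ge (((h : ℝ) ^ 2 / 4 + 9 * h / 4) / (ε / 3))
    refine ⟨J, ?_⟩
    rw [div_le_iff₀ (by positivity)] at hJ
    linarith
  have h1 := log_GX h (J + 1) (by omega) (ε / 3) (by positivity)
  have h2 := log_SC h hh (ε / 3) (by positivity)
  obtain ⟨n1, hn1⟩ := eventually_atTop.1 (h1.and h2)
  refine ⟨n1 + (J + 2) ^ 2 + 2, fun n hn h10 => ?_⟩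
  have he : Even n := by
    obtain ⟨c, rfl⟩ := h10
    exact ⟨5 * c, by ring⟩
  refine ⟨XX h n (J + 1), XX_pos h n (J + 1), ?_, ?_⟩
  · obtain ⟨g1, g2⟩ := hn1 n (by omega)
    have g2 := g2 he
    unfold XX
    have p1 : (0 : ℝ) < (SC n h : ℝ) := by exact_mod_cast SC_pos n h
    have p2 : (0 : ℝ) < (GX h n (J + 1) : ℝ) := by exact_mod_cast GX_pos h n (J + 1)
    push_cast
    rw [Real.log_mul p1.ne' p2.ne']
    have g3 : ((h : ℝ) ^ 2 / 4 + 9 * h / 4) / ((((J + 1 : ℕ) : ℝ)) + 1) ≤ ε / 3 := by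
      rw [div_le_iff₀ (by positivity)]
      push_cast
      nlinarith
    have g4 : (0 : ℝ) ≤ (n : ℝ) ^ 2 := by positivity
    have g5 : ((1 : ℝ) / 2 * Real.log n * (h : ℝ) ^ 2 + (11 / 4) * h + ε / 3) * (n : ℝ) ^ 2 +
        (ε / 3 - ((3 / 8) * (h : ℝ) ^ 2 + (19 / 8) * h - ((h : ℝ) ^ 2 / 4 + 9 * h / 4) / ((((J + 1 : ℕ) : ℝ)) + 1))) * (n : ℝ) ^ 2 ≤
        (-3 / 8 + 3 / (8 * h) + ε + 1 / 2 * Real.log n) * ((h : ℝ) * n) ^ 2 := by
      have g6 : (-3 / 8 + 3 / (8 * h) + ε + 1 / 2 * Real.log n) * ((h : ℝ) * n) ^ 2 =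
          (1 / 2 * Real.log n * (h : ℝ) ^ 2 - (3 / 8) * (h : ℝ) ^ 2 + (3 / 8) * h + ε * (h : ℝ) ^ 2) * (n : ℝ) ^ 2 := by
        field_simp
        ring
      rw [g6, ← add_mul]
      apply mul_le_mul_of_nonneg_right _ g4
      have g7 : ε ≤ ε * (h : ℝ) ^ 2 := le_mul_of_one_le_right hε.le (one_le_pow₀ hh0)
      linarith
    linarith
  · intro K _ _ _ z q hq hz hne
    refine norm_ge K n h (J + 1) z q hq hz (by omega) he hh ?_ hne
    have : (J + 1 + 1) ^ 2 = (J + 2) ^ 2 := by ring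
    omega

end

end Pool.Agent.P8H2
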