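import Pool.Agent.P8H2.TC

/-!
# The size of the real determinant
-/

open Polynomial Pool.Agent.H337R2 Pool.Agent.W165.OZ Filter Topology

namespace Pool.Agent.P8H2

noncomputable section

/-- the exponential rate -/
def tt (h : ℕ) : ℝ :=
  -(((h : ℝ) / 2) ^ 2 * Real.log ((h : ℝ) / 2) - (5 / 2) * ((h : ℝ) / 2) ^ 2 +
    (1 + (h : ℝ) / 2) ^ 2 * Real.log (1 + (h : ℝ) / 2) - (1 / 2) * (1 + (h : ℝ) / 2) ^ 2 + 1 / 2) / (h : ℝ) ^ 2
  - Real.log (9 / 4) / 12

/-- the product bound, in logarithmic form, with an additional gain `g j` in every row -/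
theorem log_DH_le (n h : ℕ) (hn2 : 2 ≤ n) (he : Even n) (hh : 1 ≤ h) (g : ℕ → ℝ)
    (hrow : ∀ j < h * n / 2, Real.log (Lf (mu n h) (Qn n j * Qn n j)) ≤
      Real.log CC + ej (h * n / 2) j * Real.log (4 / 9) -
        2 * (((h * n / 2 : ℕ) : ℝ) - 1 - j) * Real.log (yu n j) - g j) :
    Real.log (DH (mu n h) (h * n / 2)) ≤
      ((h * n / 2 : ℕ) : ℝ) * Real.log CC - Real.log (9 / 4) * ((((h * n / 2 : ℕ) : ℝ)) ^ 2 / 3 - ((h * n / 2 : ℕ) : ℝ))
      - 2 * (∑ j ∈ Finset.range (h * n / 2), (((h * n / 2 : ℕ) : ℝ) - 1 - j) * Real.log ((j : ℝ) + 1))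
      - 2 * (∑ j ∈ Finset.range (h * n / 2), (((h * n / 2 : ℕ) : ℝ) - 1 - j) * Real.log ((j : ℝ) + 1 + n))
      - ∑ j ∈ Finset.range (h * n / 2), g j := by
  obtain ⟨t1, t2⟩ := T0 n h hn2 he hh (h * n / 2) (Nat.mul_div_le _ _) (Qn n) (Qn_monic n) (Qn_natDegree n)
  have hr1 : 1 ≤ h * n / 2 := by
    have : 1 * 2 ≤ h * n := Nat.mul_le_mul hh hn2
    omega
  obtain ⟨r, hr⟩ : ∃ r, h * n / 2 = r := ⟨_, rfl⟩
  rw [hr] at t1 t2 hrow hr1 ⊢
  have hN : 2 * r ≤ h * n := by rw [← hr]; exact Nat.mul_div_le _ _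
  have hpos : ∀ j ∈ Finset.range r, 0 < Lf (mu n h) (Qn n j * Qn n j) := by
    intro j hj
    rw [Finset.mem_range] at hj
    -- positivity from the summation formula
    have hdeg : (Qn n j * Qn n j).natDegree + 2 ≤ h * n := by
      have := Polynomial.natDegree_mul_le (p := Qn n j) (q := Qn n j)
      rw [Qn_natDegree] at this
      omega
    have hs := Lf_hasSum n h hn2 he hh (Qn n j * Qn n j) hdeg
    have hnn : ∀ u, 0 ≤ Ru n h u * (Qn n j * Qn n j).eval (yu n u) := by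
      intro u
      rw [Polynomial.eval_mul]
      exact mul_nonneg (Ru_pos n h u (by omega)).le (mul_self_nonneg _)
    have hne : (Qn n j).eval (yu n j) ≠ 0 := by
      rw [Qn_eval, Finset.prod_ne_zero_iff]
      intro v hv
      rw [Finset.mem_range] at hv
      have := yu_strictMono n (by omega) hv
      linarith
    have h2 := hs.summable.tsum_pos hnn j (by
      rw [Polynomial.eval_mul]
      exact mul_pos (Ru_pos n h j (by omega)) (mul_self_pos.2 hne))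
    rw [hs.tsum_eq] at h2
    exact h2
  have h1 : Real.log (DH (mu n h) r) ≤ ∑ j ∈ Finset.range r, Real.log (Lf (mu n h) (Qn n j * Qn n j)) := by
    rw [← Real.log_prod (fun j hj => (hpos j hj).ne')]
    exact Real.log_le_log t1 t2
  have h2 : ∑ j ∈ Finset.range r, Real.log (Lf (mu n h) (Qn n j * Qn n j)) ≤
      ∑ j ∈ Finset.range r, (Real.log CC - Real.log (9 / 4) * ej r j -
        2 * (((r : ℝ) - 1 - j) * Real.log ((j : ℝ) + 1)) - 2 * (((r : ℝ) - 1 - j) * Real.log ((j : ℝ) + 1 + n)) - g j) := by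
    apply Finset.sum_le_sum
    intro j hj
    rw [Finset.mem_range] at hj
    refine (hrow j hj).trans ?_
    have e1 : Real.log (4 / 9 : ℝ) = -Real.log (9 / 4) := by
      rw [← Real.log_inv]; norm_num
    have e2 : Real.log ((j : ℝ) + 1) + Real.log ((j : ℝ) + 1 + n) ≤ Real.log (yu n j) := by
      rw [yu_eq, Real.log_mul (by positivity) (by positivity)]
      apply add_le_add
      · apply Real.log_le_log (by positivity)
        linarith
      · apply Real.log_le_log (by positivity)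
        linarith
    have e3 : (0 : ℝ) ≤ (r : ℝ) - 1 - j := by
      have : ((j + 1 : ℕ) : ℝ) ≤ r := by exact_mod_cast hj
      push_cast at this
      linarith
    rw [e1]
    have := mul_le_mul_of_nonneg_left e2 e3
    nlinarith
  refine h1.trans (h2.trans ?_)
  rw [Finset.sum_sub_distrib, Finset.sum_sub_distrib, Finset.sum_sub_distrib, Finset.sum_sub_distrib,
    Finset.sum_const, Finset.card_range, nsmul_eq_mul, ← Finset.mul_sum, ← Finset.mul_sum, ← Finset.mul_sum]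
  have h3 := ej_sum r hr1
  have h4 : 0 ≤ Real.log (9 / 4 : ℝ) := Real.log_nonneg (by norm_num)
  have := mul_le_mul_of_nonneg_left h3 h4
  linarith

/-- the rate without the gain -/
theorem rate (h : ℕ) (hh : 1 ≤ h) (δ : ℝ) (hδ : 0 < δ) : ∀ᶠ n : ℕ in atTop, Even n →
      ((h * n / 2 : ℕ) : ℝ) * Real.log CC - Real.log (9 / 4) * ((((h * n / 2 : ℕ) : ℝ)) ^ 2 / 3 - ((h * n / 2 : ℕ) : ℝ))
      - 2 * (∑ j ∈ Finset.range (h * n / 2), (((h * n / 2 : ℕ) : ℝ) - 1 - j) * Real.log ((j : ℝ) + 1))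
      - 2 * (∑ j ∈ Finset.range (h * n / 2), (((h * n / 2 : ℕ) : ℝ) - 1 - j) * Real.log ((j : ℝ) + 1 + n)) ≤
      (tt h + δ - (1 / 2) * Real.log n) * ((h : ℝ) * n) ^ 2 := by
  have hh0 : (1 : ℝ) ≤ h := by exact_mod_cast hh
  obtain ⟨J, hJ⟩ : ∃ J : ℝ, J = (h : ℝ) / 2 := ⟨_, rfl⟩
  have hJ0 : 0 < J := by rw [hJ]; linarith
  obtain ⟨W, hW⟩ : ∃ W : ℝ, W = 1 + J := ⟨_, rfl⟩
  have hW0 : 0 < W := by linarith
  obtain ⟨C1, hC1⟩ : ∃ C1 : ℝ, C1 = |J * (Real.log CC + Real.log (9 / 4) + 2 * Real.log J + 8) + 2 * W * (Real.log W + 3)| + 1 := ⟨_, rfl⟩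
  obtain ⟨C2, hC2⟩ : ∃ C2 : ℝ, C2 = 4 * J + 2 * W := ⟨_, rfl⟩
  have hC10 : 0 < C1 := by rw [hC1]; positivity
  have hC20 : 0 < C2 := by rw [hC2]; positivity
  have h3 : Tendsto (fun x : ℝ => Real.log x / x ^ (1 : ℝ)) atTop (𝓝 0) :=
    (isLittleO_log_rpow_atTop (by norm_num)).tendsto_div_nhds_zero
  have h4 : Tendsto (fun n : ℕ => Real.log (n : ℝ) / (n : ℝ) ^ (1 : ℝ)) atTop (𝓝 0) :=
    h3.comp tendsto_natCast_atTop_atTop
  have h5 := h4.eventually (eventually_lt_nhds (show (0 : ℝ) < δ / (2 * C2) by positivity))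
  obtain ⟨N, hN⟩ : ∃ N : ℕ, 2 * C1 / δ ≤ N := exists_nat_ge _
  filter_upwards [h5, eventually_ge_atTop 2, eventually_ge_atTop N] with n hL hn2 hnN he
  have hn0 : (0 : ℝ) < n := by
    have : 0 < n := by omega
    exact_mod_cast this
  have hn1 : (2 : ℝ) ≤ n := by exact_mod_cast hn2
  rw [Real.rpow_one, div_lt_iff₀ hn0] at hL
  have hL1 : C1 ≤ δ / 2 * n := by
    have : 2 * C1 / δ ≤ n := hN.trans (by exact_mod_cast hnN)
    rw [div_le_iff₀ hδ] at this
    linarith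
  have hL2 : C2 * Real.log n ≤ δ / 2 * n := by
    have := mul_le_mul_of_nonneg_left hL.le hC20.le
    calc C2 * Real.log n ≤ C2 * (δ / (2 * C2) * n) := this
      _ = δ / 2 * n := by field_simp
  have hr1 : 1 ≤ h * n / 2 := by
    have : 1 * 2 ≤ h * n := Nat.mul_le_mul hh hn2
    omega
  have hrr : ((h * n / 2 : ℕ) : ℝ) = J * n := by
    obtain ⟨m, hm⟩ := he
    have : h * n / 2 = h * m := by
      have : h * n = h * m * 2 := by rw [hm]; ring
      rw [this, Nat.mul_div_cancel _ (by norm_num)]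
    rw [this, hJ, hm]
    push_cast
    ring
  have b0 := Bsum_ge0 (h * n / 2) hr1
  have b1 := Bsum_ge n (h * n / 2) (by omega) hr1
  rw [hrr] at b0 b1 ⊢
  have l1 : Real.log (J * n) = Real.log n + Real.log J := by
    rw [Real.log_mul hJ0.ne' hn0.ne']; ring
  have l2 : Real.log ((n : ℝ) + J * n) = Real.log n + Real.log W := by
    rw [hW, ← Real.log_mul hn0.ne' (by linarith)]
    congr 1; ring
  rw [l1] at b0
  rw [l2] at b1
  obtain ⟨l, hl⟩ : ∃ l, Real.log (n : ℝ) = l := ⟨_, rfl⟩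
  rw [hl] at b0 b1 hL2 ⊢
  obtain ⟨S1, hS1⟩ : ∃ S1, ∑ j ∈ Finset.range (h * n / 2), (J * n - 1 - (j : ℝ)) * Real.log ((j : ℝ) + 1) = S1 := ⟨_, rfl⟩
  obtain ⟨S2, hS2⟩ : ∃ S2, ∑ j ∈ Finset.range (h * n / 2), (J * n - 1 - (j : ℝ)) * Real.log ((j : ℝ) + 1 + n) = S2 := ⟨_, rfl⟩
  rw [hS1] at b0 ⊢
  rw [hS2] at b1 ⊢
  obtain ⟨LJ, hLJ⟩ : ∃ LJ, Real.log J = LJ := ⟨_, rfl⟩
  obtain ⟨LW, hLW⟩ : ∃ LW, Real.log W = LW := ⟨_, rfl⟩
  obtain ⟨L9, hL9⟩ : ∃ L9, Real.log (9 / 4 : ℝ) = L9 := ⟨_, rfl⟩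
  obtain ⟨LC, hLC⟩ : ∃ LC, Real.log CC = LC := ⟨_, rfl⟩
  have ht : tt h * ((h : ℝ) * n) ^ 2 = -(J ^ 2 * LJ - (5 / 2) * J ^ 2 + W ^ 2 * LW - (1 / 2) * W ^ 2 + 1 / 2) * (n : ℝ) ^ 2
      - L9 / 3 * J ^ 2 * (n : ℝ) ^ 2 := by
    unfold tt
    rw [← hJ, ← hW, hLJ, hLW, hL9]
    have : (h : ℝ) = 2 * J := by rw [hJ]; ring
    rw [this]
    field_simp
    ring
  rw [hLJ, hL9, hLC, hLW] at hC1
  rw [hLJ] at b0
  rw [hLW] at b1
  rw [hL9, hLC]
  have hsplit : (tt h + δ - 1 / 2 * l) * ((h : ℝ) * n) ^ 2 = tt h * ((h : ℝ) * n) ^ 2 + δ * ((h : ℝ) * n) ^ 2 -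
      2 * J ^ 2 * (n : ℝ) ^ 2 * l := by
    have : (h : ℝ) = 2 * J := by rw [hJ]; ring
    rw [this]
    ring
  rw [hsplit, ht]
  have k1 : J * (LC + L9 + 2 * LJ + 8) + 2 * W * (LW + 3) ≤ C1 - 1 := by
    rw [hC1]
    have := le_abs_self (J * (LC + L9 + 2 * LJ + 8) + 2 * W * (LW + 3))
    linarith
  have k2 : (n : ℝ) * (J * (LC + L9 + 2 * LJ + 8) + 2 * W * (LW + 3) + C2 * l) + 1 / 2 ≤ δ * ((h : ℝ) * n) ^ 2 := by
    have m1 : (n : ℝ) * (J * (LC + L9 + 2 * LJ + 8) + 2 * W * (LW + 3) + C2 * l) + 1 / 2 ≤ n * (C1 + C2 * l) := by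
      have := mul_le_mul_of_nonneg_left k1 hn0.le
      rw [mul_add, mul_add (n : ℝ) C1, mul_sub] at *
      linarith
    have m2 : (n : ℝ) * (C1 + C2 * l) ≤ n * (δ * n) := mul_le_mul_of_nonneg_left (by linarith) hn0.le
    have m3 : (1 : ℝ) ≤ (h : ℝ) ^ 2 := one_le_pow₀ hh0
    have m4 : δ * (n : ℝ) ^ 2 ≤ δ * (n : ℝ) ^ 2 * (h : ℝ) ^ 2 := le_mul_of_one_le_right (by positivity) m3
    have m5 : δ * ((h : ℝ) * n) ^ 2 = δ * (n : ℝ) ^ 2 * (h : ℝ) ^ 2 := by ring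
    have m6 : (n : ℝ) * (δ * n) = δ * (n : ℝ) ^ 2 := by ring
    rw [m5]
    rw [m6] at m2
    linarith
  have hW' : W = 1 + J := hW
  rw [hC2] at k2
  rw [hW'] at k2 ⊢
  linarith

/-- T, the simple form -/
theorem t_T (h : ℕ) (hh : 1 ≤ h) : S_T h (tt h) := by
  intro ε hε
  obtain ⟨n1, hn1⟩ := eventually_atTop.1 (rate h hh ε hε)
  refine ⟨n1 + 2, fun n hn h10 => ?_⟩
  have he : Even n := by
    obtain ⟨c, rfl⟩ := h10
    exact ⟨5 * c, by ring⟩
  have hn2 : 2 ≤ n := by omega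
  have hpos := (T0 n h hn2 he hh (h * n / 2) (Nat.mul_div_le _ _) (Qn n) (Qn_monic n) (Qn_natDegree n)).1
  refine ⟨hpos, ?_⟩
  have h1 := log_DH_le n h hn2 he hh (fun _ => 0) (by
    intro j hj
    have hN : 2 * (h * n / 2) ≤ h * n := Nat.mul_div_le _ _
    have hN2 : h * n = 2 * (h * n / 2) := by
      obtain ⟨m, hm⟩ := he
      have : h * n = 2 * (h * m) := by rw [hm]; ring
      omega
    obtain ⟨r, hr⟩ : ∃ r, h * n / 2 = r := ⟨_, rfl⟩
    rw [hr] at hj hN2 ⊢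
    have hb := row1 n h j (ej r j) hn2 he hh (min_le_left _ _) (by
      have : ej r j ≤ 2 * (r - 1 - j) := min_le_right _ _
      omega)
    have hy := yu_pos n j
    have hCC := CC_pos
    have hlpos : 0 < Lf (mu n h) (Qn n j * Qn n j) := by
      have hdeg : (Qn n j * Qn n j).natDegree + 2 ≤ h * n := by
        have := Polynomial.natDegree_mul_le (p := Qn n j) (q := Qn n j)
        rw [Qn_natDegree] at this
        omega
      have hs := Lf_hasSum n h hn2 he hh (Qn n j * Qn n j) hdeg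
      have hnn : ∀ u, 0 ≤ Ru n h u * (Qn n j * Qn n j).eval (yu n u) := by
        intro u
        rw [Polynomial.eval_mul]
        exact mul_nonneg (Ru_pos n h u (by omega)).le (mul_self_nonneg _)
      have hne : (Qn n j).eval (yu n j) ≠ 0 := by
        rw [Qn_eval, Finset.prod_ne_zero_iff]
        intro v hv
        rw [Finset.mem_range] at hv
        have := yu_strictMono n (by omega) hv
        linarith
      have h2 := hs.summable.tsum_pos hnn j (by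
        rw [Polynomial.eval_mul]
        exact mul_pos (Ru_pos n h j (by omega)) (mul_self_pos.2 hne))
      rw [hs.tsum_eq] at h2
      exact h2
    have h3 := Real.log_le_log hlpos hb
    rw [Real.log_mul hCC.ne' (by positivity), Real.log_div (by positivity) (by positivity), Real.log_pow, Real.log_pow] at h3
    have e1 : ((h * n - 2 * j - 2 : ℕ) : ℝ) = 2 * ((r : ℝ) - 1 - j) := by
      rw [hN2]
      rw [show 2 * r - 2 * j - 2 = 2 * (r - 1 - j) by omega]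
      push_cast [Nat.cast_sub (show j ≤ r - 1 by omega), Nat.cast_sub (show 1 ≤ r by omega)]
      ring
    rw [e1] at h3
    linarith)
  rw [Finset.sum_const_zero, sub_zero] at h1
  have h2 := hn1 n (by omega) he
  have h3 := h1.trans h2
  have h4 : DH (mu n h) (h * n / 2) = Real.exp (Real.log (DH (mu n h) (h * n / 2))) := (Real.exp_log hpos).symm
  change DH (mu n h) (h * n / 2) ≤ _
  rw [h4]
  exact Real.exp_le_exp.2 h3

end

end Pool.Agent.P8H2
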