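import Pool.Agent.P8H2.MA
import Pool.Agent.P8H2.TD
import Pool.Agent.P8H2.PB9
import Pool.Agent.P8H2.PL

/-!
# The degree of the field generated by odd zeta values: conclusion
-/

open Pool.Agent.H337R2 Pool.Agent.W165.OZ

namespace Pool.Agent.P8H2

noncomputable section

/-- the lower bound for the degree in terms of the rates -/
lemma deg_ge (h : ℕ) (hh : 1 ≤ h) (t c : ℝ) (hT : S_T h t) (hP : S_P h c) (hca : 0 ≤ c + (-3 / 8 + 3 / (8 * h)))
    (K : IntermediateField ℚ ℝ) [FiniteDimensional ℚ K]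
    (hz : ∀ i : ℕ, 3 ≤ i → i ≤ 2 * h → Odd i → zr i ∈ K) :
    0 ≤ t + (-3 / 8 + 3 / (8 * h)) + ((Module.finrank ℚ K : ℝ) - 1) * (c + (-3 / 8 + 3 / (8 * h))) := by
  by_contra hneg
  push Not at hneg
  obtain ⟨i, h3, hi, ho, hy⟩ := main_ineq h (Module.finrank ℚ K) hh Module.finrank_pos t c _ hT hP (t_A h hh) hca hneg
    K K.val le_rfl
  exact hy ⟨zr i, hz i h3 hi ho⟩ rfl

/-! ### The rate `tt` -/

lemma tt_le (h : ℕ) (hh : 2 ≤ h) :
    tt h ≤ -(Real.log ((h : ℝ) / 2) / 2 + Real.log ((h : ℝ) / 2) / h + Real.log ((h : ℝ) / 2) / (h : ℝ) ^ 2) +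
      0.68243 := by
  have hr : (2 : ℝ) ≤ h := by exact_mod_cast hh
  have hJ : (1 : ℝ) ≤ (h : ℝ) / 2 := by linarith
  have hl : 0 ≤ Real.log ((h : ℝ) / 2) := Real.log_nonneg hJ
  have h1 : Real.log (1 + (h : ℝ) / 2) = Real.log ((h : ℝ) / 2) + Real.log (1 + 2 / h) := by
    rw [← Real.log_mul (by positivity) (by positivity)]
    congr 1
    field_simp
    ring
  have h2 : 2 * (2 / (h : ℝ)) / (2 / h + 2) ≤ Real.log (1 + 2 / h) :=
    Real.le_log_one_add_of_nonneg (show (0 : ℝ) ≤ 2 / h by positivity)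
  have h3 : 2 * (2 / (h : ℝ)) / (2 / h + 2) = 2 / (h + 1) := by
    field_simp
    ring
  rw [h3] at h2
  have h4 : 0.81093 ≤ Real.log (9 / 4) := by
    have e : Real.log (9 / 4) = 2 * Real.log 3 - 2 * Real.log 2 := by
      rw [Real.log_div (by norm_num) (by norm_num), show (9 : ℝ) = 3 ^ 2 by norm_num,
        show (4 : ℝ) = 2 ^ 2 by norm_num, Real.log_pow, Real.log_pow]
      push_cast
      ring
    rw [e]
    have := Real.log_three_gt_d9
    have := Real.log_two_lt_d9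
    linarith
  have h5 : ((h : ℝ) + 3) / 2 ≤ (1 + (h : ℝ) / 2) ^ 2 * Real.log (1 + 2 / h) := by
    have h6 : (1 + (h : ℝ) / 2) ^ 2 * (2 / (h + 1)) ≤ (1 + (h : ℝ) / 2) ^ 2 * Real.log (1 + 2 / h) :=
      mul_le_mul_of_nonneg_left h2 (by positivity)
    refine le_trans ?_ h6
    rw [mul_div_assoc', le_div_iff₀ (by positivity)]
    nlinarith
  unfold tt
  rw [h1]
  set l := Real.log ((h : ℝ) / 2) with hldef
  have h7 : l / 2 + l / h + l / (h : ℝ) ^ 2 - 3 / 4 ≤ (((h : ℝ) / 2) ^ 2 * l - (5 / 2) * ((h : ℝ) / 2) ^ 2 +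
    (1 + (h : ℝ) / 2) ^ 2 * (l + Real.log (1 + 2 / h)) - (1 / 2) * (1 + (h : ℝ) / 2) ^ 2 + 1 / 2) / (h : ℝ) ^ 2 := by
    rw [le_div_iff₀ (by positivity)]
    have e : (l / 2 + l / h + l / (h : ℝ) ^ 2 - 3 / 4) * (h : ℝ) ^ 2 = l * ((h : ℝ) ^ 2 / 2 + h + 1) - 3 / 4 * (h : ℝ) ^ 2 := by
      field_simp
    rw [e]
    nlinarith
  rw [neg_div]
  linarith

/-! ### The general bound -/

lemma gnum (h : ℕ) (hh : 2 ≤ h) :
    0.0466 < 0.01125 * Real.log ((h : ℝ) / 2) + (0.48125 * Real.log ((h : ℝ) / 2) + 0.146) / h := by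
  have hr : (2 : ℝ) ≤ h := by exact_mod_cast hh
  have hpos : (0 : ℝ) < h := by linarith
  have key : ∀ a b l0 : ℝ, 1 ≤ a → l0 ≤ Real.log a → a ≤ (h : ℝ) / 2 → 0 ≤ l0 → (h : ℝ) ≤ b → 0 < b →
      0.0466 * b < 0.01125 * l0 * b + (0.48125 * l0 + 0.146) →
      0.0466 < 0.01125 * Real.log ((h : ℝ) / 2) + (0.48125 * Real.log ((h : ℝ) / 2) + 0.146) / h := by
    intro a b l0 ha hl0 hah hl00 hb hb0 hx
    have h1 : l0 ≤ Real.log ((h : ℝ) / 2) := hl0.trans (Real.log_le_log (by linarith) hah)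
    have h2 : (0.48125 * l0 + 0.146) / b ≤ (0.48125 * Real.log ((h : ℝ) / 2) + 0.146) / h :=
      div_le_div₀ (by linarith) (by linarith) hpos hb
    have h3 : 0.0466 < 0.01125 * l0 + (0.48125 * l0 + 0.146) / b := by
      rw [← sub_pos]
      have e : 0.01125 * l0 + (0.48125 * l0 + 0.146) / b - 0.0466 =
          (0.01125 * l0 * b + (0.48125 * l0 + 0.146) - 0.0466 * b) / b := by
        field_simp
      rw [e]
      exact div_pos (by linarith) hb0
    linarith
  have l2 := Real.log_two_gt_d9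
  have l3 := Real.log_three_gt_d9
  have l2' := Real.log_two_lt_d9
  rcases le_or_gt h 3 with c1 | c1
  · have : (h : ℝ) ≤ 3 := by exact_mod_cast c1
    exact key 1 3 0 le_rfl (by simp) (by linarith) le_rfl this (by norm_num) (by norm_num)
  rcases le_or_gt h 8 with c2 | c2
  · have u : (h : ℝ) ≤ 8 := by exact_mod_cast c2
    have v : (4 : ℝ) ≤ h := by exact_mod_cast c1
    exact key 2 8 0.69 (by norm_num) (by linarith) (by linarith) (by norm_num) u (by norm_num) (by norm_num)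
  rcases le_or_gt h 26 with c3 | c3
  · have u : (h : ℝ) ≤ 26 := by exact_mod_cast c3
    have v : (9 : ℝ) ≤ h := by exact_mod_cast c2
    refine key 4 26 1.38 (by norm_num) ?_ (by linarith) (by norm_num) u (by norm_num) (by norm_num)
    rw [show (4 : ℝ) = 2 ^ 2 by norm_num, Real.log_pow]
    push_cast
    linarith
  rcases le_or_gt h 77 with c4 | c4
  · have u : (h : ℝ) ≤ 77 := by exact_mod_cast c4
    have v : (27 : ℝ) ≤ h := by exact_mod_cast c3
    refine key (27 / 2) 77 2.6 (by norm_num) ?_ (by linarith) (by norm_num) u (by norm_num) (by norm_num)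
    rw [show (27 / 2 : ℝ) = 3 ^ 3 / 2 by norm_num, Real.log_div (by norm_num) (by norm_num), Real.log_pow]
    push_cast
    linarith
  rcases le_or_gt h 290 with c5 | c5
  · have u : (h : ℝ) ≤ 290 := by exact_mod_cast c5
    have v : (78 : ℝ) ≤ h := by exact_mod_cast c4
    refine key 36 290 3.58 (by norm_num) ?_ (by linarith) (by norm_num) u (by norm_num) (by norm_num)
    rw [show (36 : ℝ) = 2 ^ 2 * 3 ^ 2 by norm_num, Real.log_mul (by norm_num) (by norm_num), Real.log_pow,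
      Real.log_pow]
    push_cast
    linarith
  · have v : (291 : ℝ) ≤ h := by exact_mod_cast c5
    have h1 : 4.15 ≤ Real.log ((h : ℝ) / 2) := by
      refine le_trans ?_ (Real.log_le_log (show (0 : ℝ) < 72 by norm_num) (by linarith : (72 : ℝ) ≤ (h : ℝ) / 2))
      rw [show (72 : ℝ) = 2 ^ 3 * 3 ^ 2 by norm_num, Real.log_mul (by norm_num) (by norm_num), Real.log_pow,
        Real.log_pow]
      push_cast
      linarith
    have h2 : 0 < (0.48125 * Real.log ((h : ℝ) / 2) + 0.146) / h := div_pos (by linarith) hpos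
    linarith

/-- the general lower bound for the degree -/
theorem deg_gen (h : ℕ) (hh : 2 ≤ h) (K : IntermediateField ℚ ℝ) [FiniteDimensional ℚ K]
    (hz : ∀ i : ℕ, 3 ≤ i → i ≤ 2 * h → Odd i → zr i ∈ K) :
    (5 / 4) * Real.log (2 * h - 1) - 7 / 5 < (Module.finrank ℚ K : ℝ) := by
  have hr : (2 : ℝ) ≤ h := by exact_mod_cast hh
  have hpos : (0 : ℝ) < h := by linarith
  have hca : 0 ≤ (383 / 500 + 1 / (25 * (h : ℝ))) + (-3 / 8 + 3 / (8 * h)) := by
    have : 0 ≤ 1 / (25 * (h : ℝ)) := by positivity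
    have : 0 ≤ 3 / (8 * (h : ℝ)) := by positivity
    linarith
  have h1 := deg_ge h (by omega) (tt h) _ (t_T h (by omega)) (sp h (by omega)) hca K hz
  set D : ℝ := (Module.finrank ℚ K : ℝ) with hD
  set l := Real.log ((h : ℝ) / 2) with hl
  have hl0 : 0 ≤ l := Real.log_nonneg (by linarith)
  have h2 := tt_le h hh
  have h3 := gnum h hh
  rw [← hl] at h2 h3
  by_contra hcon
  push Not at hcon
  -- the logarithm of `2 h - 1`
  have h4 : Real.log (2 * h - 1) ≤ l + 1.386295 - 1 / (2 * h) := by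
    have e1 : Real.log (2 * (h : ℝ) - 1) = l + 2 * Real.log 2 + Real.log (1 - 1 / (2 * h)) := by
      have e2 : 2 * (h : ℝ) - 1 = ((h : ℝ) / 2) * 2 ^ 2 * (1 - 1 / (2 * h)) := by
        field_simp
      have e3 : (0 : ℝ) < 1 - 1 / (2 * h) := by
        have : 1 / (2 * (h : ℝ)) < 1 := by
          rw [div_lt_one (by positivity)]
          linarith
        linarith
      rw [e2, Real.log_mul (by positivity) e3.ne', Real.log_mul (by positivity) (by positivity), Real.log_pow]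
      push_cast
      ring
    have e4 : Real.log (1 - 1 / (2 * h)) ≤ - (1 / (2 * (h : ℝ))) := by
      have e3 : (0 : ℝ) < 1 - 1 / (2 * h) := by
        have : 1 / (2 * (h : ℝ)) < 1 := by
          rw [div_lt_one (by positivity)]
          linarith
        linarith
      have := Real.log_le_sub_one_of_pos e3
      linarith
    have := Real.log_two_lt_d9
    rw [e1]
    linarith
  obtain ⟨u, hu⟩ : ∃ u : ℝ, u = 1 / h := ⟨_, rfl⟩
  have hu0 : 0 < u := by rw [hu]; positivity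
  have e1 : 1 / (25 * (h : ℝ)) = u / 25 := by rw [hu]; field_simp
  have e2 : 3 / (8 * (h : ℝ)) = 3 / 8 * u := by rw [hu]; field_simp
  have e3 : 1 / (2 * (h : ℝ)) = u / 2 := by rw [hu]; field_simp
  have e4 : l / h = l * u := by rw [hu]; field_simp
  have e5 : l / (h : ℝ) ^ 2 = l * u ^ 2 := by rw [hu]; field_simp
  have e6 : (0.48125 * l + 0.146) / h = (0.48125 * l + 0.146) * u := by rw [hu]; field_simp
  rw [e1, e2] at h1
  rw [e3] at h4
  rw [e4, e5] at h2
  rw [e6] at h3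
  have h5 : D ≤ 1.25 * l + 0.33286875 - 0.625 * u := by linarith
  have h6 : (D - 1) * (383 / 500 + u / 25 + (-3 / 8 + 3 / 8 * u)) ≤
      (1.25 * l + 0.33286875 - 0.625 * u - 1) * (383 / 500 + u / 25 + (-3 / 8 + 3 / 8 * u)) :=
    mul_le_mul_of_nonneg_right (by linarith) (by linarith)
  have h7 : 0 ≤ l * u ^ 2 := by positivity
  have h8 : 0 ≤ u ^ 2 := by positivity
  nlinarith

/-- degree at least four for `s = 31` -/
theorem deg_31 (K : IntermediateField ℚ ℝ) [FiniteDimensional ℚ K]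
    (hz : ∀ i : ℕ, 3 ≤ i → i ≤ 32 → Odd i → zr i ∈ K) : 4 ≤ Module.finrank ℚ K := by
  have h1 := deg_ge 16 (by norm_num) (tt 16) _ (t_T 16 (by norm_num)) (sp' 16 (by norm_num)) (by norm_num) K hz
  have l2 := Real.log_two_gt_d9
  have l3 := Real.log_three_gt_d9
  have l2' := Real.log_two_lt_d9
  have h2 : tt 16 ≤ -0.501 := by
    unfold tt
    have e1 : Real.log (((16 : ℕ) : ℝ) / 2) = 3 * Real.log 2 := by
      rw [show (((16 : ℕ) : ℝ) / 2) = 2 ^ 3 by norm_num, Real.log_pow]; norm_num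
    have e2 : Real.log (1 + ((16 : ℕ) : ℝ) / 2) = 2 * Real.log 3 := by
      rw [show (1 + ((16 : ℕ) : ℝ) / 2) = 3 ^ 2 by norm_num, Real.log_pow]; norm_num
    have e3 : Real.log (9 / 4) = 2 * Real.log 3 - 2 * Real.log 2 := by
      rw [Real.log_div (by norm_num) (by norm_num), show (9 : ℝ) = 3 ^ 2 by norm_num,
        show (4 : ℝ) = 2 ^ 2 by norm_num, Real.log_pow, Real.log_pow]
      push_cast
      ring
    rw [e1, e2, e3]
    norm_num
    linarith
  by_contra hcon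
  push Not at hcon
  have h3 : (Module.finrank ℚ K : ℝ) ≤ 3 := by exact_mod_cast (by omega : Module.finrank ℚ K ≤ 3)
  norm_num at h1
  nlinarith

theorem deg_final (s : ℕ) (hs : Odd s) (h3 : 3 ≤ s) (K : IntermediateField ℚ ℝ) [FiniteDimensional ℚ K]
    (hz : ∀ i : ℕ, Odd i → 3 ≤ i → i ≤ s → (∑' n : ℕ, 1 / ((n : ℝ) + 1) ^ i) ∈ K) :
    (5 / 4) * Real.log s - 7 / 5 < (Module.finrank ℚ K : ℝ) ∧
      (31 ≤ s → 4 ≤ Module.finrank ℚ K) := by
  obtain ⟨k, hk⟩ := hs
  refine ⟨?_, fun h31 => deg_31 K fun i h1 h2 ho => hz i ho h1 ?_⟩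
  · have h1 := deg_gen (k + 1) (by omega) K fun i h1 h2 ho => hz i ho h1 (by
      obtain ⟨m, hm⟩ := ho
      omega)
    have e : 2 * (((k + 1 : ℕ) : ℝ)) - 1 = (s : ℝ) := by
      rw [hk]
      push_cast
      ring
    rwa [e] at h1
  · obtain ⟨m, hm⟩ := ho
    omega

end

end Pool.Agent.P8H2
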