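import Pool.Agent.P8H2.KE

/-!
# The size of the conjugates, sharp form: conclusion
-/

open Polynomial Pool.Agent.H337R2 Pool.Agent.W165.OZ Filter Topology

namespace Pool.Agent.P8H2

noncomputable section

namespace KR

/-- the logarithm of the error factor -/
lemma log_K4 (h n : ℕ) (hh : 1 ≤ h) (hn : 1 ≤ n) (Z : ℝ) (hZ : 0 ≤ Z) :
    0 < K4 h n Z ∧ Real.log (K4 h n Z) =
      (Real.log (2 * h * (Z + 1)) + 2 * h * Real.log 2 + Real.log 4 + 2 * h * Real.log 4) +
        (3 + 4 * h) * Real.log n := by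
  have h1 : (1 : ℝ) ≤ h := by exact_mod_cast hh
  have h2 : (1 : ℝ) ≤ n := by exact_mod_cast hn
  unfold K4 K3
  refine ⟨by positivity, ?_⟩
  have e1 : Real.log ((4 * (n : ℝ) ^ 2) ^ (2 * h)) = 2 * h * (Real.log 4 + 2 * Real.log n) := by
    rw [Real.log_pow, Real.log_mul (by positivity) (by positivity), Real.log_pow]
    push_cast
    ring
  have e3 : Real.log ((n : ℝ) * 4 * (4 * (n : ℝ) ^ 2) ^ (2 * h)) =
      Real.log n + Real.log 4 + 2 * h * (Real.log 4 + 2 * Real.log n) := by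
    rw [Real.log_mul (by positivity) (by positivity), Real.log_mul (by positivity) (by positivity), e1]
  have e4 : Real.log ((2 : ℝ) ^ (2 * h)) = 2 * h * Real.log 2 := by
    rw [Real.log_pow]
    push_cast
    ring
  have e5 : Real.log ((n : ℝ) ^ 2) = 2 * Real.log n := by
    rw [Real.log_pow]
    push_cast
    ring
  rw [Real.log_mul (by positivity) (by positivity), Real.log_mul (x := 2 * h * (Z + 1)) (by positivity) (by positivity),
    Real.log_mul (x := (2 : ℝ) ^ (2 * h)) (by positivity) (by positivity), e3, e4, e5]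
  ring

/-- the constant part of the error of one row -/
def cA (h : ℕ) (Z : ℝ) : ℝ :=
  Real.log h + (Real.log (2 * h * (Z + 1)) + 2 * h * Real.log 2 + Real.log 4 + 2 * h * Real.log 4) +
    2 * h * (2 * Real.log 2)

/-- the logarithmic part of the error of one row -/
def cB (h : ℕ) : ℝ := 1 + (3 + 4 * h) + 2 * h * 8

lemma boundK (h ν : ℕ) (hh : 1 ≤ h) (hν : 1 ≤ ν) (Z : ℝ) (hZ : 0 ≤ Z) (z : ℕ → ℂ)
    (hz : ∀ i, ‖z i‖ ≤ Z) :
    ‖DH (mo (10 * ν) h 1 w1 z) (5 * (h * ν))‖ ≤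
      Real.exp (((10 * ν : ℕ) : ℝ) ^ 2 * ((3 / 4 - 1 / 2 * Real.log ((10 * ν : ℕ) : ℝ)) * (h : ℝ) ^ 2) +
        (2 * (h : ℝ) ^ 2 * (er ((10 * ν : ℕ) : ℝ) + Real.log ((10 * ν : ℕ) : ℝ)) +
        (5 * (h * ν) : ℕ) * (cA h Z + cB h * Real.log ((10 * ν : ℕ) : ℝ)))) := by
  refine (det_boundK h ν hh hν Z hZ z hz).trans ?_
  set n := 10 * ν with hn
  set r := 5 * (h * ν) with hr
  set L := Real.log ((n : ℕ) : ℝ) with hL
  have hn1 : (1 : ℝ) ≤ n := by exact_mod_cast (by omega : 1 ≤ n)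
  have hh1 : (1 : ℝ) ≤ h := by exact_mod_cast hh
  have hL0 : 0 ≤ L := Real.log_nonneg hn1
  have hrpos : 1 ≤ r := by
    have : 1 ≤ h * ν := Nat.mul_pos hh hν
    omega
  have hr1 : (1 : ℝ) ≤ r := by exact_mod_cast hrpos
  have hrn : (r : ℝ) ≤ h * n := by
    have : r ≤ h * n := by
      rw [hr, hn]
      calc 5 * (h * ν) ≤ 10 * (h * ν) := Nat.mul_le_mul_right _ (by norm_num)
        _ = h * (10 * ν) := by ring
    exact_mod_cast this
  obtain ⟨hK0, hK⟩ := log_K4 h n hh (by omega) Z hZ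
  have hP0 : 0 < ∏ i ∈ Finset.range r, AAk h ν i ^ 2 :=
    Finset.prod_pos fun i hi => pow_pos (AAk_pos h ν i hh hν (Finset.mem_range.1 hi)) 2
  have hf0 : (0 : ℝ) < (r.factorial : ℕ) := by exact_mod_cast Nat.factorial_pos r
  rw [← Real.log_le_iff_le_exp (by positivity), Real.log_mul (by positivity) hP0.ne',
    Real.log_mul (by positivity) (by positivity), Real.log_pow, Real.log_prod
      (fun i hi => (pow_pos (AAk_pos h ν i hh hν (Finset.mem_range.1 hi)) 2).ne')]
  -- the factorial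
  have h1 : Real.log ((r.factorial : ℕ) : ℝ) ≤ r * (Real.log h + L) := by
    have h2 : ((r.factorial : ℕ) : ℝ) ≤ (r : ℝ) ^ r := by exact_mod_cast Nat.factorial_le_pow r
    have h3 := Real.log_le_log hf0 h2
    rw [Real.log_pow] at h3
    refine h3.trans (mul_le_mul_of_nonneg_left ?_ (by positivity))
    rw [hL, ← Real.log_mul (by positivity) (by positivity)]
    exact Real.log_le_log (by positivity) hrn
  -- the basis
  have h4 : ∑ i ∈ Finset.range r, Real.log (AAk h ν i ^ 2) ≤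
      2 * h * (h * (TT ν + L)) + r * (2 * h * (8 * L + 2 * Real.log 2)) := by
    have h5 : ∀ i ∈ Finset.range r, Real.log (AAk h ν i ^ 2) ≤
        2 * h * fm (n - 1) (2 * (i / (2 * h))) + 2 * h * (8 * L + 2 * Real.log 2) := by
      intro i hi
      rw [Finset.mem_range] at hi
      refine (log_AAk h ν i hh hν hi).trans (le_of_eq ?_)
      rw [← hn, ← hL, Real.log_mul (by norm_num) (by positivity), Real.log_pow, ← hL]
      push_cast
      ring
    refine (Finset.sum_le_sum h5).trans ?_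
    rw [Finset.sum_add_distrib, Finset.sum_const, Finset.card_range, nsmul_eq_mul, ← Finset.mul_sum]
    have h6 := sum_fm h ν hh hν
    rw [← hn, ← hr, ← hL] at h6
    have h7 := mul_le_mul_of_nonneg_left h6 (by positivity : (0 : ℝ) ≤ 2 * h)
    linarith
  have h7 := TT_le ν hν
  rw [← hn, ← hL] at h7
  rw [hK, ← hL]
  have h8 : 2 * (h : ℝ) * (h * (TT ν + L)) ≤ 2 * (h : ℝ) * (h * ((n : ℝ) ^ 2 * (3 / 8 - 1 / 4 * L) + er n + L)) := by
    gcongr
  unfold cA cB
  nlinarith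

end KR

open KR in
/-- P, in sharp form -/
theorem spK (h : ℕ) (hh : 1 ≤ h) : S_P h (3 / 4) := by
  intro Z ε hε
  set Z' : ℝ := max Z 0 with hZ'
  have hZ0 : 0 ≤ Z' := le_max_right _ _
  have hh1 : (1 : ℝ) ≤ h := by exact_mod_cast hh
  -- logarithms are small
  have elog : ∀ c : ℝ, 0 < c → ∀ᶠ n : ℕ in atTop, Real.log ((n : ℝ) + 1) ≤ c * n := by
    intro c hc
    have h1 := Real.isLittleO_log_id_atTop.def (show 0 < c / 2 by positivity)
    have h2 := (tendsto_natCast_atTop_atTop (R := ℝ)).eventually h1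
    have h3 := (tendsto_add_atTop_iff_nat (f := fun n : ℕ => (n : ℝ)) 1).2 (tendsto_natCast_atTop_atTop (R := ℝ))
    have h4 : ∀ᶠ n : ℕ in atTop, ‖Real.log ((n + 1 : ℕ) : ℝ)‖ ≤ c / 2 * ‖id ((n + 1 : ℕ) : ℝ)‖ := by
      exact h3.eventually h1
    filter_upwards [h4, eventually_ge_atTop 1] with n hn hn1
    have hnr : (1 : ℝ) ≤ n := by exact_mod_cast hn1
    push_cast at hn
    rw [Real.norm_eq_abs, Real.norm_eq_abs, id, abs_of_nonneg (Real.log_nonneg (by linarith)),
      abs_of_nonneg (by positivity)] at hn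
    nlinarith
  -- the error per `n`
  have e1 : ∀ᶠ n : ℕ in atTop, |cA h Z'| + 10 * h ≤ ε / 4 * n := by
    have := tendsto_natCast_atTop_atTop (R := ℝ)
    filter_upwards [this.eventually_ge_atTop ((|cA h Z'| + 10 * h) / (ε / 4))] with n hn
    rw [div_le_iff₀ (by positivity)] at hn
    linarith
  have hcB : 0 < cB h := by unfold cB; positivity
  have e2 := elog (ε / 4 / cB h) (by positivity)
  have e3 := elog (ε / (4 * (10 * h))) (by positivity)
  obtain ⟨n0, hn0⟩ := eventually_atTop.1 (e1.and (e2.and (e3.and (eventually_ge_atTop 1))))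
  refine ⟨n0, fun n hn hdvd z hz => ?_⟩
  obtain ⟨f1, f2, f3, f4⟩ := hn0 n hn
  obtain ⟨ν, hν⟩ := hdvd
  subst hν
  have hν1 : 1 ≤ ν := by omega
  have hr : h * (10 * ν) / 2 = 5 * (h * ν) := by
    rw [show h * (10 * ν) = 2 * (5 * (h * ν)) by ring]
    exact Nat.mul_div_cancel_left _ (by norm_num)
  rw [hr]
  refine (KR.boundK h ν hh hν1 Z' hZ0 z (fun i => (hz i).trans (le_max_left _ _))).trans ?_
  apply Real.exp_le_exp.2
  set n := 10 * ν with hn'
  have hn1 : (1 : ℝ) ≤ n := by exact_mod_cast f4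
  set L := Real.log ((n : ℕ) : ℝ) with hL
  set L1 := Real.log (((n : ℕ) : ℝ) + 1) with hL1
  have hLL : L ≤ L1 := Real.log_le_log (by positivity) (by linarith)
  have hL0 : 0 ≤ L := Real.log_nonneg hn1
  have hrn : ((5 * (h * ν) : ℕ) : ℝ) ≤ h * n := by
    have : 5 * (h * ν) ≤ h * n := by
      rw [hn']
      calc 5 * (h * ν) ≤ 10 * (h * ν) := Nat.mul_le_mul_right _ (by norm_num)
        _ = h * (10 * ν) := by ring
    exact_mod_cast this
  have hr0 : (0 : ℝ) ≤ ((5 * (h * ν) : ℕ) : ℝ) := Nat.cast_nonneg _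
  have g0 : cB h * L ≤ ε / 4 * n := by
    have h1 : cB h * L1 ≤ cB h * (ε / 4 / cB h * n) := mul_le_mul_of_nonneg_left f2 hcB.le
    have h2 : cB h * (ε / 4 / cB h * n) = ε / 4 * n := by field_simp
    have h3 : cB h * L ≤ cB h * L1 := mul_le_mul_of_nonneg_left hLL hcB.le
    linarith
  have g1 : cA h Z' + cB h * L ≤ ε / 4 * n - 10 * h + ε / 4 * n := by
    have := le_abs_self (cA h Z')
    linarith
  have g2 : ((5 * (h * ν) : ℕ) : ℝ) * (cA h Z' + cB h * L) ≤ (h * n) * (ε / 4 * n + ε / 4 * n) := by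
    have h2 : (0 : ℝ) ≤ ε / 4 * n + ε / 4 * n := by positivity
    exact (mul_le_mul_of_nonneg_left (by linarith) hr0).trans (mul_le_mul_of_nonneg_right hrn h2)
  have g3 : 10 * h * L1 ≤ ε / 4 * n := by
    have h1 : 10 * h * L1 ≤ 10 * h * (ε / (4 * (10 * h)) * n) := mul_le_mul_of_nonneg_left f3 (by positivity)
    have h2 : 10 * h * (ε / (4 * (10 * h)) * n) = ε / 4 * n := by field_simp
    linarith
  have g4 : 10 * (h : ℝ) ≤ ε / 4 * n := by
    have := abs_nonneg (cA h Z')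
    linarith
  have g5 : 2 * (h : ℝ) ^ 2 * (er n + L) ≤ (h * n) * (ε / 4 * n + ε / 4 * n) := by
    have h1 : er n + L ≤ 5 * n * L1 + 5 * n := by
      unfold er
      rw [← hL1]
      have : L ≤ n * L1 := by
        calc L ≤ L1 := hLL
          _ = 1 * L1 := (one_mul _).symm
          _ ≤ n * L1 := mul_le_mul_of_nonneg_right hn1 (hL0.trans hLL)
      linarith
    have h2 : 2 * (h : ℝ) ^ 2 * (er n + L) ≤ 2 * (h : ℝ) ^ 2 * (5 * n * L1 + 5 * n) :=
      mul_le_mul_of_nonneg_left h1 (by positivity)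
    have h3 : 2 * (h : ℝ) ^ 2 * (5 * n * L1 + 5 * n) = (h * n) * (10 * h * L1 + 10 * h) := by ring
    rw [h3] at h2
    refine h2.trans (mul_le_mul_of_nonneg_left (by linarith) (by positivity))
  have g6 : (h : ℝ) * (n : ℝ) ^ 2 ≤ (h : ℝ) ^ 2 * (n : ℝ) ^ 2 :=
    mul_le_mul_of_nonneg_right (by nlinarith) (by positivity)
  have g7 := mul_le_mul_of_nonneg_left g6 hε.le
  nlinarith

end

end Pool.Agent.P8H2
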