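import Pool.Agent.P8H2.T2G

/-!
# The real determinant, sharper form: the case of 57
-/

open Polynomial Pool.Agent.H337R2 Pool.Agent.W165.OZ Filter Topology

namespace Pool.Agent.P8H2

noncomputable section

namespace JB

/-- the rate for `h = 29` -/
theorem ST29 : S_T 29 (-(161 / 200)) := by
  have l2 := Real.log_two_gt_d9
  have l2' := Real.log_two_lt_d9
  have l3 := Real.log_three_gt_d9
  have l3' := Real.log_three_lt_d9
  have l5 := Real.log_five_gt_d9
  have l5' := Real.log_five_lt_d9
  obtain ⟨l7, l7'⟩ := log7
  apply ST_gen 29 70 75 100 (by norm_num) (by norm_num) (by norm_num) (by norm_num) (by norm_num) 2744 (by norm_num)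
    (by norm_num) (by norm_num) (17 / 18) (1 / 42) (by norm_num) (by norm_num) (by norm_num) (by norm_num)
  · have e1 : Real.log (1 + 17 / 18) - Real.log (1 - 17 / 18) = Real.log 5 + Real.log 7 := by
      rw [← Real.log_div (by norm_num) (by norm_num), ← Real.log_mul (by norm_num) (by norm_num)]
      norm_num
    rw [e1]
    norm_num
    linarith
  · rw [← Real.le_log_iff_exp_le (by norm_num)]
    have : Real.log (1 / 42 : ℝ) = -(Real.log 2 + Real.log 3 + Real.log 7) := by
      rw [Real.log_div (by norm_num) (by norm_num), Real.log_one, ← Real.log_mul (by norm_num) (by norm_num),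
        ← Real.log_mul (by norm_num) (by norm_num)]
      norm_num
    rw [this]
    norm_num
    linarith
  · have e1 : Real.log 10 = Real.log 2 + Real.log 5 := by
      rw [← Real.log_mul (by norm_num) (by norm_num)]; norm_num
    have e2 : Real.log 70 = Real.log 2 + Real.log 5 + Real.log 7 := by
      rw [← Real.log_mul (by norm_num) (by norm_num), ← Real.log_mul (by norm_num) (by norm_num)]; norm_num
    have e3 : Real.log 150 = Real.log 2 + Real.log 3 + 2 * Real.log 5 := by
      rw [show (2 : ℝ) * Real.log 5 = Real.log (5 ^ 2) by rw [Real.log_pow]; norm_num,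
        ← Real.log_mul (by norm_num) (by norm_num), ← Real.log_mul (by norm_num) (by norm_num)]; norm_num
    have e4 : Real.log 80 = 4 * Real.log 2 + Real.log 5 := by
      rw [show (4 : ℝ) * Real.log 2 = Real.log (2 ^ 4) by rw [Real.log_pow]; norm_num,
        ← Real.log_mul (by norm_num) (by norm_num)]; norm_num
    have e5 : Real.log 100 = 2 * Real.log 2 + 2 * Real.log 5 := by
      rw [show (2 : ℝ) * Real.log 2 = Real.log (2 ^ 2) by rw [Real.log_pow]; norm_num,
        show (2 : ℝ) * Real.log 5 = Real.log (5 ^ 2) by rw [Real.log_pow]; norm_num,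
        ← Real.log_mul (by norm_num) (by norm_num)]; norm_num
    have e6 : Real.log 2744 = 3 * Real.log 2 + 3 * Real.log 7 := by
      rw [show (3 : ℝ) * Real.log 2 = Real.log (2 ^ 3) by rw [Real.log_pow]; norm_num,
        show (3 : ℝ) * Real.log 7 = Real.log (7 ^ 3) by rw [Real.log_pow]; norm_num,
        ← Real.log_mul (by norm_num) (by norm_num)]; norm_num
    have e7 : -(1 / 41) ≤ Real.log (41 / 42) := by
      have h1 := Real.log_le_sub_one_of_pos (show (0 : ℝ) < 42 / 41 by norm_num)
      have h2 : Real.log (41 / 42) = - Real.log (42 / 41) := by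
        rw [← Real.log_inv]; norm_num
      rw [h2]
      linarith
    have e8 : Real.log 75 = Real.log 3 + 2 * Real.log 5 := by
      rw [show (2 : ℝ) * Real.log 5 = Real.log (5 ^ 2) by rw [Real.log_pow]; norm_num,
        ← Real.log_mul (by norm_num) (by norm_num)]; norm_num
    have e9 : Real.log 175 = 2 * Real.log 5 + Real.log 7 := by
      rw [show (2 : ℝ) * Real.log 5 = Real.log (5 ^ 2) by rw [Real.log_pow]; norm_num,
        ← Real.log_mul (by norm_num) (by norm_num)]; norm_num
    have e10 : Real.log 250 = Real.log 2 + 3 * Real.log 5 := by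
      rw [show (3 : ℝ) * Real.log 5 = Real.log (5 ^ 3) by rw [Real.log_pow]; norm_num,
        ← Real.log_mul (by norm_num) (by norm_num)]; norm_num
    unfold VV Qc
    norm_num
    rw [e1, e2, e3, e4, e5, e6, e8, e9, e10]
    linarith

end JB

end

end Pool.Agent.P8H2
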