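import Pool.Agent.P8H2.Fin
import Pool.Agent.P8H2.KF
import Pool.Agent.P8H2.T2H

/-!
# The degree of the field generated by odd zeta values: conclusion with the sharp size of the conjugates
-/

open Pool.Agent.H337R2 Pool.Agent.W165.OZ

namespace Pool.Agent.P8H2

noncomputable section

/-- the lower bound for the degree in terms of the rate of the real determinant -/
lemma deg_geK (h : ℕ) (hh : 1 ≤ h) (t : ℝ) (hT : S_T h t)
    (K : IntermediateField ℚ ℝ) [FiniteDimensional ℚ K]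
    (hz : ∀ i : ℕ, 3 ≤ i → i ≤ 2 * h → Odd i → zr i ∈ K) :
    3 / 4 - t ≤ (Module.finrank ℚ K : ℝ) * (3 / 8 + 3 / (8 * h)) := by
  have h0 : (0 : ℝ) ≤ 3 / (8 * (h : ℝ)) := by positivity
  have h1 := deg_ge h hh t (3 / 4) hT (spK h hh) (by linarith) K hz
  nlinarith

/-- the general lower bound for the degree -/
theorem deg_genK (h : ℕ) (hh : 2 ≤ h) (K : IntermediateField ℚ ℝ) [FiniteDimensional ℚ K]
    (hz : ∀ i : ℕ, 3 ≤ i → i ≤ 2 * h → Odd i → zr i ∈ K) :
    (4 / 3) * Real.log (2 * h - 1) - 167 / 100 < (Module.finrank ℚ K : ℝ) := by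
  have hr : (2 : ℝ) ≤ h := by exact_mod_cast hh
  have hpos : (0 : ℝ) < h := by linarith
  have h1 := deg_geK h (by omega) (tt h) (t_T h (by omega)) K hz
  set D : ℝ := (Module.finrank ℚ K : ℝ) with hD
  set l := Real.log ((h : ℝ) / 2) with hl
  have hl0 : 0 ≤ l := Real.log_nonneg (by linarith)
  have h2 := tt_le h hh
  rw [← hl] at h2
  by_contra hcon
  push Not at hcon
  -- the logarithm of `2 h - 1`
  have h4 : Real.log (2 * h - 1) ≤ l + 1.386295 - 1 / (2 * h) := by
    have e3 : (0 : ℝ) < 1 - 1 / (2 * h) := by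
      have : 1 / (2 * (h : ℝ)) < 1 := by
        rw [div_lt_one (by positivity)]
        linarith
      linarith
    have e1 : Real.log (2 * (h : ℝ) - 1) = l + 2 * Real.log 2 + Real.log (1 - 1 / (2 * h)) := by
      have e2 : 2 * (h : ℝ) - 1 = ((h : ℝ) / 2) * 2 ^ 2 * (1 - 1 / (2 * h)) := by
        field_simp
      rw [e2, Real.log_mul (by positivity) e3.ne', Real.log_mul (by positivity) (by positivity), Real.log_pow]
      push_cast
      ring
    have e4 : Real.log (1 - 1 / (2 * h)) ≤ - (1 / (2 * (h : ℝ))) := by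
      have := Real.log_le_sub_one_of_pos e3
      linarith
    have := Real.log_two_lt_d9
    rw [e1]
    linarith
  obtain ⟨u, hu⟩ : ∃ u : ℝ, u = 1 / h := ⟨_, rfl⟩
  have hu0 : 0 < u := by rw [hu]; positivity
  have e2 : 3 / (8 * (h : ℝ)) = 3 / 8 * u := by rw [hu]; field_simp
  have e3 : 1 / (2 * (h : ℝ)) = u / 2 := by rw [hu]; field_simp
  have e4 : l / h = l * u := by rw [hu]; field_simp
  have e5 : l / (h : ℝ) ^ 2 = l * u ^ 2 := by rw [hu]; field_simp
  rw [e2] at h1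
  rw [e3] at h4
  rw [e4, e5] at h2
  have h5 : D ≤ (4 / 3) * (l + 1.386295 - u / 2) - 1.67 := by linarith
  have h6 : D * (3 / 8 + 3 / 8 * u) ≤ ((4 / 3) * (l + 1.386295 - u / 2) - 1.67) * (3 / 8 + 3 / 8 * u) :=
    mul_le_mul_of_nonneg_right h5 (by linarith)
  have h7 : 0 ≤ l * u ^ 2 := by positivity
  have h8 : 0 ≤ u ^ 2 := by positivity
  have h9 : 0 ≤ l * u := by positivity
  nlinarith

/-- degree at least four for `s = 29` -/
theorem deg_29 (K : IntermediateField ℚ ℝ) [FiniteDimensional ℚ K]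
    (hz : ∀ i : ℕ, 3 ≤ i → i ≤ 30 → Odd i → zr i ∈ K) : 4 ≤ Module.finrank ℚ K := by
  have h1 := deg_geK 15 (by norm_num) (tt 15) (t_T 15 (by norm_num)) K hz
  have l2 := Real.log_two_gt_d9
  have l3 := Real.log_three_gt_d9
  have l5 := Real.log_five_gt_d9
  have l2' := Real.log_two_lt_d9
  have h2 : tt 15 ≤ -0.46 := by
    unfold tt
    have e1 : Real.log (((15 : ℕ) : ℝ) / 2) = Real.log 3 + Real.log 5 - Real.log 2 := by
      rw [← Real.log_mul (by norm_num) (by norm_num), ← Real.log_div (by norm_num) (by norm_num)]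
      norm_num
    have e2 : Real.log (1 + ((15 : ℕ) : ℝ) / 2) ≥ 3 * Real.log 2 + 2 * (1 / 16) / (1 / 16 + 2) := by
      have e3 := Real.le_log_one_add_of_nonneg (show (0 : ℝ) ≤ 1 / 16 by norm_num)
      have e4 : Real.log (1 + ((15 : ℕ) : ℝ) / 2) = 3 * Real.log 2 + Real.log (1 + 1 / 16) := by
        rw [show (3 : ℝ) * Real.log 2 = Real.log (2 ^ 3) by rw [Real.log_pow]; norm_num,
          ← Real.log_mul (by norm_num) (by norm_num)]
        norm_num
      linarith
    have e3 : Real.log (9 / 4) = 2 * Real.log 3 - 2 * Real.log 2 := by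
      rw [Real.log_div (by norm_num) (by norm_num), show (9 : ℝ) = 3 ^ 2 by norm_num,
        show (4 : ℝ) = 2 ^ 2 by norm_num, Real.log_pow, Real.log_pow]
      push_cast
      ring
    rw [e1, e3]
    norm_num at e2 ⊢
    linarith
  by_contra hcon
  push Not at hcon
  have h3 : (Module.finrank ℚ K : ℝ) ≤ 3 := by exact_mod_cast (by omega : Module.finrank ℚ K ≤ 3)
  norm_num at h1
  nlinarith

/-- degree at least four for `s = 23` -/
theorem deg_23 (K : IntermediateField ℚ ℝ) [FiniteDimensional ℚ K]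
    (hz : ∀ i : ℕ, 3 ≤ i → i ≤ 24 → Odd i → zr i ∈ K) : 4 ≤ Module.finrank ℚ K := by
  have h1 := deg_geK 12 (by norm_num) _ JB.ST12 K hz
  by_contra hcon
  push Not at hcon
  have h3 : (Module.finrank ℚ K : ℝ) ≤ 3 := by exact_mod_cast (by omega : Module.finrank ℚ K ≤ 3)
  norm_num at h1
  linarith

/-- degree at least five for `s = 57` -/
theorem deg_57 (K : IntermediateField ℚ ℝ) [FiniteDimensional ℚ K]
    (hz : ∀ i : ℕ, 3 ≤ i → i ≤ 58 → Odd i → zr i ∈ K) : 5 ≤ Module.finrank ℚ K := by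
  have h1 := deg_geK 29 (by norm_num) _ JB.ST29 K hz
  by_contra hcon
  push Not at hcon
  have h3 : (Module.finrank ℚ K : ℝ) ≤ 4 := by exact_mod_cast (by omega : Module.finrank ℚ K ≤ 4)
  norm_num at h1
  linarith

/-- the final statement, sharper form -/
theorem deg_final2 (s : ℕ) (hs : Odd s) (h3 : 3 ≤ s) (K : IntermediateField ℚ ℝ) [FiniteDimensional ℚ K]
    (hz : ∀ i : ℕ, Odd i → 3 ≤ i → i ≤ s → (∑' n : ℕ, 1 / ((n : ℝ) + 1) ^ i) ∈ K) :
    (4 / 3) * Real.log s - 167 / 100 < (Module.finrank ℚ K : ℝ) ∧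
      (23 ≤ s → 4 ≤ Module.finrank ℚ K) ∧ (57 ≤ s → 5 ≤ Module.finrank ℚ K) := by
  obtain ⟨k, hk⟩ := hs
  refine ⟨?_, fun h23 => deg_23 K fun i h1 h2 ho => hz i ho h1 ?_,
    fun h57 => deg_57 K fun i h1 h2 ho => hz i ho h1 ?_⟩
  · have h1 := deg_genK (k + 1) (by omega) K fun i h1 h2 ho => hz i ho h1 (by
      obtain ⟨m, hm⟩ := ho
      omega)
    have e : 2 * (((k + 1 : ℕ) : ℝ)) - 1 = (s : ℝ) := by
      rw [hk]
      push_cast
      ring
    rwa [e] at h1
  · obtain ⟨m, hm⟩ := ho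
    omega
  · obtain ⟨m, hm⟩ := ho
    omega

end

end Pool.Agent.P8H2
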