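import Mathlib

/-!
# Krawtchouk polynomials: generating function, shifts, bounds at the integers
-/

open Polynomial

namespace Pool.Agent.P8H2

noncomputable section

namespace KR

/-- the Krawtchouk polynomials, by their recursion -/
def kh {F : Type*} [Field F] (N x : F) : ℕ → F
  | 0 => 1
  | 1 => N - 2 * x
  | (j + 2) => ((N - 2 * x) * kh N x (j + 1) - (N - j) * kh N x j) / (j + 2)

lemma kh_rec {F : Type*} [Field F] [CharZero F] (N x : F) (j : ℕ) :
    ((j : F) + 2) * kh N x (j + 2) = (N - 2 * x) * kh N x (j + 1) - (N - j) * kh N x j := by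
  have h : ((j : F) + 2) ≠ 0 := by
    have : ((j + 2 : ℕ) : F) ≠ 0 := by exact_mod_cast (by omega : j + 2 ≠ 0)
    push_cast at this
    exact this
  rw [kh]
  field_simp

/-- the differential equation -/
def OD {F : Type*} [Field F] (N a : F) (f : PowerSeries F) : Prop :=
  (1 - PowerSeries.X ^ 2) * PowerSeries.derivative F f = (PowerSeries.C a - PowerSeries.C N * PowerSeries.X) * f

lemma OD_coeff {F : Type*} [Field F] (N a : F) (f : PowerSeries F) (hf : OD N a f) :
    PowerSeries.coeff 1 f = a * PowerSeries.coeff 0 f ∧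
    ∀ j : ℕ, ((j : F) + 2) * PowerSeries.coeff (j + 2) f =
      a * PowerSeries.coeff (j + 1) f - (N - j) * PowerSeries.coeff j f := by
  unfold OD at hf
  have h : ∀ j, PowerSeries.coeff j ((1 - PowerSeries.X ^ 2) * PowerSeries.derivative F f) =
    PowerSeries.coeff j ((PowerSeries.C a - PowerSeries.C N * PowerSeries.X) * f) := fun j => by rw [hf]
  constructor
  · have h0 := h 0
    rw [sub_mul, sub_mul, one_mul, map_sub, map_sub, PowerSeries.coeff_C_mul, mul_assoc, PowerSeries.coeff_C_mul,
      PowerSeries.coeff_derivative, PowerSeries.coeff_X_pow_mul'] at h0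
    simpa using h0
  · intro j
    have h1 := h (j + 1)
    rw [sub_mul, sub_mul, one_mul, map_sub, map_sub, PowerSeries.coeff_C_mul, mul_assoc, PowerSeries.coeff_C_mul,
      PowerSeries.coeff_succ_X_mul, PowerSeries.coeff_derivative] at h1
    rcases j with _ | j
    · rw [PowerSeries.coeff_X_pow_mul'] at h1
      simp at h1 ⊢
      linear_combination h1
    · rw [show j + 1 + 1 = j + 2 by ring, PowerSeries.coeff_X_pow_mul, PowerSeries.coeff_derivative] at h1
      push_cast at h1 ⊢
      rw [show j + 1 + 2 = j + 2 + 1 by ring, show j + 1 + 1 = j + 2 by ring]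
      linear_combination h1

lemma OD_eq {F : Type*} [Field F] [CharZero F] (N x : F) (f : PowerSeries F) (hf : OD N (N - 2 * x) f)
    (h0 : PowerSeries.coeff 0 f = 1) (j : ℕ) : PowerSeries.coeff j f = kh N x j := by
  obtain ⟨h1, h2⟩ := OD_coeff N _ f hf
  induction j using Nat.strong_induction_on with
  | _ j ih =>
    rcases j with _ | _ | j
    · rw [h0]; rfl
    · rw [zero_add, h1, h0]; simp [kh]
    · have h3 := h2 j
      rw [ih (j + 1) (by omega), ih j (by omega), ← kh_rec] at h3
      have h : ((j : F) + 2) ≠ 0 := by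
        have : ((j + 2 : ℕ) : F) ≠ 0 := by exact_mod_cast (by omega : j + 2 ≠ 0)
        push_cast at this
        exact this
      exact mul_left_cancel₀ h h3

/-- the generating function of the Krawtchouk polynomials satisfies the differential equation -/
lemma OD_kh {F : Type*} [Field F] [CharZero F] (N x : F) : OD N (N - 2 * x) (PowerSeries.mk (kh N x)) := by
  unfold OD
  ext j
  rw [sub_mul, sub_mul, one_mul, map_sub, map_sub, PowerSeries.coeff_C_mul, mul_assoc, PowerSeries.coeff_C_mul,
    PowerSeries.coeff_derivative]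
  rcases j with _ | _ | j
  · simp [kh, PowerSeries.coeff_X_pow_mul']
  · have hX : PowerSeries.coeff (0 + 1) (PowerSeries.X * PowerSeries.mk (kh N x)) = kh N x 0 := by
      rw [PowerSeries.coeff_succ_X_mul]; simp
    rw [PowerSeries.coeff_X_pow_mul', hX]
    have := kh_rec N x 0
    simp at this ⊢
    rw [show kh N x 0 = 1 by rfl] at this ⊢
    linear_combination this
  · rw [show j + 1 + 1 = j + 2 by ring, PowerSeries.coeff_X_pow_mul, PowerSeries.coeff_derivative,
      show j + 2 = (j + 1) + 1 by ring, PowerSeries.coeff_succ_X_mul]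
    simp only [PowerSeries.coeff_mk]
    have := kh_rec N x (j + 1)
    push_cast at this ⊢
    rw [show j + 1 + 2 = j + 1 + 1 + 1 by ring] at this
    linear_combination this

/-- the coefficients of `((1 - w) / (1 + w)) ^ δ` -/
def cc {F : Type*} [Field F] (d : F) : ℕ → F := kh 0 d

lemma cc_bound (d : ℂ) (hd : ‖d‖ ≤ 1) (j : ℕ) : ‖cc d j‖ ≤ 2 := by
  unfold cc
  induction j using Nat.strong_induction_on with
  | _ j ih =>
    rcases j with _ | _ | j
    · rw [show kh (0 : ℂ) d 0 = 1 by rfl]; simp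
    · rw [zero_add, show kh (0 : ℂ) d 1 = 0 - 2 * d by rfl]
      simp
      linarith
    · have h1 := kh_rec (0 : ℂ) d j
      have h2 : ‖((j : ℂ) + 2) * kh (0 : ℂ) d (j + 2)‖ ≤ ((j : ℝ) + 2) * 2 := by
        rw [h1]
        have e : (0 - 2 * d) * kh (0 : ℂ) d (j + 1) - (0 - (j : ℂ)) * kh (0 : ℂ) d j =
            -(2 * d * kh (0 : ℂ) d (j + 1)) + (j : ℂ) * kh (0 : ℂ) d j := by ring
        rw [e]
        refine (norm_add_le _ _).trans ?_
        rw [norm_neg, norm_mul, norm_mul, norm_mul, Complex.norm_natCast]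
        have i1 := ih (j + 1) (by omega)
        have i2 := ih j (by omega)
        have e2 : ‖(2 : ℂ)‖ = 2 := by simp
        rw [e2]
        have i3 : 2 * ‖d‖ * ‖kh (0 : ℂ) d (j + 1)‖ ≤ 2 * 1 * 2 := by gcongr
        have i4 : (j : ℝ) * ‖kh (0 : ℂ) d j‖ ≤ j * 2 := by gcongr
        linarith
      rw [norm_mul] at h2
      have h3 : ‖((j : ℂ) + 2)‖ = (j : ℝ) + 2 := by
        have : ((j : ℂ) + 2) = ((j + 2 : ℕ) : ℂ) := by push_cast; ring
        rw [this, Complex.norm_natCast]
        push_cast
        ring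
      rw [h3] at h2
      have h4 : (0 : ℝ) < (j : ℝ) + 2 := by positivity
      exact le_of_mul_le_mul_left h2 h4

/-- the shift -/
lemma kh_add {F : Type*} [Field F] [CharZero F] (N x d : F) (j : ℕ) :
    kh N (x + d) j = ∑ p ∈ Finset.HasAntidiagonal.antidiagonal j, kh N x p.1 * cc d p.2 := by
  have h1 := OD_kh N x
  have h2 := OD_kh (0 : F) d
  have h3 : OD N (N - 2 * (x + d)) (PowerSeries.mk (kh N x) * PowerSeries.mk (kh 0 d)) := by
    unfold OD at h1 h2 ⊢
    rw [Derivation.leibniz]
    simp only [smul_eq_mul]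
    have e1 : (PowerSeries.C (N - 2 * (x + d)) : PowerSeries F) =
        PowerSeries.C (N - 2 * x) + PowerSeries.C (0 - 2 * d) := by
      rw [← map_add]; congr 1; ring
    rw [e1]
    rw [map_zero] at h2
    linear_combination (PowerSeries.mk (kh 0 d)) * h1 + (PowerSeries.mk (kh N x)) * h2
  have h4 := OD_eq N (x + d) _ h3 (by simp [kh]) j
  rw [← h4, PowerSeries.coeff_mul]
  simp [cc]

lemma kh_shift_bound (N x d : ℂ) (hd : ‖d‖ ≤ 1) (j : ℕ) (M : ℝ) (hM : ∀ i ≤ j, ‖kh N x i‖ ≤ M) :
    ‖kh N (x + d) j‖ ≤ 2 * ((j : ℝ) + 1) * M := by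
  have hM0 : 0 ≤ M := (norm_nonneg _).trans (hM 0 (Nat.zero_le _))
  rw [kh_add]
  refine (norm_sum_le _ _).trans ?_
  have h1 : ∀ p ∈ Finset.HasAntidiagonal.antidiagonal j, ‖kh N x p.1 * cc d p.2‖ ≤ M * 2 := by
    intro p hp
    rw [Finset.HasAntidiagonal.mem_antidiagonal] at hp
    rw [norm_mul]
    exact mul_le_mul (hM _ (by omega)) (cc_bound d hd _) (norm_nonneg _) hM0
  refine (Finset.sum_le_sum h1).trans ?_
  rw [Finset.sum_const, Finset.Nat.card_antidiagonal, nsmul_eq_mul]
  push_cast
  linarith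

end KR

end

end Pool.Agent.P8H2
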