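import Pool.Agent.P8H2.KA

/-!
# Krawtchouk polynomials: values at the integers
-/

open Polynomial

namespace Pool.Agent.P8H2

noncomputable section

namespace KR

/-- `(1 + X) ^ a (1 - X) ^ b` -/
def pk (a b : ℕ) : ℝ[X] := (1 + X) ^ a * (1 - X) ^ b

lemma OD_pk (a b : ℕ) : OD ((a : ℝ) + b) ((a : ℝ) - b) ((pk a b : ℝ[X]) : PowerSeries ℝ) := by
  unfold OD pk
  have hA : (1 + PowerSeries.X : PowerSeries ℝ) * PowerSeries.derivative ℝ ((1 + PowerSeries.X) ^ a) =
      PowerSeries.C (a : ℝ) * (1 + PowerSeries.X) ^ a := by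
    induction a with
    | zero => simp
    | succ a ih =>
      rw [pow_succ, Derivation.leibniz]
      simp only [smul_eq_mul, map_add, PowerSeries.derivative_X, Derivation.map_one_eq_zero, zero_add, mul_one]
      push_cast
      rw [map_add, map_one]
      linear_combination (1 + PowerSeries.X) * ih
  have hB : (1 - PowerSeries.X : PowerSeries ℝ) * PowerSeries.derivative ℝ ((1 - PowerSeries.X) ^ b) =
      -(PowerSeries.C (b : ℝ) * (1 - PowerSeries.X) ^ b) := by
    induction b with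
    | zero => simp
    | succ b ih =>
      rw [pow_succ, Derivation.leibniz]
      simp only [smul_eq_mul, map_sub, PowerSeries.derivative_X, Derivation.map_one_eq_zero, zero_sub, mul_neg, mul_one]
      push_cast
      rw [map_add, map_one]
      linear_combination (1 - PowerSeries.X) * ih
  have e : (((1 + X) ^ a * (1 - X) ^ b : ℝ[X]) : PowerSeries ℝ) =
      (1 + PowerSeries.X) ^ a * (1 - PowerSeries.X) ^ b := by
    simp
  rw [e, Derivation.leibniz]
  simp only [smul_eq_mul, map_sub, map_add]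
  linear_combination (1 - PowerSeries.X) * (1 - PowerSeries.X) ^ b * hA + (1 + PowerSeries.X) * (1 + PowerSeries.X) ^ a * hB

lemma kh_nat (N k j : ℕ) (hk : k ≤ N) : kh (N : ℝ) (k : ℝ) j = (pk (N - k) k).coeff j := by
  have h1 := OD_pk (N - k) k
  have e1 : ((N - k : ℕ) : ℝ) + k = N := by
    rw [Nat.cast_sub hk]; ring
  have e2 : ((N - k : ℕ) : ℝ) - k = N - 2 * k := by
    rw [Nat.cast_sub hk]; ring
  rw [e1, e2] at h1
  have h2 := OD_eq (N : ℝ) (k : ℝ) _ h1 (by simp [pk]) j
  rw [← h2]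
  simp

/-- the orthogonality relation -/
lemma orth (N m : ℕ) : ∑ k ∈ Finset.range (N + 1), (N.choose k : ℝ) * (pk (N - k) k).coeff m ^ 2 =
    2 ^ N * N.choose m := by
  -- the two variable identity
  have h1 : ∑ k ∈ Finset.range (N + 1), C (C (N.choose k : ℝ)) * C (pk (N - k) k) * (pk (N - k) k).map C =
      ((2 : ℝ[X][X]) + 2 * C X * X) ^ N := by
    have h2 : ((2 : ℝ[X][X]) + 2 * C X * X) = (C (1 - X) * (1 - X)) + (C (1 + X) * (1 + X)) := by
      simp only [map_sub, map_add, map_one]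
      ring
    rw [h2, add_pow]
    refine Finset.sum_congr rfl fun k _ => ?_
    unfold pk
    simp only [Polynomial.map_mul, Polynomial.map_pow, Polynomial.map_add, Polynomial.map_sub, Polynomial.map_one,
      Polynomial.map_X, map_mul, map_pow, map_add, map_sub, map_one, mul_pow]
    have : (C (C (N.choose k : ℝ)) : ℝ[X][X]) = (N.choose k : ℝ[X][X]) := by
      simp
    rw [this]
    ring
  have h2 := congrArg (fun p : ℝ[X][X] => (p.coeff m).coeff m) h1
  beta_reduce at h2
  rw [Polynomial.finsetSum_coeff, Polynomial.finsetSum_coeff] at h2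
  have h3 : ∀ k, ((C (C (N.choose k : ℝ)) * C (pk (N - k) k) * (pk (N - k) k).map C).coeff m).coeff m =
      (N.choose k : ℝ) * (pk (N - k) k).coeff m ^ 2 := by
    intro k
    rw [mul_assoc, Polynomial.coeff_C_mul, Polynomial.coeff_C_mul, Polynomial.coeff_C_mul, Polynomial.coeff_map,
      Polynomial.coeff_mul_C]
    ring
  rw [Finset.sum_congr rfl fun k _ => h3 k] at h2
  rw [h2]
  have h4 : ((2 : ℝ[X][X]) + 2 * C X * X) ^ N = C (2 ^ N) * (1 + C X * X) ^ N := by
    rw [map_pow, ← mul_pow]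
    congr 1
    have : (C (2 : ℝ[X]) : ℝ[X][X]) = 2 := map_ofNat C 2
    rw [this]
    ring
  have h5 : ((1 : ℝ[X][X]) + C X * X) ^ N = ((1 + X) ^ N).comp (C X * X) := by
    simp
  rw [h4, Polynomial.coeff_C_mul, h5, Polynomial.comp_C_mul_X_coeff, add_comm (1 : ℝ[X][X]) X,
    Polynomial.coeff_X_add_one_pow]
  have h6 : ((2 : ℝ[X]) ^ N * ((N.choose m : ℝ[X]) * X ^ m)) = C (2 ^ N * (N.choose m : ℝ)) * X ^ m := by
    have e2 : (C (2 : ℝ) : ℝ[X]) = 2 := map_ofNat C 2
    have e3 : (C (N.choose m : ℝ) : ℝ[X]) = (N.choose m : ℝ[X]) := map_natCast C _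
    rw [map_mul, map_pow, e2, e3]
    ring
  rw [h6, Polynomial.coeff_C_mul, Polynomial.coeff_X_pow]
  simp

lemma kh_sq_le (N k m : ℕ) (hk : k ≤ N) : (N.choose k : ℝ) * kh (N : ℝ) (k : ℝ) m ^ 2 ≤ 2 ^ N * N.choose m := by
  rw [kh_nat N k m hk, ← orth N m]
  exact Finset.single_le_sum (f := fun k => (N.choose k : ℝ) * (pk (N - k) k).coeff m ^ 2)
    (fun i _ => by positivity) (Finset.mem_range.2 (by omega))

lemma kh_ofReal (N x : ℝ) (j : ℕ) : kh (N : ℂ) (x : ℂ) j = ((kh N x j : ℝ) : ℂ) := by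
  induction j using Nat.strong_induction_on with
  | _ j ih =>
    rcases j with _ | _ | j
    · simp [kh]
    · simp [kh]
    · rw [kh, kh, ih (j + 1) (by omega), ih j (by omega)]
      push_cast
      rfl

/-- almost monotonicity of the binomial coefficients up to the middle -/
lemma choose_mono (N m j : ℕ) (hmj : m ≤ j) (hj : 2 * j ≤ N + 4) (hN : 4 ≤ N) :
    N.choose m ≤ N ^ 2 * N.choose j := by
  have step : ∀ i, 2 * i + 1 ≤ N → N.choose i ≤ N.choose (i + 1) := by
    intro i hi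
    have h1 := Nat.choose_succ_right_eq N i
    have h2 : N.choose i * (i + 1) ≤ N.choose i * (N - i) := Nat.mul_le_mul_left _ (by omega)
    rw [← h1] at h2
    exact Nat.le_of_mul_le_mul_right h2 (by omega)
  have step2 : ∀ i, i + 1 ≤ N → N.choose i ≤ N * N.choose (i + 1) := by
    intro i hi
    have h1 := Nat.choose_succ_right_eq N i
    have h2 : N.choose i * 1 ≤ N.choose i * (N - i) := Nat.mul_le_mul_left _ (by omega)
    rw [← h1, mul_one] at h2
    calc N.choose i ≤ N.choose (i + 1) * (i + 1) := h2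
      _ ≤ N.choose (i + 1) * N := Nat.mul_le_mul_left _ hi
      _ = N * N.choose (i + 1) := mul_comm _ _
  -- up to the middle
  have hmid : ∀ j', m ≤ j' → 2 * j' ≤ N + 1 → N.choose m ≤ N.choose j' := by
    intro j' h1 h2
    induction j', h1 using Nat.le_induction with
    | base => exact le_rfl
    | succ j' h3 ih => exact (ih (by omega)).trans (step j' (by omega))
  have hpos : 1 ≤ N := by omega
  rcases le_or_gt (2 * j) (N + 1) with h1 | h1
  · calc N.choose m ≤ N.choose j := hmid j hmj h1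
      _ = 1 * N.choose j := (one_mul _).symm
      _ ≤ N ^ 2 * N.choose j := Nat.mul_le_mul_right _ (Nat.one_le_pow _ _ hpos)
  obtain ⟨i, rfl⟩ : ∃ i, j = i + 1 := ⟨j - 1, by omega⟩
  rcases Nat.lt_or_ge i m with h2 | h2
  · have : m = i + 1 := by omega
    rw [this]
    calc N.choose (i + 1) = 1 * N.choose (i + 1) := (one_mul _).symm
      _ ≤ N ^ 2 * N.choose (i + 1) := Nat.mul_le_mul_right _ (Nat.one_le_pow _ _ hpos)
  rcases le_or_gt (2 * i) (N + 1) with h3 | h3
  · calc N.choose m ≤ N.choose i := hmid i h2 h3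
      _ ≤ N * N.choose (i + 1) := step2 i (by omega)
      _ ≤ N ^ 2 * N.choose (i + 1) := Nat.mul_le_mul_right _ (by nlinarith)
  · obtain ⟨l, rfl⟩ : ∃ l, i = l + 1 := ⟨i - 1, by omega⟩
    rcases Nat.lt_or_ge l m with h4 | h4
    · have : m = l + 1 := by omega
      rw [this]
      calc N.choose (l + 1) ≤ N * N.choose (l + 1 + 1) := step2 _ (by omega)
        _ ≤ N ^ 2 * N.choose (l + 1 + 1) := Nat.mul_le_mul_right _ (by nlinarith)
    · calc N.choose m ≤ N.choose l := hmid l h4 (by omega)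
        _ ≤ N * N.choose (l + 1) := step2 l (by omega)
        _ ≤ N * (N * N.choose (l + 1 + 1)) := Nat.mul_le_mul_left _ (step2 _ (by omega))
        _ = N ^ 2 * N.choose (l + 1 + 1) := by ring

/-- the size of the Krawtchouk polynomials near the integers -/
lemma kh_near (N k j : ℕ) (hk : k ≤ N) (hj : 2 * j ≤ N + 4) (hN : 4 ≤ N) (d : ℂ) (hd : ‖d‖ ≤ 1) :
    ‖kh (N : ℂ) ((k : ℂ) + d) j‖ ≤
      2 * ((j : ℝ) + 1) * N * Real.sqrt (2 ^ N * N.choose j / N.choose k) := by
  have h1 := kh_shift_bound (N : ℂ) (k : ℂ) d hd j (N * Real.sqrt (2 ^ N * N.choose j / N.choose k)) (by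
    intro i hi
    have e : kh (N : ℂ) (k : ℂ) i = ((kh (N : ℝ) (k : ℝ) i : ℝ) : ℂ) := by
      rw [← kh_ofReal]; simp
    rw [e, Complex.norm_real, Real.norm_eq_abs]
    have hC : (0 : ℝ) < N.choose k := by exact_mod_cast Nat.choose_pos hk
    have h2 := kh_sq_le N k i hk
    have h3 : (N.choose i : ℝ) ≤ (N : ℝ) ^ 2 * N.choose j := by exact_mod_cast choose_mono N i j hi hj hN
    rw [← Real.sqrt_sq_eq_abs]
    have e2 : (N : ℝ) * Real.sqrt (2 ^ N * N.choose j / N.choose k) =
        Real.sqrt ((N : ℝ) ^ 2 * (2 ^ N * N.choose j / N.choose k)) := by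
      rw [Real.sqrt_mul (by positivity), Real.sqrt_sq (by positivity)]
    rw [e2]
    apply Real.sqrt_le_sqrt
    rw [← mul_div_assoc, le_div_iff₀ hC]
    have h4 : (2 : ℝ) ^ N * N.choose i ≤ 2 ^ N * ((N : ℝ) ^ 2 * N.choose j) :=
      mul_le_mul_of_nonneg_left h3 (by positivity)
    nlinarith)
  refine h1.trans (le_of_eq ?_)
  ring

end KR

end

end Pool.Agent.P8H2
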