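import Pool.Agent.P8H2.PB3

/-!
# The size of the conjugates: products, binomial coefficients, and the sup norm of the basis
-/

open Polynomial Pool.Agent.H337R2

namespace Pool.Agent.P8H2

noncomputable section

namespace PB

lemma half (K : ℕ) : ∏ i ∈ Finset.range K, (1 / (((i : ℝ) + 1) - 1 / 2)) ≤ 2 * (K + 1) / (K.factorial : ℝ) := by
  induction K with
  | zero => simp
  | succ K ih =>
    rw [Finset.prod_range_succ]
    have h0 : (0 : ℝ) ≤ K := Nat.cast_nonneg K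
    have h1 : (0 : ℝ) < K.factorial := by positivity
    refine (mul_le_mul_of_nonneg_right ih (by
      have : (0 : ℝ) < (K : ℝ) + 1 - 1 / 2 := by linarith
      positivity)).trans ?_
    rw [Nat.factorial_succ]
    push_cast
    rw [show ((K : ℝ) + 1 - 1 / 2) = (2 * K + 1) / 2 by ring, one_div_div, div_mul_div_comm,
      div_le_div_iff₀ (by positivity) (by positivity)]
    have h2 : 0 ≤ (K.factorial : ℝ) * (K * (2 * K + 1) + K + 1) := by positivity
    nlinarith [mul_nonneg h1.le h0, mul_nonneg h1.le (mul_nonneg h0 h0),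
      mul_nonneg h1.le (mul_nonneg h0 (mul_nonneg h0 h0))]

lemma half_nonneg (K : ℕ) : 0 ≤ ∏ i ∈ Finset.range K, (1 / (((i : ℝ) + 1) - 1 / 2)) := by
  apply Finset.prod_nonneg
  intro i _
  have : (0 : ℝ) ≤ i := Nat.cast_nonneg i
  have : (0 : ℝ) < (i : ℝ) + 1 - 1 / 2 := by linarith
  positivity

lemma erase_le (n k : ℕ) (hk : k < n) :
    ∏ m ∈ (Finset.range n).erase k, (1 / (|((-(k : ℚ) + m : ℚ) : ℝ)| - 1 / 2)) ≤
      4 * (n : ℝ) ^ 2 * ((n - 1).choose k : ℕ) / ((n - 1).factorial : ℕ) := by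
  have h1 : (Finset.range n).erase k = Finset.range k ∪ Finset.Ico (k + 1) n := by
    ext m
    simp only [Finset.mem_erase, Finset.mem_range, Finset.mem_union, Finset.mem_Ico]
    omega
  have h2 : Disjoint (Finset.range k) (Finset.Ico (k + 1) n) := by
    rw [Finset.disjoint_left]
    intro m hm hm'
    rw [Finset.mem_range] at hm
    rw [Finset.mem_Ico] at hm'
    omega
  rw [h1, Finset.prod_union h2]
  have e1 : ∏ m ∈ Finset.range k, (1 / (|((-(k : ℚ) + m : ℚ) : ℝ)| - 1 / 2)) =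
      ∏ i ∈ Finset.range k, (1 / (((i : ℝ) + 1) - 1 / 2)) := by
    rw [← Finset.prod_range_reflect]
    refine Finset.prod_congr rfl fun i hi => ?_
    rw [Finset.mem_range] at hi
    have h4 : (i : ℝ) < k := by exact_mod_cast hi
    push_cast
    rw [Nat.cast_sub (show i ≤ k - 1 by omega), Nat.cast_sub (show 1 ≤ k by omega)]
    push_cast
    congr 2
    rw [show -(k : ℝ) + ((k : ℝ) - 1 - i) = -(1 + i) by ring, abs_neg,
      abs_of_nonneg (by positivity : (0 : ℝ) ≤ 1 + (i : ℝ))]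
    ring
  have e2 : ∏ m ∈ Finset.Ico (k + 1) n, (1 / (|((-(k : ℚ) + m : ℚ) : ℝ)| - 1 / 2)) =
      ∏ i ∈ Finset.range (n - 1 - k), (1 / (((i : ℝ) + 1) - 1 / 2)) := by
    rw [Finset.prod_Ico_eq_prod_range, show n - (k + 1) = n - 1 - k by omega]
    refine Finset.prod_congr rfl fun i _ => ?_
    have h0 : (0 : ℝ) ≤ i := Nat.cast_nonneg i
    push_cast
    congr 2
    rw [abs_of_nonneg (by linarith)]
    ring
  rw [e1, e2]
  refine (mul_le_mul (half k) (half (n - 1 - k)) (half_nonneg _) (by positivity)).trans ?_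
  have h3 : (((n - 1).choose k : ℕ) : ℝ) * k.factorial * (n - 1 - k).factorial = (n - 1).factorial := by
    exact_mod_cast Nat.choose_mul_factorial_mul_factorial (show k ≤ n - 1 by omega)
  have h5 : ((k : ℝ) + 1) ≤ n := by exact_mod_cast hk
  have h6 : (((n - 1 - k : ℕ) : ℝ) + 1) ≤ n := by
    have : n - 1 - k + 1 ≤ n := by omega
    exact_mod_cast this
  have p1 : (0 : ℝ) < k.factorial := by positivity
  have p2 : (0 : ℝ) < (n - 1 - k).factorial := by positivity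
  have p3 : (0 : ℝ) < (n - 1).factorial := by positivity
  have p4 : (0 : ℝ) < (((n - 1).choose k : ℕ) : ℝ) := by
    exact_mod_cast Nat.choose_pos (show k ≤ n - 1 by omega)
  have h7 : 4 * (n : ℝ) ^ 2 * ((n - 1).choose k : ℕ) / ((n - 1).factorial : ℕ) =
      (4 * (n : ℝ) ^ 2) / (k.factorial * (n - 1 - k).factorial) := by
    rw [← h3]
    field_simp
  rw [h7, div_mul_div_comm]
  apply div_le_div_of_nonneg_right _ (by positivity)
  nlinarith [mul_le_mul h5 h6 (by positivity) (by positivity)]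

lemma chernoff (n k : ℕ) (hn : 2 ≤ n) (hk : k < n) :
    (((n - 1).choose k : ℕ) : ℝ) ≤
      2 ^ (n - 1) * Real.exp (-(2 * (((n : ℝ) - 1) / 2 - k) ^ 2 / ((n : ℝ) - 1))) := by
  set N : ℕ := n - 1 with hN
  have hNr : (n : ℝ) - 1 = N := by rw [hN, Nat.cast_sub (by omega)]; simp
  have hN1 : (1 : ℝ) ≤ N := by
    have : 1 ≤ N := by omega
    exact_mod_cast this
  rw [hNr]
  set D : ℝ := (N : ℝ) / 2 - k with hD
  set t : ℝ := -(4 * D / N) with ht
  have h1 : ((N.choose k : ℕ) : ℝ) * Real.exp (t * k) ≤ (Real.exp t + 1) ^ N := by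
    rw [add_pow]
    have h2 := Finset.single_le_sum (s := Finset.range (N + 1))
      (f := fun m => Real.exp t ^ m * 1 ^ (N - m) * ((N.choose m : ℕ) : ℝ))
      (fun m _ => by positivity) (Finset.mem_range.2 (show k < N + 1 by omega))
    refine le_trans (le_of_eq ?_) h2
    rw [one_pow, mul_one, ← Real.exp_nat_mul, mul_comm (k : ℝ) t, mul_comm]
  have h2 : Real.exp t + 1 ≤ 2 * Real.exp (t / 2 + t ^ 2 / 8) := by
    have h3 := Real.cosh_le_exp_half_sq (t / 2)
    rw [Real.cosh_eq] at h3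
    have h4 : Real.exp t + 1 = 2 * (Real.exp (t / 2) * ((Real.exp (t / 2) + Real.exp (-(t / 2))) / 2)) := by
      have e1 : Real.exp (t / 2) * Real.exp (t / 2) = Real.exp t := by rw [← Real.exp_add]; ring_nf
      have e2 : Real.exp (t / 2) * Real.exp (-(t / 2)) = 1 := by rw [← Real.exp_add]; simp
      nlinarith
    rw [h4, Real.exp_add]
    have h5 : (t / 2) ^ 2 / 2 = t ^ 2 / 8 := by ring
    rw [h5] at h3
    have := mul_le_mul_of_nonneg_left h3 (Real.exp_pos (t / 2)).le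
    linarith
  have h3 : ((N.choose k : ℕ) : ℝ) * Real.exp (t * k) ≤ (2 * Real.exp (t / 2 + t ^ 2 / 8)) ^ N :=
    h1.trans (pow_le_pow_left₀ (by positivity) h2 N)
  rw [mul_pow, ← Real.exp_nat_mul] at h3
  have h4 : ((N.choose k : ℕ) : ℝ) ≤ 2 ^ N * Real.exp (N * (t / 2 + t ^ 2 / 8)) * Real.exp (-(t * k)) := by
    rw [Real.exp_neg, ← div_eq_mul_inv, le_div_iff₀ (Real.exp_pos _)]
    exact h3
  refine h4.trans (le_of_eq ?_)
  rw [mul_assoc, ← Real.exp_add]
  congr 2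
  rw [ht]
  have hN0 : (N : ℝ) ≠ 0 := by linarith
  rw [hD]
  field_simp
  ring

/-- the size of the Hermite factor -/
def AA (n g m : ℕ) : ℝ :=
  (((n : ℝ) - 1) / (8 * g)) ^ m * ((2 * m).factorial : ℕ) / (2 * m + 1) ^ m * Real.exp m

/-- the polynomial of the basis in the variable `t` -/
def Ut (n g m : ℕ) : ℚ[X] := (W (8 * g / ((n : ℚ) - 1)) m).comp ((X + C (((n : ℚ) - 1) / 2)) ^ 2)

lemma supU (n h g m k : ℕ) (hn : 2 ≤ n) (hg : 1 ≤ g) (hgh : g ≤ h) (hm : 2 * m ≤ h * n) (hk : k < n)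
    (s : ℂ) (hs : ‖s‖ = 1) :
    ‖aeval (s + ((-(k : ℚ) : ℚ) : ℂ)) (Ut n g m)‖ ≤
      Real.exp (10 * h) * Real.exp (g * (2 * (((n : ℝ) - 1) / 2 - k) ^ 2 / ((n : ℝ) - 1))) * AA n g m := by
  set N : ℕ := n - 1 with hN
  have hNr : (n : ℝ) - 1 = N := by rw [hN, Nat.cast_sub (by omega)]; simp
  have hNq : (n : ℚ) - 1 = N := by rw [hN, Nat.cast_sub (by omega)]; simp
  have hN1 : (1 : ℝ) ≤ N := by
    have : 1 ≤ N := by omega
    exact_mod_cast this
  have hN1q : (0 : ℚ) < N := by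
    have : 1 ≤ N := by omega
    exact_mod_cast this
  have hgr : (1 : ℝ) ≤ g := by exact_mod_cast hg
  have hgq : (0 : ℚ) < g := by exact_mod_cast hg
  have hhr : (g : ℝ) ≤ h := by exact_mod_cast hgh
  have hkN : (k : ℝ) ≤ N := by
    have : k ≤ N := by omega
    exact_mod_cast this
  have hk0 : (0 : ℝ) ≤ k := Nat.cast_nonneg k
  unfold Ut AA
  rw [hNr, hNq]
  set κ : ℚ := 8 * g / (N : ℚ) with hκ
  have hκ0 : 0 < κ := by positivity
  have hκr : (κ : ℝ) = 8 * g / N := by rw [hκ]; push_cast; rfl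
  have hκ0r : (0 : ℝ) < κ := by exact_mod_cast hκ0
  set D : ℝ := (N : ℝ) / 2 - k with hD
  have hDN : |D| ≤ N / 2 := by rw [hD, abs_le]; constructor <;> linarith
  rw [aeval_comp]
  have e1 : aeval (s + ((-(k : ℚ) : ℚ) : ℂ)) ((X + C ((N : ℚ) / 2)) ^ 2) = (s + (D : ℂ)) ^ 2 := by
    rw [map_pow, map_add, aeval_X, aeval_C, hD]
    simp only [eq_ratCast]
    push_cast
    ring
  rw [e1, W_eval κ m hκ0, norm_div]
  set σ : ℝ := Real.sqrt κ with hσ
  have hσ2 : σ ^ 2 = κ := Real.sq_sqrt hκ0r.le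
  have hσ0 : 0 ≤ σ := Real.sqrt_nonneg _
  set R : ℝ := Real.sqrt (2 * m + 1) with hR
  have hR2 : R ^ 2 = 2 * m + 1 := Real.sq_sqrt (by positivity)
  have hR0 : 0 < R := Real.sqrt_pos.2 (by positivity)
  have hb := her_le ((σ : ℂ) * (s + (D : ℂ))) (2 * m) R hR0
  have hre : ((σ : ℂ) * (s + (D : ℂ))).re = σ * (s.re + D) := by
    rw [Complex.re_ofReal_mul, Complex.add_re, Complex.ofReal_re]
  have him : ((σ : ℂ) * (s + (D : ℂ))).im = σ * s.im := by
    rw [Complex.im_ofReal_mul, Complex.add_im, Complex.ofReal_im, add_zero]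
  have hsre : |s.re| ≤ 1 := hs ▸ Complex.abs_re_le_norm s
  have hsim : |s.im| ≤ 1 := hs ▸ Complex.abs_im_le_norm s
  rw [hre, him] at hb
  -- the exponent
  have h1 : (σ * (s.re + D)) ^ 2 / 4 ≤ g * (2 * D ^ 2 / N) + 4 * h := by
    rw [mul_pow, hσ2]
    have h2 : (s.re + D) ^ 2 ≤ D ^ 2 + (N + 1) := by
      have h3 : s.re * D ≤ N / 2 := by
        calc s.re * D ≤ |s.re * D| := le_abs_self _
          _ = |s.re| * |D| := abs_mul _ _
          _ ≤ 1 * (N / 2) := mul_le_mul hsre hDN (abs_nonneg _) (by norm_num)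
          _ = N / 2 := one_mul _
      have h4 : s.re ^ 2 ≤ 1 := by
        rw [← sq_abs]
        nlinarith [abs_nonneg s.re]
      nlinarith
    have h3 : (κ : ℝ) * (s.re + D) ^ 2 ≤ κ * (D ^ 2 + (N + 1)) := mul_le_mul_of_nonneg_left h2 hκ0r.le
    have h4 : (κ : ℝ) * (D ^ 2 + (N + 1)) / 4 = g * (2 * D ^ 2 / N) + 2 * g * ((N + 1) / N) := by
      rw [hκr]; field_simp; ring
    have h5 : ((N : ℝ) + 1) / N ≤ 2 := by
      rw [div_le_iff₀ (by linarith)]; linarith
    have h6 : 2 * (g : ℝ) * ((N + 1) / N) ≤ 2 * g * 2 := mul_le_mul_of_nonneg_left h5 (by linarith)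
    linarith
  have h2 : R * |σ * s.im| ≤ 5 * h := by
    rw [abs_mul, abs_of_nonneg hσ0]
    have h3 : R * (σ * |s.im|) ≤ R * σ := by
      apply mul_le_mul_of_nonneg_left _ hR0.le
      calc σ * |s.im| ≤ σ * 1 := mul_le_mul_of_nonneg_left hsim hσ0
        _ = σ := mul_one _
    refine h3.trans ?_
    apply le_of_sq_le_sq _ (by linarith) |>.trans le_rfl
    rw [mul_pow, hR2, hσ2, hκr]
    have h4 : (2 * (m : ℝ)) ≤ h * (N + 1) := by
      rw [← hNr]
      have : ((2 * m : ℕ) : ℝ) ≤ ((h * n : ℕ) : ℝ) := by exact_mod_cast hm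
      push_cast at this
      linarith
    have hh1 : (1 : ℝ) ≤ h := by linarith
    have h5 : (2 * (m : ℝ) + 1) ≤ 3 * h * N := by nlinarith
    rw [mul_div_assoc', div_le_iff₀ (by linarith)]
    calc (2 * (m : ℝ) + 1) * (8 * g) ≤ (3 * h * N) * (8 * h) :=
          mul_le_mul h5 (by linarith) (by positivity) (by positivity)
      _ ≤ (5 * h) ^ 2 * N := by nlinarith [mul_nonneg (mul_nonneg (by linarith : (0 : ℝ) ≤ h) (by linarith : (0 : ℝ) ≤ h)) (by linarith : (0 : ℝ) ≤ N)]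
  have h3 : (σ * (s.re + D)) ^ 2 / 4 + R ^ 2 / 2 + R * |σ * s.im| ≤
      10 * h + g * (2 * D ^ 2 / N) + m := by
    rw [hR2]
    have hh1 : (1 : ℝ) ≤ h := by linarith
    linarith
  have h4 : ‖(κ : ℂ) ^ m‖ = (κ : ℝ) ^ m := by
    rw [norm_pow]
    congr 1
    rw [← Complex.ofReal_ratCast, Complex.norm_real, Real.norm_eq_abs, abs_of_pos hκ0r]
  rw [h4, div_le_iff₀ (by positivity)]
  refine hb.trans ?_
  have h5 : R ^ (2 * m) = (2 * m + 1) ^ m := by rw [pow_mul, hR2]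
  rw [h5, div_le_iff₀ (by positivity)]
  have h6 : ((N : ℝ) / (8 * g)) ^ m * (κ : ℝ) ^ m = 1 := by
    rw [← mul_pow, hκr]
    rw [div_mul_div_comm, mul_comm, div_self (by positivity), one_pow]
  calc (((2 * m).factorial : ℕ) : ℝ) * Real.exp ((σ * (s.re + D)) ^ 2 / 4 + R ^ 2 / 2 + R * |σ * s.im|)
      ≤ (((2 * m).factorial : ℕ) : ℝ) * Real.exp (10 * h + g * (2 * D ^ 2 / N) + m) :=
        mul_le_mul_of_nonneg_left (Real.exp_le_exp.2 h3) (by positivity)
    _ = (((2 * m).factorial : ℕ) : ℝ) * (Real.exp (10 * h) * Real.exp (g * (2 * D ^ 2 / N)) * Real.exp m) := by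
        rw [Real.exp_add, Real.exp_add]
    _ = Real.exp (10 * h) * Real.exp (g * (2 * D ^ 2 / N)) *
          (1 * ((2 * m).factorial : ℕ) * Real.exp m) := by ring
    _ = Real.exp (10 * h) * Real.exp (g * (2 * D ^ 2 / N)) *
          (((N : ℝ) / (8 * g)) ^ m * (κ : ℝ) ^ m * ((2 * m).factorial : ℕ) * Real.exp m) := by rw [h6]
    _ = _ := by
        have : ((2 : ℝ) * m + 1) ^ m ≠ 0 := by positivity
        field_simp

end PB

end

end Pool.Agent.P8H2
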