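import Pool.Agent.P8H2.KB
import Pool.Agent.P8H2.PB4
import Pool.Agent.W165.OZ.CD

/-!
# The size of the conjugates, sharp form: the basis of products of Krawtchouk polynomials
-/

open Polynomial Pool.Agent.H337R2 Pool.Agent.W165.OZ

namespace Pool.Agent.P8H2

noncomputable section

namespace KR

/-- the pair `(K_(2m), K_(2m+1) / u)` as polynomials in `u ^ 2` -/
def EO (N : ℚ) : ℕ → ℚ[X] × ℚ[X]
  | 0 => (1, 1)
  | (m + 1) =>
    (X * (EO N m).2 - C ((2 * m + 1) * (N - 2 * m) / 4) * (EO N m).1,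
      X * (EO N m).2 - C ((2 * m + 1) * (N - 2 * m) / 4) * (EO N m).1 -
        C ((2 * m + 2) * (N - 2 * m - 1) / 4) * (EO N m).2)

lemma EO_monic (N : ℚ) (m : ℕ) : (EO N m).1.Monic ∧ (EO N m).1.natDegree = m ∧
    (EO N m).2.Monic ∧ (EO N m).2.natDegree = m := by
  induction m with
  | zero => simp [EO]
  | succ m ih =>
    obtain ⟨h1, h2, h3, h4⟩ := ih
    have hX : (X * (EO N m).2).Monic := monic_X.mul h3
    have hXd : (X * (EO N m).2).natDegree = m + 1 := by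
      rw [natDegree_X_mul h3.ne_zero, h4]
    have hC : ∀ (c : ℚ) (p : ℚ[X]), p.natDegree = m → (C c * p).natDegree ≤ m := by
      intro c p hp
      exact (natDegree_C_mul_le c p).trans hp.le
    have hE : (EO N (m + 1)).1.Monic ∧ (EO N (m + 1)).1.natDegree = m + 1 := by
      rw [EO]
      have hlt : (C ((2 * m + 1) * (N - 2 * m) / 4) * (EO N m).1).natDegree < (X * (EO N m).2).natDegree := by
        rw [hXd]
        exact lt_of_le_of_lt (hC _ _ h2) (Nat.lt_succ_self m)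
      refine ⟨hX.sub_of_left (degree_lt_degree hlt), ?_⟩
      rw [natDegree_sub_eq_left_of_natDegree_lt hlt, hXd]
    refine ⟨hE.1, hE.2, ?_⟩
    have e : (EO N (m + 1)).2 = (EO N (m + 1)).1 - C ((2 * m + 2) * (N - 2 * m - 1) / 4) * (EO N m).2 := by
      rw [EO]
    rw [e]
    have hlt : (C ((2 * m + 2) * (N - 2 * m - 1) / 4) * (EO N m).2).natDegree < (EO N (m + 1)).1.natDegree := by
      rw [hE.2]
      exact lt_of_le_of_lt (hC _ _ h4) (Nat.lt_succ_self m)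
    refine ⟨hE.1.sub_of_left (degree_lt_degree hlt), ?_⟩
    rw [natDegree_sub_eq_left_of_natDegree_lt hlt, hE.2]

lemma EO_eval (N : ℚ) (x : ℂ) (m : ℕ) :
    aeval ((x - N / 2) ^ 2) (EO N m).1 = kh (N : ℂ) x (2 * m) * ((2 * m).factorial : ℕ) / 4 ^ m ∧
    (x - N / 2) * aeval ((x - N / 2) ^ 2) (EO N m).2 =
      -(kh (N : ℂ) x (2 * m + 1) * ((2 * m + 1).factorial : ℕ) / (2 * 4 ^ m)) := by
  induction m with
  | zero =>
    simp [EO, kh]
    ring
  | succ m ih =>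
    obtain ⟨h1, h2⟩ := ih
    have r1 := kh_rec (N : ℂ) x (2 * m)
    have r2 := kh_rec (N : ℂ) x (2 * m + 1)
    have f1 : ((2 * m + 1).factorial : ℂ) = (2 * m + 1) * ((2 * m).factorial : ℂ) := by
      rw [Nat.factorial_succ]; push_cast; ring
    have f2 : ((2 * (m + 1)).factorial : ℂ) = (2 * m + 2) * ((2 * m + 1).factorial : ℂ) := by
      rw [show 2 * (m + 1) = (2 * m + 1) + 1 by ring, Nat.factorial_succ]; push_cast; ring
    have f3 : ((2 * (m + 1) + 1).factorial : ℂ) = (2 * m + 3) * ((2 * (m + 1)).factorial : ℂ) := by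
      rw [Nat.factorial_succ]; push_cast; ring
    have hE : aeval ((x - N / 2) ^ 2) (EO N (m + 1)).1 =
        kh (N : ℂ) x (2 * (m + 1)) * ((2 * (m + 1)).factorial : ℕ) / 4 ^ (m + 1) := by
      rw [EO]
      simp only [map_sub, map_mul, aeval_X, aeval_C]
      have e1 : (x - N / 2) ^ 2 * aeval ((x - (N : ℂ) / 2) ^ 2) (EO N m).2 =
          (x - N / 2) * -(kh (N : ℂ) x (2 * m + 1) * ((2 * m + 1).factorial : ℕ) / (2 * 4 ^ m)) := by
        rw [← h2]; ring
      rw [e1, h1]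
      have e2 : (algebraMap ℚ ℂ) ((2 * m + 1) * (N - 2 * m) / 4) = (2 * m + 1) * ((N : ℂ) - 2 * m) / 4 := by
        simp
      rw [e2]
      push_cast at r1 ⊢
      rw [f2, show 2 * (m + 1) = 2 * m + 2 by ring]
      have h4 : (4 : ℂ) ^ m ≠ 0 := pow_ne_zero _ (by norm_num)
      rw [pow_succ]
      field_simp
      rw [f1]
      linear_combination (-(4 * (2 * (m : ℂ) + 1) * ((2 * m).factorial : ℂ))) * r1
    refine ⟨hE, ?_⟩
    have e : (EO N (m + 1)).2 = (EO N (m + 1)).1 - C ((2 * m + 2) * (N - 2 * m - 1) / 4) * (EO N m).2 := by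
      rw [EO]
    rw [e, map_sub, map_mul, aeval_C, hE]
    have e2 : (algebraMap ℚ ℂ) ((2 * m + 2) * (N - 2 * m - 1) / 4) = (2 * m + 2) * ((N : ℂ) - 2 * m - 1) / 4 := by
      simp
    rw [e2, mul_sub, show (x - (N : ℂ) / 2) * ((2 * m + 2) * ((N : ℂ) - 2 * m - 1) / 4 *
      aeval ((x - (N : ℂ) / 2) ^ 2) (EO N m).2) = (2 * m + 2) * ((N : ℂ) - 2 * m - 1) / 4 *
      ((x - (N : ℂ) / 2) * aeval ((x - (N : ℂ) / 2) ^ 2) (EO N m).2) by ring, h2]
    push_cast at r2 ⊢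
    rw [f3, f2, show 2 * (m + 1) + 1 = 2 * m + 1 + 2 by ring, show 2 * (m + 1) = 2 * m + 1 + 1 by ring]
    have h4 : (4 : ℂ) ^ m ≠ 0 := pow_ne_zero _ (by norm_num)
    rw [pow_succ]
    field_simp
    linear_combination (((2 * m + 1).factorial : ℂ)) * r2

/-! ### Sums of integer parts -/

lemma sum_div (M i : ℕ) (hM : 1 ≤ M) : ∑ l ∈ Finset.range M, (i + l) / M = i := by
  induction i with
  | zero =>
    apply Finset.sum_eq_zero
    intro l hl
    rw [Finset.mem_range] at hl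
    rw [zero_add]
    exact Nat.div_eq_of_lt hl
  | succ i ih =>
    have h1 : ∑ l ∈ Finset.range M, (i + 1 + l) / M + i / M = ∑ l ∈ Finset.range M, (i + l) / M + (i + M) / M := by
      have e1 := Finset.sum_range_succ (fun l => (i + l) / M) M
      have e2 := Finset.sum_range_succ' (fun l => (i + l) / M) M
      rw [e1] at e2
      simp only [add_zero] at e2
      rw [e2]
      congr 1
      apply Finset.sum_congr rfl
      intro l _
      congr 1
      ring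
    rw [ih, Nat.add_div_right _ (by omega)] at h1
    omega

/-! ### The basis -/

/-- the factor in the variable `y` -/
def Ey (n m : ℕ) : ℚ[X] := (EO ((n : ℚ) - 1) m).1.comp (X + C ((((n : ℚ) - 1) / 2) ^ 2))

/-- the factor in the variable `t` -/
def Et (n m : ℕ) : ℚ[X] := (EO ((n : ℚ) - 1) m).1.comp ((X + C (((n : ℚ) - 1) / 2)) ^ 2)

lemma Ey_comp (n m : ℕ) : (Ey n m).comp (yp n) = Et n m := by
  unfold Ey Et
  rw [Polynomial.comp_assoc]
  congr 1
  rw [Polynomial.add_comp, Polynomial.X_comp, Polynomial.C_comp]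
  unfold yp
  have h2 : (C ((n : ℚ) - 1) : ℚ[X]) = C (((n : ℚ) - 1) / 2) + C (((n : ℚ) - 1) / 2) := by
    rw [← map_add]; congr 1; ring
  rw [h2, map_pow]
  ring

lemma Ey_monic (n m : ℕ) : (Ey n m).Monic := by
  unfold Ey
  apply (EO_monic _ m).1.comp (Polynomial.monic_X_add_C _)
  rw [Polynomial.natDegree_X_add_C]
  exact one_ne_zero

lemma Ey_natDegree (n m : ℕ) : (Ey n m).natDegree = m := by
  unfold Ey
  rw [Polynomial.natDegree_comp, Polynomial.natDegree_X_add_C, mul_one, (EO_monic _ m).2.1]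

/-- the degree of the factor number `l` of the element number `i` -/
def dg (h i l : ℕ) : ℕ := (i + l) / (2 * h)

/-- the basis -/
def Kb (h n i : ℕ) : ℚ[X] := ∏ l ∈ Finset.range (2 * h), Ey n (dg h i l)

lemma Kb_monic (h n i : ℕ) : (Kb h n i).Monic := monic_prod_of_monic _ _ fun l _ => Ey_monic n _

lemma Kb_natDegree (h n i : ℕ) (hh : 1 ≤ h) : (Kb h n i).natDegree = i := by
  unfold Kb
  rw [natDegree_prod_of_monic _ _ fun l _ => Ey_monic n _]
  simp only [Ey_natDegree, dg]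
  exact sum_div (2 * h) i (by omega)

/-- the element in the variable `t` -/
def Kt (h n i : ℕ) : ℚ[X] := ∏ l ∈ Finset.range (2 * h), Et n (dg h i l)

lemma Kb_comp (h n i : ℕ) : (Kb h n i).comp (yp n) = Kt h n i := by
  unfold Kb Kt
  rw [Polynomial.prod_comp]
  exact Finset.prod_congr rfl fun l _ => Ey_comp n _

/-- the bound for a factor -/
def BB (N m : ℕ) : ℝ :=
  ((2 * m).factorial : ℕ) / 4 ^ m * (2 * (2 * (m : ℝ) + 1) * N * Real.sqrt (2 ^ N * N.choose (2 * m)))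

lemma Et_bound (n k m : ℕ) (hn : 5 ≤ n) (hk : k < n) (hm : 4 * m ≤ n + 3) (s : ℂ) (hs : ‖s‖ = 1) :
    ‖aeval (s + ((-(k : ℚ) : ℚ) : ℂ)) (Et n m)‖ ≤ BB (n - 1) m / Real.sqrt ((n - 1).choose k) := by
  have hN : (((n - 1 : ℕ) : ℕ) : ℂ) = (((n : ℚ) - 1 : ℚ) : ℂ) := by
    rw [Nat.cast_sub (by omega)]; simp
  have e1 : aeval (s + ((-(k : ℚ) : ℚ) : ℂ)) (Et n m) =
      aeval ((((k : ℂ) + -s) - ((((n : ℚ) - 1 : ℚ)) : ℂ) / 2) ^ 2) (EO ((n : ℚ) - 1) m).1 := by
    unfold Et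
    rw [aeval_comp]
    congr 1
    simp only [map_pow, map_add, aeval_X, aeval_C]
    have : (algebraMap ℚ ℂ) (((n : ℚ) - 1) / 2) = ((((n : ℚ) - 1 : ℚ)) : ℂ) / 2 := by simp
    rw [this]
    push_cast
    ring
  rw [e1, (EO_eval ((n : ℚ) - 1) ((k : ℂ) + -s) m).1, ← hN, norm_div, norm_mul, norm_pow, Complex.norm_natCast]
  have h1 := kh_near (n - 1) k (2 * m) (by omega) (by omega) (by omega) (-s) (by rw [norm_neg]; exact hs.le)
  have h4 : ‖(4 : ℂ)‖ = 4 := by simp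
  rw [h4]
  unfold BB
  rw [Real.sqrt_div (by positivity)] at h1
  have hC : (0 : ℝ) < Real.sqrt ((n - 1).choose k) := by
    apply Real.sqrt_pos.2
    exact_mod_cast Nat.choose_pos (by omega : k ≤ n - 1)
  have h2 := mul_le_mul_of_nonneg_right h1 (show (0 : ℝ) ≤ ((2 * m).factorial : ℕ) / 4 ^ m by positivity)
  refine le_trans (le_of_eq ?_) (h2.trans (le_of_eq ?_))
  · rw [mul_div_assoc]
  · push_cast
    field_simp

lemma BB_pos (n h i l : ℕ) (hn : 5 ≤ n) (hd : 2 * dg h i l ≤ n - 1) : 0 < BB (n - 1) (dg h i l) := by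
  unfold BB
  have h1 : (0 : ℝ) < ((n - 1 : ℕ) : ℝ) := by exact_mod_cast (by omega : 0 < n - 1)
  have h2 : (0 : ℝ) < ((n - 1).choose (2 * dg h i l) : ℝ) := by exact_mod_cast Nat.choose_pos hd
  positivity

lemma dg_le (h ν i l : ℕ) (hh : 1 ≤ h) (hi : i < 5 * (h * ν)) (hl : l < 2 * h) :
    4 * dg h i l ≤ 10 * ν + 3 := by
  unfold dg
  have h1 : (i + l) / (2 * h) * (2 * h) ≤ i + l := Nat.div_mul_le_self _ _
  set q := (i + l) / (2 * h)
  by_contra hcon
  push Not at hcon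
  -- `4 q ≥ 10 ν + 4`
  have h2 : (10 * ν + 4) * h ≤ 4 * q * h := Nat.mul_le_mul_right _ (by omega)
  have e1 : (10 * ν + 4) * h = 10 * (h * ν) + 4 * h := by ring
  have e2 : 4 * q * h = 2 * (q * (2 * h)) := by ring
  rw [e1, e2] at h2
  omega

lemma dg_le' (h ν i l : ℕ) (hh : 1 ≤ h) (hν : 1 ≤ ν) (hi : i < 5 * (h * ν)) (hl : l < 2 * h) :
    2 * dg h i l ≤ 10 * ν - 1 := by
  have := dg_le h ν i l hh hi hl
  omega

/-- the size of the element number `i` of the basis -/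
def AAk (h ν i : ℕ) : ℝ :=
  (∏ l ∈ Finset.range (2 * h), BB (10 * ν - 1) (dg h i l)) / (((10 * ν - 1).factorial : ℕ) : ℝ) ^ h

lemma AAk_pos (h ν i : ℕ) (hh : 1 ≤ h) (hν : 1 ≤ ν) (hi : i < 5 * (h * ν)) : 0 < AAk h ν i := by
  unfold AAk
  apply div_pos
  · apply Finset.prod_pos
    intro l hl
    exact BB_pos (10 * ν) h i l (by omega) (dg_le' h ν i l hh hν hi (Finset.mem_range.1 hl))
  · positivity

lemma Kt_bound (h ν i k : ℕ) (hh : 1 ≤ h) (hν : 1 ≤ ν) (hi : i < 5 * (h * ν)) (hk : k < 10 * ν) (s : ℂ)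
    (hs : ‖s‖ = 1) :
    ‖aeval (s + ((-(k : ℚ) : ℚ) : ℂ)) (Kt h (10 * ν) i)‖ ≤
      (∏ l ∈ Finset.range (2 * h), BB (10 * ν - 1) (dg h i l)) / (((10 * ν - 1).choose k : ℕ) : ℝ) ^ h := by
  unfold Kt
  rw [map_prod, norm_prod]
  have h1 : ∏ l ∈ Finset.range (2 * h), ‖aeval (s + ((-(k : ℚ) : ℚ) : ℂ)) (Et (10 * ν) (dg h i l))‖ ≤
      ∏ l ∈ Finset.range (2 * h), (BB (10 * ν - 1) (dg h i l) / Real.sqrt ((10 * ν - 1).choose k)) := by
    apply Finset.prod_le_prod (fun _ _ => norm_nonneg _)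
    intro l hl
    exact Et_bound (10 * ν) k (dg h i l) (by omega) hk (dg_le h ν i l hh hi (Finset.mem_range.1 hl)) s hs
  refine h1.trans (le_of_eq ?_)
  rw [Finset.prod_div_distrib, Finset.prod_const, Finset.card_range, pow_mul, Real.sq_sqrt (Nat.cast_nonneg _)]

end KR

end

end Pool.Agent.P8H2
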