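import Pool.Agent.W165.OZ.Stm2

/-!
# The degree of the field generated by odd zeta values: the statements of the parts

Everything is about the Hankel determinant `DH (mo n h 1 1 z) (h n / 2)` of `W165.OZ` with `B = 1`, `w = 1`.
-/

open Polynomial Pool.Agent.H337R2 Filter Topology Pool.Agent.W165.OZ

namespace Pool.Agent.P8H2

noncomputable section

/-- the trivial weight -/
abbrev w1 : ℕ → ℤ := fun _ => 1

/-- T: the size of the real determinant -/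
def S_T (h : ℕ) (t : ℝ) : Prop := ∀ ε : ℝ, 0 < ε → ∃ n0 : ℕ, ∀ n ≥ n0, 10 ∣ n →
  0 < DH (mo (A := ℝ) n h 1 w1 zz) (h * n / 2) ∧
  DH (mo (A := ℝ) n h 1 w1 zz) (h * n / 2) ≤
    Real.exp ((t + ε - (1 / 2) * Real.log n) * ((h : ℝ) * n) ^ 2)

/-- P: the size of the conjugates -/
def S_P (h : ℕ) (c : ℝ) : Prop := ∀ Z ε : ℝ, 0 < ε → ∃ n0 : ℕ, ∀ n ≥ n0, 10 ∣ n →
  ∀ z : ℕ → ℂ, (∀ i, ‖z i‖ ≤ Z) →
    ‖DH (mo n h 1 w1 z) (h * n / 2)‖ ≤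
      Real.exp ((c + ε - (1 / 2) * Real.log n) * ((h : ℝ) * n) ^ 2)

/-- A: the arithmetic part -/
def S_A (h : ℕ) (α : ℝ) : Prop := ∀ ε : ℝ, 0 < ε → ∃ n0 : ℕ, ∀ n ≥ n0, 10 ∣ n →
  ∃ X : ℚ, 0 < X ∧ Real.log X ≤ (α + ε + (1 / 2) * Real.log n) * ((h : ℝ) * n) ^ 2 ∧
  ∀ (K : Type) [Field K] [Algebra ℚ K] [FiniteDimensional ℚ K]
    (z : ℕ → K) (q : ℕ), 1 ≤ q → (∀ i, IsIntegral ℤ ((q : K) * z i)) →
    DH (mo n h 1 w1 z) (h * n / 2) ≠ 0 →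
    1 ≤ |Algebra.norm ℚ (algebraMap ℚ K ((q : ℚ) ^ (h * n / 2) * X) * DH (mo n h 1 w1 z) (h * n / 2))|

end

end Pool.Agent.P8H2
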