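import Pool.Agent.P8H2.KC
import Pool.Agent.W165.OZ.BAS
import Pool.Agent.P8H2.Stm

/-!
# The size of the conjugates, sharp form: the partial fraction coefficients and the determinant
-/

open Polynomial Pool.Agent.H337R2 Pool.Agent.W165.OZ Pool.Agent.P8H2.PB

namespace Pool.Agent.P8H2

noncomputable section

namespace KR

/-- the power series at the pole `k` -/
def fk (h ν k i j : ℕ) : PowerSeries ℚ :=
  TS (-(k : ℚ)) (CB.ll (10 * ν)) * TS (-(k : ℚ)) (Kt h (10 * ν) i) *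
    TS (-(k : ℚ)) (Kt h (10 * ν) j) *
    ∏ m ∈ (Finset.range (10 * ν)).erase k, Pool.Agent.H337R2.iv (-(k : ℚ) + m) ^ (2 * h)

lemma seriesK (h ν i j k : ℕ) :
    TS (-(k : ℚ)) (num (10 * ν) (Kb h (10 * ν) i * Kb h (10 * ν) j)) * VV ((sP (10 * ν)).erase k) (mP h) (-(k : ℚ)) =
      fk h ν k i j := by
  unfold num VV fk
  rw [Polynomial.mul_comp, Kb_comp, Kb_comp]
  change TS (-(k : ℚ)) (CB.ll (10 * ν) * _) * _ = _
  rw [map_mul, map_mul]
  rw [mul_assoc (TS (-(k : ℚ)) (CB.ll (10 * ν))) (TS (-(k : ℚ)) (Kt h (10 * ν) i))]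

/-- the norm of `fk` -/
lemma NB_fk (h ν k i j : ℕ) (hk : k < 10 * ν) (A B : ℝ)
    (hA : ∀ s : ℂ, ‖s‖ = 1 → ‖aeval (s + ((-(k : ℚ) : ℚ) : ℂ)) (Kt h (10 * ν) i)‖ ≤ A)
    (hB : ∀ s : ℂ, ‖s‖ = 1 → ‖aeval (s + ((-(k : ℚ) : ℚ) : ℂ)) (Kt h (10 * ν) j)‖ ≤ B) :
    NB (((10 * ν : ℕ) : ℝ) * (2 * A) * (2 * B) *
      (∏ m ∈ (Finset.range (10 * ν)).erase k, (1 / (|((-(k : ℚ) + m : ℚ) : ℝ)| - 1 / 2))) ^ (2 * h))
      (R (fk h ν k i j)) := by
  unfold fk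
  rw [show R (TS (-(k : ℚ)) (CB.ll (10 * ν)) * TS (-(k : ℚ)) (Kt h (10 * ν) i) *
    TS (-(k : ℚ)) (Kt h (10 * ν) j) *
    ∏ m ∈ (Finset.range (10 * ν)).erase k, Pool.Agent.H337R2.iv (-(k : ℚ) + m) ^ (2 * h)) =
    R (TS (-(k : ℚ)) (CB.ll (10 * ν))) * R (TS (-(k : ℚ)) (Kt h (10 * ν) i)) *
    R (TS (-(k : ℚ)) (Kt h (10 * ν) j)) *
    ∏ m ∈ (Finset.range (10 * ν)).erase k, R (Pool.Agent.H337R2.iv (-(k : ℚ) + m)) ^ (2 * h) by
      simp only [R, map_mul, map_prod, map_pow]]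
  have h0 := NB.of_AB (CB.AB_ll (10 * ν) k hk)
  have h0' : NB ((10 * ν : ℕ) : ℝ) (R (TS (-(k : ℚ)) (CB.ll (10 * ν)))) := by
    convert h0 using 1
    push_cast
    rfl
  refine ((h0'.mul (NB.TS _ _ A hA)).mul (NB.TS _ _ B hB)).mul ?_
  rw [← Finset.prod_pow]
  apply NB.prod
  intro m hm
  apply NB.pow
  apply NB.iv
  have h1 : m ≠ k := Finset.ne_of_mem_erase hm
  have h2 : (-(k : ℤ) + m) ≠ 0 := by
    intro h
    apply h1
    omega
  have h3 := Int.one_le_abs h2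
  have h4 : ((1 : ℤ) : ℚ) ≤ ((|-(k : ℤ) + m| : ℤ) : ℚ) := by exact_mod_cast h3
  push_cast at h4
  exact h4

/-- the error factor -/
def K3 (h n : ℕ) : ℝ := 2 ^ (2 * h) * (n * 4 * (4 * (n : ℝ) ^ 2) ^ (2 * h))

lemma K3_nonneg (h n : ℕ) : 0 ≤ K3 h n := by
  unfold K3
  positivity

lemma pa_leK (h ν k i j ι : ℕ) (hh : 1 ≤ h) (hν : 1 ≤ ν) (hk : k < 10 * ν) (hi : i < 5 * (h * ν))
    (hj : j < 5 * (h * ν)) (hι : ι ≤ 2 * h) :
    |((pa (sP (10 * ν)) (mP h) (num (10 * ν) (Kb h (10 * ν) i * Kb h (10 * ν) j)) k ι : ℚ) : ℝ)| ≤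
      K3 h (10 * ν) * (AAk h ν i * AAk h ν j) := by
  set n := 10 * ν with hn
  have hAi := fun s hs => Kt_bound h ν i k hh hν hi hk s hs
  have hAj := fun s hs => Kt_bound h ν j k hh hν hj hk s hs
  have hNB := NB_fk h ν k i j hk _ _ hAi hAj
  rw [← hn] at hNB
  set Pi : ℝ := ∏ l ∈ Finset.range (2 * h), BB (n - 1) (dg h i l) with hPi
  set Pj : ℝ := ∏ l ∈ Finset.range (2 * h), BB (n - 1) (dg h j l) with hPj
  have hnr : (1 : ℝ) ≤ n := by exact_mod_cast (by omega : 1 ≤ n)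
  -- the product
  have hprod := erase_le n k hk
  set Pr : ℝ := ∏ m ∈ (Finset.range n).erase k, (1 / (|((-(k : ℚ) + m : ℚ) : ℝ)| - 1 / 2)) with hPr
  have hPr0 : 0 ≤ Pr := by
    apply Finset.prod_nonneg
    intro m hm
    have h1 : m ≠ k := Finset.ne_of_mem_erase hm
    have h2 : (-(k : ℤ) + m) ≠ 0 := by
      intro h
      apply h1
      omega
    have h3 := Int.one_le_abs h2
    have h4 : ((1 : ℤ) : ℝ) ≤ ((|-(k : ℤ) + m| : ℤ) : ℝ) := by exact_mod_cast h3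
    push_cast at h4 ⊢
    have h5 : (0 : ℝ) < |-(k : ℝ) + m| - 1 / 2 := by linarith
    positivity
  have hC0 : (0 : ℝ) < (((n - 1).choose k : ℕ) : ℝ) :=
    Nat.cast_pos.2 (Nat.choose_pos (by omega : k ≤ n - 1))
  set Cc : ℝ := (((n - 1).choose k : ℕ) : ℝ) with hCc
  set Fa : ℝ := (((n - 1).factorial : ℕ) : ℝ) with hFa
  have hF0 : 0 < Fa := by
    rw [hFa]; exact_mod_cast Nat.factorial_pos _
  have hBi : 0 ≤ Pi := by
    have := AAk_pos h ν i hh hν hi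
    unfold AAk at this
    rw [← hn, ← hFa, ← hPi] at this
    exact ((div_pos_iff_of_pos_right (by positivity)).1 this).le
  have hBj : 0 ≤ Pj := by
    have := AAk_pos h ν j hh hν hj
    unfold AAk at this
    rw [← hn, ← hFa, ← hPj] at this
    exact ((div_pos_iff_of_pos_right (by positivity)).1 this).le
  -- the coefficient
  have hser := seriesK h ν i j k
  rw [← hn] at hser
  have hcoef : |((pa (sP n) (mP h) (num n (Kb h n i * Kb h n j)) k ι : ℚ) : ℝ)| ≤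
      2 ^ (2 * h) * ((n : ℝ) * (2 * (Pi / Cc ^ h)) * (2 * (Pj / Cc ^ h)) * Pr ^ (2 * h)) := by
    have hnn := hNB.nonneg
    unfold pa
    rw [if_pos (by simpa using hι)]
    unfold pfc
    rw [hser, ← R_coeff]
    refine (hNB.coeff_le _).trans ?_
    apply mul_le_mul_of_nonneg_right _ hnn
    apply pow_le_pow_right₀ (by norm_num)
    have hmP : mP h k = 2 * h := rfl
    omega
  refine hcoef.trans ?_
  unfold K3 AAk
  rw [← hn, ← hFa, ← hPi, ← hPj]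
  have hPrw : Pr ^ (2 * h) ≤ (4 * (n : ℝ) ^ 2 * Cc / Fa) ^ (2 * h) := pow_le_pow_left₀ hPr0 hprod _
  calc 2 ^ (2 * h) * ((n : ℝ) * (2 * (Pi / Cc ^ h)) * (2 * (Pj / Cc ^ h)) * Pr ^ (2 * h))
      ≤ 2 ^ (2 * h) * ((n : ℝ) * (2 * (Pi / Cc ^ h)) * (2 * (Pj / Cc ^ h)) * (4 * (n : ℝ) ^ 2 * Cc / Fa) ^ (2 * h)) := by
        gcongr
    _ = _ := by
        rw [div_pow, mul_pow (4 * (n : ℝ) ^ 2) Cc, two_mul h, pow_add Cc, pow_add Fa]
        field_simp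
        ring

/-- the bound for the normalised entries -/
def K4 (h n : ℕ) (Z : ℝ) : ℝ := (2 * h * (Z + 1)) * (n : ℝ) ^ 2 * K3 h n

lemma det_boundK (h ν : ℕ) (hh : 1 ≤ h) (hν : 1 ≤ ν) (Z : ℝ) (hZ : 0 ≤ Z) (z : ℕ → ℂ)
    (hz : ∀ i, ‖z i‖ ≤ Z) :
    ‖DH (mo (10 * ν) h 1 w1 z) (5 * (h * ν))‖ ≤
      ((5 * (h * ν)).factorial : ℕ) * K4 h (10 * ν) Z ^ (5 * (h * ν)) *
        ∏ i ∈ Finset.range (5 * (h * ν)), AAk h ν i ^ 2 := by
  set r := 5 * (h * ν) with hr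
  set n := 10 * ν with hn
  have e1 : DH (mo n h 1 w1 z) r = Matrix.det (Matrix.of fun i j : Fin r =>
      LaL n h 1 w1 z (Kb h n i * Kb h n j)) :=
    (t_bas ℚ ℂ (LaL n h 1 w1 z) (Kb h n) (fun i => Kb_monic h n i)
      (fun i => Kb_natDegree h n i hh) r).symm
  set c : Fin r → ℂ := fun i => ((AAk h ν i.1 : ℝ) : ℂ) with hc
  have hc0 : ∀ i, c i ≠ 0 := by
    intro i
    rw [hc]
    simp only [ne_eq, Complex.ofReal_eq_zero]
    exact (AAk_pos h ν i.1 hh hν i.2).ne'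
  set Bm : Matrix (Fin r) (Fin r) ℂ := Matrix.of fun i j =>
    LaL n h 1 w1 z (Kb h n i.1 * Kb h n j.1) / (c i * c j) with hBm
  have e2 : (Matrix.of fun i j : Fin r => LaL n h 1 w1 z (Kb h n i.1 * Kb h n j.1)) =
      Matrix.of fun i j : Fin r => c i * (Matrix.of fun i j : Fin r => c j * Bm i j) i j := by
    ext i j
    simp only [Matrix.of_apply, hBm]
    have h1 := hc0 i
    have h2 := hc0 j
    field_simp
  have e3 : DH (mo n h 1 w1 z) r = (∏ i : Fin r, c i) * ((∏ i : Fin r, c i) * Bm.det) := by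
    rw [e1, e2, Matrix.det_mul_column, Matrix.det_mul_row]
  have hent : ∀ i j : Fin r, ‖Bm i j‖ ≤ K4 h n Z := by
    intro i j
    rw [hBm, Matrix.of_apply, norm_div, norm_mul]
    have hi0 := AAk_pos h ν i.1 hh hν i.2
    have hj0 := AAk_pos h ν j.1 hh hν j.2
    have n1 : ‖c i‖ = AAk h ν i.1 := by
      rw [hc]; simp only [Complex.norm_real, Real.norm_eq_abs]; exact abs_of_pos hi0
    have n2 : ‖c j‖ = AAk h ν j.1 := by
      rw [hc]; simp only [Complex.norm_real, Real.norm_eq_abs]; exact abs_of_pos hj0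
    rw [n1, n2, div_le_iff₀ (by positivity)]
    have h1 := CDaux.entry (n := n) (h := h) (B := 1) w1 le_rfl 1
      (num n (Kb h n i.1 * Kb h n j.1)) (K3 h n * (AAk h ν i.1 * AAk h ν j.1))
      (by have := K3_nonneg h n; positivity)
      (fun k ι hk _ hι2 => by
        rw [one_mul]
        exact pa_leK h ν k i.1 j.1 ι hh hν hk i.2 j.2 hι2)
      z Z hZ hz (by omega)
    rw [map_one, one_mul] at h1
    change ‖La n h 1 w1 z (num n (Kb h n i.1 * Kb h n j.1))‖ ≤ _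
    refine h1.trans (le_of_eq ?_)
    unfold K4 CDaux.Wn
    simp
    ring
  have hdet := Matrix.det_le (abv := NormedField.toAbsoluteValue ℂ) (fun i j => hent i j)
  rw [Fintype.card_fin, nsmul_eq_mul] at hdet
  change ‖Bm.det‖ ≤ _ at hdet
  rw [e3, norm_mul, norm_mul, norm_prod]
  have h4 : ∏ i : Fin r, ‖c i‖ = ∏ i ∈ Finset.range r, AAk h ν i := by
    rw [Finset.prod_range]
    refine Finset.prod_congr rfl fun i _ => ?_
    rw [hc]; simp only [Complex.norm_real, Real.norm_eq_abs]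
    exact abs_of_pos (AAk_pos h ν i.1 hh hν i.2)
  rw [h4, Finset.prod_pow]
  have hP : 0 ≤ ∏ i ∈ Finset.range r, AAk h ν i :=
    Finset.prod_nonneg fun i hi => (AAk_pos h ν i hh hν (Finset.mem_range.1 hi)).le
  calc (∏ i ∈ Finset.range r, AAk h ν i) * ((∏ i ∈ Finset.range r, AAk h ν i) * ‖Bm.det‖)
      ≤ (∏ i ∈ Finset.range r, AAk h ν i) * ((∏ i ∈ Finset.range r, AAk h ν i) *
          (((r.factorial : ℕ) : ℝ) * K4 h n Z ^ r)) := by
        gcongr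
    _ = _ := by ring

end KR

end

end Pool.Agent.P8H2
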