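import Pool.Agent.P8H2.PB7

/-!
# The size of the conjugates: the sum over the basis
-/

open Polynomial Pool.Agent.H337R2 Pool.Agent.W165.OZ

namespace Pool.Agent.P8H2

noncomputable section

namespace PB

lemma sum_mul (f : ℕ → ℝ) (b s : ℕ) :
    ∑ x ∈ Finset.range (b * s), f x = ∑ c ∈ Finset.range b, ∑ j ∈ Finset.range s, f (c * s + j) := by
  induction b with
  | zero => simp
  | succ b ih =>
    rw [Nat.succ_mul, Finset.sum_range_add, ih, Finset.sum_range_succ]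

lemma ai_first (h ν i : ℕ) (hi : i < 2 * h * ν) : ai h ν i = 0 := by
  unfold ai
  rw [Nat.sub_eq_zero_of_le hi.le]
  simp

lemma ai_block (h ν b j : ℕ) (hν : 1 ≤ ν) (hb : b < h) (hj : j < 3 * ν) :
    ai h ν (2 * h * ν + (b * (3 * ν) + j)) = b := by
  unfold ai
  rw [Nat.add_sub_cancel_left]
  have h1 : (b * (3 * ν) + j) / (3 * ν) = b := by
    rw [mul_comm b, Nat.mul_add_div (by omega), Nat.div_eq_of_lt hj, add_zero]
  rw [h1]
  omega

lemma split (h ν : ℕ) (hν : 1 ≤ ν) (F : ℕ → ℕ → ℝ) :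
    ∑ i ∈ Finset.range (5 * (h * ν)), F (gi h ν i) (mi h ν i) =
      ∑ i ∈ Finset.range (2 * h * ν), F h (0 + i) +
        ∑ b ∈ Finset.range h, ∑ j ∈ Finset.range (3 * ν), F (b + 1) (2 * (b + 1) * ν + j) := by
  rw [show 5 * (h * ν) = 2 * h * ν + h * (3 * ν) by ring, Finset.sum_range_add,
    sum_mul (fun x => F (gi h ν (2 * h * ν + x)) (mi h ν (2 * h * ν + x))) h (3 * ν)]
  congr 1
  · refine Finset.sum_congr rfl fun i hi => ?_
    rw [Finset.mem_range] at hi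
    unfold gi mi
    rw [ai_first h ν i hi]
    simp
  · rw [← Finset.sum_range_reflect (fun b => ∑ j ∈ Finset.range (3 * ν), F (b + 1) (2 * (b + 1) * ν + j))]
    refine Finset.sum_congr rfl fun b hb => ?_
    rw [Finset.mem_range] at hb
    refine Finset.sum_congr rfl fun j hj => ?_
    rw [Finset.mem_range] at hj
    unfold gi mi
    rw [ai_block h ν b j hν hb hj]
    obtain ⟨g, hg⟩ : ∃ g, h = b + g := ⟨h - b, by omega⟩
    have e1 : h - b = g := by omega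
    have e2 : h - 1 - b + 1 = g := by omega
    rw [e1, e2, hg]
    congr 1
    have e3 : 2 * (b + g) * ν + (b * (3 * ν) + j) = 2 * g * ν + j + b * (5 * ν) := by ring
    rw [e3]
    omega

/-- the constant of the first segment, divided by `h ^ 2` -/
def s0 : ℝ := (2 / 5) * (1 + Real.log 2) - 3 / 50 - Real.log 20 / 25

/-- the constant of a block -/
def pb (g : ℕ) : ℝ :=
  (3 / 5) * g * (1 + Real.log 2) - ((12 * g + 9) / 100) * (3 / 2 + Real.log 20) +
    ((2 * g + 3) ^ 2 / 100) * Real.log ((2 * g + 3) / (2 * g))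

/-- the constant -/
def PP (h : ℕ) : ℝ := (h : ℝ) ^ 2 * s0 + ∑ b ∈ Finset.range h, pb (b + 1)

lemma GG_eq (ν : ℕ) (hν : 1 ≤ ν) (c : ℝ) (hc : 0 < c) :
    GG (c * ν) = (c ^ 2 / 100) * ((10 * ν : ℕ) : ℝ) ^ 2 *
      (Real.log ((10 * ν : ℕ) : ℝ) + Real.log c - Real.log 10) := by
  have h1 : (0 : ℝ) < ν := by exact_mod_cast hν
  unfold GG
  push_cast
  rw [Real.log_mul hc.ne' h1.ne', Real.log_mul (by norm_num) h1.ne']
  ring

lemma log20 : Real.log 20 = Real.log 2 + Real.log 10 := by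
  rw [← Real.log_mul (by norm_num) (by norm_num)]; norm_num

lemma block_eq (ν g : ℕ) (hν : 1 ≤ ν) (hg : 1 ≤ g) :
    ∑ j ∈ Finset.range (3 * ν), ell (Real.log ((10 * ν : ℕ) : ℝ)) ((10 * ν : ℕ) : ℝ) g (2 * g * ν + j) ≤
      ((10 * ν : ℕ) : ℝ) ^ 2 * (((18 - 36 * g) / 100) * Real.log ((10 * ν : ℕ) : ℝ) + pb g) +
        (Real.log (4 * g) + 1) * (3 * ν) + 1 / 2 := by
  have h1 : (1 : ℝ) ≤ ν := by exact_mod_cast hν
  have hgr : (1 : ℝ) ≤ g := by exact_mod_cast hg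
  have hL : 0 ≤ Real.log ((10 * ν : ℕ) : ℝ) := Real.log_nonneg (by push_cast; linarith)
  refine (block _ _ g (2 * g * ν) (3 * ν) hg hL).trans (le_of_eq ?_)
  push_cast
  have e1 : (2 * (g : ℝ) * ν + 3 * ν) = (2 * g + 3) * ν := by ring
  have g1 := GG_eq ν hν (2 * g + 3) (by positivity)
  have g2 := GG_eq ν hν (2 * g) (by positivity)
  push_cast at g1 g2
  rw [e1, g1, g2]
  unfold pb
  rw [Real.log_div (by positivity) (by positivity), log20]
  have e4 : Real.log (4 * g) = Real.log 2 + Real.log (2 * g) := by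
    rw [← Real.log_mul (by norm_num) (by positivity)]; congr 1; ring
  rw [e4]
  ring

lemma first_eq (ν h : ℕ) (hν : 1 ≤ ν) (hh : 1 ≤ h) :
    ∑ j ∈ Finset.range (2 * h * ν), ell (Real.log ((10 * ν : ℕ) : ℝ)) ((10 * ν : ℕ) : ℝ) h (0 + j) ≤
      ((10 * ν : ℕ) : ℝ) ^ 2 * (-(8 / 25) * (h : ℝ) ^ 2 * Real.log ((10 * ν : ℕ) : ℝ) + (h : ℝ) ^ 2 * s0) +
        (Real.log (4 * h) + 1) * (2 * h * ν) + 1 / 2 := by
  have h1 : (1 : ℝ) ≤ ν := by exact_mod_cast hν
  have hgr : (1 : ℝ) ≤ h := by exact_mod_cast hh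
  have hL : 0 ≤ Real.log ((10 * ν : ℕ) : ℝ) := Real.log_nonneg (by push_cast; linarith)
  refine (block _ _ h 0 (2 * h * ν) hh hL).trans (le_of_eq ?_)
  push_cast
  have g2 := GG_eq ν hν (2 * h) (by positivity)
  have g0 : GG 0 = 0 := by unfold GG; simp
  push_cast at g2
  rw [zero_add, g2, g0]
  unfold s0
  rw [log20]
  have e4 : Real.log (4 * h) = Real.log 2 + Real.log (2 * h) := by
    rw [← Real.log_mul (by norm_num) (by positivity)]; congr 1; ring
  rw [e4]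
  ring

lemma total (ν h : ℕ) (hν : 1 ≤ ν) (hh : 1 ≤ h) :
    ∑ i ∈ Finset.range (5 * (h * ν)),
        ell (Real.log ((10 * ν : ℕ) : ℝ)) ((10 * ν : ℕ) : ℝ) (gi h ν i) (mi h ν i) ≤
      ((10 * ν : ℕ) : ℝ) ^ 2 * (-(1 / 2) * (h : ℝ) ^ 2 * Real.log ((10 * ν : ℕ) : ℝ) + PP h) +
        (Real.log (4 * h) + 1) * (5 * h * ν) + (h + 1) / 2 := by
  rw [split h ν hν (fun g m => ell (Real.log ((10 * ν : ℕ) : ℝ)) ((10 * ν : ℕ) : ℝ) g m)]
  have h1 := first_eq ν h hν hh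
  have hνr : (1 : ℝ) ≤ ν := by exact_mod_cast hν
  have h2 : ∑ b ∈ Finset.range h, ∑ j ∈ Finset.range (3 * ν),
      ell (Real.log ((10 * ν : ℕ) : ℝ)) ((10 * ν : ℕ) : ℝ) (b + 1) (2 * (b + 1) * ν + j) ≤
      ∑ b ∈ Finset.range h, (((10 * ν : ℕ) : ℝ) ^ 2 * (((18 - 36 * ((b : ℝ) + 1)) / 100) *
        Real.log ((10 * ν : ℕ) : ℝ) + pb (b + 1)) + ((Real.log (4 * h) + 1) * (3 * ν) + 1 / 2)) := by
    refine Finset.sum_le_sum fun b hb => ?_
    rw [Finset.mem_range] at hb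
    have h3 := block_eq ν (b + 1) hν (by omega)
    refine h3.trans ?_
    have h4 : Real.log (4 * ((b + 1 : ℕ) : ℝ)) ≤ Real.log (4 * h) := by
      apply Real.log_le_log (by positivity)
      have : ((b + 1 : ℕ) : ℝ) ≤ h := by exact_mod_cast hb
      linarith
    have h5 : (Real.log (4 * ((b + 1 : ℕ) : ℝ)) + 1) * (3 * ν) ≤ (Real.log (4 * h) + 1) * (3 * ν) :=
      mul_le_mul_of_nonneg_right (by linarith) (by positivity)
    have e : ((b + 1 : ℕ) : ℝ) = (b : ℝ) + 1 := by push_cast; rfl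
    rw [e] at h5 ⊢
    linarith
  have h3 : ∀ m : ℕ, ∑ b ∈ Finset.range m, (((10 * ν : ℕ) : ℝ) ^ 2 * (((18 - 36 * ((b : ℝ) + 1)) / 100) *
        Real.log ((10 * ν : ℕ) : ℝ) + pb (b + 1)) + ((Real.log (4 * h) + 1) * (3 * ν) + 1 / 2)) =
      ((10 * ν : ℕ) : ℝ) ^ 2 * (-(9 / 50) * (m : ℝ) ^ 2 * Real.log ((10 * ν : ℕ) : ℝ) +
        ∑ b ∈ Finset.range m, pb (b + 1)) + m * ((Real.log (4 * h) + 1) * (3 * ν) + 1 / 2) := by
    intro m
    induction m with
    | zero => simp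
    | succ m ih =>
      rw [Finset.sum_range_succ, ih, Finset.sum_range_succ]
      push_cast
      ring
  rw [h3 h] at h2
  unfold PP
  refine (add_le_add h1 h2).trans (le_of_eq ?_)
  ring

/-! ### The numerical inequality -/

lemma pade (x : ℝ) (hx : 0 ≤ x) : Real.log (1 + x) ≤ x * (6 + x) / (6 + 4 * x) := by
  have hmono : MonotoneOn (fun y : ℝ => y * (6 + y) / (6 + 4 * y) - Real.log (1 + y)) (Set.Ici 0) := by
    have hd : ∀ y : ℝ, 0 ≤ y → HasDerivAt (fun y : ℝ => y * (6 + y) / (6 + 4 * y) - Real.log (1 + y))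
        (((1 * (6 + y) + y * 1) * (6 + 4 * y) - y * (6 + y) * (4 * 1)) / (6 + 4 * y) ^ 2 - 1 / (1 + y)) y := by
      intro y hy
      have d1 : HasDerivAt (fun y : ℝ => y) 1 y := hasDerivAt_id y
      have d2 : HasDerivAt (fun y : ℝ => 6 + y) 1 y := d1.const_add 6
      have d3 : HasDerivAt (fun y : ℝ => 6 + 4 * y) (4 * 1) y := (d1.const_mul 4).const_add 6
      have d4 : HasDerivAt (fun y : ℝ => 1 + y) 1 y := d1.const_add 1
      have h6 : (6 + 4 * y) ≠ 0 := by positivity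
      have h7 : (1 + y) ≠ 0 := by positivity
      exact ((d1.mul d2).div d3 h6).sub (d4.log h7)
    apply monotoneOn_of_deriv_nonneg (convex_Ici 0)
    · intro y hy
      exact (hd y hy).continuousAt.continuousWithinAt
    · intro y hy
      rw [interior_Ici] at hy
      exact (hd y (le_of_lt hy)).differentiableAt.differentiableWithinAt
    · intro y hy
      rw [interior_Ici] at hy
      have hy0 : 0 ≤ y := le_of_lt hy
      rw [(hd y hy0).deriv, sub_nonneg, div_le_div_iff₀ (by positivity) (by positivity)]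
      nlinarith [pow_nonneg hy0 3]
  have h1 := hmono (Set.self_mem_Ici) (Set.mem_Ici.2 hx) hx
  simp at h1
  linarith

lemma log5 : 1.60934 ≤ Real.log 5 := by
  have h1 : Real.log 5 * 3 = 7 * Real.log 2 - Real.log (128 / 125) := by
    rw [Real.log_div (by norm_num) (by norm_num), show (128 : ℝ) = 2 ^ 7 by norm_num,
      show (125 : ℝ) = 5 ^ 3 by norm_num, Real.log_pow, Real.log_pow]
    push_cast
    ring
  have h2 : Real.log (128 / 125) ≤ 0.024 := by
    have := Real.log_le_sub_one_of_pos (show (0 : ℝ) < 128 / 125 by norm_num)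
    linarith
  have h3 := Real.log_two_gt_d9
  linarith

/-- a rational upper bound for a block -/
def ub (g : ℕ) : ℝ := 1.47128 * g - 0.90204 + (2 * (g : ℝ) + 3) ^ 2 * (12 * g + 3) / (800 * g * (g + 1))

lemma pb_le (g : ℕ) (hg : 1 ≤ g) : pb g + s0 * (2 * g - 1) ≤ ub g := by
  have hgr : (1 : ℝ) ≤ g := by exact_mod_cast hg
  unfold pb s0 ub
  have h1 := pade (3 / (2 * g)) (by positivity)
  have e1 : 1 + 3 / (2 * (g : ℝ)) = (2 * g + 3) / (2 * g) := by field_simp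
  have e2 : 3 / (2 * (g : ℝ)) * (6 + 3 / (2 * g)) / (6 + 4 * (3 / (2 * g))) = (12 * g + 3) / (8 * g * (g + 1)) := by
    field_simp
    ring
  rw [e1, e2] at h1
  have h2 : ((2 * (g : ℝ) + 3) ^ 2 / 100) * Real.log ((2 * g + 3) / (2 * g)) ≤
      (2 * (g : ℝ) + 3) ^ 2 * (12 * g + 3) / (800 * g * (g + 1)) := by
    refine (mul_le_mul_of_nonneg_left h1 (by positivity)).trans (le_of_eq ?_)
    field_simp
    ring
  have h3 : Real.log 20 = 2 * Real.log 2 + Real.log 5 := by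
    rw [show (20 : ℝ) = 2 ^ 2 * 5 by norm_num, Real.log_mul (by norm_num) (by norm_num), Real.log_pow]
    norm_num
  have h4 := log5
  have h5 := Real.log_two_lt_d9
  rw [h3]
  have h6 : ((g : ℝ) - 1 / 2) * Real.log 2 ≤ (g - 1 / 2) * 0.6931471808 :=
    mul_le_mul_of_nonneg_left h5.le (by linarith)
  have h7 : (20 * (g : ℝ) + 5) / 100 * 1.60934 ≤ (20 * (g : ℝ) + 5) / 100 * Real.log 5 :=
    mul_le_mul_of_nonneg_left h4 (by positivity)
  nlinarith

lemma PP_le (h : ℕ) : PP h ≤ ∑ b ∈ Finset.range h, ub (b + 1) := by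
  unfold PP
  induction h with
  | zero => simp
  | succ h ih =>
    rw [Finset.sum_range_succ, Finset.sum_range_succ]
    have h1 := pb_le (h + 1) (by omega)
    push_cast at h1 ih ⊢
    nlinarith

lemma ub_le (g : ℕ) (hg : 1 ≤ g) : ub g ≤ 383 / 500 * (2 * g - 1) + 1 / 25 := by
  have hgr : (1 : ℝ) ≤ g := by exact_mod_cast hg
  unfold ub
  have h1 : (2 * (g : ℝ) + 3) ^ 2 * (12 * g + 3) / (800 * g * (g + 1)) ≤ 0.06 * g + 0.135 + (0.00072 * g + 0.04104) := by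
    rw [div_le_iff₀ (by positivity)]
    nlinarith [mul_nonneg (by linarith : (0 : ℝ) ≤ g - 1) (by linarith : (0 : ℝ) ≤ g),
      mul_nonneg (mul_nonneg (by linarith : (0 : ℝ) ≤ g - 1) (by linarith : (0 : ℝ) ≤ g)) (by linarith : (0 : ℝ) ≤ g)]
  linarith

lemma ub_le' (g : ℕ) (hg : 9 ≤ g) : ub g ≤ 383 / 500 * (2 * g - 1) + 1 / 100 := by
  have hgr : (9 : ℝ) ≤ g := by exact_mod_cast hg
  unfold ub
  have h1 : (2 * (g : ℝ) + 3) ^ 2 * (12 * g + 3) / (800 * g * (g + 1)) ≤ 0.06 * g + 0.135 + (0.00072 * g + 0.01104) := by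
    rw [div_le_iff₀ (by positivity)]
    nlinarith [mul_nonneg (by linarith : (0 : ℝ) ≤ g - 9) (by linarith : (0 : ℝ) ≤ g),
      mul_nonneg (mul_nonneg (by linarith : (0 : ℝ) ≤ g - 9) (by linarith : (0 : ℝ) ≤ g)) (by linarith : (0 : ℝ) ≤ g)]
  linarith

lemma sum_ub (h : ℕ) : ∑ b ∈ Finset.range h, ub (b + 1) ≤ 383 / 500 * (h : ℝ) ^ 2 + h / 25 := by
  induction h with
  | zero => simp
  | succ h ih =>
    rw [Finset.sum_range_succ]
    have h1 := ub_le (h + 1) (by omega)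
    push_cast at h1 ⊢
    nlinarith

lemma sum_ub' (h : ℕ) (hh : 8 ≤ h) : ∑ b ∈ Finset.range h, ub (b + 1) ≤ 383 / 500 * (h : ℝ) ^ 2 + h / 100 := by
  induction h, hh using Nat.le_induction with
  | base =>
    simp only [Finset.sum_range_succ, Finset.sum_range_zero, ub]
    norm_num
  | succ h hh ih =>
    rw [Finset.sum_range_succ]
    have h1 := ub_le' (h + 1) (by omega)
    push_cast at h1 ⊢
    nlinarith

end PB

end

end Pool.Agent.P8H2
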