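import Pool.Agent.P8H2.KD
import Pool.Agent.P8H2.PB8

/-!
# The size of the conjugates, sharp form: logarithms and the sum over the basis
-/

open Polynomial Pool.Agent.H337R2 Pool.Agent.W165.OZ Filter Topology

namespace Pool.Agent.P8H2

noncomputable section

namespace KR

/-- the main term of a factor -/
def fm (N j : ℕ) : ℝ :=
  Real.log (j.factorial : ℕ) - Real.log ((N - j).factorial : ℕ) + ((N : ℝ) - 2 * j) * Real.log 2

lemma fm_succ (N j : ℕ) (hj : j + 1 ≤ N) :
    fm N (j + 1) = fm N j + Real.log ((j : ℝ) + 1) + Real.log ((N : ℝ) - j) - 2 * Real.log 2 := by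
  unfold fm
  obtain ⟨k, hk⟩ : ∃ k, N = j + 1 + k := ⟨N - (j + 1), by omega⟩
  subst hk
  have e1 : j + 1 + k - (j + 1) = k := by omega
  have e2 : j + 1 + k - j = k + 1 := by omega
  rw [e1, e2, Nat.factorial_succ j, Nat.factorial_succ k]
  push_cast
  rw [Real.log_mul (by positivity) (by positivity), Real.log_mul (by positivity) (by positivity)]
  have e3 : ((j : ℝ) + 1 + k) - j = k + 1 := by ring
  rw [e3]
  ring

lemma fm_mono (N j : ℕ) (hj : j + 1 ≤ N) (hN : 4 ≤ N) : fm N j ≤ fm N (j + 1) := by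
  rw [fm_succ N j hj]
  have h1 : (j : ℝ) + 1 ≤ N := by exact_mod_cast hj
  have h2 : (4 : ℝ) ≤ N := by exact_mod_cast hN
  have h0 : (0 : ℝ) ≤ j := Nat.cast_nonneg j
  have h3 : 2 * Real.log 2 ≤ Real.log ((j : ℝ) + 1) + Real.log ((N : ℝ) - j) := by
    rw [← Real.log_mul (by positivity) (by linarith), show 2 * Real.log 2 = Real.log (2 ^ 2) by
      rw [Real.log_pow]; push_cast; ring]
    apply Real.log_le_log (by norm_num)
    nlinarith
  linarith

lemma fm_step (N j : ℕ) (hj : j + 1 ≤ N) : fm N (j + 1) ≤ fm N j + 2 * Real.log (N + 1) := by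
  rw [fm_succ N j hj]
  have h1 : (j : ℝ) + 1 ≤ N := by exact_mod_cast hj
  have h0 : (0 : ℝ) ≤ j := Nat.cast_nonneg j
  have h2 : Real.log ((j : ℝ) + 1) ≤ Real.log (N + 1) := Real.log_le_log (by positivity) (by linarith)
  have h3 : Real.log ((N : ℝ) - j) ≤ Real.log (N + 1) := Real.log_le_log (by linarith) (by linarith)
  have h4 : 0 ≤ Real.log 2 := Real.log_nonneg (by norm_num)
  linarith

/-- the logarithm of a factor -/
lemma log_BB (N m : ℕ) (hN : 1 ≤ N) (hm : 2 * m ≤ N) :
    2 * Real.log (BB N m) - Real.log (N.factorial : ℕ) ≤ fm N (2 * m) + 2 * Real.log (2 * (N + 1) ^ 2) := by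
  have hN1 : (1 : ℝ) ≤ N := by exact_mod_cast hN
  have hm1 : 2 * (m : ℝ) ≤ N := by exact_mod_cast hm
  have hC : (0 : ℝ) < N.choose (2 * m) := by exact_mod_cast Nat.choose_pos hm
  have h1 : Real.log (BB N m) = Real.log ((2 * m).factorial : ℕ) - m * Real.log 4 +
      (Real.log (2 * (2 * (m : ℝ) + 1) * N) + (N * Real.log 2 + Real.log (N.choose (2 * m))) / 2) := by
    unfold BB
    rw [Real.log_mul (by positivity) (by positivity), Real.log_div (by positivity) (by positivity), Real.log_pow,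
      Real.log_mul (x := 2 * (2 * (m : ℝ) + 1) * N) (by positivity) (by positivity), Real.log_sqrt (by positivity),
      Real.log_mul (x := (2 : ℝ) ^ N) (by positivity) (by positivity), Real.log_pow]
  have h2 : Real.log (N.choose (2 * m)) = Real.log (N.factorial : ℕ) - Real.log ((2 * m).factorial : ℕ) -
      Real.log ((N - 2 * m).factorial : ℕ) := by
    have h3 := Nat.choose_mul_factorial_mul_factorial hm
    have h4 : (N.choose (2 * m) : ℝ) * ((2 * m).factorial : ℕ) * ((N - 2 * m).factorial : ℕ) = (N.factorial : ℕ) := by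
      exact_mod_cast h3
    rw [← h4, Real.log_mul (by positivity) (by positivity), Real.log_mul (by positivity) (by positivity)]
    ring
  have h3 : Real.log 4 = 2 * Real.log 2 := by
    rw [show (4 : ℝ) = 2 ^ 2 by norm_num, Real.log_pow]; push_cast; ring
  have h4 : Real.log (2 * (2 * (m : ℝ) + 1) * N) ≤ Real.log (2 * (N + 1) ^ 2) := by
    apply Real.log_le_log (by positivity)
    nlinarith
  rw [h1, h2, h3]
  unfold fm
  push_cast
  linarith

/-- the logarithm of an element of the basis -/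
lemma log_AAk (h ν i : ℕ) (hh : 1 ≤ h) (hν : 1 ≤ ν) (hi : i < 5 * (h * ν)) :
    Real.log (AAk h ν i ^ 2) ≤ 2 * h * fm (10 * ν - 1) (2 * (i / (2 * h))) +
      2 * h * (4 * Real.log ((10 * ν : ℕ) : ℝ) + 2 * Real.log (2 * ((10 * ν : ℕ) : ℝ) ^ 2)) := by
  set N := 10 * ν - 1 with hN
  have hNn : (N : ℝ) + 1 = ((10 * ν : ℕ) : ℝ) := by
    have : N + 1 = 10 * ν := by omega
    exact_mod_cast this
  have hlogn : 0 ≤ Real.log (N + 1) := Real.log_nonneg (by have : (0 : ℝ) ≤ N := Nat.cast_nonneg N; linarith)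
  have hpos : ∀ l ∈ Finset.range (2 * h), 0 < BB N (dg h i l) := fun l hl =>
    BB_pos (10 * ν) h i l (by omega) (dg_le' h ν i l hh hν hi (Finset.mem_range.1 hl))
  unfold AAk
  rw [← hN, Real.log_pow, Real.log_div (Finset.prod_pos hpos).ne' (by positivity), Real.log_pow,
    Real.log_prod (fun l hl => (hpos l hl).ne')]
  have h1 : ∀ l ∈ Finset.range (2 * h), 2 * Real.log (BB N (dg h i l)) - Real.log (N.factorial : ℕ) ≤
      fm N (2 * (i / (2 * h))) + (4 * Real.log (N + 1) + 2 * Real.log (2 * (N + 1) ^ 2)) := by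
    intro l hl
    rw [Finset.mem_range] at hl
    have h2 := log_BB N (dg h i l) (by omega) (dg_le' h ν i l hh hν hi hl)
    have h3 : dg h i l = i / (2 * h) ∨ dg h i l = i / (2 * h) + 1 := by
      unfold dg
      have a1 : i / (2 * h) ≤ (i + l) / (2 * h) := Nat.div_le_div_right (by omega)
      have a2 : (i + l) / (2 * h) ≤ (i + 2 * h) / (2 * h) := Nat.div_le_div_right (by omega)
      rw [Nat.add_div_right _ (by omega)] at a2
      omega
    rcases h3 with h3 | h3
    · rw [h3] at h2 ⊢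
      linarith
    · have h4 := dg_le' h ν i l hh hν hi hl
      rw [h3] at h2 h4 ⊢
      have h5 := fm_step N (2 * (i / (2 * h))) (by omega)
      have h6 := fm_step N (2 * (i / (2 * h)) + 1) (by omega)
      rw [show 2 * (i / (2 * h) + 1) = 2 * (i / (2 * h)) + 1 + 1 by ring] at h2
      linarith
  have h2 := Finset.sum_le_sum h1
  rw [Finset.sum_const, Finset.card_range, nsmul_eq_mul, Finset.sum_sub_distrib, Finset.sum_const,
    Finset.card_range, nsmul_eq_mul, ← Finset.mul_sum] at h2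
  rw [← hNn]
  push_cast at h2 ⊢
  nlinarith

/-! ### Superfactorials -/

/-- the logarithm of the superfactorial -/
def SF (m : ℕ) : ℝ := ∑ j ∈ Finset.range m, Real.log (j.factorial : ℕ)

lemma SF_le (m : ℕ) : SF m ≤ (m : ℝ) ^ 2 / 2 * Real.log m - 3 / 4 * (m : ℝ) ^ 2 + m * Real.log (m + 1) + 5 / 4 * m := by
  induction m with
  | zero => simp [SF]
  | succ m ih =>
    unfold SF at ih ⊢
    rw [Finset.sum_range_succ]
    have h1 := PB.fact_le m
    push_cast
    have hm0 : (0 : ℝ) ≤ m := Nat.cast_nonneg m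
    have h2 : Real.log ((m : ℝ) + 1) ≤ Real.log (m + 1 + 1) := Real.log_le_log (by positivity) (by linarith)
    rcases Nat.eq_zero_or_pos m with h0 | h0
    · subst h0
      simp
      have := Real.log_two_gt_d9
      linarith
    have hm : (1 : ℝ) ≤ m := by exact_mod_cast h0
    have h3 : 1 / ((m : ℝ) + 1) ≤ Real.log (m + 1) - Real.log m := by
      have h2 := Real.one_sub_inv_le_log_of_pos (show (0 : ℝ) < (m + 1) / m by positivity)
      rw [inv_div, Real.log_div (by positivity) (by positivity)] at h2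
      have : 1 - (m : ℝ) / (m + 1) = 1 / (m + 1) := by field_simp; ring
      linarith
    have h4 : (m : ℝ) ^ 2 / 2 * (1 / (m + 1)) ≤ (m : ℝ) ^ 2 / 2 * (Real.log (m + 1) - Real.log m) :=
      mul_le_mul_of_nonneg_left h3 (by positivity)
    have h5 : (m : ℝ) / 2 - 1 / 2 ≤ (m : ℝ) ^ 2 / 2 * (1 / (m + 1)) := by
      rw [mul_one_div, div_div, le_div_iff₀ (by positivity)]
      nlinarith
    have h6 : 0 ≤ Real.log ((m : ℝ) + 1) := Real.log_nonneg (by linarith)
    have h7 : ((m : ℝ) + 1) * Real.log (m + 1) ≤ (m + 1) * Real.log (m + 1 + 1) :=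
      mul_le_mul_of_nonneg_left h2 (by positivity)
    nlinarith

lemma le_SF (m : ℕ) : (m : ℝ) ^ 2 / 2 * Real.log m - 3 / 4 * (m : ℝ) ^ 2 - m * Real.log (m + 1) - m ≤ SF m := by
  induction m with
  | zero => simp [SF]
  | succ m ih =>
    unfold SF at ih ⊢
    rw [Finset.sum_range_succ]
    have h1 := PB.le_fact m
    push_cast
    have hm0 : (0 : ℝ) ≤ m := Nat.cast_nonneg m
    have h2 : Real.log ((m : ℝ) + 1) ≤ Real.log (m + 1 + 1) := Real.log_le_log (by positivity) (by linarith)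
    rcases Nat.eq_zero_or_pos m with h0 | h0
    · subst h0
      simp
      have := Real.log_two_gt_d9
      linarith
    have hm : (1 : ℝ) ≤ m := by exact_mod_cast h0
    have h3 : Real.log (m + 1) - Real.log m ≤ 1 / (m : ℝ) := by
      have h2 := Real.log_le_sub_one_of_pos (show (0 : ℝ) < (m + 1) / m by positivity)
      rw [Real.log_div (by positivity) (by positivity)] at h2
      have : ((m : ℝ) + 1) / m - 1 = 1 / m := by field_simp; ring
      linarith
    have h4 : ((m : ℝ) + 1) ^ 2 / 2 * (Real.log (m + 1) - Real.log m) ≤ ((m : ℝ) + 1) ^ 2 / 2 * (1 / m) :=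
      mul_le_mul_of_nonneg_left h3 (by positivity)
    have h5 : ((m : ℝ) + 1) ^ 2 / 2 * (1 / m) ≤ m / 2 + 1 + 1 / 2 := by
      rw [mul_one_div, div_div, div_le_iff₀ (by positivity)]
      nlinarith
    have h6 : Real.log (m : ℝ) ≤ Real.log ((m : ℝ) + 1) := Real.log_le_log (by positivity) (by linarith)
    have h6' : 0 ≤ Real.log (m : ℝ) := Real.log_nonneg hm
    have h7 : ((m : ℝ) + 1) * Real.log (m + 1) ≤ (m + 1) * Real.log (m + 1 + 1) :=
      mul_le_mul_of_nonneg_left h2 (by positivity)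
    nlinarith

/-- the sum of the main terms -/
def TT (ν : ℕ) : ℝ := ∑ j ∈ Finset.range (5 * ν), fm (10 * ν - 1) j

lemma TT_eq (ν : ℕ) (hν : 1 ≤ ν) : TT ν = 2 * SF (5 * ν) - SF (10 * ν) + 25 * (ν : ℝ) ^ 2 * Real.log 2 := by
  unfold TT fm
  rw [Finset.sum_add_distrib, Finset.sum_sub_distrib]
  have h1 : ∑ j ∈ Finset.range (5 * ν), Real.log ((10 * ν - 1 - j).factorial : ℕ) = SF (10 * ν) - SF (5 * ν) := by
    unfold SF
    have h2 := Finset.sum_range_add (fun j => Real.log (j.factorial : ℕ)) (5 * ν) (5 * ν)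
    rw [show 5 * ν + 5 * ν = 10 * ν by ring] at h2
    rw [h2, add_sub_cancel_left]
    rw [← Finset.sum_range_reflect (fun j => Real.log ((5 * ν + j).factorial : ℕ))]
    apply Finset.sum_congr rfl
    intro j hj
    rw [Finset.mem_range] at hj
    congr 3
    omega
  have h2 : ∀ m : ℕ, ∑ j ∈ Finset.range m, (((10 * ν - 1 : ℕ) : ℝ) - 2 * (j : ℕ)) * Real.log 2 =
      (m * ((10 * ν - 1 : ℕ) : ℝ) - m * (m - 1)) * Real.log 2 := by
    intro m
    induction m with
    | zero => simp
    | succ m ih =>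
      rw [Finset.sum_range_succ, ih]
      push_cast
      ring
  rw [h1, h2]
  have h3 : ((10 * ν - 1 : ℕ) : ℝ) = 10 * ν - 1 := by
    rw [Nat.cast_sub (by omega)]; push_cast; ring
  rw [h3]
  unfold SF
  push_cast
  ring

/-- the error of the sum -/
def er (n : ℝ) : ℝ := 4 * n * Real.log (n + 1) + 5 * n

lemma TT_le (ν : ℕ) (hν : 1 ≤ ν) :
    TT ν ≤ ((10 * ν : ℕ) : ℝ) ^ 2 * (3 / 8 - 1 / 4 * Real.log ((10 * ν : ℕ) : ℝ)) + er ((10 * ν : ℕ) : ℝ) := by
  have h1 := SF_le (5 * ν)
  have h2 := le_SF (10 * ν)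
  have hν1 : (1 : ℝ) ≤ ν := by exact_mod_cast hν
  rw [TT_eq ν hν]
  unfold er
  have h3 : Real.log ((5 * ν : ℕ) : ℝ) = Real.log ((10 * ν : ℕ) : ℝ) - Real.log 2 := by
    rw [← Real.log_div (by positivity) (by norm_num)]
    congr 1
    push_cast
    ring
  have h4 : Real.log (((5 * ν : ℕ) : ℝ) + 1) ≤ Real.log (((10 * ν : ℕ) : ℝ) + 1) := by
    apply Real.log_le_log (by positivity)
    push_cast
    linarith
  have h4' : 0 ≤ Real.log (((10 * ν : ℕ) : ℝ) + 1) := Real.log_nonneg (by push_cast; linarith)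
  rw [h3] at h1
  have h5 := mul_le_mul_of_nonneg_left h4 (show (0 : ℝ) ≤ ((5 * ν : ℕ) : ℝ) by positivity)
  push_cast at *
  nlinarith

lemma sum_fm (h ν : ℕ) (hh : 1 ≤ h) (hν : 1 ≤ ν) :
    ∑ i ∈ Finset.range (5 * (h * ν)), fm (10 * ν - 1) (2 * (i / (2 * h))) ≤
      h * (TT ν + Real.log ((10 * ν : ℕ) : ℝ)) := by
  set N := 10 * ν - 1 with hN
  have hν1 : (1 : ℝ) ≤ ν := by exact_mod_cast hν
  have hhr : (1 : ℝ) ≤ h := by exact_mod_cast hh
  -- the value at the middle
  have hmid : fm N (5 * ν - 1) = Real.log 2 - Real.log ((5 * ν : ℕ) : ℝ) := by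
    unfold fm
    have e1 : N - (5 * ν - 1) = 5 * ν := by omega
    obtain ⟨m, hm⟩ : ∃ m, 5 * ν = m + 1 := ⟨5 * ν - 1, by omega⟩
    rw [e1, hm, Nat.add_sub_cancel, Nat.factorial_succ]
    push_cast
    rw [Real.log_mul (by positivity) (by positivity)]
    have e2 : (N : ℝ) = 2 * m + 1 := by
      have : N = 2 * m + 1 := by omega
      rw [this]; push_cast; ring
    rw [e2]
    ring
  have hmid0 : fm N (5 * ν - 1) ≤ 0 := by
    rw [hmid, sub_nonpos]
    apply Real.log_le_log (by norm_num)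
    push_cast
    linarith
  have hmid1 : -fm N (5 * ν - 1) ≤ Real.log ((10 * ν : ℕ) : ℝ) := by
    rw [hmid]
    have h1 : Real.log ((5 * ν : ℕ) : ℝ) ≤ Real.log ((10 * ν : ℕ) : ℝ) := by
      apply Real.log_le_log (by positivity)
      push_cast
      linarith
    have h2 := Real.log_two_gt_d9
    linarith
  have hlog : 0 ≤ Real.log ((10 * ν : ℕ) : ℝ) := by
    apply Real.log_nonneg
    push_cast
    linarith
  -- full groups
  have hfull : ∀ Q : ℕ, 2 * Q ≤ 5 * ν → ∑ i ∈ Finset.range (Q * (2 * h)), fm N (2 * (i / (2 * h))) ≤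
      h * ∑ j ∈ Finset.range (2 * Q), fm N j := by
    intro Q
    induction Q with
    | zero => simp
    | succ Q ih =>
      intro hQ
      have ih' := ih (by omega)
      rw [Nat.succ_mul, Finset.sum_range_add, show 2 * (Q + 1) = 2 * Q + 1 + 1 by ring, Finset.sum_range_succ _ (2 * Q + 1),
        Finset.sum_range_succ _ (2 * Q)]
      have h1 : ∀ l ∈ Finset.range (2 * h), fm N (2 * ((Q * (2 * h) + l) / (2 * h))) = fm N (2 * Q) := by
        intro l hl
        rw [Finset.mem_range] at hl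
        rw [mul_comm Q, Nat.mul_add_div (by omega), Nat.div_eq_of_lt hl, add_zero]
      rw [Finset.sum_congr rfl h1, Finset.sum_const, Finset.card_range, nsmul_eq_mul]
      have h2 := fm_mono N (2 * Q) (by omega) (by omega)
      push_cast
      nlinarith
  rcases Nat.even_or_odd ν with ⟨w, hw⟩ | ⟨w, hw⟩
  · have e1 : 5 * (h * ν) = (5 * w) * (2 * h) := by rw [hw]; ring
    have h1 := hfull (5 * w) (by omega)
    have e2 : 2 * (5 * w) = 5 * ν := by rw [hw]; ring
    rw [e2] at h1
    rw [e1]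
    refine h1.trans ?_
    unfold TT
    rw [← hN]
    nlinarith
  · have e1 : 5 * (h * ν) = (5 * w + 2) * (2 * h) + h := by rw [hw]; ring
    have h1 := hfull (5 * w + 2) (by omega)
    have e2 : 2 * (5 * w + 2) = 5 * ν - 1 := by omega
    rw [e2] at h1
    rw [e1, Finset.sum_range_add]
    have h2 : ∑ x ∈ Finset.range h, fm N (2 * (((5 * w + 2) * (2 * h) + x) / (2 * h))) ≤ 0 := by
      apply Finset.sum_nonpos
      intro l hl
      rw [Finset.mem_range] at hl
      rw [mul_comm (5 * w + 2), Nat.mul_add_div (by omega), Nat.div_eq_of_lt (by omega), add_zero, e2]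
      exact hmid0
    have h3 : TT ν = ∑ j ∈ Finset.range (5 * ν - 1), fm N j + fm N (5 * ν - 1) := by
      unfold TT
      rw [← hN, ← Finset.sum_range_succ]
      congr 2
      omega
    rw [h3]
    nlinarith

end KR

end

end Pool.Agent.P8H2
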