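import Pool.Agent.P8H2.Stm
import Pool.Agent.W165.OZ.MB

/-!
# The degree of the field generated by odd zeta values: the main inequality
-/

open Polynomial Pool.Agent.H337R2 Pool.Agent.W165.OZ Filter Topology

namespace Pool.Agent.P8H2

noncomputable section

theorem main_ineq (h D : ℕ) (hh : 1 ≤ h) (hD : 1 ≤ D) (t c α : ℝ) (hT : S_T h t) (hP : S_P h c) (hA : S_A h α)
    (hca : 0 ≤ c + α) (hneg : t + α + ((D : ℝ) - 1) * (c + α) < 0)
    (K : Type) [Field K] [Algebra ℚ K] [FiniteDimensional ℚ K] (φ : K →ₐ[ℚ] ℝ)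
    (hfin : Module.finrank ℚ K ≤ D) :
    ∃ i : ℕ, 3 ≤ i ∧ i ≤ 2 * h ∧ Odd i ∧ ∀ y : K, φ y ≠ zr i := by
  classical
  by_contra hcon
  push Not at hcon
  -- values in the field
  have hval : ∀ i, ∃ y : K, (Odd i → 3 ≤ i → i ≤ 2 * h → φ y = zr i) ∧
      (¬ (Odd i ∧ 3 ≤ i) → y = 0) ∧ (2 * h < i → y = 0) := by
    intro i
    by_cases hc : Odd i ∧ 3 ≤ i ∧ i ≤ 2 * h
    · obtain ⟨y, hy⟩ := hcon i hc.2.1 hc.2.2 hc.1
      exact ⟨y, fun _ _ _ => hy, fun hx => absurd ⟨hc.1, hc.2.1⟩ hx, fun hx => by omega⟩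
    · exact ⟨0, fun a b c => absurd ⟨a, b, c⟩ hc, fun _ => rfl, fun _ => rfl⟩
  choose z hz1 hz0 hz2 using hval
  choose a ha1 ha2 using fun i => mb_int (z i)
  obtain ⟨q, hqdef⟩ : ∃ q : ℕ, q = ∏ i ∈ Finset.range (2 * h + 1), a i := ⟨_, rfl⟩
  have hq : 1 ≤ q := by
    rw [hqdef]
    refine Nat.one_le_iff_ne_zero.2 (Finset.prod_ne_zero_iff.2 fun i _ => ?_)
    have := ha1 i
    omega
  have hqz : ∀ i, IsIntegral ℤ ((q : K) * z i) := by
    intro i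
    by_cases hi : i ≤ 2 * h
    · have hd : a i ∣ q := by
        rw [hqdef]
        exact Finset.dvd_prod_of_mem _ (Finset.mem_range.2 (by omega))
      obtain ⟨e, he⟩ := hd
      have e1 : (q : K) * z i = ((e : ℕ) : K) * ((a i : K) * z i) := by
        rw [he]; push_cast; ring
      rw [e1]
      refine IsIntegral.mul ?_ (ha2 i)
      have : ((e : ℕ) : K) = algebraMap ℤ K (e : ℤ) := by simp
      rw [this]
      exact isIntegral_algebraMap
    · rw [hz2 i (by omega), mul_zero]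
      exact isIntegral_zero
  have hcast : ∀ n k, mo (A := ℝ) n h 1 w1 zz k = mo (A := ℝ) n h 1 w1 (fun i => φ (z i)) k :=
    fun n k => mb_mo_eq n h 1 w1 ∅ (fun i => φ (z i)) (fun i hi => by simp at hi)
      (fun i h1 h2 h3 _ => hz1 i h1 h2 h3) (fun i hi => by rw [hz0 i hi, map_zero]) k
  -- the bound for the conjugates of the values
  obtain ⟨Z, hZ⟩ : ∃ Z : ℝ, ∀ (σ : K →ₐ[ℚ] ℂ) (i : ℕ), ‖σ (z i)‖ ≤ Z := by
    refine ⟨∑ σ : K →ₐ[ℚ] ℂ, ∑ i ∈ Finset.range (2 * h + 1), ‖σ (z i)‖, fun σ i => ?_⟩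
    have hnn : 0 ≤ ∑ i ∈ Finset.range (2 * h + 1), ‖σ (z i)‖ :=
      Finset.sum_nonneg fun _ _ => norm_nonneg _
    have e1 : ∑ i ∈ Finset.range (2 * h + 1), ‖σ (z i)‖ ≤
        ∑ σ : K →ₐ[ℚ] ℂ, ∑ i ∈ Finset.range (2 * h + 1), ‖σ (z i)‖ :=
      Finset.single_le_sum (f := fun σ : K →ₐ[ℚ] ℂ => ∑ i ∈ Finset.range (2 * h + 1), ‖σ (z i)‖)
        (fun σ _ => Finset.sum_nonneg fun _ _ => norm_nonneg _) (Finset.mem_univ σ)
    refine le_trans ?_ e1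
    by_cases hi : i ≤ 2 * h
    · exact Finset.single_le_sum (f := fun i => ‖σ (z i)‖) (fun _ _ => norm_nonneg _)
        (Finset.mem_range.2 (by omega))
    · rw [hz2 i (by omega), map_zero, norm_zero]
      exact hnn
  -- the choice of `ε` and `n`
  have hD1 : (1 : ℝ) ≤ D := by exact_mod_cast hD
  obtain ⟨κ, hκ⟩ : ∃ κ : ℝ, κ = -(t + α + ((D : ℝ) - 1) * (c + α)) := ⟨_, rfl⟩
  have hκ0 : 0 < κ := by linarith
  obtain ⟨ε, hε⟩ : ∃ ε : ℝ, ε = κ / (4 * D) := ⟨_, rfl⟩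
  have hε0 : 0 < ε := by rw [hε]; positivity
  have hεD : 4 * D * ε = κ := by rw [hε]; field_simp
  obtain ⟨n0, hn0⟩ := hT ε hε0
  obtain ⟨n1, hn1⟩ := hP Z ε hε0
  obtain ⟨n2, hn2⟩ := hA ε hε0
  obtain ⟨n3, hn3⟩ : ∃ n3 : ℕ, Real.log q / ε ≤ n3 := exists_nat_ge _
  obtain ⟨n, hndef⟩ : ∃ n, n = 10 * (n0 + n1 + n2 + n3 + 1) := ⟨_, rfl⟩
  have h10 : 10 ∣ n := ⟨_, hndef⟩
  obtain ⟨g1, g2⟩ := hn0 n (by omega) h10
  have g3 := hn1 n (by omega) h10
  obtain ⟨X, hX0, hX1, hX2⟩ := hn2 n (by omega) h10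
  obtain ⟨r, hr⟩ : ∃ r, h * n / 2 = r := ⟨_, rfl⟩
  rw [hr] at g1 g2 g3 hX2
  have hnr : (0 : ℝ) < n := by
    have : 0 < n := by omega
    exact_mod_cast this
  have hhr : (1 : ℝ) ≤ h := by exact_mod_cast hh
  obtain ⟨N, hN⟩ : ∃ N : ℝ, N = ((h : ℝ) * n) ^ 2 := ⟨_, rfl⟩
  have hN0 : 0 < N := by rw [hN]; positivity
  rw [← hN] at g2 g3 hX1
  have hlq : 0 ≤ Real.log q := Real.log_nonneg (by exact_mod_cast hq)
  have hrq : (r : ℝ) * Real.log q ≤ ε * N := by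
    have k1 : (r : ℝ) ≤ h * n := by
      have : r ≤ h * n := by rw [← hr]; exact Nat.div_le_self _ _
      exact_mod_cast this
    have k2 : Real.log q ≤ ε * n := by
      rw [div_le_iff₀ hε0] at hn3
      have : (n3 : ℝ) ≤ n := by
        have : n3 ≤ n := by omega
        exact_mod_cast this
      nlinarith
    have k3 : Real.log q ≤ ε * ((h : ℝ) * n) := by
      have : (n : ℝ) ≤ (h : ℝ) * n := le_mul_of_one_le_left hnr.le hhr
      nlinarith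
    calc (r : ℝ) * Real.log q ≤ ((h : ℝ) * n) * (ε * ((h : ℝ) * n)) :=
          mul_le_mul k1 k3 hlq (by positivity)
      _ = ε * N := by rw [hN]; ring
  have hDH : DH (mo (A := ℝ) n h 1 w1 zz) r = φ (DH (mo (A := K) n h 1 w1 z) r) := by
    rw [mb_DHmo_map]
    congr 1
    funext k
    exact hcast n k
  have hr3' : DH (mo (A := K) n h 1 w1 z) r ≠ 0 := by
    intro h8
    rw [hDH, h8, map_zero] at g1
    exact lt_irrefl _ g1
  have e1 := hX2 K z q hq hqz hr3'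
  have hq0 : (0 : ℝ) < (q : ℝ) := by exact_mod_cast hq
  have hX0' : (0 : ℝ) < (X : ℝ) := by exact_mod_cast hX0
  obtain ⟨x, hx⟩ : ∃ x : K, x = algebraMap ℚ K ((q : ℚ) ^ r * X) * DH (mo n h 1 w1 z) r := ⟨_, rfl⟩
  rw [← hx] at e1
  have hx0 : x ≠ 0 := by
    intro h0
    rw [h0, Algebra.norm_zero, abs_zero] at e1
    exact absurd e1 (by norm_num)
  -- the norm as a product
  have hnorm : (1 : ℝ) ≤ ∏ σ : K →ₐ[ℚ] ℂ, ‖σ x‖ := by
    have h8 := Algebra.norm_eq_prod_embeddings ℚ ℂ x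
    have h10 := congrArg norm h8
    rw [norm_prod] at h10
    rw [← h10]
    have h11 : ‖algebraMap ℚ ℂ (Algebra.norm ℚ x)‖ = ((|Algebra.norm ℚ x| : ℚ) : ℝ) := by
      rw [eq_ratCast, Rat.cast_abs]
      rw [← Complex.ofReal_ratCast, Complex.norm_real, Real.norm_eq_abs]
    rw [h11]
    exact_mod_cast e1
  have hσ0 : ∀ σ : K →ₐ[ℚ] ℂ, 0 < ‖σ x‖ := by
    intro σ
    rw [norm_pos_iff]
    intro h0
    exact hx0 ((map_eq_zero σ).1 h0)
  have hlog : 0 ≤ ∑ σ : K →ₐ[ℚ] ℂ, Real.log ‖σ x‖ := by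
    rw [← Real.log_prod (fun σ _ => (hσ0 σ).ne')]
    exact Real.log_nonneg hnorm
  have hfac : Real.log ((q : ℝ) ^ r * (X : ℝ)) ≤ (α + 2 * ε + 1 / 2 * Real.log n) * N := by
    rw [Real.log_mul (by positivity) hX0'.ne', Real.log_pow]
    linarith
  -- the real embedding
  obtain ⟨σ0, hσ00⟩ : ∃ σ0 : K →ₐ[ℚ] ℂ, ∀ y, σ0 y = ((φ y : ℝ) : ℂ) :=
    ⟨(Algebra.algHom ℚ ℝ ℂ).comp φ, fun y => rfl⟩
  have hreal : Real.log ‖σ0 x‖ ≤ (t + α + 3 * ε) * N := by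
    have k1 : ‖σ0 x‖ = (q : ℝ) ^ r * (X : ℝ) * DH (mo (A := ℝ) n h 1 w1 zz) r := by
      rw [hσ00, Complex.norm_real, Real.norm_eq_abs, hx, map_mul, AlgHom.commutes, abs_mul, ← hDH,
        abs_of_pos g1]
      congr 1
      rw [eq_ratCast]
      push_cast
      exact abs_of_pos (by positivity)
    rw [k1, Real.log_mul (by positivity) g1.ne']
    have k2 : Real.log (DH (mo (A := ℝ) n h 1 w1 zz) r) ≤ (t + ε - 1 / 2 * Real.log n) * N := by
      have := Real.log_le_log g1 g2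
      rwa [Real.log_exp] at this
    linarith
  have hother : ∀ σ : K →ₐ[ℚ] ℂ, Real.log ‖σ x‖ ≤ (c + α + 3 * ε) * N := by
    intro σ
    have f1 := g3 (fun i => σ (z i)) (hZ σ)
    have f2 : σ x = algebraMap ℚ ℂ ((q : ℚ) ^ r * X) * DH (mo n h 1 w1 (fun i => σ (z i))) r := by
      rw [hx, map_mul, AlgHom.commutes, mb_DHmo_map]
    have f3 : ‖algebraMap ℚ ℂ ((q : ℚ) ^ r * X)‖ = (q : ℝ) ^ r * (X : ℝ) := by
      rw [eq_ratCast, ← Complex.ofReal_ratCast, Complex.norm_real, Real.norm_eq_abs]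
      push_cast
      exact abs_of_pos (by positivity)
    have f4 : ‖σ x‖ ≤ (q : ℝ) ^ r * (X : ℝ) * Real.exp ((c + ε - 1 / 2 * Real.log n) * N) := by
      rw [f2, norm_mul, f3]
      exact mul_le_mul_of_nonneg_left f1 (by positivity)
    have f5 := Real.log_le_log (hσ0 σ) f4
    rw [Real.log_mul (by positivity) (Real.exp_pos _).ne', Real.log_exp] at f5
    linarith
  -- the sum
  have hcard : ((Finset.univ.erase σ0).card : ℝ) ≤ (D : ℝ) - 1 := by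
    have g1 : (Finset.univ.erase σ0).card + 1 = Fintype.card (K →ₐ[ℚ] ℂ) := by
      rw [Finset.card_erase_of_mem (Finset.mem_univ _), Finset.card_univ]
      have : 0 < Fintype.card (K →ₐ[ℚ] ℂ) := Fintype.card_pos_iff.2 ⟨σ0⟩
      omega
    have g2 : Fintype.card (K →ₐ[ℚ] ℂ) = Module.finrank ℚ K := AlgHom.card ℚ K ℂ
    have g3 : (Finset.univ.erase σ0).card + 1 ≤ D := by omega
    have : (((Finset.univ.erase σ0).card + 1 : ℕ) : ℝ) ≤ D := by exact_mod_cast g3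
    push_cast at this
    linarith
  have hM0 : 0 ≤ (c + α + 3 * ε) * N := by positivity
  have hsum : ∑ σ : K →ₐ[ℚ] ℂ, Real.log ‖σ x‖ ≤
      (t + α + 3 * ε) * N + ((D : ℝ) - 1) * ((c + α + 3 * ε) * N) := by
    rw [← Finset.add_sum_erase _ _ (Finset.mem_univ σ0)]
    apply add_le_add hreal
    calc ∑ σ ∈ Finset.univ.erase σ0, Real.log ‖σ x‖
        ≤ ∑ _σ ∈ Finset.univ.erase σ0, (c + α + 3 * ε) * N := Finset.sum_le_sum fun σ _ => hother σ
      _ = ((Finset.univ.erase σ0).card : ℝ) * ((c + α + 3 * ε) * N) := by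
          rw [Finset.sum_const, nsmul_eq_mul]
      _ ≤ _ := mul_le_mul_of_nonneg_right hcard hM0
  have hfinal : (t + α + 3 * ε) * N + ((D : ℝ) - 1) * ((c + α + 3 * ε) * N) = -(D * ε) * N := by
    have : (t + α + 3 * ε) + ((D : ℝ) - 1) * (c + α + 3 * ε) = -κ + 3 * D * ε := by rw [hκ]; ring
    calc _ = ((t + α + 3 * ε) + ((D : ℝ) - 1) * (c + α + 3 * ε)) * N := by ring
      _ = (-κ + 3 * D * ε) * N := by rw [this]
      _ = _ := by rw [← hεD]; ring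
  have : 0 < (D : ℝ) * ε * N := by positivity
  linarith

end

end Pool.Agent.P8H2
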