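import Mathlib

/-!
# The size of the conjugates: a bound for Hermite polynomials at complex points
-/

open Polynomial

namespace Pool.Agent.P8H2

noncomputable section

namespace PB

/-- the generating function -/
def gf (x w : ℂ) : ℂ := Complex.exp (x * w - w ^ 2 / 2)

lemma gf_deriv (x w : ℂ) : HasDerivAt (gf x) ((x - w) * gf x w) w := by
  unfold gf
  have h1 : HasDerivAt (fun w : ℂ => x * w - w ^ 2 / 2) (x - w) w := by
    have h2 : HasDerivAt (fun w : ℂ => x * w) x w := by
      simpa using (hasDerivAt_id w).const_mul x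
    have h3 : HasDerivAt (fun w : ℂ => w ^ 2 / 2) w w := by
      have := (hasDerivAt_pow 2 w).div_const 2
      have e : ((2 : ℕ) : ℂ) * w ^ (2 - 1) / 2 = w := by norm_num
      rw [e] at this
      exact this
    exact h2.sub h3
  have := h1.cexp
  rw [mul_comm (x - w)]
  exact this

lemma iter (x : ℂ) (n : ℕ) :
    iteratedDeriv n (gf x) = fun w => aeval (x - w) (hermite n) * gf x w := by
  induction n with
  | zero =>
    ext w
    simp [iteratedDeriv_zero]
  | succ n ih =>
    rw [iteratedDeriv_succ, ih]
    ext w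
    have h1 : HasDerivAt (fun w : ℂ => aeval (x - w) (hermite n))
        (-(aeval (x - w) (derivative (hermite n)))) w := by
      have h2 : HasDerivAt (fun w : ℂ => x - w) (-1) w := by
        simpa using (hasDerivAt_id w).const_sub x
      have h3 := (Polynomial.hasDerivAt_aeval (hermite n) (x - w)).comp w h2
      rw [mul_neg_one] at h3
      exact h3
    have h4 := (h1.mul (gf_deriv x w)).deriv
    rw [show (fun w => aeval (x - w) (hermite n) * gf x w) = ((fun w : ℂ => aeval (x - w) (hermite n)) * gf x) from rfl,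
      h4, hermite_succ, map_sub, map_mul, aeval_X]
    ring

lemma her_le (x : ℂ) (n : ℕ) (R : ℝ) (hR : 0 < R) :
    ‖aeval x (hermite n)‖ ≤
      n.factorial * Real.exp (x.re ^ 2 / 4 + R ^ 2 / 2 + R * |x.im|) / R ^ n := by
  have h1 : aeval x (hermite n) = iteratedDeriv n (gf x) 0 := by
    rw [iter]
    simp [gf]
  rw [h1]
  refine Complex.norm_iteratedDeriv_le_of_forall_mem_sphere_norm_le n hR ?_ ?_
  · apply Differentiable.diffContOnCl
    intro w
    exact (gf_deriv x w).differentiableAt
  · intro w hw
    have hw' : ‖w‖ = R := by simpa using hw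
    unfold gf
    rw [Complex.norm_exp]
    apply Real.exp_le_exp.2
    have h2 : w.re ^ 2 + w.im ^ 2 = R ^ 2 := by
      rw [← hw', ← Complex.normSq_eq_norm_sq, Complex.normSq_apply]
      ring
    have h3 : (x * w - w ^ 2 / 2).re = x.re * w.re - x.im * w.im - (w.re ^ 2 - w.im ^ 2) / 2 := by
      have e : w ^ 2 / 2 = w * w * ((1 / 2 : ℝ) : ℂ) := by push_cast; ring
      rw [e, Complex.sub_re, Complex.mul_re, Complex.re_mul_ofReal, Complex.mul_re]
      ring
    rw [h3]
    have h4 : |w.im| ≤ R := hw' ▸ Complex.abs_im_le_norm w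
    have h5 : -(x.im * w.im) ≤ R * |x.im| := by
      calc -(x.im * w.im) ≤ |x.im * w.im| := neg_le_abs _
        _ = |x.im| * |w.im| := abs_mul _ _
        _ ≤ |x.im| * R := mul_le_mul_of_nonneg_left h4 (abs_nonneg _)
        _ = _ := mul_comm _ _
    have h6 : x.re * w.re - w.re ^ 2 ≤ x.re ^ 2 / 4 := by nlinarith [sq_nonneg (x.re / 2 - w.re)]
    nlinarith

end PB

end

end Pool.Agent.P8H2
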