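import Pool.Agent.P8H2.PB1
import Pool.Agent.W165.OZ.Stm2

/-!
# The size of the conjugates: the polynomials of the basis
-/

open Polynomial Pool.Agent.H337R2

namespace Pool.Agent.P8H2

noncomputable section

namespace PB

/-- the monic polynomial with `W (y ^ 2) = κ ^ (-m) He_{2m} (√κ y)` -/
def W (κ : ℚ) (m : ℕ) : ℚ[X] :=
  ∑ j ∈ Finset.range (m + 1), C (((hermite (2 * m)).coeff (2 * j) : ℚ) * κ ^ j / κ ^ m) * X ^ j

lemma W_coeff (κ : ℚ) (m : ℕ) (hκ : κ ≠ 0) : (W κ m).coeff m = 1 := by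
  unfold W
  rw [Polynomial.finsetSum_coeff, Finset.sum_eq_single m]
  · rw [Polynomial.coeff_C_mul, Polynomial.coeff_X_pow, if_pos rfl, coeff_hermite_self]
    field_simp
    norm_num
  · intro j _ hj
    rw [Polynomial.coeff_C_mul, Polynomial.coeff_X_pow, if_neg (Ne.symm hj), mul_zero]
  · intro h
    exact absurd (Finset.mem_range.2 (Nat.lt_succ_self m)) h

lemma W_le (κ : ℚ) (m : ℕ) : (W κ m).natDegree ≤ m := by
  unfold W
  apply Polynomial.natDegree_sum_le_of_forall_le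
  intro j hj
  exact (Polynomial.natDegree_C_mul_X_pow_le _ _).trans (by rw [Finset.mem_range] at hj; omega)

lemma W_monic (κ : ℚ) (m : ℕ) (hκ : κ ≠ 0) : (W κ m).Monic :=
  Polynomial.monic_of_natDegree_le_of_coeff_eq_one m (W_le κ m) (W_coeff κ m hκ)

lemma W_natDegree (κ : ℚ) (m : ℕ) (hκ : κ ≠ 0) : (W κ m).natDegree = m :=
  Polynomial.natDegree_eq_of_le_of_coeff_ne_zero (W_le κ m) (by rw [W_coeff κ m hκ]; exact one_ne_zero)

lemma sum_even (f : ℕ → ℂ) (hf : ∀ i, Odd i → f i = 0) (m : ℕ) :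
    ∑ i ∈ Finset.range (2 * m + 1), f i = ∑ j ∈ Finset.range (m + 1), f (2 * j) := by
  induction m with
  | zero => simp
  | succ m ih =>
    rw [show 2 * (m + 1) + 1 = 2 * m + 1 + 1 + 1 by ring, Finset.sum_range_succ, Finset.sum_range_succ, ih,
      Finset.sum_range_succ (n := m + 1), hf (2 * m + 1) ⟨m, rfl⟩, add_zero]
    congr 1

lemma W_eval (κ : ℚ) (m : ℕ) (hκ : 0 < κ) (y : ℂ) :
    aeval (y ^ 2) (W κ m) = aeval ((Real.sqrt κ : ℂ) * y) (hermite (2 * m)) / (κ : ℂ) ^ m := by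
  have hκ' : (κ : ℂ) ≠ 0 := by exact_mod_cast hκ.ne'
  have hs : ((Real.sqrt κ : ℝ) : ℂ) ^ 2 = (κ : ℂ) := by
    rw [← Complex.ofReal_pow, Real.sq_sqrt (by exact_mod_cast hκ.le)]
    simp
  rw [Polynomial.aeval_eq_sum_range' (p := hermite (2 * m)) (n := 2 * m + 1) (by rw [natDegree_hermite]; omega),
    sum_even (fun i => (hermite (2 * m)).coeff i • ((Real.sqrt κ : ℂ) * y) ^ i)
      (fun i hi => by rw [coeff_hermite_of_odd_add (by
        rw [Nat.odd_add]; exact ⟨fun h => absurd h (by simp), fun h => absurd hi (by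
          rw [Nat.not_odd_iff_even]; exact h)⟩), zero_smul])]
  unfold W
  rw [map_sum, Finset.sum_div]
  refine Finset.sum_congr rfl fun j _ => ?_
  rw [map_mul, map_pow, aeval_X, aeval_C, zsmul_eq_mul]
  simp only [eq_ratCast]
  push_cast
  rw [mul_pow, pow_mul (Real.sqrt κ : ℂ), hs, pow_mul y]
  ring

/-- Cauchy's estimate for the coefficients of a polynomial -/
lemma coeff_le (p : ℚ[X]) (B : ℝ) (hB : ∀ s : ℂ, ‖s‖ = 1 → ‖aeval s p‖ ≤ B) (j : ℕ) :
    |((p.coeff j : ℚ) : ℝ)| ≤ B := by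
  have h1 : ∀ j : ℕ, iteratedDeriv j (fun s : ℂ => aeval s p) = fun s => aeval s (derivative^[j] p) := by
    intro j
    induction j with
    | zero => ext s; simp
    | succ j ih =>
      rw [iteratedDeriv_succ, ih]
      ext s
      rw [Function.iterate_succ_apply']
      exact (Polynomial.hasDerivAt_aeval (derivative^[j] p) s).deriv
  have h2 := Complex.norm_iteratedDeriv_le_of_forall_mem_sphere_norm_le (c := (0 : ℂ)) (R := 1) (C := B)
    (f := fun s : ℂ => aeval s p) j one_pos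
    (Differentiable.diffContOnCl fun s => (Polynomial.hasDerivAt_aeval p s).differentiableAt)
    (fun s hs => hB s (by simpa using hs))
  rw [h1, one_pow, div_one] at h2
  have h3 : aeval (0 : ℂ) (derivative^[j] p) = ((j.factorial : ℕ) : ℂ) * ((p.coeff j : ℚ) : ℂ) := by
    rw [← Polynomial.coeff_zero_eq_aeval_zero', Polynomial.coeff_iterate_derivative, zero_add,
      Nat.descFactorial_self, nsmul_eq_mul, map_mul]
    simp
  simp only [h3, norm_mul, Complex.norm_natCast] at h2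
  have h4 : ‖((p.coeff j : ℚ) : ℂ)‖ = |((p.coeff j : ℚ) : ℝ)| := by
    rw [← Complex.ofReal_ratCast, Complex.norm_real, Real.norm_eq_abs]
  rw [h4] at h2
  have h5 : (0 : ℝ) < ((j.factorial : ℕ) : ℝ) := by exact_mod_cast Nat.factorial_pos j
  exact le_of_mul_le_mul_left h2 h5

end PB

end

end Pool.Agent.P8H2
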