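import Pool.Agent.P8H2.PB2
import Pool.Agent.W165.OZ.CB

/-!
# The size of the conjugates: a weighted norm for power series
-/

open Polynomial Pool.Agent.H337R2

namespace Pool.Agent.P8H2

noncomputable section

namespace PB

/-- the weighted `ℓ¹` norm of the coefficients is `≤ A` -/
def NB (A : ℝ) (f : PowerSeries ℝ) : Prop :=
  ∀ J : ℕ, ∑ j ∈ Finset.range J, |PowerSeries.coeff j f| * (1 / 2) ^ j ≤ A

lemma NB.nonneg {A : ℝ} {f : PowerSeries ℝ} (h : NB A f) : 0 ≤ A := by
  simpa using h 0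

lemma NB.coeff_le {A : ℝ} {f : PowerSeries ℝ} (h : NB A f) (j : ℕ) : |PowerSeries.coeff j f| ≤ 2 ^ j * A := by
  have h1 := h (j + 1)
  rw [Finset.sum_range_succ] at h1
  have h2 : 0 ≤ ∑ i ∈ Finset.range j, |PowerSeries.coeff i f| * (1 / 2 : ℝ) ^ i :=
    Finset.sum_nonneg fun i _ => by positivity
  have h3 : |PowerSeries.coeff j f| * (1 / 2 : ℝ) ^ j ≤ A := by linarith
  have h4 : (2 : ℝ) ^ j * (1 / 2) ^ j = 1 := by
    rw [← mul_pow]; norm_num
  calc |PowerSeries.coeff j f| = 2 ^ j * (|PowerSeries.coeff j f| * (1 / 2 : ℝ) ^ j) := by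
        rw [mul_comm (|PowerSeries.coeff j f|), ← mul_assoc, h4, one_mul]
    _ ≤ 2 ^ j * A := mul_le_mul_of_nonneg_left h3 (by positivity)

lemma sum_antidiag_le (J : ℕ) (F : ℕ × ℕ → ℝ) (hF : ∀ x, 0 ≤ F x) :
    ∑ j ∈ Finset.range J, ∑ x ∈ Finset.HasAntidiagonal.antidiagonal j, F x ≤
      ∑ x ∈ Finset.range J ×ˢ Finset.range J, F x := by
  have h1 : ∑ j ∈ Finset.range J, ∑ x ∈ Finset.HasAntidiagonal.antidiagonal j, F x =
      ∑ x ∈ (Finset.range J ×ˢ Finset.range J).filter (fun x => x.1 + x.2 < J), F x := by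
    rw [← Finset.sum_fiberwise_of_maps_to (s := (Finset.range J ×ˢ Finset.range J).filter
      (fun x => x.1 + x.2 < J)) (t := Finset.range J) (g := fun x => x.1 + x.2)]
    · apply Finset.sum_congr rfl
      intro j hj
      apply Finset.sum_congr _ fun _ _ => rfl
      ext x
      simp only [Finset.HasAntidiagonal.mem_antidiagonal, Finset.mem_filter, Finset.mem_product, Finset.mem_range] at hj ⊢
      constructor
      · intro h; omega
      · intro h; omega
    · intro x hx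
      simp only [Finset.mem_filter, Finset.mem_range] at hx ⊢
      exact hx.2
  rw [h1]
  exact Finset.sum_le_sum_of_subset_of_nonneg (Finset.filter_subset _ _) fun x _ _ => hF x

lemma NB.mul {A B : ℝ} {f g : PowerSeries ℝ} (hf : NB A f) (hg : NB B g) : NB (A * B) (f * g) := by
  intro J
  calc ∑ j ∈ Finset.range J, |PowerSeries.coeff j (f * g)| * (1 / 2 : ℝ) ^ j
      ≤ ∑ j ∈ Finset.range J, ∑ x ∈ Finset.HasAntidiagonal.antidiagonal j,
          (|PowerSeries.coeff x.1 f| * (1 / 2 : ℝ) ^ x.1) * (|PowerSeries.coeff x.2 g| * (1 / 2 : ℝ) ^ x.2) := by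
        apply Finset.sum_le_sum
        intro j _
        rw [PowerSeries.coeff_mul]
        calc |∑ x ∈ Finset.HasAntidiagonal.antidiagonal j, PowerSeries.coeff x.1 f * PowerSeries.coeff x.2 g| * (1 / 2 : ℝ) ^ j
            ≤ (∑ x ∈ Finset.HasAntidiagonal.antidiagonal j, |PowerSeries.coeff x.1 f * PowerSeries.coeff x.2 g|) *
                (1 / 2 : ℝ) ^ j :=
              mul_le_mul_of_nonneg_right (Finset.abs_sum_le_sum_abs _ _) (by positivity)
          _ = _ := by
              rw [Finset.sum_mul]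
              apply Finset.sum_congr rfl
              intro x hx
              rw [← Finset.HasAntidiagonal.mem_antidiagonal.1 hx, abs_mul, pow_add]
              ring
    _ ≤ ∑ x ∈ Finset.range J ×ˢ Finset.range J,
          (|PowerSeries.coeff x.1 f| * (1 / 2 : ℝ) ^ x.1) * (|PowerSeries.coeff x.2 g| * (1 / 2 : ℝ) ^ x.2) :=
        sum_antidiag_le J _ fun x => by positivity
    _ = (∑ j ∈ Finset.range J, |PowerSeries.coeff j f| * (1 / 2 : ℝ) ^ j) *
          (∑ j ∈ Finset.range J, |PowerSeries.coeff j g| * (1 / 2 : ℝ) ^ j) := by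
        rw [Finset.sum_mul_sum, Finset.sum_product]
    _ ≤ A * B := mul_le_mul (hf J) (hg J) (Finset.sum_nonneg fun i _ => by positivity) hf.nonneg

lemma NB.one : NB 1 1 := by
  intro J
  rcases J with _ | J
  · simp
  · rw [Finset.sum_range_succ']
    simp [PowerSeries.coeff_one]

lemma NB.pow {A : ℝ} {f : PowerSeries ℝ} (hf : NB A f) (n : ℕ) : NB (A ^ n) (f ^ n) := by
  induction n with
  | zero => simpa using NB.one
  | succ n ih => rw [pow_succ, pow_succ]; exact ih.mul hf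

lemma NB.prod {ι : Type*} (s : Finset ι) (A : ι → ℝ) (f : ι → PowerSeries ℝ)
    (hf : ∀ i ∈ s, NB (A i) (f i)) : NB (∏ i ∈ s, A i) (∏ i ∈ s, f i) := by
  classical
  induction s using Finset.induction_on with
  | empty => simpa using NB.one
  | insert a s ha ih =>
    rw [Finset.prod_insert ha, Finset.prod_insert ha]
    exact (hf a (Finset.mem_insert_self _ _)).mul (ih fun i hi => hf i (Finset.mem_insert_of_mem hi))

lemma NB.mono {A B : ℝ} {f : PowerSeries ℝ} (h : NB A f) (hAB : A ≤ B) : NB B f := fun J => (h J).trans hAB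

/-- the real power series of a rational one -/
abbrev R (f : PowerSeries ℚ) : PowerSeries ℝ := PowerSeries.map (algebraMap ℚ ℝ) f

lemma R_coeff (f : PowerSeries ℚ) (j : ℕ) :
    PowerSeries.coeff j (R f) = ((PowerSeries.coeff j f : ℚ) : ℝ) := by
  simp [R]

/-- from the norm of `CB` -/
lemma NB.of_AB {A : ℚ} {f : PowerSeries ℚ} (h : W165.OZ.CB.AB A f) : NB (A : ℝ) (R f) := by
  intro J
  have h1 := h J
  have h2 : ((∑ j ∈ Finset.range J, |PowerSeries.coeff j f| * (1 / 2) ^ j : ℚ) : ℝ) ≤ (A : ℝ) := by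
    exact_mod_cast h1
  refine le_trans (le_of_eq ?_) h2
  push_cast
  refine Finset.sum_congr rfl fun j _ => ?_
  rw [R_coeff]

lemma geom (x : ℝ) (hx0 : 0 ≤ x) (hx : x < 1) (J : ℕ) : ∑ j ∈ Finset.range J, x ^ j ≤ 1 / (1 - x) := by
  have h1 : 0 < 1 - x := by linarith
  rw [le_div_iff₀ h1, geom_sum_mul_neg]
  have : 0 ≤ x ^ J := by positivity
  linarith

lemma NB.iv {a : ℚ} (ha : 1 ≤ |a|) : NB (1 / (|(a : ℝ)| - 1 / 2)) (R (iv a)) := by
  intro J
  have ha' : (1 : ℝ) ≤ |(a : ℝ)| := by exact_mod_cast ha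
  have h0 : 0 < |(a : ℝ)| := by linarith
  have h2 : 1 / (2 * |(a : ℝ)|) < 1 := by
    rw [div_lt_one (by positivity)]; linarith
  calc ∑ j ∈ Finset.range J, |PowerSeries.coeff j (R (Pool.Agent.H337R2.iv a))| * (1 / 2 : ℝ) ^ j
      = ∑ j ∈ Finset.range J, (1 / |(a : ℝ)|) * (1 / (2 * |(a : ℝ)|)) ^ j := by
        apply Finset.sum_congr rfl
        intro j _
        rw [R_coeff]
        simp only [Pool.Agent.H337R2.iv, PowerSeries.coeff_mk]
        push_cast
        rw [abs_div, abs_pow, abs_neg, abs_one, one_pow, abs_pow, div_pow, div_pow, mul_pow, one_pow,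
          pow_succ]
        field_simp
    _ = (1 / |(a : ℝ)|) * ∑ j ∈ Finset.range J, (1 / (2 * |(a : ℝ)|)) ^ j := by rw [Finset.mul_sum]
    _ ≤ (1 / |(a : ℝ)|) * (1 / (1 - 1 / (2 * |(a : ℝ)|))) :=
        mul_le_mul_of_nonneg_left (geom _ (by positivity) h2 J) (by positivity)
    _ = 1 / (|(a : ℝ)| - 1 / 2) := by
        have h3 : |(a : ℝ)| - 1 / 2 ≠ 0 := by linarith
        have h4 : (1 : ℝ) - 1 / (2 * |(a : ℝ)|) ≠ 0 := by linarith
        rw [div_mul_div_comm, one_mul]
        congr 1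
        rw [mul_sub, mul_one]
        congr 1
        field_simp

/-- Taylor expansions -/
lemma NB.TS (c : ℚ) (P : ℚ[X]) (B : ℝ) (hB : ∀ s : ℂ, ‖s‖ = 1 → ‖aeval (s + (c : ℂ)) P‖ ≤ B) :
    NB (2 * B) (R (TS c P)) := by
  intro J
  have hB0 : 0 ≤ B := (norm_nonneg _).trans (hB 1 (by simp))
  have h1 : ∀ j, |PowerSeries.coeff j (R (Pool.Agent.H337R2.TS c P))| ≤ B := by
    intro j
    rw [R_coeff]
    have e : PowerSeries.coeff j (Pool.Agent.H337R2.TS c P) = (taylor c P).coeff j := by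
      simp [Pool.Agent.H337R2.TS]
    rw [e]
    apply Pool.Agent.P8H2.PB.coeff_le
    intro s hs
    rw [taylor_apply, aeval_comp, map_add, aeval_X, aeval_C]
    exact hB s hs
  calc ∑ j ∈ Finset.range J, |PowerSeries.coeff j (R (Pool.Agent.H337R2.TS c P))| * (1 / 2 : ℝ) ^ j
      ≤ ∑ j ∈ Finset.range J, B * (1 / 2 : ℝ) ^ j :=
        Finset.sum_le_sum fun j _ => mul_le_mul_of_nonneg_right (h1 j) (by positivity)
    _ = B * ∑ j ∈ Finset.range J, (1 / 2 : ℝ) ^ j := by rw [Finset.mul_sum]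
    _ ≤ B * (1 / (1 - 1 / 2)) := mul_le_mul_of_nonneg_left (geom _ (by norm_num) (by norm_num) J) hB0
    _ = 2 * B := by ring

end PB

end

end Pool.Agent.P8H2
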