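import Pool.Agent.P8H2.PB4
import Pool.Agent.W165.OZ.CD

/-!
# The size of the conjugates: the basis and the partial fraction coefficients
-/

open Polynomial Pool.Agent.H337R2 Pool.Agent.W165.OZ

namespace Pool.Agent.P8H2

noncomputable section

namespace PB

/-- the exponent of `∏ (t + k)` in the element number `i` of the basis; `n = 10 ν` -/
def ai (h ν i : ℕ) : ℕ := min ((i - 2 * h * ν) / (3 * ν)) (h - 1)

/-- the degree of the Hermite factor -/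
def mi (h ν i : ℕ) : ℕ := i - ai h ν i * (5 * ν)

/-- `h - a` -/
def gi (h ν i : ℕ) : ℕ := h - ai h ν i

/-- the factor in the variable `y` -/
def Uy (n g m : ℕ) : ℚ[X] := (W (8 * g / ((n : ℚ) - 1)) m).comp (X + C ((((n : ℚ) - 1) / 2) ^ 2))

/-- the basis -/
def Qpoly (h ν i : ℕ) : ℚ[X] :=
  Gy (10 * ν) (10 * ν / 2) ^ ai h ν i * Uy (10 * ν) (gi h ν i) (mi h ν i)

lemma ai_le (h ν i : ℕ) (hh : 1 ≤ h) : ai h ν i * (5 * ν) ≤ i := by
  unfold ai
  set a := min ((i - 2 * h * ν) / (3 * ν)) (h - 1) with ha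
  rcases Nat.eq_zero_or_pos a with h0 | h0
  · rw [h0]; simp
  have h1 : a ≤ (i - 2 * h * ν) / (3 * ν) := min_le_left _ _
  have h2 : a ≤ h - 1 := min_le_right _ _
  have h3 : a * (3 * ν) ≤ i - 2 * h * ν := (Nat.mul_le_mul_right _ h1).trans (Nat.div_mul_le_self _ _)
  rcases Nat.eq_zero_or_pos ν with h4 | h4
  · rw [h4]; simp
  have h5 : 0 < a * (3 * ν) := by positivity
  have h6 : a * ν ≤ h * ν := Nat.mul_le_mul_right _ (by omega)
  have e1 : a * (3 * ν) = 3 * (a * ν) := by ring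
  have e2 : a * (5 * ν) = 5 * (a * ν) := by ring
  have e3 : 2 * h * ν = 2 * (h * ν) := by ring
  rw [e1, e3] at h3
  rw [e1] at h5
  rw [e2]
  omega

lemma gi_pos (h ν i : ℕ) (hh : 1 ≤ h) : 1 ≤ gi h ν i := by
  unfold gi ai
  have : min ((i - 2 * h * ν) / (3 * ν)) (h - 1) ≤ h - 1 := min_le_right _ _
  omega

lemma gi_le (h ν i : ℕ) : gi h ν i ≤ h := Nat.sub_le _ _

lemma ai_add (h ν i : ℕ) (hh : 1 ≤ h) : ai h ν i + gi h ν i = h := by
  have := gi_pos h ν i hh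
  unfold gi at *
  omega

lemma mi_le (h ν i : ℕ) (hi : i < 5 * (h * ν)) : 2 * mi h ν i ≤ h * (10 * ν) := by
  unfold mi
  have : h * (10 * ν) = 10 * (h * ν) := by ring
  omega

lemma kpos (ν g : ℕ) (hν : 1 ≤ ν) (hg : 1 ≤ g) : (8 * g / (((10 * ν : ℕ) : ℚ) - 1) : ℚ) ≠ 0 := by
  have h1 : (1 : ℚ) ≤ ν := by exact_mod_cast hν
  have h2 : (1 : ℚ) ≤ g := by exact_mod_cast hg
  have h3 : (0 : ℚ) < ((10 * ν : ℕ) : ℚ) - 1 := by push_cast; linarith
  positivity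

lemma Uy_monic (ν g m : ℕ) (hν : 1 ≤ ν) (hg : 1 ≤ g) : (Uy (10 * ν) g m).Monic := by
  unfold Uy
  apply (W_monic _ _ (kpos ν g hν hg)).comp (Polynomial.monic_X_add_C _)
  rw [Polynomial.natDegree_X_add_C]
  exact one_ne_zero

lemma Uy_natDegree (ν g m : ℕ) (hν : 1 ≤ ν) (hg : 1 ≤ g) : (Uy (10 * ν) g m).natDegree = m := by
  unfold Uy
  rw [Polynomial.natDegree_comp, Polynomial.natDegree_X_add_C, mul_one, W_natDegree _ _ (kpos ν g hν hg)]

lemma Qpoly_monic (h ν i : ℕ) (hh : 1 ≤ h) (hν : 1 ≤ ν) : (Qpoly h ν i).Monic :=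
  ((Gy_monic _ _).pow _).mul (Uy_monic ν _ _ hν (gi_pos h ν i hh))

lemma Qpoly_natDegree (h ν i : ℕ) (hh : 1 ≤ h) (hν : 1 ≤ ν) : (Qpoly h ν i).natDegree = i := by
  unfold Qpoly
  rw [((Gy_monic _ _).pow _).natDegree_mul (Uy_monic ν _ _ hν (gi_pos h ν i hh)),
    (Gy_monic _ _).natDegree_pow, Gy_natDegree _ _ le_rfl, Uy_natDegree ν _ _ hν (gi_pos h ν i hh)]
  have h1 := ai_le h ν i hh
  unfold mi
  have h2 : 10 * ν / 2 = 5 * ν := by omega
  rw [h2]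
  omega

lemma Uy_comp (n g m : ℕ) : (Uy n g m).comp (yp n) = Ut n g m := by
  unfold Uy Ut
  rw [Polynomial.comp_assoc]
  congr 1
  rw [Polynomial.add_comp, Polynomial.X_comp, Polynomial.C_comp]
  unfold yp
  have h2 : (C ((n : ℚ) - 1) : ℚ[X]) = C (((n : ℚ) - 1) / 2) + C (((n : ℚ) - 1) / 2) := by
    rw [← map_add]; congr 1; ring
  rw [h2, map_pow]
  ring

lemma Qpoly_comp (h ν i : ℕ) : (Qpoly h ν i).comp (yp (10 * ν)) =
    (∏ k ∈ Finset.range (10 * ν), (X + C (k : ℚ))) ^ ai h ν i * Ut (10 * ν) (gi h ν i) (mi h ν i) := by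
  unfold Qpoly
  rw [Polynomial.mul_comp, Polynomial.pow_comp, Gy_comp _ _ ⟨5 * ν, by ring⟩ le_rfl, Uy_comp,
    Nat.sub_self, show 10 * ν / 2 + 10 * ν / 2 = 10 * ν by omega, ← Finset.range_eq_Ico]

/-- the power series after removing the factor `X ^ e` -/
def fq (h ν k i j w : ℕ) : PowerSeries ℚ :=
  TS (-(k : ℚ)) (CB.ll (10 * ν)) * TS (-(k : ℚ)) (Ut (10 * ν) (gi h ν i) (mi h ν i)) *
    TS (-(k : ℚ)) (Ut (10 * ν) (gi h ν j) (mi h ν j)) *
    ∏ m ∈ (Finset.range (10 * ν)).erase k, Pool.Agent.H337R2.iv (-(k : ℚ) + m) ^ w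

lemma series (h ν i j k w : ℕ) (hk : k < 10 * ν) (hw : 2 * h = (ai h ν i + ai h ν j) + w) :
    TS (-(k : ℚ)) (num (10 * ν) (Qpoly h ν i * Qpoly h ν j)) * VV ((sP (10 * ν)).erase k) (mP h) (-(k : ℚ)) =
      PowerSeries.X ^ (ai h ν i + ai h ν j) * fq h ν k i j w := by
  unfold num VV fq
  rw [Polynomial.mul_comp, Qpoly_comp, Qpoly_comp]
  change TS (-(k : ℚ)) (CB.ll (10 * ν) * _) * _ = _
  set n := 10 * ν with hn
  set e := ai h ν i with he
  set e' := ai h ν j with he'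
  have h1 : ∏ m ∈ (sP n).erase k, Pool.Agent.H337R2.iv (-(k : ℚ) + m) ^ mP h m =
      (∏ m ∈ (Finset.range n).erase k, Pool.Agent.H337R2.iv (-(k : ℚ) + m)) ^ (e + e') *
        ∏ m ∈ (Finset.range n).erase k, Pool.Agent.H337R2.iv (-(k : ℚ) + m) ^ w := by
    rw [← Finset.prod_pow, ← Finset.prod_mul_distrib]
    apply Finset.prod_congr rfl
    intro m _
    rw [← pow_add, ← hw]
  have h2 : (∏ m ∈ (Finset.range n).erase k, (PowerSeries.X + PowerSeries.C (-(k : ℚ) + m))) *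
      (∏ m ∈ (Finset.range n).erase k, Pool.Agent.H337R2.iv (-(k : ℚ) + m)) = 1 := by
    rw [← Finset.prod_mul_distrib]
    apply Finset.prod_eq_one
    intro m hm
    apply lin_mul_iv
    intro h0
    have : m ≠ k := Finset.ne_of_mem_erase hm
    apply this
    have : (m : ℚ) = k := by linarith
    exact_mod_cast this
  rw [h1, map_mul, map_mul, map_mul, map_mul, map_pow, map_pow, CB.TS_pi n k hk]
  set P := ∏ m ∈ (Finset.range n).erase k, (PowerSeries.X + PowerSeries.C (-(k : ℚ) + m))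
  set I := ∏ m ∈ (Finset.range n).erase k, Pool.Agent.H337R2.iv (-(k : ℚ) + m)
  generalize TS (-(k : ℚ)) (CB.ll n) = t1
  generalize TS (-(k : ℚ)) (Ut n (gi h ν i) (mi h ν i)) = t2
  generalize TS (-(k : ℚ)) (Ut n (gi h ν j) (mi h ν j)) = t3
  generalize ∏ m ∈ (Finset.range n).erase k, Pool.Agent.H337R2.iv (-(k : ℚ) + m) ^ w = t4
  calc _ = PowerSeries.X ^ (e + e') * (t1 * t2 * t3 * t4) * (P * I) ^ (e + e') := by ring
    _ = _ := by rw [h2, one_pow, mul_one]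

/-- the norm of `fq` -/
lemma NB_fq (h ν k i j w : ℕ) (hk : k < 10 * ν) (A B : ℝ)
    (hA : ∀ s : ℂ, ‖s‖ = 1 → ‖aeval (s + ((-(k : ℚ) : ℚ) : ℂ)) (Ut (10 * ν) (gi h ν i) (mi h ν i))‖ ≤ A)
    (hB : ∀ s : ℂ, ‖s‖ = 1 → ‖aeval (s + ((-(k : ℚ) : ℚ) : ℂ)) (Ut (10 * ν) (gi h ν j) (mi h ν j))‖ ≤ B) :
    NB (((10 * ν : ℕ) : ℝ) * (2 * A) * (2 * B) *
      (∏ m ∈ (Finset.range (10 * ν)).erase k, (1 / (|((-(k : ℚ) + m : ℚ) : ℝ)| - 1 / 2))) ^ w)
      (R (fq h ν k i j w)) := by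
  unfold fq
  rw [show R (TS (-(k : ℚ)) (CB.ll (10 * ν)) * TS (-(k : ℚ)) (Ut (10 * ν) (gi h ν i) (mi h ν i)) *
    TS (-(k : ℚ)) (Ut (10 * ν) (gi h ν j) (mi h ν j)) *
    ∏ m ∈ (Finset.range (10 * ν)).erase k, Pool.Agent.H337R2.iv (-(k : ℚ) + m) ^ w) =
    R (TS (-(k : ℚ)) (CB.ll (10 * ν))) * R (TS (-(k : ℚ)) (Ut (10 * ν) (gi h ν i) (mi h ν i))) *
    R (TS (-(k : ℚ)) (Ut (10 * ν) (gi h ν j) (mi h ν j))) *
    ∏ m ∈ (Finset.range (10 * ν)).erase k, R (Pool.Agent.H337R2.iv (-(k : ℚ) + m)) ^ w by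
      simp only [R, map_mul, map_prod, map_pow]]
  have h0 := NB.of_AB (CB.AB_ll (10 * ν) k hk)
  have h0' : NB ((10 * ν : ℕ) : ℝ) (R (TS (-(k : ℚ)) (CB.ll (10 * ν)))) := by
    convert h0 using 1
    push_cast
    rfl
  refine ((h0'.mul (NB.TS _ _ A hA)).mul (NB.TS _ _ B hB)).mul ?_
  rw [← Finset.prod_pow]
  apply NB.prod
  intro m hm
  apply NB.pow
  apply NB.iv
  have h1 : m ≠ k := Finset.ne_of_mem_erase hm
  have h2 : (-(k : ℤ) + m) ≠ 0 := by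
    intro h
    apply h1
    omega
  have h3 := Int.one_le_abs h2
  have h4 : ((1 : ℤ) : ℚ) ≤ ((|-(k : ℤ) + m| : ℤ) : ℚ) := by exact_mod_cast h3
  push_cast at h4
  exact h4

/-- the size of the element number `i` of the basis -/
def AAi (h ν i : ℕ) : ℝ :=
  (2 ^ (10 * ν - 1) / (((10 * ν - 1).factorial : ℕ) : ℝ)) ^ gi h ν i * AA (10 * ν) (gi h ν i) (mi h ν i)

lemma AA_pos (ν g m : ℕ) (hν : 1 ≤ ν) (hg : 1 ≤ g) : 0 < AA (10 * ν) g m := by
  unfold AA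
  have h1 : (1 : ℝ) ≤ ν := by exact_mod_cast hν
  have h2 : (1 : ℝ) ≤ g := by exact_mod_cast hg
  have h3 : (0 : ℝ) < ((10 * ν : ℕ) : ℝ) - 1 := by push_cast; linarith
  positivity

lemma AAi_pos (h ν i : ℕ) (hh : 1 ≤ h) (hν : 1 ≤ ν) : 0 < AAi h ν i := by
  unfold AAi
  have := AA_pos ν (gi h ν i) (mi h ν i) hν (gi_pos h ν i hh)
  positivity

/-- the error factor -/
def K1 (h n : ℕ) : ℝ := 2 ^ (2 * h) * (n * (2 * Real.exp (10 * h)) ^ 2 * (4 * (n : ℝ) ^ 2) ^ (2 * h))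

lemma pa_le (h ν k i j ι : ℕ) (hh : 1 ≤ h) (hν : 1 ≤ ν) (hk : k < 10 * ν) (hi : i < 5 * (h * ν))
    (hj : j < 5 * (h * ν)) (hι : ι ≤ 2 * h) :
    |((pa (sP (10 * ν)) (mP h) (num (10 * ν) (Qpoly h ν i * Qpoly h ν j)) k ι : ℚ) : ℝ)| ≤
      K1 h (10 * ν) * (AAi h ν i * AAi h ν j) := by
  set n := 10 * ν with hn
  have hgi := gi_pos h ν i hh
  have hgj := gi_pos h ν j hh
  have hai := ai_add h ν i hh
  have haj := ai_add h ν j hh
  have hgi' := gi_le h ν i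
  have hgj' := gi_le h ν j
  have hn2 : 2 ≤ n := by omega
  have hAi := supU n h (gi h ν i) (mi h ν i) k hn2 hgi hgi' (mi_le h ν i hi) hk
  have hAj := supU n h (gi h ν j) (mi h ν j) k hn2 hgj hgj' (mi_le h ν j hj) hk
  have hNB := NB_fq h ν k i j (gi h ν i + gi h ν j) hk _ _ hAi hAj
  rw [← hn] at hNB
  set D2 : ℝ := 2 * (((n : ℝ) - 1) / 2 - k) ^ 2 / ((n : ℝ) - 1) with hD2
  set g := gi h ν i with hg
  set g' := gi h ν j with hg'
  have hpi := AA_pos ν g (mi h ν i) hν hgi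
  have hpj := AA_pos ν g' (mi h ν j) hν hgj
  rw [← hn] at hpi hpj
  have hnr : (1 : ℝ) ≤ n := by exact_mod_cast (by omega : 1 ≤ n)
  -- the product
  have hprod := erase_le n k hk
  have hch := chernoff n k hn2 hk
  rw [← hD2] at hch
  set Pr : ℝ := ∏ m ∈ (Finset.range n).erase k, (1 / (|((-(k : ℚ) + m : ℚ) : ℝ)| - 1 / 2)) with hPr
  have hPr0 : 0 ≤ Pr := by
    apply Finset.prod_nonneg
    intro m hm
    have h1 : m ≠ k := Finset.ne_of_mem_erase hm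
    have h2 : (-(k : ℤ) + m) ≠ 0 := by
      intro h
      apply h1
      omega
    have h3 := Int.one_le_abs h2
    have h4 : ((1 : ℤ) : ℝ) ≤ ((|-(k : ℤ) + m| : ℤ) : ℝ) := by exact_mod_cast h3
    push_cast at h4 ⊢
    have h5 : (0 : ℝ) < |-(k : ℝ) + m| - 1 / 2 := by linarith
    positivity
  set q : ℝ := 2 ^ (n - 1) / (((n - 1).factorial : ℕ) : ℝ) with hq
  have hq0 : 0 < q := by positivity
  have hPr1 : Pr ≤ (4 * (n : ℝ) ^ 2) * (q * Real.exp (-D2)) := by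
    refine hprod.trans ?_
    have h1 := mul_le_mul_of_nonneg_left hch (by positivity : (0 : ℝ) ≤ 4 * (n : ℝ) ^ 2)
    have h2 := div_le_div_of_nonneg_right h1 (by positivity : (0 : ℝ) ≤ (((n - 1).factorial : ℕ) : ℝ))
    refine h2.trans (le_of_eq ?_)
    rw [hq]
    ring
  have hPrw : Pr ^ (g + g') ≤ (4 * (n : ℝ) ^ 2) ^ (2 * h) * (q ^ (g + g') * Real.exp (-(g * D2)) * Real.exp (-(g' * D2))) := by
    refine (pow_le_pow_left₀ hPr0 hPr1 _).trans ?_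
    rw [mul_pow (4 * (n : ℝ) ^ 2), mul_pow q]
    have h1 : Real.exp (-D2) ^ (g + g') = Real.exp (-(g * D2)) * Real.exp (-(g' * D2)) := by
      rw [← Real.exp_nat_mul, ← Real.exp_add]
      congr 1
      push_cast
      ring
    rw [h1, ← mul_assoc (q ^ (g + g'))]
    apply mul_le_mul_of_nonneg_right _ (by positivity)
    apply pow_le_pow_right₀ _ (by omega)
    nlinarith
  -- the coefficient
  have hser := series h ν i j k (g + g') hk (by omega)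
  rw [← hn] at hser
  have hcoef : |((pa (sP n) (mP h) (num n (Qpoly h ν i * Qpoly h ν j)) k ι : ℚ) : ℝ)| ≤
      2 ^ (2 * h) * ((n : ℝ) * (2 * (Real.exp (10 * h) * Real.exp (g * D2) * AA n g (mi h ν i))) *
        (2 * (Real.exp (10 * h) * Real.exp (g' * D2) * AA n g' (mi h ν j))) * Pr ^ (g + g')) := by
    have hnn := hNB.nonneg
    unfold pa
    rw [if_pos (by simpa using hι)]
    unfold pfc
    rw [hser, PowerSeries.coeff_X_pow_mul']
    split_ifs with hle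
    · rw [← R_coeff]
      refine (hNB.coeff_le _).trans ?_
      apply mul_le_mul_of_nonneg_right _ hnn
      apply pow_le_pow_right₀ (by norm_num)
      have hmP : mP h k = 2 * h := rfl
      omega
    · rw [Rat.cast_zero, abs_zero]
      positivity
  refine hcoef.trans ?_
  unfold K1 AAi
  rw [← hg, ← hg', ← hn, ← hq]
  set E := Real.exp (10 * h) with hE
  have hE0 : 0 < E := Real.exp_pos _
  set a := AA n g (mi h ν i)
  set b := AA n g' (mi h ν j)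
  have e1 : Real.exp (g * D2) * Real.exp (-(g * D2)) = 1 := by rw [← Real.exp_add]; simp
  have e2 : Real.exp (g' * D2) * Real.exp (-(g' * D2)) = 1 := by rw [← Real.exp_add]; simp
  calc 2 ^ (2 * h) * ((n : ℝ) * (2 * (E * Real.exp (g * D2) * a)) * (2 * (E * Real.exp (g' * D2) * b)) * Pr ^ (g + g'))
      ≤ 2 ^ (2 * h) * ((n : ℝ) * (2 * (E * Real.exp (g * D2) * a)) * (2 * (E * Real.exp (g' * D2) * b)) *
          ((4 * (n : ℝ) ^ 2) ^ (2 * h) * (q ^ (g + g') * Real.exp (-(g * D2)) * Real.exp (-(g' * D2))))) := by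
        gcongr
    _ = 2 ^ (2 * h) * (n * (2 * E) ^ 2 * (4 * (n : ℝ) ^ 2) ^ (2 * h)) * (q ^ g * a * (q ^ g' * b)) *
          (Real.exp (g * D2) * Real.exp (-(g * D2))) * (Real.exp (g' * D2) * Real.exp (-(g' * D2))) := by
        rw [pow_add q]
        ring
    _ = _ := by rw [e1, e2, mul_one, mul_one]

end PB

end

end Pool.Agent.P8H2
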