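import Pool.Agent.P8H2.PB5
import Pool.Agent.W165.OZ.BAS
import Pool.Agent.P8H2.Stm

/-!
# The size of the conjugates: the determinant
-/

open Polynomial Pool.Agent.H337R2 Pool.Agent.W165.OZ

namespace Pool.Agent.P8H2

noncomputable section

namespace PB

/-- the bound for the normalised entries -/
def K2 (h n : ℕ) (Z : ℝ) : ℝ := (2 * h * (Z + 1)) * (n : ℝ) ^ 2 * K1 h n

lemma K1_nonneg (h n : ℕ) : 0 ≤ K1 h n := by
  unfold K1
  positivity

lemma det_bound (h ν : ℕ) (hh : 1 ≤ h) (hν : 1 ≤ ν) (Z : ℝ) (hZ : 0 ≤ Z) (z : ℕ → ℂ)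
    (hz : ∀ i, ‖z i‖ ≤ Z) :
    ‖DH (mo (10 * ν) h 1 w1 z) (5 * (h * ν))‖ ≤
      ((5 * (h * ν)).factorial : ℕ) * K2 h (10 * ν) Z ^ (5 * (h * ν)) *
        ∏ i ∈ Finset.range (5 * (h * ν)), AAi h ν i ^ 2 := by
  set r := 5 * (h * ν) with hr
  set n := 10 * ν with hn
  have e1 : DH (mo n h 1 w1 z) r = Matrix.det (Matrix.of fun i j : Fin r =>
      LaL n h 1 w1 z (Qpoly h ν i.1 * Qpoly h ν j.1)) :=
    (t_bas ℚ ℂ (LaL n h 1 w1 z) (Qpoly h ν) (fun i => Qpoly_monic h ν i hh hν)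
      (fun i => Qpoly_natDegree h ν i hh hν) r).symm
  set c : Fin r → ℂ := fun i => ((AAi h ν i.1 : ℝ) : ℂ) with hc
  have hc0 : ∀ i, c i ≠ 0 := by
    intro i
    rw [hc]
    simp only [ne_eq, Complex.ofReal_eq_zero]
    exact (AAi_pos h ν i.1 hh hν).ne'
  set Bm : Matrix (Fin r) (Fin r) ℂ := Matrix.of fun i j =>
    LaL n h 1 w1 z (Qpoly h ν i.1 * Qpoly h ν j.1) / (c i * c j) with hBm
  have e2 : (Matrix.of fun i j : Fin r => LaL n h 1 w1 z (Qpoly h ν i.1 * Qpoly h ν j.1)) =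
      Matrix.of fun i j : Fin r => c i * (Matrix.of fun i j : Fin r => c j * Bm i j) i j := by
    ext i j
    simp only [Matrix.of_apply, hBm]
    have h1 := hc0 i
    have h2 := hc0 j
    field_simp
  have e3 : DH (mo n h 1 w1 z) r = (∏ i : Fin r, c i) * ((∏ i : Fin r, c i) * Bm.det) := by
    rw [e1, e2, Matrix.det_mul_column, Matrix.det_mul_row]
  have hent : ∀ i j : Fin r, ‖Bm i j‖ ≤ K2 h n Z := by
    intro i j
    rw [hBm, Matrix.of_apply, norm_div, norm_mul]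
    have hi0 := AAi_pos h ν i.1 hh hν
    have hj0 := AAi_pos h ν j.1 hh hν
    have n1 : ‖c i‖ = AAi h ν i.1 := by
      rw [hc]; simp only [Complex.norm_real, Real.norm_eq_abs]; exact abs_of_pos hi0
    have n2 : ‖c j‖ = AAi h ν j.1 := by
      rw [hc]; simp only [Complex.norm_real, Real.norm_eq_abs]; exact abs_of_pos hj0
    rw [n1, n2, div_le_iff₀ (by positivity)]
    have h1 := CDaux.entry (n := n) (h := h) (B := 1) w1 le_rfl 1
      (num n (Qpoly h ν i.1 * Qpoly h ν j.1)) (K1 h n * (AAi h ν i.1 * AAi h ν j.1))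
      (by have := K1_nonneg h n; positivity)
      (fun k ι hk _ hι2 => by
        rw [one_mul]
        exact pa_le h ν k i.1 j.1 ι hh hν hk i.2 j.2 hι2)
      z Z hZ hz (by omega)
    rw [map_one, one_mul] at h1
    change ‖La n h 1 w1 z (num n (Qpoly h ν i.1 * Qpoly h ν j.1))‖ ≤ _
    refine h1.trans (le_of_eq ?_)
    unfold K2 CDaux.Wn
    simp
    ring
  have hdet := Matrix.det_le (abv := NormedField.toAbsoluteValue ℂ) (fun i j => hent i j)
  rw [Fintype.card_fin, nsmul_eq_mul] at hdet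
  change ‖Bm.det‖ ≤ _ at hdet
  rw [e3, norm_mul, norm_mul, norm_prod]
  have h4 : ∏ i : Fin r, ‖c i‖ = ∏ i ∈ Finset.range r, AAi h ν i := by
    rw [Finset.prod_range]
    refine Finset.prod_congr rfl fun i _ => ?_
    rw [hc]; simp only [Complex.norm_real, Real.norm_eq_abs]
    exact abs_of_pos (AAi_pos h ν i.1 hh hν)
  rw [h4, Finset.prod_pow]
  have hP : 0 ≤ ∏ i ∈ Finset.range r, AAi h ν i :=
    Finset.prod_nonneg fun i _ => (AAi_pos h ν i hh hν).le
  calc (∏ i ∈ Finset.range r, AAi h ν i) * ((∏ i ∈ Finset.range r, AAi h ν i) * ‖Bm.det‖)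
      ≤ (∏ i ∈ Finset.range r, AAi h ν i) * ((∏ i ∈ Finset.range r, AAi h ν i) *
          (((r.factorial : ℕ) : ℝ) * K2 h n Z ^ r)) := by
        gcongr
    _ = _ := by ring

end PB

end

end Pool.Agent.P8H2
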