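import Pool.Agent.P8H2.PB6

/-!
# The size of the conjugates: logarithms
-/

open Polynomial Pool.Agent.H337R2 Pool.Agent.W165.OZ

namespace Pool.Agent.P8H2

noncomputable section

namespace PB

lemma fact_le (k : ℕ) : Real.log (k.factorial : ℕ) ≤ ((k : ℝ) + 1) * Real.log (k + 1) - k := by
  induction k with
  | zero => simp
  | succ k ih =>
    have h0 : (0 : ℝ) ≤ k := Nat.cast_nonneg k
    rw [Nat.factorial_succ]
    push_cast
    rw [Real.log_mul (by positivity) (by positivity)]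
    have h1 : 1 - ((k : ℝ) + 1) / (k + 2) ≤ Real.log (k + 2) - Real.log (k + 1) := by
      have h2 := Real.one_sub_inv_le_log_of_pos (show (0 : ℝ) < (k + 2) / (k + 1) by positivity)
      rw [inv_div, Real.log_div (by positivity) (by positivity)] at h2
      exact h2
    have h3 : 1 - ((k : ℝ) + 1) / (k + 2) = 1 / (k + 2) := by field_simp; ring
    rw [h3] at h1
    have h4 : 1 ≤ ((k : ℝ) + 2) * (Real.log (k + 2) - Real.log (k + 1)) := by
      calc (1 : ℝ) = (k + 2) * (1 / (k + 2)) := by field_simp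
        _ ≤ _ := mul_le_mul_of_nonneg_left h1 (by positivity)
    rw [show (k : ℝ) + 1 + 1 = k + 2 by ring]
    nlinarith

lemma le_fact (N : ℕ) : (N : ℝ) * Real.log N - N ≤ Real.log (N.factorial : ℕ) := by
  rcases Nat.eq_zero_or_pos N with h0 | h0
  · rw [h0]; simp
  have h1 : (0 : ℝ) < N := by exact_mod_cast h0
  have h2 : (N : ℝ) ^ N / (N.factorial : ℕ) ≤ Real.exp N := Real.pow_div_factorial_le_exp _ h1.le _
  have h3 := Real.log_le_log (by positivity) h2
  rw [Real.log_exp, Real.log_div (by positivity) (by positivity), Real.log_pow] at h3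
  linarith

lemma log_succ (N : ℕ) (hN : 1 ≤ N) :
    ((N : ℝ) + 1) * Real.log (N + 1) - Real.log (N + 1) - 1 ≤ N * Real.log N := by
  have h1 : (1 : ℝ) ≤ N := by exact_mod_cast hN
  have h2 := Real.log_le_sub_one_of_pos (show (0 : ℝ) < (N + 1) / N by positivity)
  rw [Real.log_div (by positivity) (by positivity)] at h2
  have h3 : ((N : ℝ) + 1) / N - 1 = 1 / N := by field_simp; ring
  rw [h3] at h2
  have h4 : (N : ℝ) * (Real.log (N + 1) - Real.log N) ≤ 1 := by
    calc (N : ℝ) * (Real.log (N + 1) - Real.log N) ≤ N * (1 / N) := mul_le_mul_of_nonneg_left h2 (by positivity)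
      _ = 1 := by field_simp
  nlinarith

/-- the main term of the logarithm of the square of an element of the basis -/
def ell (L n : ℝ) (g m : ℕ) : ℝ :=
  2 * (g * n * (1 + Real.log 2 - L) + m * (L - Real.log (4 * g) - 1) + m * Real.log m)

/-- the Hermite factor -/
lemma log_AA (ν h g m : ℕ) (hν : 1 ≤ ν) (hg : 1 ≤ g) (hm : 2 * m ≤ h * (10 * ν)) :
    Real.log (AA (10 * ν) g m) ≤
      m * (Real.log ((10 * ν : ℕ) : ℝ) - Real.log (4 * g) - 1) + m * Real.log m + 1 / 2 +
        Real.log (h * ((10 * ν : ℕ) : ℝ) + 1) := by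
  unfold AA
  set n := 10 * ν with hn
  have hn1 : (10 : ℝ) ≤ n := by
    have : 10 ≤ n := by omega
    exact_mod_cast this
  have hgr : (1 : ℝ) ≤ g := by exact_mod_cast hg
  have hm0 : (0 : ℝ) ≤ m := Nat.cast_nonneg m
  have hN : (0 : ℝ) < (n : ℝ) - 1 := by linarith
  rw [Real.log_mul (by positivity) (by positivity), Real.log_div (by positivity) (by positivity),
    Real.log_mul (by positivity) (by positivity), Real.log_pow, Real.log_pow, Real.log_exp,
    Real.log_div (by positivity) (by positivity)]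
  have h1 := fact_le (2 * m)
  push_cast at h1
  have h2 : Real.log ((n : ℝ) - 1) ≤ Real.log n := Real.log_le_log hN (by linarith)
  have h3 : Real.log (8 * g) = Real.log 2 + Real.log (4 * g) := by
    rw [← Real.log_mul (by norm_num) (by positivity)]
    congr 1
    ring
  have h4 : (m : ℝ) * Real.log (2 * m + 1) ≤ m * Real.log 2 + m * Real.log m + 1 / 2 := by
    rcases Nat.eq_zero_or_pos m with h0 | h0
    · rw [h0]; simp
    have hm1 : (1 : ℝ) ≤ m := by exact_mod_cast h0
    have h5 := Real.log_le_sub_one_of_pos (show (0 : ℝ) < (2 * m + 1) / (2 * m) by positivity)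
    rw [Real.log_div (by positivity) (by positivity), Real.log_mul (by norm_num) (by positivity)] at h5
    have h6 : (2 * (m : ℝ) + 1) / (2 * m) - 1 = 1 / (2 * m) := by field_simp; ring
    rw [h6] at h5
    have h7 : (m : ℝ) * (Real.log (2 * m + 1) - (Real.log 2 + Real.log m)) ≤ 1 / 2 := by
      calc (m : ℝ) * (Real.log (2 * m + 1) - (Real.log 2 + Real.log m)) ≤ m * (1 / (2 * m)) :=
            mul_le_mul_of_nonneg_left h5 hm0
        _ = 1 / 2 := by field_simp
    linarith
  have h5 : Real.log (2 * m + 1) ≤ Real.log (h * (n : ℝ) + 1) := by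
    apply Real.log_le_log (by positivity)
    have : ((2 * m : ℕ) : ℝ) ≤ ((h * n : ℕ) : ℝ) := by exact_mod_cast hm
    push_cast at this
    linarith
  have h6 := mul_le_mul_of_nonneg_left h2 hm0
  push_cast
  rw [h3]
  nlinarith

/-- the logarithm of an element of the basis -/
lemma log_AAi (h ν i : ℕ) (hh : 1 ≤ h) (hν : 1 ≤ ν) (hi : i < 5 * (h * ν)) :
    Real.log (AAi h ν i ^ 2) ≤ ell (Real.log ((10 * ν : ℕ) : ℝ)) ((10 * ν : ℕ) : ℝ) (gi h ν i) (mi h ν i) +
      2 * (h * (Real.log ((10 * ν : ℕ) : ℝ) + 1) + 1 / 2 + Real.log (h * ((10 * ν : ℕ) : ℝ) + 1)) := by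
  have hg := gi_pos h ν i hh
  have hgh := gi_le h ν i
  have hlog := log_AA ν h (gi h ν i) (mi h ν i) hν hg (mi_le h ν i hi)
  have hpos := AA_pos ν (gi h ν i) (mi h ν i) hν hg
  unfold AAi ell
  set g := gi h ν i
  set m := mi h ν i
  set n := 10 * ν with hn
  set a := AA n g m
  have hn1 : (10 : ℝ) ≤ n := by
    have : 10 ≤ n := by omega
    exact_mod_cast this
  have hL : 0 ≤ Real.log n := Real.log_nonneg (by linarith)
  have hgr : (1 : ℝ) ≤ g := by exact_mod_cast hg
  have hghr : (g : ℝ) ≤ h := by exact_mod_cast hgh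
  rw [Real.log_pow, Real.log_mul (by positivity) hpos.ne', Real.log_pow, Real.log_div (by positivity) (by positivity),
    Real.log_pow]
  have h1 := le_fact (n - 1)
  have h2 := log_succ (n - 1) (by omega)
  have hN : ((n - 1 : ℕ) : ℝ) = (n : ℝ) - 1 := by rw [Nat.cast_sub (by omega)]; simp
  rw [hN] at h1 h2 ⊢
  rw [sub_add_cancel] at h2
  have h3 : ((n : ℝ) - 1) * Real.log 2 - Real.log ((n - 1).factorial : ℕ) ≤
      n * (1 + Real.log 2 - Real.log n) + (Real.log n + 1) := by
    have := Real.log_nonneg (show (1 : ℝ) ≤ 2 by norm_num)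
    nlinarith
  have h4 := mul_le_mul_of_nonneg_left h3 (by linarith : (0 : ℝ) ≤ g)
  have h5 : (g : ℝ) * (Real.log n + 1) ≤ h * (Real.log n + 1) :=
    mul_le_mul_of_nonneg_right hghr (by linarith)
  push_cast
  nlinarith

/-- the sum of `m log m` -/
def GG (x : ℝ) : ℝ := x ^ 2 * Real.log x

lemma phi_step (m : ℕ) : 2 * ((m : ℝ) * Real.log m) ≤
    (GG (m + 1) - ((m : ℝ) + 1) ^ 2 / 2) - (GG m - (m : ℝ) ^ 2 / 2) + (if m = 0 then 1 / 2 else 0) := by
  unfold GG
  split_ifs with h0
  · rw [h0]; simp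
  have hm : (1 : ℝ) ≤ m := by
    have : 1 ≤ m := by omega
    exact_mod_cast this
  have h1 := Real.one_sub_inv_le_log_of_pos (show (0 : ℝ) < (m + 1) / m by positivity)
  rw [inv_div, Real.log_div (by positivity) (by positivity)] at h1
  have h3 : 1 - (m : ℝ) / (m + 1) = 1 / (m + 1) := by field_simp; ring
  rw [h3] at h1
  -- need (m+1)^2 (log(m+1) - log m) ≥ m + 1/2 - log m
  have h4 : (m : ℝ) + 1 ≤ ((m : ℝ) + 1) ^ 2 * (Real.log (m + 1) - Real.log m) := by
    calc (m : ℝ) + 1 = (m + 1) ^ 2 * (1 / (m + 1)) := by field_simp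
      _ ≤ _ := mul_le_mul_of_nonneg_left h1 (by positivity)
  have h5 : 0 ≤ Real.log m := Real.log_nonneg hm
  nlinarith

lemma phi_sum (M s : ℕ) : ∑ j ∈ Finset.range s, 2 * (((M + j : ℕ) : ℝ) * Real.log ((M + j : ℕ) : ℝ)) ≤
    GG ((M : ℝ) + s) - GG M - (((M : ℝ) + s) ^ 2 - (M : ℝ) ^ 2) / 2 + 1 / 2 := by
  have h1 : ∀ s : ℕ, ∑ j ∈ Finset.range s, 2 * (((M + j : ℕ) : ℝ) * Real.log ((M + j : ℕ) : ℝ)) ≤
    GG ((M : ℝ) + s) - GG M - (((M : ℝ) + s) ^ 2 - (M : ℝ) ^ 2) / 2 + (if M = 0 ∧ 0 < s then 1 / 2 else 0) := by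
    intro s
    induction s with
    | zero => simp
    | succ s ih =>
      rw [Finset.sum_range_succ]
      have h2 := phi_step (M + s)
      push_cast at h2 ih ⊢
      rw [← add_assoc]
      have h3 : (if M + s = 0 then (1 / 2 : ℝ) else 0) + (if M = 0 ∧ 0 < s then 1 / 2 else 0) =
          if M = 0 ∧ 0 < s + 1 then 1 / 2 else 0 := by
        rcases Nat.eq_zero_or_pos M with hM | hM
        · rcases Nat.eq_zero_or_pos s with hs | hs
          · simp [hM, hs]
          · simp [hM, hs.ne', hs]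
        · simp [hM.ne']
      linarith
  refine (h1 s).trans ?_
  split_ifs <;> linarith

/-- a block of rows -/
lemma block (L n : ℝ) (g M s : ℕ) (hg : 1 ≤ g) (hL : 0 ≤ L) :
    ∑ j ∈ Finset.range s, ell L n g (M + j) ≤
      2 * g * n * (1 + Real.log 2 - L) * s +
        (L - Real.log (4 * g) - 3 / 2) * (((M : ℝ) + s) ^ 2 - (M : ℝ) ^ 2) +
        GG ((M : ℝ) + s) - GG M + (Real.log (4 * g) + 1) * s + 1 / 2 := by
  have h1 := phi_sum M s
  have h2 : ∑ j ∈ Finset.range s, ell L n g (M + j) = 2 * g * n * (1 + Real.log 2 - L) * s +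
      (L - Real.log (4 * g) - 1) * (((M : ℝ) + s) ^ 2 - (M : ℝ) ^ 2 - s) +
      ∑ j ∈ Finset.range s, 2 * (((M + j : ℕ) : ℝ) * Real.log ((M + j : ℕ) : ℝ)) := by
    induction s with
    | zero => simp
    | succ s ih =>
      rw [Finset.sum_range_succ, Finset.sum_range_succ, ih (phi_sum M s)]
      unfold ell
      push_cast
      ring
  have hgr : (1 : ℝ) ≤ g := by exact_mod_cast hg
  rw [h2]
  have hs : (0 : ℝ) ≤ s := Nat.cast_nonneg s
  have h3 := mul_nonneg hL hs
  nlinarith

end PB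

end

end Pool.Agent.P8H2
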