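import Pool.Agent.P8H2.PE
import Pool.Agent.TH650.GB.CB

/-!
# Determinants of products and `p`-adic weights
-/

open Polynomial Pool.Agent.H337R2 Pool.Agent.W165.OZ

namespace Pool.Agent.P8H2

noncomputable section

lemma zpow_sum' {ι : Type*} (s : Finset ι) (x : ℚ) (hx : x ≠ 0) (f : ι → ℤ) :
    ∏ a ∈ s, x ^ (f a) = x ^ (∑ a ∈ s, f a) := by
  classical
  induction s using Finset.induction_on with
  | empty => simp
  | insert a s ha ih => rw [Finset.prod_insert ha, Finset.sum_insert ha, ih, zpow_add₀ hx]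

lemma norm_zpow_le (p : ℕ) [hp : Fact p.Prime] (m : ℤ) (hm : 0 ≤ m) : padicNorm p ((p : ℚ) ^ m) ≤ 1 := by
  obtain ⟨k, rfl⟩ := Int.eq_ofNat_of_zero_le hm
  rw [zpow_natCast]
  have := padicNorm.of_nat (p := p) (p ^ k)
  push_cast at this
  exact this

/-- determinants of `Xᵀ K X` when the entries of `K` have a separated denominator -/
theorem cbp {A : Type*} [CommRing A] [Algebra ℚ A] (S : Subring A) (p : ℕ) [hp : Fact p.Prime]
    (hS : ∀ x : ℚ, padicNorm p x ≤ 1 → algebraMap ℚ A x ∈ S)
    {r : ℕ} {κ : Type*} [Fintype κ] [DecidableEq κ] (X : Matrix κ (Fin r) A) (K : Matrix κ κ A)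
    (u : κ → ℤ) (U : ℤ) (hX : ∀ k i, X k i ∈ S)
    (hK : ∀ k k', algebraMap ℚ A ((p : ℚ) ^ (u k + u k')) * K k k' ∈ S)
    (hU : ∀ I : Fin r → κ, Function.Injective I → ∑ a, u (I a) ≤ U) :
    algebraMap ℚ A ((p : ℚ) ^ (2 * U)) * (X.transpose * (K * X)).det ∈ S := by
  have hp0 : (p : ℚ) ≠ 0 := by exact_mod_cast hp.out.ne_zero
  have hp1 : (1 : ℚ) < p := by exact_mod_cast hp.out.one_lt
  have hdetmem : ∀ M : Matrix (Fin r) (Fin r) A, (∀ i j, M i j ∈ S) → M.det ∈ S := by
    intro M hM
    rw [Matrix.det_apply']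
    refine Subring.sum_mem _ fun σ _ => ?_
    exact S.mul_mem (intCast_mem S _) (Subring.prod_mem _ fun i _ => hM _ _)
  rw [Pool.Agent.TH650.GB.det_mul_expand, Finset.mul_sum]
  refine Subring.sum_mem _ fun I _ => ?_
  by_cases hI : Function.Injective I
  · have e1 : (K * X).submatrix I id = K.submatrix I id * X := by
      ext a b
      simp [Matrix.mul_apply]
    rw [e1, Pool.Agent.TH650.GB.det_mul_expand, Finset.mul_sum, Finset.mul_sum]
    refine Subring.sum_mem _ fun I' _ => ?_
    by_cases hI' : Function.Injective I'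
    · have h1 := hU I hI
      have h2 := hU I' hI'
      have e2 : (p : ℚ) ^ (2 * U) = (p : ℚ) ^ (2 * U - ∑ a, u (I a) - ∑ a, u (I' a)) *
          ∏ a, (p : ℚ) ^ (u (I a) + u (I' a)) := by
        have e3 : ∏ a, (p : ℚ) ^ (u (I a) + u (I' a)) = (p : ℚ) ^ (∑ a, (u (I a) + u (I' a))) := by
          exact zpow_sum' _ _ hp0 _
        rw [e3, ← zpow_add₀ hp0]
        congr 1
        rw [Finset.sum_add_distrib]
        ring
      have e4 : algebraMap ℚ A ((p : ℚ) ^ (2 * U)) * ((∏ a, X.transpose a (I a)) *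
          ((∏ a, (K.submatrix I id) a (I' a)) * (X.submatrix I' id).det)) =
          algebraMap ℚ A ((p : ℚ) ^ (2 * U - ∑ a, u (I a) - ∑ a, u (I' a))) *
          ((∏ a, X.transpose a (I a)) * ((∏ a, (algebraMap ℚ A ((p : ℚ) ^ (u (I a) + u (I' a))) * K (I a) (I' a))) *
            (X.submatrix I' id).det)) := by
        rw [e2, map_mul, map_prod, Finset.prod_mul_distrib]
        simp only [Matrix.submatrix_apply, id_eq]
        ring
      rw [e4]
      apply S.mul_mem
      · apply hS
        exact norm_zpow_le p _ (by linarith)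
      · apply S.mul_mem
        · exact Subring.prod_mem _ fun a _ => hX _ _
        · apply S.mul_mem
          · exact Subring.prod_mem _ fun a _ => hK _ _
          · exact hdetmem _ fun i j => hX _ _
    · have : (X.submatrix I' id).det = 0 := by
        rw [Function.Injective] at hI'
        push Not at hI'
        obtain ⟨a, b, hab, hne⟩ := hI'
        apply Matrix.det_zero_of_row_eq hne
        ext j
        simp [hab]
      rw [this, mul_zero, mul_zero, mul_zero]
      exact S.zero_mem
  · have : ((K * X).submatrix I id).det = 0 := by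
      rw [Function.Injective] at hI
      push Not at hI
      obtain ⟨a, b, hab, hne⟩ := hI
      apply Matrix.det_zero_of_row_eq hne
      ext j
      simp [hab]
    rw [this, mul_zero, mul_zero]
    exact S.zero_mem

end

end Pool.Agent.P8H2
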