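import Pool.Agent.P8H2.PC

/-!
# The decomposition into classes
-/

open Polynomial Pool.Agent.H337R2 Pool.Agent.W165.OZ

namespace Pool.Agent.P8H2

noncomputable section

/-! ### Representatives -/

/-- the smallest pole in the class of `k` -/
def rp (n p k : ℕ) : ℕ := Nat.find (⟨k, by simp⟩ : ∃ j : ℕ, (p : ℤ) ∣ yy n k - yy n j)

lemma rp_dvd (n p k : ℕ) : (p : ℤ) ∣ yy n k - yy n (rp n p k) :=
  Nat.find_spec (⟨k, by simp⟩ : ∃ j : ℕ, (p : ℤ) ∣ yy n k - yy n j)

lemma rp_min (n p k j : ℕ) (h : (p : ℤ) ∣ yy n k - yy n j) : rp n p k ≤ j := Nat.find_min' _ h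

lemma rp_le (n p k : ℕ) : rp n p k ≤ k := rp_min n p k k (by simp)

lemma yy_sub (n k j : ℕ) : yy n k - yy n j = ((k : ℤ) - j) * ((n : ℤ) - 1 - k - j) := by
  unfold yy; ring

lemma rp_rp (n p k : ℕ) : rp n p (rp n p k) = rp n p k := by
  apply le_antisymm (rp_le _ _ _)
  apply rp_min
  have h1 := rp_dvd n p k
  have h2 := rp_dvd n p (rp n p k)
  have := dvd_add h1 h2
  simpa using this

lemma ee_eq {n p k j : ℕ} (hp : p.Prime) (h : (p : ℤ) ∣ yy n k - yy n j) : ee n p k = ee n p j := by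
  have hp0 := hp.pos
  rw [yy_sub] at h
  have hk := Nat.mod_lt k hp0
  have hj := Nat.mod_lt j hp0
  have hn := Nat.mod_lt n hp0
  have ek := Nat.div_add_mod k p
  have ej := Nat.div_add_mod j p
  have en := Nat.div_add_mod n p
  unfold ee
  congr 1
  have hprime : Prime (p : ℤ) := Nat.prime_iff_prime_int.1 hp
  rcases hprime.dvd_or_dvd h with h1 | h1
  · have h2 : j ≡ k [MOD p] := (Nat.modEq_iff_dvd).2 h1
    have h3 : j % p = k % p := h2
    rw [h3]
  · obtain ⟨t, ht⟩ := h1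
    set a := k % p
    set b := j % p
    set ρ := n % p
    have h2 : ((ρ : ℤ)) - 1 - a - b = (p : ℤ) * (t - (n / p : ℕ) + (k / p : ℕ) + (j / p : ℕ)) := by
      have e1 : (n : ℤ) = p * (n / p : ℕ) + ρ := by exact_mod_cast en.symm
      have e2 : (k : ℤ) = p * (k / p : ℕ) + a := by exact_mod_cast ek.symm
      have e3 : (j : ℤ) = p * (j / p : ℕ) + b := by exact_mod_cast ej.symm
      rw [e1, e2, e3] at ht
      linarith
    obtain ⟨s, hs⟩ : ∃ s : ℤ, s = (t - (n / p : ℕ) + (k / p : ℕ) + (j / p : ℕ)) := ⟨_, rfl⟩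
    rw [← hs] at h2
    have hs1 : s ≤ 0 := by
      by_contra hlt
      have : (p : ℤ) * 1 ≤ p * s := by
        apply mul_le_mul_of_nonneg_left (by omega) (by omega)
      omega
    have hs2 : -1 ≤ s := by
      by_contra hlt
      have : (p : ℤ) * s ≤ p * (-2) := by
        apply mul_le_mul_of_nonneg_left (by omega) (by omega)
      omega
    have : s = 0 ∨ s = -1 := by omega
    rcases this with hs0 | hs0
    · rw [hs0] at h2
      have : a < ρ ↔ b < ρ := by constructor <;> intro <;> omega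
      simp only [this]
    · rw [hs0] at h2
      have : a < ρ ↔ b < ρ := by constructor <;> intro <;> omega
      simp only [this]

lemma rp_lt_p {n p k : ℕ} (hp : p.Prime) : rp n p k < p := by
  have h1 : rp n p k ≤ k % p := by
    apply rp_min
    rw [yy_sub]
    apply Dvd.dvd.mul_right
    have : (k % p) ≡ k [MOD p] := Nat.mod_modEq k p
    exact (Nat.modEq_iff_dvd).1 this
  exact lt_of_le_of_lt h1 (Nat.mod_lt k hp.pos)

/-- position of the representatives -/
lemma rp_pos1 {n p k : ℕ} (hp : p.Prime) (h : rp n p k < n % p) : 2 * rp n p k + 1 ≤ n % p := by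
  obtain ⟨a, ha⟩ : ∃ a, rp n p k = a := ⟨_, rfl⟩
  have h0 := rp_rp n p k
  rw [ha] at h h0 ⊢
  have en := Nat.div_add_mod n p
  have h1 : rp n p a ≤ n % p - 1 - a := by
    apply rp_min
    rw [yy_sub]
    apply Dvd.dvd.mul_left
    refine ⟨(n / p : ℕ), ?_⟩
    have e1 : (n : ℤ) = p * (n / p : ℕ) + (n % p : ℕ) := by exact_mod_cast en.symm
    have e2 : ((n % p - 1 - a : ℕ) : ℤ) = (n % p : ℕ) - 1 - a := by omega
    rw [e2]
    linarith
  omega

lemma rp_pos0 {n p k : ℕ} (hp : p.Prime) (hpn : p ≤ n) (h : n % p ≤ rp n p k) :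
    2 * rp n p k + 1 ≤ p + n % p := by
  obtain ⟨a, ha⟩ : ∃ a, rp n p k = a := ⟨_, rfl⟩
  have h0 := rp_rp n p k
  have h3 := rp_lt_p (n := n) (k := k) hp
  rw [ha] at h h0 h3 ⊢
  have en := Nat.div_add_mod n p
  have hq : 1 ≤ n / p := Nat.div_pos hpn hp.pos
  have h1 : rp n p a ≤ p + n % p - 1 - a := by
    apply rp_min
    rw [yy_sub]
    apply Dvd.dvd.mul_left
    refine ⟨(n / p : ℕ) - 1, ?_⟩
    have e1 : (n : ℤ) = p * (n / p : ℕ) + (n % p : ℕ) := by exact_mod_cast en.symm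
    have e2 : ((p + n % p - 1 - a : ℕ) : ℤ) = p + (n % p : ℕ) - 1 - a := by omega
    rw [e2]
    linarith
  omega

/-! ### The functionals -/

/-- the part of the functional belonging to the poles in `s` -/
def Lc {A : Type*} [CommRing A] [Algebra ℚ A] (s : Finset ℕ) (n h : ℕ) (z : ℕ → A) : ℚ[X] →ₗ[ℚ] A where
  toFun Q := ∑ k ∈ s, ∑ i ∈ Finset.Icc 1 (2 * h),
    algebraMap ℚ A (pa (sP n) (mP h) (num n Q) k i) * (z i - algebraMap ℚ A (hs i (k + 1)))
  map_add' P Q := by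
    rw [← Finset.sum_add_distrib]
    refine Finset.sum_congr rfl fun k _ => ?_
    rw [← Finset.sum_add_distrib]
    refine Finset.sum_congr rfl fun i _ => ?_
    rw [num_add, pa_add, map_add]
    ring
  map_smul' c P := by
    rw [RingHom.id_apply, Finset.smul_sum]
    refine Finset.sum_congr rfl fun k _ => ?_
    rw [Finset.smul_sum]
    refine Finset.sum_congr rfl fun i _ => ?_
    rw [← C_mul', num_C_mul, pa_C_mul, map_mul, Algebra.smul_def]
    ring

lemma Lc_apply {A : Type*} [CommRing A] [Algebra ℚ A] (s : Finset ℕ) (n h : ℕ) (z : ℕ → A) (Q : ℚ[X]) :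
    Lc s n h z Q = ∑ k ∈ s, ∑ i ∈ Finset.Icc 1 (2 * h),
    algebraMap ℚ A (pa (sP n) (mP h) (num n Q) k i) * (z i - algebraMap ℚ A (hs i (k + 1))) := rfl

lemma La_eq {A : Type*} [CommRing A] [Algebra ℚ A] (n h : ℕ) (z : ℕ → A) (Q : ℚ[X]) :
    La n h 1 w1 z (num n Q) = Lc (Finset.range n) n h z Q := by
  rw [Lc_apply, Finset.sum_comm]
  unfold La
  refine Finset.sum_congr rfl fun i _ => ?_
  have e1 : WW 1 w1 i = 1 := by
    unfold WW
    simp
  have e2 : betP n h 1 w1 (num n Q) i =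
      ∑ k ∈ Finset.range n, pa (sP n) (mP h) (num n Q) k i * hs i (k + 1) := by
    unfold betP
    simp
  rw [e1, e2]
  unfold rhoP
  rw [Int.cast_one, mul_one, map_sum, map_sum, Finset.sum_mul, ← Finset.sum_sub_distrib]
  refine Finset.sum_congr rfl fun k _ => ?_
  rw [map_mul]
  ring

/-- the poles with representative `a` -/
def cls (n p a : ℕ) : Finset ℕ := (Finset.range n).filter fun k => rp n p k = a

lemma mem_cls {n p a k : ℕ} : k ∈ cls n p a ↔ k < n ∧ rp n p k = a := by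
  unfold cls
  rw [Finset.mem_filter, Finset.mem_range]

lemma Lc_split {A : Type*} [CommRing A] [Algebra ℚ A] (n h p : ℕ) (z : ℕ → A) (Q : ℚ[X]) :
    Lc (Finset.range n) n h z Q = ∑ a : Fin n, Lc (cls n p a) n h z Q := by
  rw [Finset.sum_fin_eq_sum_range]
  have e1 : ∑ i ∈ Finset.range n, (if hi : i < n then (Lc (cls n p (⟨i, hi⟩ : Fin n)) n h z) Q else 0) =
      ∑ i ∈ Finset.range n, Lc (cls n p i) n h z Q := by
    refine Finset.sum_congr rfl fun i hi => ?_
    rw [dif_pos (Finset.mem_range.1 hi)]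
  rw [e1]
  simp only [Lc_apply]
  unfold cls
  rw [Finset.sum_fiberwise_of_maps_to]
  intro k hk
  rw [Finset.mem_range] at hk ⊢
  exact lt_of_le_of_lt (rp_le n p k) hk

/-- the centre of a class -/
def ctr (n a : ℕ) : ℤ := -yy n a

/-- the matrix of the change of basis -/
def Xm (A : Type*) [CommRing A] (n r : ℕ) : Matrix (Fin n × Fin r) (Fin r) A :=
  fun x i => (((i.1.choose x.2.1 : ℕ) : ℤ) * ctr n x.1.1 ^ (i.1 - x.2.1) : ℤ)

/-- the block diagonal matrix -/
def Km {A : Type*} [CommRing A] [Algebra ℚ A] (n h p r : ℕ) (z : ℕ → A) :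
    Matrix (Fin n × Fin r) (Fin n × Fin r) A :=
  fun x x' => if x.1 = x'.1 then
    Lc (cls n p x.1.1) n h z ((X - C ((ctr n x.1.1 : ℤ) : ℚ)) ^ (x.2.1 + x'.2.1)) else 0

lemma X_pow_expand (c : ℤ) {r i : ℕ} (hi : i < r) : (X : ℚ[X]) ^ i =
    ∑ l : Fin r, C ((((i.choose l.1 : ℕ) : ℤ) * c ^ (i - l.1) : ℤ) : ℚ) * (X - C (c : ℚ)) ^ l.1 := by
  have h1 : (X : ℚ[X]) = (X - C (c : ℚ)) + C (c : ℚ) := by ring
  conv_lhs => rw [h1]
  rw [add_pow, Finset.sum_fin_eq_sum_range]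
  have h2 : ∑ l ∈ Finset.range r, (if hl : l < r then
      C ((((i.choose l : ℕ) : ℤ) * c ^ (i - l) : ℤ) : ℚ) * (X - C (c : ℚ)) ^ l else 0) =
      ∑ l ∈ Finset.range (i + 1), C ((((i.choose l : ℕ) : ℤ) * c ^ (i - l) : ℤ) : ℚ) * (X - C (c : ℚ)) ^ l := by
    rw [← Finset.sum_subset (Finset.range_subset_range.2 (by omega : i + 1 ≤ r))]
    · refine Finset.sum_congr rfl fun l hl => ?_
      rw [Finset.mem_range] at hl
      rw [dif_pos (by omega)]
    · intro l _ hl
      rw [Finset.mem_range] at hl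
      rw [Nat.choose_eq_zero_of_lt (by omega)]
      simp
  rw [h2]
  refine Finset.sum_congr rfl fun l _ => ?_
  push_cast
  simp only [map_mul, map_pow, map_natCast]
  ring

theorem DH_eq {A : Type*} [CommRing A] [Algebra ℚ A] (n h p r : ℕ) (z : ℕ → A) :
    DH (mo n h 1 w1 z) r = ((Xm A n r).transpose * (Km n h p r z * Xm A n r)).det := by
  unfold DH
  congr 1
  ext i j
  rw [Matrix.of_apply]
  unfold mo
  rw [La_eq, Lc_split n h p, Matrix.mul_apply]
  simp only [Matrix.transpose_apply, Matrix.mul_apply, Fintype.sum_prod_type]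
  refine Finset.sum_congr rfl fun a _ => ?_
  rw [pow_add, X_pow_expand (ctr n a.1) i.2, X_pow_expand (ctr n a.1) j.2, Finset.sum_mul, map_sum]
  refine Finset.sum_congr rfl fun l _ => ?_
  rw [Finset.mul_sum, map_sum, Finset.mul_sum]
  rw [Finset.sum_eq_single a]
  · rw [Finset.mul_sum]
    refine Finset.sum_congr rfl fun l' _ => ?_
    unfold Xm Km
    simp only [if_true]
    rw [show (C ((((i.1.choose l.1 : ℕ) : ℤ) * ctr n a.1 ^ (i.1 - l.1) : ℤ) : ℚ) * (X - C ((ctr n a.1 : ℤ) : ℚ)) ^ l.1) *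
        (C ((((j.1.choose l'.1 : ℕ) : ℤ) * ctr n a.1 ^ (j.1 - l'.1) : ℤ) : ℚ) * (X - C ((ctr n a.1 : ℤ) : ℚ)) ^ l'.1) =
        C (((((i.1.choose l.1 : ℕ) : ℤ) * ctr n a.1 ^ (i.1 - l.1) : ℤ) : ℚ) *
          ((((j.1.choose l'.1 : ℕ) : ℤ) * ctr n a.1 ^ (j.1 - l'.1) : ℤ) : ℚ)) *
        (X - C ((ctr n a.1 : ℤ) : ℚ)) ^ (l.1 + l'.1) by rw [map_mul, pow_add]; ring]
    rw [C_mul', map_smul, Algebra.smul_def, map_mul, map_intCast, map_intCast]
    ring
  · intro b _ hb
    unfold Km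
    simp [hb.symm]
  · intro hh
    exact absurd (Finset.mem_univ a) hh

end

end Pool.Agent.P8H2
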