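import Pool.Agent.P8H2.Stm
import Pool.Agent.W165.OZ.Base

/-!
# The class bound: partial fraction coefficients near a residue class
-/

open Polynomial Pool.Agent.H337R2 Pool.Agent.W165.OZ

namespace Pool.Agent.P8H2

noncomputable section

variable {p : ℕ} [hp : Fact p.Prime]

/-- `k (n - 1 - k)` as an integer -/
def yy (n k : ℕ) : ℤ := (k : ℤ) * ((n : ℤ) - 1 - k)

/-- the number of poles in the residue class of `k` -/
def ee (n p k : ℕ) : ℕ := n / p + if k % p < n % p then 1 else 0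

omit hp in
lemma PB_quad {ρ A b c : ℚ} (hρ : 0 ≤ ρ) (hA : 0 ≤ A) (hc : padicNorm p c ≤ A)
    (hb : padicNorm p b ≤ A * ρ) (h2 : 1 ≤ A * ρ ^ 2) :
    PB p ρ A (PowerSeries.X ^ 2 + PowerSeries.C b * PowerSeries.X + PowerSeries.C c) := by
  intro j
  rw [map_add, map_add]
  rcases j with _ | _ | _ | j
  · simpa using hc
  · simpa [PowerSeries.coeff_C, PowerSeries.coeff_X_pow] using hb
  · simp [PowerSeries.coeff_X_pow]
    exact h2
  · simp [PowerSeries.coeff_X_pow]
    positivity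

lemma TS_num (n k : ℕ) (c : ℚ) (m : ℕ) :
    TS (-(k : ℚ)) (num n ((X - C c) ^ m)) =
      (PowerSeries.C 2 * PowerSeries.X + PowerSeries.C (-2 * (k : ℚ) + ((n : ℚ) - 1))) *
      (PowerSeries.X ^ 2 + PowerSeries.C (-2 * (k : ℚ) + ((n : ℚ) - 1)) * PowerSeries.X +
        PowerSeries.C (-(k : ℚ) * (-(k : ℚ) + ((n : ℚ) - 1)) - c)) ^ m := by
  unfold num yp
  generalize (n : ℚ) - 1 = a
  rw [map_mul, map_add, map_mul, TS_C, TS_X, TS_C, pow_comp, sub_comp, X_comp, C_comp, map_pow, map_sub,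
    map_mul, TS_X, TS_lin, TS_C]
  congr 1
  · rw [mul_add, add_assoc, ← map_mul, ← map_add]
    congr 2
    ring
  · congr 1
    rw [map_sub, map_mul]
    have e1 : PowerSeries.C (-2 * (k : ℚ) + a) =
        PowerSeries.C (-(k : ℚ)) + PowerSeries.C (-(k : ℚ) + a) := by
      rw [← map_add]; congr 1; ring
    rw [e1]
    ring

/-- the coefficients of one class -/
theorem pfc_class (n h m k j : ℕ) (hk : k < n) (hn : n ≤ p ^ 2) (c : ℤ)
    (hc : (p : ℤ) ∣ yy n k + c) :
    padicNorm p (pfc (sP n) (mP h) (num n ((X - C (c : ℚ)) ^ m)) k j) ≤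
      ((p : ℚ)⁻¹) ^ m * ((p : ℚ) ^ (2 * h)) ^ (ee n p k - 1) * (p : ℚ) ^ j := by
  have hp1 : (1 : ℚ) ≤ p := by exact_mod_cast hp.out.one_lt.le
  have hp0 : (0 : ℚ) < p := by linarith
  have h1 : PB p (p : ℚ) (((p : ℚ)⁻¹) ^ m) (TS (-(k : ℚ)) (num n ((X - C (c : ℚ)) ^ m))) := by
    rw [TS_num]
    have a1 : PB p (p : ℚ) 1
        (PowerSeries.C 2 * PowerSeries.X + PowerSeries.C (-2 * (k : ℚ) + ((n : ℚ) - 1))) := by
      apply PB.lin hp0.le zero_le_one
      · have : (-2 * (k : ℚ) + ((n : ℚ) - 1)) = ((-2 * (k : ℤ) + ((n : ℤ) - 1) : ℤ) : ℚ) := by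
          push_cast; ring
        rw [this]; exact padicNorm.of_int _
      · have : (2 : ℚ) = ((2 : ℤ) : ℚ) := by norm_num
        rw [this, one_mul]; exact (padicNorm.of_int _).trans hp1
    have a2 : PB p (p : ℚ) ((p : ℚ)⁻¹) (PowerSeries.X ^ 2 +
        PowerSeries.C (-2 * (k : ℚ) + ((n : ℚ) - 1)) * PowerSeries.X +
        PowerSeries.C (-(k : ℚ) * (-(k : ℚ) + ((n : ℚ) - 1)) - (c : ℚ))) := by
      apply PB_quad hp0.le (inv_pos.2 hp0).le
      · have : (-(k : ℚ) * (-(k : ℚ) + ((n : ℚ) - 1)) - (c : ℚ)) = ((-(yy n k + c) : ℤ) : ℚ) := by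
          unfold yy; push_cast; ring
        rw [this]
        have h2 : (p : ℤ) ∣ -(yy n k + c) := (dvd_neg).2 hc
        have h3 := (padicNorm.dvd_iff_norm_le (p := p) (n := 1) (z := -(yy n k + c))).1
          (by simpa using h2)
        simpa using h3
      · rw [inv_mul_cancel₀ hp0.ne']
        have : (-2 * (k : ℚ) + ((n : ℚ) - 1)) = ((-2 * (k : ℤ) + ((n : ℤ) - 1) : ℤ) : ℚ) := by
          push_cast; ring
        rw [this]; exact padicNorm.of_int _
      · rw [pow_two, ← mul_assoc, inv_mul_cancel₀ hp0.ne', one_mul]; exact hp1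
    have a3 := PB.mul hp0.le zero_le_one (by positivity) a1 (PB.pow hp0.le (inv_pos.2 hp0).le a2 m)
    rw [one_mul] at a3
    exact a3
  have h2 := pfc_bound (p := p) (sP n) (mP h) (num n ((X - C (c : ℚ)) ^ m)) k (p : ℚ) (((p : ℚ)⁻¹) ^ m)
    (fun m' => if (p : ℤ) ∣ (m' : ℤ) - k then (p : ℚ) else 1) hp0.le (by positivity) h1
    (by
      intro m' hm' _
      have hne : m' ≠ k := Finset.ne_of_mem_erase hm'
      have hlt : m' < n := Finset.mem_range.1 (Finset.mem_of_mem_erase hm')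
      have hz : (m' : ℤ) - k ≠ 0 := by omega
      have e1 : (m' : ℚ) - k = (((m' : ℤ) - k : ℤ) : ℚ) := by push_cast; ring
      rw [e1]
      by_cases hd : (p : ℤ) ∣ (m' : ℤ) - k
      · rw [if_pos hd]
        have hnd : ¬ ((p ^ 2 : ℕ) : ℤ) ∣ (m' : ℤ) - k := by
          intro hdd
          have h5 := Int.eq_zero_of_abs_lt_dvd hdd (by
            rw [abs_lt]
            have : (n : ℤ) ≤ ((p ^ 2 : ℕ) : ℤ) := by exact_mod_cast hn
            constructor <;> omega)
          exact hz h5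
        have h6 : (p : ℚ)⁻¹ ≤ padicNorm p (((m' : ℤ) - k : ℤ) : ℚ) := by
          by_contra hlt'
          rw [not_le] at hlt'
          apply hnd
          rw [padicNorm.dvd_iff_norm_le]
          have hz' : ((((m' : ℤ) - k : ℤ)) : ℚ) ≠ 0 := by exact_mod_cast hz
          rw [padicNorm.eq_zpow_of_nonzero hz'] at hlt' ⊢
          have h7 : ((p : ℚ)⁻¹) = (p : ℚ) ^ (-1 : ℤ) := by simp
          rw [h7] at hlt'
          have hp1' : (1 : ℚ) < p := by exact_mod_cast hp.out.one_lt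
          have h8 := (zpow_lt_zpow_iff_right₀ hp1').1 hlt'
          apply zpow_le_zpow_right₀ hp1
          generalize padicValRat p ((((m' : ℤ) - k : ℤ)) : ℚ) = v at h8 ⊢
          push_cast
          omega
        have h9 : (padicNorm p (((m' : ℤ) - k : ℤ) : ℚ))⁻¹ ≤ p := by
          rw [inv_le_comm₀ _ hp0]
          · exact h6
          · exact lt_of_lt_of_le (inv_pos.2 hp0) h6
        exact ⟨h9, h9⟩
      · rw [if_neg hd]
        have h6 : padicNorm p (((m' : ℤ) - k : ℤ) : ℚ) = 1 := (padicNorm.int_eq_one_iff _).2 hd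
        rw [h6, inv_one]
        exact ⟨le_rfl, hp1⟩)
    (by
      intro m' _
      split_ifs
      · exact hp0.le
      · exact zero_le_one) j
  refine h2.trans (le_of_eq ?_)
  congr 2
  have e2 : ∀ m' ∈ (sP n).erase k, (if (p : ℤ) ∣ (m' : ℤ) - k then (p : ℚ) else 1) ^ (mP h) m' =
      if (p : ℤ) ∣ (m' : ℤ) - k then (p : ℚ) ^ (2 * h) else 1 := by
    intro m' _
    split_ifs <;> simp
  rw [Finset.prod_congr rfl e2, Finset.prod_ite, Finset.prod_const, Finset.prod_const_one, mul_one]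
  congr 1
  -- counting
  have e3 : ((sP n).erase k).filter (fun m' : ℕ => (p : ℤ) ∣ (m' : ℤ) - k) =
      ((Finset.range n).filter (fun m' : ℕ => m' ≡ k [MOD p])).erase k := by
    ext m'
    simp only [Finset.mem_filter, Finset.mem_erase, Finset.mem_range]
    constructor
    · rintro ⟨⟨a, b⟩, c'⟩
      refine ⟨a, b, ?_⟩
      exact ((Nat.modEq_iff_dvd).2 c').symm
    · rintro ⟨a, b, c'⟩
      exact ⟨⟨a, b⟩, (Nat.modEq_iff_dvd).1 c'.symm⟩
  have e4 : k ∈ (Finset.range n).filter (fun m' : ℕ => m' ≡ k [MOD p]) :=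
    Finset.mem_filter.2 ⟨Finset.mem_range.2 hk, Nat.ModEq.refl k⟩
  rw [e3, Finset.card_erase_of_mem e4, ← Nat.count_eq_card_filter_range,
    Nat.count_modEq_card _ hp.out.pos]
  rfl

/-- the coefficients at an isolated pole -/
theorem pfc_flat (n h m k j : ℕ)
    (hiso : ∀ m' < n, m' ≠ k → ¬ (p : ℤ) ∣ (m' : ℤ) - k) :
    padicNorm p (pfc (sP n) (mP h) (num n ((X - C ((-yy n k : ℤ) : ℚ)) ^ m)) k j) ≤ 1 ∧
    (j < m → pfc (sP n) (mP h) (num n ((X - C ((-yy n k : ℤ) : ℚ)) ^ m)) k j = 0) := by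
  have e0 : (-(k : ℚ) * (-(k : ℚ) + ((n : ℚ) - 1)) - ((-yy n k : ℤ) : ℚ)) = 0 := by
    unfold yy; push_cast; ring
  constructor
  · have h1 : PB p (1 : ℚ) 1 (TS (-(k : ℚ)) (num n ((X - C ((-yy n k : ℤ) : ℚ)) ^ m))) := by
      rw [TS_num, e0]
      have b1 : padicNorm p (-2 * (k : ℚ) + ((n : ℚ) - 1)) ≤ 1 := by
        have : (-2 * (k : ℚ) + ((n : ℚ) - 1)) = ((-2 * (k : ℤ) + ((n : ℤ) - 1) : ℤ) : ℚ) := by
          push_cast; ring
        rw [this]; exact padicNorm.of_int _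
      have a1 : PB p (1 : ℚ) 1
          (PowerSeries.C 2 * PowerSeries.X + PowerSeries.C (-2 * (k : ℚ) + ((n : ℚ) - 1))) := by
        apply PB.lin zero_le_one zero_le_one b1
        have : (2 : ℚ) = ((2 : ℤ) : ℚ) := by norm_num
        rw [this, one_mul]; exact padicNorm.of_int _
      have a2 : PB p (1 : ℚ) 1 (PowerSeries.X ^ 2 +
          PowerSeries.C (-2 * (k : ℚ) + ((n : ℚ) - 1)) * PowerSeries.X + PowerSeries.C (0 : ℚ)) := by
        apply PB_quad zero_le_one zero_le_one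
        · rw [padicNorm.zero]; exact zero_le_one
        · rw [one_mul]; exact b1
        · norm_num
      have a3 := PB.mul zero_le_one zero_le_one (by positivity) a1 (PB.pow zero_le_one zero_le_one a2 m)
      rw [one_mul, one_pow] at a3
      exact a3
    have h2 := pfc_bound (p := p) (sP n) (mP h) (num n ((X - C ((-yy n k : ℤ) : ℚ)) ^ m)) k (1 : ℚ) 1
      (fun _ => 1) zero_le_one zero_le_one h1
      (by
        intro m' hm' _
        have hne : m' ≠ k := Finset.ne_of_mem_erase hm'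
        have hlt : m' < n := Finset.mem_range.1 (Finset.mem_of_mem_erase hm')
        have e1 : (m' : ℚ) - k = (((m' : ℤ) - k : ℤ) : ℚ) := by push_cast; ring
        rw [e1, (padicNorm.int_eq_one_iff _).2 (hiso m' hlt hne), inv_one]
        exact ⟨le_rfl, le_rfl⟩)
      (fun _ _ => zero_le_one) j
    refine h2.trans (le_of_eq ?_)
    simp
  · intro hj
    unfold pfc
    rw [TS_num, e0]
    have e1 : (PowerSeries.X ^ 2 + PowerSeries.C (-2 * (k : ℚ) + ((n : ℚ) - 1)) * PowerSeries.X +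
        PowerSeries.C (0 : ℚ)) =
        PowerSeries.X * (PowerSeries.X + PowerSeries.C (-2 * (k : ℚ) + ((n : ℚ) - 1))) := by
      rw [map_zero]; ring
    rw [e1, mul_pow]
    generalize (PowerSeries.X + PowerSeries.C (-2 * (k : ℚ) + ((n : ℚ) - 1))) ^ m = f1
    generalize (PowerSeries.C 2 * PowerSeries.X + PowerSeries.C (-2 * (k : ℚ) + ((n : ℚ) - 1))) = f2
    generalize VV ((sP n).erase k) (mP h) (-(k : ℚ)) = f3
    rw [show f2 * (PowerSeries.X ^ m * f1) * f3 = PowerSeries.X ^ m * (f2 * f1 * f3) by ring,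
      PowerSeries.coeff_X_pow_mul', if_neg (by omega)]

end

end Pool.Agent.P8H2
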