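import Pool.Agent.P8H2.PD
import Pool.Agent.W165.OZ.HB

/-!
# Integrality: the class bound
-/

open Polynomial Pool.Agent.H337R2 Pool.Agent.W165.OZ

namespace Pool.Agent.P8H2

noncomputable section

variable {p : ℕ} [hp : Fact p.Prime]

/-- sums over injective choices -/
lemma inj_sum_le {r : ℕ} {κ : Type*} [Fintype κ] [DecidableEq κ] (u : κ → ℤ) (I : Fin r → κ)
    (hI : Function.Injective I) : ∑ a, u (I a) ≤ ∑ x, max (u x) 0 := by
  calc ∑ a, u (I a) ≤ ∑ a, max (u (I a)) 0 := Finset.sum_le_sum fun _ _ => le_max_left _ _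
    _ = ∑ x ∈ Finset.univ.image I, max (u x) 0 := by
        rw [Finset.sum_image (fun a _ b _ hab => hI hab)]
    _ ≤ _ := Finset.sum_le_sum_of_subset_of_nonneg (Finset.subset_univ _) fun _ _ _ => le_max_right _ _

lemma norm_mul_zpow (x : ℚ) (E : ℤ) : padicNorm p ((p : ℚ) ^ E * x) = (p : ℚ) ^ (-E) * padicNorm p x := by
  have hp0 : (p : ℚ) ≠ 0 := by exact_mod_cast hp.out.ne_zero
  rw [padicNorm.mul, padicNorm.eq_zpow_of_nonzero (zpow_ne_zero _ hp0), padicValRat.zpow,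
    padicValRat.self hp.out.one_lt, mul_one]

omit hp in
/-- one class: membership from bounds for the coefficients -/
lemma Lc_mem {A : Type*} [CommRing A] [Algebra ℚ A] (S : Subring A)
    (hS : ∀ x : ℚ, padicNorm p x ≤ 1 → algebraMap ℚ A x ∈ S)
    (n h : ℕ) (z : ℕ → A) (q : ℕ) (hz : ∀ i, (q : A) * z i ∈ S) (s : Finset ℕ) (Q : ℚ[X]) (E : ℤ)
    (hb : ∀ k ∈ s, ∀ i, 1 ≤ i → i ≤ 2 * h →
      padicNorm p ((p : ℚ) ^ E * pa (sP n) (mP h) (num n Q) k i) ≤ 1 ∧
      padicNorm p ((p : ℚ) ^ E * pa (sP n) (mP h) (num n Q) k i * hs i (k + 1)) ≤ 1) :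
    algebraMap ℚ A ((p : ℚ) ^ E) * ((q : A) * Lc s n h z Q) ∈ S := by
  rw [Lc_apply, Finset.mul_sum, Finset.mul_sum]
  refine Subring.sum_mem _ fun k hk => ?_
  rw [Finset.mul_sum, Finset.mul_sum]
  refine Subring.sum_mem _ fun i hi => ?_
  rw [Finset.mem_Icc] at hi
  obtain ⟨h1, h2⟩ := hb k hk i hi.1 hi.2
  have e1 : algebraMap ℚ A ((p : ℚ) ^ E) * ((q : A) *
      (algebraMap ℚ A (pa (sP n) (mP h) (num n Q) k i) * (z i - algebraMap ℚ A (hs i (k + 1))))) =
      algebraMap ℚ A ((p : ℚ) ^ E * pa (sP n) (mP h) (num n Q) k i) * ((q : A) * z i) -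
      (q : A) * algebraMap ℚ A ((p : ℚ) ^ E * pa (sP n) (mP h) (num n Q) k i * hs i (k + 1)) := by
    rw [map_mul, map_mul, map_mul]
    ring
  rw [e1]
  apply S.sub_mem
  · exact S.mul_mem (hS _ h1) (hz i)
  · exact S.mul_mem (natCast_mem S q) (hS _ h2)

lemma hs_norm (n k i : ℕ) (hpn : p ≤ n) (hn : n < p ^ 2) (hk : k < n) :
    padicNorm p (hs i (k + 1)) ≤ (p : ℚ) ^ i := by
  have h1 := t_hb p n 1 1 k i le_rfl le_rfl hk
  have h2 : Nat.log p (1 * n) = 1 := by
    rw [one_mul]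
    exact Nat.log_eq_of_pow_le_of_lt_pow (by simpa using hpn) (by simpa using hn)
  rw [h2] at h1
  simpa using h1

/-- the weight -/
def uw (n h p r : ℕ) (x : Fin n × Fin r) : ℤ :=
  if rp n p x.1.1 = x.1.1 then (h * ee n p x.1.1 : ℕ) - (x.2.1 : ℤ) else 0

omit hp in
lemma Lc_empty {A : Type*} [CommRing A] [Algebra ℚ A] (n h : ℕ) (z : ℕ → A) (a : ℕ)
    (ha : rp n p a ≠ a) (Q : ℚ[X]) : Lc (cls n p a) n h z Q = 0 := by
  have : cls n p a = ∅ := by
    rw [Finset.eq_empty_iff_forall_notMem]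
    intro k hk
    rw [mem_cls] at hk
    apply ha
    rw [← hk.2, rp_rp]
  rw [Lc_apply, this, Finset.sum_empty]

theorem Km_mem {A : Type*} [CommRing A] [Algebra ℚ A] (S : Subring A)
    (hS : ∀ x : ℚ, padicNorm p x ≤ 1 → algebraMap ℚ A x ∈ S)
    (n h r : ℕ) (z : ℕ → A) (q : ℕ) (hz : ∀ i, (q : A) * z i ∈ S) (hpn : p ≤ n) (hn : n < p ^ 2)
    (x x' : Fin n × Fin r) :
    algebraMap ℚ A ((p : ℚ) ^ (uw n h p r x + uw n h p r x')) * ((q : A) * Km n h p r z x x') ∈ S := by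
  unfold Km
  split_ifs with h1
  · by_cases h2 : rp n p x.1.1 = x.1.1
    · apply Lc_mem S hS n h z q hz
      intro k hk i hi1 hi2
      rw [mem_cls] at hk
      have hp1 : (1 : ℚ) < p := by exact_mod_cast hp.out.one_lt
      have hp0 : (p : ℚ) ≠ 0 := by positivity
      have hkn := hk.1
      have hd : (p : ℤ) ∣ yy n k - yy n x.1.1 := by
        have := rp_dvd n p k
        rwa [hk.2] at this
      have hee := ee_eq hp.out hd
      have hc : (p : ℤ) ∣ yy n k + ctr n x.1.1 := by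
        unfold ctr
        simpa [sub_eq_add_neg] using hd
      have hu : uw n h p r x + uw n h p r x' =
          (2 * (h * ee n p x.1.1) : ℕ) - ((x.2.1 + x'.2.1 : ℕ) : ℤ) := by
        unfold uw
        rw [← h1, if_pos h2, if_pos h2]
        push_cast
        ring
      obtain ⟨m, hm⟩ : ∃ m, x.2.1 + x'.2.1 = m := ⟨_, rfl⟩
      rw [hu, hm]
      have e1 : pa (sP n) (mP h) (num n ((X - C ((ctr n x.1.1 : ℤ) : ℚ)) ^ m)) k i =
          pfc (sP n) (mP h) (num n ((X - C ((ctr n x.1.1 : ℤ) : ℚ)) ^ m)) k (2 * h - i) := by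
        unfold pa
        rw [if_pos hi2]
      have e2 := pfc_class n h m k (2 * h - i) hkn hn.le (ctr n x.1.1) hc
      have he1 : 1 ≤ ee n p k := by
        unfold ee
        have := Nat.div_pos hpn hp.out.pos
        omega
      have e3 : ((p : ℚ)⁻¹) ^ m * ((p : ℚ) ^ (2 * h)) ^ (ee n p k - 1) * (p : ℚ) ^ (2 * h - i) =
          (p : ℚ) ^ (((2 * (h * ee n p x.1.1) : ℕ) : ℤ) - m - i) := by
        rw [← hee]
        obtain ⟨e, he⟩ : ∃ e, ee n p k = e + 1 := ⟨ee n p k - 1, by omega⟩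
        rw [he, Nat.add_sub_cancel, inv_pow, ← pow_mul, ← zpow_natCast, ← zpow_natCast, ← zpow_natCast,
          ← zpow_neg, ← zpow_add₀ hp0, ← zpow_add₀ hp0]
        congr 1
        push_cast [hi2]
        ring
      rw [e3, ← e1] at e2
      have e4 : padicNorm p ((p : ℚ) ^ (((2 * (h * ee n p x.1.1) : ℕ) : ℤ) - (m : ℤ)) *
          pa (sP n) (mP h) (num n ((X - C ((ctr n x.1.1 : ℤ) : ℚ)) ^ m)) k i) ≤ (p : ℚ) ^ (-(i : ℤ)) := by
        rw [norm_mul_zpow]
        calc _ ≤ (p : ℚ) ^ (-(((2 * (h * ee n p x.1.1) : ℕ) : ℤ) - (m : ℤ))) *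
              (p : ℚ) ^ (((2 * (h * ee n p x.1.1) : ℕ) : ℤ) - m - i) :=
              mul_le_mul_of_nonneg_left e2 (by positivity)
          _ = _ := by
              rw [← zpow_add₀ hp0]
              congr 1
              ring
      constructor
      · refine e4.trans ?_
        apply zpow_le_one_of_nonpos₀ hp1.le
        omega
      · rw [padicNorm.mul]
        calc _ ≤ (p : ℚ) ^ (-(i : ℤ)) * (p : ℚ) ^ i :=
              mul_le_mul e4 (hs_norm n k i hpn hn hkn) (padicNorm.nonneg _) (by positivity)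
          _ = 1 := by
              rw [zpow_neg, zpow_natCast, inv_mul_cancel₀ (by positivity)]
    · rw [Lc_empty n h z _ h2, mul_zero, mul_zero]
      exact S.zero_mem
  · rw [mul_zero, mul_zero]
    exact S.zero_mem

lemma tri (m r : ℕ) : 2 * ∑ l : Fin r, max ((m : ℤ) - (l.1 : ℤ)) 0 ≤ (m : ℤ) * (m + 1) := by
  have h1 : ∑ l : Fin r, max ((m : ℤ) - (l.1 : ℤ)) 0 = ∑ l ∈ Finset.range r, max ((m : ℤ) - (l : ℤ)) 0 := by
    rw [Finset.sum_range]
  rw [h1]
  have h2 : ∀ m r : ℕ, 2 * ∑ l ∈ Finset.range r, max ((m : ℤ) - (l : ℤ)) 0 ≤ (m : ℤ) * (m + 1) := by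
    intro m
    induction m with
    | zero =>
      intro r
      have : ∑ l ∈ Finset.range r, max (((0 : ℕ) : ℤ) - (l : ℤ)) 0 = 0 := by
        apply Finset.sum_eq_zero
        intro l _
        simp
      rw [this]
      simp
    | succ m ih =>
      intro r
      cases r with
      | zero => simp; positivity
      | succ r =>
        rw [Finset.sum_range_succ']
        have h3 := ih r
        have h4 : ∀ l : ℕ, (((m + 1 : ℕ) : ℤ) - ((l + 1 : ℕ) : ℤ)) = (m : ℤ) - (l : ℤ) := by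
          intro l; push_cast; ring
        simp only [h4]
        have h5 : max (((m + 1 : ℕ) : ℤ) - ((0 : ℕ) : ℤ)) 0 = (m : ℤ) + 1 := by
          rw [max_eq_left] <;> push_cast <;> omega
        rw [h5]
        push_cast
        nlinarith
  exact h2 m r

lemma card1 (ρ N : ℕ) : 2 * ((Finset.range N).filter fun a => 2 * a + 1 ≤ ρ).card ≤ ρ + 1 := by
  have h1 : ((Finset.range N).filter fun a => 2 * a + 1 ≤ ρ) ⊆ Finset.range ((ρ + 1) / 2) := by
    intro a ha
    rw [Finset.mem_filter] at ha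
    rw [Finset.mem_range]
    omega
  have h2 := Finset.card_le_card h1
  rw [Finset.card_range] at h2
  omega

lemma card0 (ρ P N : ℕ) : 2 * ((Finset.range N).filter fun a => ρ ≤ a ∧ 2 * a + 1 ≤ P + ρ).card ≤ P - ρ + 1 := by
  have h1 : ((Finset.range N).filter fun a => ρ ≤ a ∧ 2 * a + 1 ≤ P + ρ) ⊆
      Finset.Ico ρ ((P + ρ + 1) / 2) := by
    intro a ha
    rw [Finset.mem_filter] at ha
    rw [Finset.mem_Ico]
    omega
  have h2 := Finset.card_le_card h1
  rw [Nat.card_Ico] at h2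
  omega

/-- the sum of the weights -/
lemma U_le (n h r : ℕ) (hpn : p ≤ n) : 4 * ∑ x : Fin n × Fin r, max (uw n h p r x) 0 ≤
    ((n % p + 1 : ℕ) : ℤ) * ((h * (n / p + 1) * (h * (n / p + 1) + 1) : ℕ) : ℤ) +
    ((p - n % p + 1 : ℕ) : ℤ) * ((h * (n / p) * (h * (n / p) + 1) : ℕ) : ℤ) := by
  obtain ⟨M1, hM1⟩ : ∃ M, h * (n / p + 1) * (h * (n / p + 1) + 1) = M := ⟨_, rfl⟩
  obtain ⟨M0, hM0⟩ : ∃ M, h * (n / p) * (h * (n / p) + 1) = M := ⟨_, rfl⟩
  have h1 : ∀ a : Fin n, 2 * ∑ l : Fin r, max (uw n h p r (a, l)) 0 ≤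
      (if 2 * a.1 + 1 ≤ n % p then (M1 : ℤ) else 0) +
      (if n % p ≤ a.1 ∧ 2 * a.1 + 1 ≤ p + n % p then (M0 : ℤ) else 0) := by
    intro a
    by_cases h2 : rp n p a.1 = a.1
    · have h3 : ∀ l : Fin r, max (uw n h p r (a, l)) 0 = max (((h * ee n p a.1 : ℕ) : ℤ) - (l.1 : ℤ)) 0 := by
        intro l
        unfold uw
        rw [if_pos h2]
      simp only [h3]
      have h4 := tri (h * ee n p a.1) r
      have h5 := rp_lt_p (n := n) (k := a.1) hp.out
      rw [h2] at h5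
      by_cases h6 : a.1 < n % p
      · have h7 := rp_pos1 (n := n) (k := a.1) hp.out (by rw [h2]; exact h6)
        rw [h2] at h7
        rw [if_pos h7, if_neg (by omega), add_zero]
        have h8 : ee n p a.1 = n / p + 1 := by
          unfold ee
          rw [Nat.mod_eq_of_lt h5, if_pos h6]
        rw [h8] at h4 ⊢
        refine h4.trans (le_of_eq ?_)
        rw [← hM1]; push_cast; ring
      · rw [not_lt] at h6
        have h7 := rp_pos0 (n := n) (k := a.1) hp.out hpn (by rw [h2]; exact h6)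
        rw [h2] at h7
        rw [if_neg (by omega), if_pos ⟨h6, h7⟩, zero_add]
        have h8 : ee n p a.1 = n / p := by
          unfold ee
          rw [Nat.mod_eq_of_lt h5, if_neg (by omega), add_zero]
        rw [h8] at h4 ⊢
        refine h4.trans (le_of_eq ?_)
        rw [← hM0]; push_cast; ring
    · have h3 : ∀ l : Fin r, max (uw n h p r (a, l)) 0 = 0 := by
        intro l
        unfold uw
        rw [if_neg h2, max_self]
      simp only [h3, Finset.sum_const_zero, mul_zero]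
      positivity
  rw [Fintype.sum_prod_type]
  have h2 : 2 * ∑ a : Fin n, ∑ l : Fin r, max (uw n h p r (a, l)) 0 ≤
      ∑ a ∈ Finset.range n, ((if 2 * a + 1 ≤ n % p then (M1 : ℤ) else 0) +
      (if n % p ≤ a ∧ 2 * a + 1 ≤ p + n % p then (M0 : ℤ) else 0)) := by
    rw [Finset.mul_sum, Finset.sum_range]
    exact Finset.sum_le_sum fun a _ => h1 a
  rw [Finset.sum_add_distrib, ← Finset.sum_filter, ← Finset.sum_filter, Finset.sum_const, Finset.sum_const,
    nsmul_eq_mul, nsmul_eq_mul] at h2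
  have c1 := card1 (n % p) n
  have c0 := card0 (n % p) p n
  have c1' : 2 * ((((Finset.range n).filter fun a => 2 * a + 1 ≤ n % p).card : ℕ) : ℤ) ≤
    ((n % p + 1 : ℕ) : ℤ) := by exact_mod_cast c1
  have c0' : 2 * ((((Finset.range n).filter fun a => n % p ≤ a ∧ 2 * a + 1 ≤ p + n % p).card : ℕ) : ℤ) ≤
    ((p - n % p + 1 : ℕ) : ℤ) := by exact_mod_cast c0
  rw [hM1, hM0]
  have m1 := mul_le_mul_of_nonneg_right c1' (Int.natCast_nonneg M1)
  have m0 := mul_le_mul_of_nonneg_right c0' (Int.natCast_nonneg M0)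
  linarith

/-- integrality at the primes between `√n` and `n` -/
theorem class_int {A : Type*} [CommRing A] [Algebra ℚ A] (S : Subring A)
    (hS : ∀ x : ℚ, padicNorm p x ≤ 1 → algebraMap ℚ A x ∈ S)
    (n h r : ℕ) (z : ℕ → A) (q : ℕ) (hz : ∀ i, (q : A) * z i ∈ S) (hpn : p ≤ n) (hn : n < p ^ 2) (E : ℤ)
    (hE : ((n % p + 1 : ℕ) : ℤ) * ((h * (n / p + 1) * (h * (n / p + 1) + 1) : ℕ) : ℤ) +
      ((p - n % p + 1 : ℕ) : ℤ) * ((h * (n / p) * (h * (n / p) + 1) : ℕ) : ℤ) ≤ 2 * E) :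
    algebraMap ℚ A ((q : ℚ) ^ r * (p : ℚ) ^ E) * DH (mo n h 1 w1 z) r ∈ S := by
  have h1 := U_le (p := p) n h r hpn
  have h2 := cbp S p hS (Xm A n r) ((q : A) • Km n h p r z) (uw n h p r)
    (∑ x : Fin n × Fin r, max (uw n h p r x) 0)
    (fun k i => intCast_mem S _)
    (fun k k' => by
      rw [Matrix.smul_apply, smul_eq_mul]
      exact Km_mem S hS n h r z q hz hpn hn k k')
    (fun I hI => inj_sum_le _ I hI)
  rw [Matrix.smul_mul, Matrix.mul_smul, Matrix.det_smul, Fintype.card_fin, ← DH_eq] at h2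
  obtain ⟨U, hU⟩ : ∃ U, ∑ x : Fin n × Fin r, max (uw n h p r x) 0 = U := ⟨_, rfl⟩
  rw [hU] at h1 h2
  have hp0 : (p : ℚ) ≠ 0 := by exact_mod_cast hp.out.ne_zero
  have h3 : algebraMap ℚ A ((q : ℚ) ^ r * (p : ℚ) ^ E) * DH (mo n h 1 w1 z) r =
      algebraMap ℚ A ((p : ℚ) ^ (E - 2 * U)) *
        (algebraMap ℚ A ((p : ℚ) ^ (2 * U)) * ((q : A) ^ r * DH (mo n h 1 w1 z) r)) := by
    have : (p : ℚ) ^ E = (p : ℚ) ^ (E - 2 * U) * (p : ℚ) ^ (2 * U) := by
      rw [← zpow_add₀ hp0]; congr 1; ring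
    rw [this, map_mul, map_mul, map_pow, map_natCast]
    ring
  rw [h3]
  refine S.mul_mem (hS _ (norm_zpow_le p _ ?_)) h2
  linarith

end

end Pool.Agent.P8H2
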