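import Pool.Agent.P8H2.PF

/-!
# Integrality: the class bound for `n/2 < p ≤ n`
-/

open Polynomial Pool.Agent.H337R2 Pool.Agent.W165.OZ

namespace Pool.Agent.P8H2

noncomputable section

variable {p : ℕ} [hp : Fact p.Prime]

lemma hs_norm1 (k i : ℕ) (hk : k + 1 < p) : padicNorm p (hs i (k + 1)) ≤ 1 := by
  unfold hs
  apply padicNorm.sum_le' _ zero_le_one
  intro l hl
  rw [Finset.mem_range] at hl
  have h1 : (l : ℚ) + 1 = ((l + 1 : ℕ) : ℚ) := by push_cast; ring
  have h2 : padicNorm p ((l + 1 : ℕ) : ℚ) = 1 := by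
    rw [padicNorm.nat_eq_one_iff]
    intro hd
    have := Nat.le_of_dvd (by omega) hd
    omega
  rw [padicNorm.div, padicNorm.one, h1, hb_pow, h2, one_pow, div_one]

/-- the weight -/
def uv (n h p r : ℕ) (x : Fin n × Fin r) : ℤ := if n % p < x.1.1 then 0 else uw n h p r x

lemma flat_mem {n a k : ℕ} (hpn : p ≤ n) (hn2 : n < 2 * p) (ha : rp n p a = a) (hlt : n % p < a)
    (hk : k ∈ cls n p a) : yy n k = yy n a ∧ n ≤ k + p ∧ k + 1 < p := by
  have hp0 := hp.out.pos
  have hρ : n % p = n - p := by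
    rw [Nat.mod_eq_sub_mod hpn, Nat.mod_eq_of_lt (by omega)]
  have hap := rp_lt_p (n := n) (k := a) hp.out
  have h1 := rp_pos0 (n := n) (k := a) hp.out hpn (by rw [ha]; exact hlt.le)
  rw [ha] at hap h1
  rw [hρ] at hlt h1
  rw [mem_cls] at hk
  have hd := rp_dvd n p k
  rw [hk.2, yy_sub] at hd
  have hprime : Prime (p : ℤ) := Nat.prime_iff_prime_int.1 hp.out
  rcases hprime.dvd_or_dvd hd with h3 | h3
  · have h4 : (k : ℤ) - a = 0 := by
      apply Int.eq_zero_of_abs_lt_dvd h3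
      rw [abs_lt]
      constructor <;> omega
    have h5 : k = a := by omega
    rw [h5]
    refine ⟨rfl, ?_, ?_⟩ <;> omega
  · have h4 : (n : ℤ) - 1 - k - a = 0 := by
      apply Int.eq_zero_of_abs_lt_dvd h3
      rw [abs_lt]
      constructor <;> omega
    refine ⟨?_, ?_, ?_⟩
    · have h6 := yy_sub n k a
      rw [h4, mul_zero] at h6
      linarith
    · omega
    · omega

theorem Km_mem1 {A : Type*} [CommRing A] [Algebra ℚ A] (S : Subring A)
    (hS : ∀ x : ℚ, padicNorm p x ≤ 1 → algebraMap ℚ A x ∈ S)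
    (n h r : ℕ) (z : ℕ → A) (q : ℕ) (hz : ∀ i, (q : A) * z i ∈ S) (hpn : p ≤ n) (hn : n < 2 * p)
    (x x' : Fin n × Fin r) :
    algebraMap ℚ A ((p : ℚ) ^ (uv n h p r x + uv n h p r x')) * ((q : A) * Km n h p r z x x') ∈ S := by
  have hp2 := hp.out.two_le
  by_cases h1 : x.1 = x'.1
  · by_cases h2 : n % p < x.1.1
    · have h3 : uv n h p r x + uv n h p r x' = 0 := by
        unfold uv
        rw [← h1, if_pos h2, if_pos h2, add_zero]
      rw [h3]
      unfold Km
      rw [if_pos h1]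
      by_cases ha : rp n p x.1.1 = x.1.1
      · apply Lc_mem S hS n h z q hz
        intro k hk i hi1 hi2
        obtain ⟨f1, f2, f3⟩ := flat_mem hpn hn ha h2 hk
        have hkn := (mem_cls.1 hk).1
        have e0 : ctr n x.1.1 = -yy n k := by
          unfold ctr
          rw [f1]
        rw [e0, zpow_zero, one_mul]
        have e1 : pa (sP n) (mP h) (num n ((X - C ((-yy n k : ℤ) : ℚ)) ^ (x.2.1 + x'.2.1))) k i =
            pfc (sP n) (mP h) (num n ((X - C ((-yy n k : ℤ) : ℚ)) ^ (x.2.1 + x'.2.1))) k (2 * h - i) := by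
          unfold pa
          rw [if_pos hi2]
        have e2 := (pfc_flat (p := p) n h (x.2.1 + x'.2.1) k (2 * h - i) (by
          intro m' hm' hne hd
          apply hne
          have h4 : (m' : ℤ) - k = 0 := by
            apply Int.eq_zero_of_abs_lt_dvd hd
            rw [abs_lt]
            constructor <;> omega
          omega)).1
        rw [← e1] at e2
        refine ⟨e2, ?_⟩
        rw [padicNorm.mul]
        exact mul_le_one₀ e2 (padicNorm.nonneg _) (hs_norm1 k i f3)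
      · rw [Lc_empty n h z _ ha, mul_zero, mul_zero]
        exact S.zero_mem
    · have h3 : uv n h p r x + uv n h p r x' = uw n h p r x + uw n h p r x' := by
        unfold uv
        rw [← h1, if_neg h2, if_neg h2]
      rw [h3]
      refine Km_mem S hS n h r z q hz hpn ?_ x x'
      nlinarith
  · unfold Km
    rw [if_neg h1, mul_zero, mul_zero]
    exact S.zero_mem

/-- the sum of the weights -/
lemma U_le1 (n h r : ℕ) (hpn : p ≤ n) (hn : n < 2 * p) : 4 * ∑ x : Fin n × Fin r, max (uv n h p r x) 0 ≤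
    ((n - p + 1 : ℕ) : ℤ) * ((2 * h * (2 * h + 1) : ℕ) : ℤ) + ((2 * (h * (h + 1)) : ℕ) : ℤ) := by
  have hρ : n % p = n - p := by
    rw [Nat.mod_eq_sub_mod hpn, Nat.mod_eq_of_lt (by omega)]
  have hdiv : n / p = 1 := by
    apply Nat.div_eq_of_lt_le <;> omega
  obtain ⟨M1, hM1⟩ : ∃ M, 2 * h * (2 * h + 1) = M := ⟨_, rfl⟩
  obtain ⟨M0, hM0⟩ : ∃ M, h * (h + 1) = M := ⟨_, rfl⟩
  have h1 : ∀ a : Fin n, 2 * ∑ l : Fin r, max (uv n h p r (a, l)) 0 ≤
      (if 2 * a.1 + 1 ≤ n - p then (M1 : ℤ) else 0) +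
      (if a.1 = n - p then (M0 : ℤ) else 0) := by
    intro a
    by_cases h2 : rp n p a.1 = a.1 ∧ a.1 ≤ n - p
    · have h3 : ∀ l : Fin r, max (uv n h p r (a, l)) 0 = max (((h * ee n p a.1 : ℕ) : ℤ) - (l.1 : ℤ)) 0 := by
        intro l
        unfold uv uw
        rw [if_neg (by rw [hρ]; simp only []; omega), if_pos h2.1]
      simp only [h3]
      have h4 := tri (h * ee n p a.1) r
      have h5 := rp_lt_p (n := n) (k := a.1) hp.out
      rw [h2.1] at h5
      by_cases h6 : a.1 < n - p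
      · have h7 := rp_pos1 (n := n) (k := a.1) hp.out (by rw [h2.1, hρ]; exact h6)
        rw [h2.1, hρ] at h7
        rw [if_pos h7, if_neg (by omega), add_zero]
        have h8 : ee n p a.1 = 2 := by
          unfold ee
          rw [Nat.mod_eq_of_lt h5, hρ, if_pos h6, hdiv]
        rw [h8] at h4 ⊢
        refine h4.trans (le_of_eq ?_)
        rw [← hM1]; push_cast; ring
      · have h6' : a.1 = n - p := by omega
        have h7 : (0 : ℤ) ≤ (if 2 * a.1 + 1 ≤ n - p then (M1 : ℤ) else 0) := by positivity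
        rw [if_pos h6']
        have h8 : ee n p a.1 = 1 := by
          unfold ee
          rw [Nat.mod_eq_of_lt h5, hρ, if_neg h6, hdiv]
        rw [h8] at h4 ⊢
        have h9 : (((h * 1 : ℕ) : ℤ)) * (((h * 1 : ℕ) : ℤ) + 1) = (M0 : ℤ) := by
          rw [← hM0]; push_cast; ring
        rw [h9] at h4
        linarith
    · have h3 : ∀ l : Fin r, max (uv n h p r (a, l)) 0 = 0 := by
        intro l
        unfold uv uw
        rw [hρ]
        by_cases h4 : n - p < a.1
        · rw [if_pos h4, max_self]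
        · rw [if_neg h4, if_neg (fun h5 => h2 ⟨h5, by omega⟩), max_self]
      simp only [h3, Finset.sum_const_zero, mul_zero]
      positivity
  rw [Fintype.sum_prod_type]
  have h2 : 2 * ∑ a : Fin n, ∑ l : Fin r, max (uv n h p r (a, l)) 0 ≤
      ∑ a ∈ Finset.range n, ((if 2 * a + 1 ≤ n - p then (M1 : ℤ) else 0) +
      (if a = n - p then (M0 : ℤ) else 0)) := by
    rw [Finset.mul_sum, Finset.sum_range]
    exact Finset.sum_le_sum fun a _ => h1 a
  rw [Finset.sum_add_distrib, ← Finset.sum_filter, Finset.sum_const, nsmul_eq_mul,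
    Finset.sum_ite_eq'] at h2
  have c1 := card1 (n - p) n
  have c1' : 2 * ((((Finset.range n).filter fun a => 2 * a + 1 ≤ n - p).card : ℕ) : ℤ) ≤
    ((n - p + 1 : ℕ) : ℤ) := by exact_mod_cast c1
  rw [hM1, hM0]
  have m1 := mul_le_mul_of_nonneg_right c1' (Int.natCast_nonneg M1)
  have m2 : (if n - p ∈ Finset.range n then (M0 : ℤ) else 0) ≤ M0 := by
    split_ifs
    · exact le_rfl
    · positivity
  push_cast at m1 m2 h2 ⊢
  linarith

/-- integrality at the primes between `n/2` and `n` -/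
theorem class_int1 {A : Type*} [CommRing A] [Algebra ℚ A] (S : Subring A)
    (hS : ∀ x : ℚ, padicNorm p x ≤ 1 → algebraMap ℚ A x ∈ S)
    (n h r : ℕ) (z : ℕ → A) (q : ℕ) (hz : ∀ i, (q : A) * z i ∈ S) (hpn : p ≤ n) (hn : n < 2 * p) (E : ℤ)
    (hE : ((n - p + 1 : ℕ) : ℤ) * ((2 * h * (2 * h + 1) : ℕ) : ℤ) + ((2 * (h * (h + 1)) : ℕ) : ℤ) ≤ 2 * E) :
    algebraMap ℚ A ((q : ℚ) ^ r * (p : ℚ) ^ E) * DH (mo n h 1 w1 z) r ∈ S := by
  have h1 := U_le1 (p := p) n h r hpn hn
  have h2 := cbp S p hS (Xm A n r) ((q : A) • Km n h p r z) (uv n h p r)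
    (∑ x : Fin n × Fin r, max (uv n h p r x) 0)
    (fun k i => intCast_mem S _)
    (fun k k' => by
      rw [Matrix.smul_apply, smul_eq_mul]
      exact Km_mem1 S hS n h r z q hz hpn hn k k')
    (fun I hI => inj_sum_le _ I hI)
  rw [Matrix.smul_mul, Matrix.mul_smul, Matrix.det_smul, Fintype.card_fin, ← DH_eq] at h2
  obtain ⟨U, hU⟩ : ∃ U, ∑ x : Fin n × Fin r, max (uv n h p r x) 0 = U := ⟨_, rfl⟩
  rw [hU] at h1 h2
  have hp0 : (p : ℚ) ≠ 0 := by exact_mod_cast hp.out.ne_zero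
  have h3 : algebraMap ℚ A ((q : ℚ) ^ r * (p : ℚ) ^ E) * DH (mo n h 1 w1 z) r =
      algebraMap ℚ A ((p : ℚ) ^ (E - 2 * U)) *
        (algebraMap ℚ A ((p : ℚ) ^ (2 * U)) * ((q : A) ^ r * DH (mo n h 1 w1 z) r)) := by
    have : (p : ℚ) ^ E = (p : ℚ) ^ (E - 2 * U) * (p : ℚ) ^ (2 * U) := by
      rw [← zpow_add₀ hp0]; congr 1; ring
    rw [this, map_mul, map_mul, map_pow, map_natCast]
    ring
  rw [h3]
  refine S.mul_mem (hS _ (norm_zpow_le p _ ?_)) h2
  linarith

end

end Pool.Agent.P8H2
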