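import Pool.Agent.P8H2.PG
import Pool.Agent.W165.OZ.PR

/-!
# Valuations of the normalising constant
-/

open Polynomial Pool.Agent.H337R2 Pool.Agent.W165.OZ Pool.Agent.W165.OZ.PRaux

namespace Pool.Agent.P8H2

noncomputable section

variable {p : ℕ} [hp : Fact p.Prime]

lemma norm_fact (n : ℕ) (hpn : p ≤ n) (hn : n < p ^ 2) :
    padicNorm p (n.factorial : ℚ) = (p : ℚ) ^ (-((n / p : ℕ) : ℤ)) := by
  rw [padicNorm.eq_zpow_of_nonzero (by exact_mod_cast n.factorial_ne_zero), padicValRat.of_nat]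
  congr 3
  have h1 : Nat.log p n = 1 := Nat.log_eq_of_pow_le_of_lt_pow (by simpa using hpn) (by simpa using hn)
  rw [padicValNat_factorial (b := 2) (by omega)]
  simp [Finset.sum_Ico_eq_sum_range]

lemma norm_fact' (k n : ℕ) (hk : k < n) (hn : n < p ^ 2) :
    padicNorm p (k.factorial : ℚ) = (p : ℚ) ^ (-((k / p : ℕ) : ℤ)) := by
  by_cases h : p ≤ k
  · exact norm_fact k h (by omega)
  · rw [not_le] at h
    rw [Nat.div_eq_of_lt h]
    have : padicNorm p (k.factorial : ℚ) = 1 := by
      rw [padicNorm.nat_eq_one_iff, Nat.Prime.dvd_factorial hp.out]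
      omega
    rw [this]
    simp

lemma norm_Dl (n : ℕ) (hpn : p ≤ n) (hn : n < p ^ 2) :
    padicNorm p (Dl n 1 : ℚ) = (p : ℚ) ^ (-(1 : ℤ)) := by
  have h1 : Nat.log p n = 1 := Nat.log_eq_of_pow_le_of_lt_pow (by simpa using hpn) (by simpa using hn)
  have hmem : p ∈ (Finset.range (n + 1)).filter Nat.Prime :=
    Finset.mem_filter.2 ⟨Finset.mem_range.2 (by omega), hp.out⟩
  unfold Dl
  rw [← Finset.mul_prod_erase _ _ hmem]
  push_cast
  rw [padicNorm.mul]
  have h2 : padicNorm p (∏ x ∈ ((Finset.range (n + 1)).filter Nat.Prime).erase p,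
      (x : ℚ) ^ Nat.log x (1 * n)) = 1 := by
    have h3 : ∀ s : Finset ℕ, (∀ x ∈ s, x.Prime ∧ x ≠ p) →
        padicNorm p (∏ x ∈ s, (x : ℚ) ^ Nat.log x (1 * n)) = 1 := by
      intro s
      induction s using Finset.induction_on with
      | empty => intro _; simp
      | insert a s ha ih =>
        intro hs
        rw [Finset.prod_insert ha, padicNorm.mul, ih (fun x hx => hs x (Finset.mem_insert_of_mem hx)),
          hb_pow, mul_one]
        obtain ⟨b1, b2⟩ := hs a (Finset.mem_insert_self _ _)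
        have : padicNorm p (a : ℚ) = 1 := by
          rw [padicNorm.nat_eq_one_iff]
          intro hd
          exact b2 ((Nat.prime_dvd_prime_iff_eq hp.out b1).1 hd).symm
        rw [this, one_pow]
    apply h3
    intro x hx
    rw [Finset.mem_erase, Finset.mem_filter] at hx
    exact ⟨hx.2.2, hx.1⟩
  rw [h2, mul_one, hb_pow, one_mul, h1, pow_one, padicNorm.padicNorm_p_of_prime]
  simp

lemma norm_sc (n h i : ℕ) (hn2 : 2 ≤ n) (hpn : p ≤ n) (hn : n < p ^ 2) :
    padicNorm p (sc n h 1 i) =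
      (p : ℚ) ^ (-((((h - i / (n / 2)) * (n / p) + (h - i / (n / 2) + 2) : ℕ) : ℤ) -
        ((2 * (i % (n / 2)) / p : ℕ) : ℤ))) := by
  have hp0 : (p : ℚ) ≠ 0 := by exact_mod_cast hp.out.ne_zero
  have h0 : i % (n / 2) < n / 2 := Nat.mod_lt _ (by omega)
  unfold sc
  rw [padicNorm.div, padicNorm.mul, hb_pow, hb_pow, norm_fact n hpn hn, norm_Dl n hpn hn,
    norm_fact' (2 * (i % (n / 2))) n (by omega) hn, ← zpow_natCast, ← zpow_natCast, ← zpow_mul, ← zpow_mul,
    ← zpow_add₀ hp0, ← zpow_sub₀ hp0]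
  congr 1
  push_cast
  ring

lemma sum_div_mod (h m : ℕ) (hm : 0 < m) (F : ℕ → ℕ → ℤ) :
    ∑ i ∈ Finset.range (h * m), F (i / m) (i % m) = ∑ a ∈ Finset.range h, ∑ j ∈ Finset.range m, F a j := by
  induction h with
  | zero => simp
  | succ h ih =>
    rw [Nat.succ_mul, Finset.sum_range_add, ih, Finset.sum_range_succ]
    congr 1
    refine Finset.sum_congr rfl fun j hj => ?_
    rw [Finset.mem_range] at hj
    have h1 : (h * m + j) / m = h := by
      rw [mul_comm, Nat.mul_add_div hm, Nat.div_eq_of_lt hj, add_zero]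
    have h2 : (h * m + j) % m = j := by
      rw [mul_comm, Nat.mul_add_mod, Nat.mod_eq_of_lt hj]
    rw [h1, h2]

omit hp in
lemma div_sum (m J : ℕ) (hp0 : 0 < p) (hJ : J = 2 * m / p) :
    4 * ∑ j ∈ Finset.range m, ((2 * j / p : ℕ) : ℤ) ≤ 4 * J * m - p * J * (J + 1) := by
  have h1 : ∀ j ∈ Finset.range m, ((2 * j / p : ℕ) : ℤ) =
      ∑ t ∈ Finset.range J, if (t + 1) * p ≤ 2 * j then (1 : ℤ) else 0 := by
    intro j hj
    rw [Finset.mem_range] at hj
    rw [← Finset.sum_filter, Finset.sum_const, nsmul_eq_mul, mul_one]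
    have h2 : (Finset.range J).filter (fun t => (t + 1) * p ≤ 2 * j) = Finset.range (2 * j / p) := by
      ext t
      rw [Finset.mem_filter, Finset.mem_range, Finset.mem_range]
      rw [← Nat.le_div_iff_mul_le hp0]
      have h3 : 2 * j / p ≤ J := by
        rw [hJ]; exact Nat.div_le_div_right (by omega)
      omega
    rw [h2, Finset.card_range]
  rw [Finset.sum_congr rfl h1, Finset.sum_comm]
  have h2 : ∀ t ∈ Finset.range J, 2 * ∑ j ∈ Finset.range m, (if (t + 1) * p ≤ 2 * j then (1 : ℤ) else 0) ≤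
      2 * m - (t + 1) * p := by
    intro t ht
    rw [Finset.mem_range] at ht
    rw [← Finset.sum_filter, Finset.sum_const, nsmul_eq_mul, mul_one]
    have h3 : ((Finset.range m).filter fun j => (t + 1) * p ≤ 2 * j) ⊆ Finset.Ico (((t + 1) * p + 1) / 2) m := by
      intro j hj
      rw [Finset.mem_filter, Finset.mem_range] at hj
      rw [Finset.mem_Ico]
      omega
    have h4 := Finset.card_le_card h3
    rw [Nat.card_Ico] at h4
    have h5 : (t + 1) * p ≤ 2 * m := by
      rw [← Nat.le_div_iff_mul_le hp0, ← hJ]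
      omega
    have h6 : 2 * ((Finset.range m).filter fun j => (t + 1) * p ≤ 2 * j).card ≤ 2 * m - (t + 1) * p := by
      omega
    have h7 : ((2 * m - (t + 1) * p : ℕ) : ℤ) = 2 * m - (t + 1) * p := by
      rw [Nat.cast_sub h5]; push_cast; ring
    rw [← h7]
    exact_mod_cast h6
  have h3 := Finset.sum_le_sum h2
  rw [← Finset.mul_sum, Finset.sum_sub_distrib, Finset.sum_const, Finset.card_range, nsmul_eq_mul,
    ← Finset.sum_mul] at h3
  have h4 : 2 * ∑ t ∈ Finset.range J, ((t : ℤ) + 1) = J * (J + 1) := by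
    have : ∀ J : ℕ, 2 * ∑ t ∈ Finset.range J, ((t : ℤ) + 1) = J * (J + 1) := by
      intro J
      induction J with
      | zero => simp
      | succ J ih => rw [Finset.sum_range_succ, mul_add, ih]; push_cast; ring
    exact this J
  nlinarith

/-- the product of the squares of the scaling factors -/
def SC (n h : ℕ) : ℚ := ∏ i ∈ Finset.range (h * n / 2), sc n h 1 i ^ 2

lemma SC_pos (n h : ℕ) : 0 < SC n h := Finset.prod_pos fun i _ => pow_pos (sc_pos n h 1 i) 2

/-- the `p`-adic absolute value of the product -/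
theorem norm_SC (n h : ℕ) (hn2 : 2 ≤ n) (he : Even n) (hpn : p ≤ n) (hn : n < p ^ 2) :
    ∃ v : ℤ, padicNorm p (SC n h) = (p : ℚ) ^ (-v) ∧
      (n : ℤ) * (n / p + 1 : ℕ) * h * (h + 1) + 4 * n * h - 2 * (n / p : ℕ) * h * n +
        h * p * (n / p : ℕ) * (n / p + 1 : ℕ) ≤ 2 * v := by
  obtain ⟨m, hm⟩ := he
  have hm0 : 0 < m := by omega
  have hnm : n / 2 = m := by omega
  have hr : h * n / 2 = h * m := by
    have : h * n = h * m * 2 := by rw [hm]; ring
    rw [this, Nat.mul_div_cancel _ (by norm_num)]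
  have hp0 : (p : ℚ) ≠ 0 := by exact_mod_cast hp.out.ne_zero
  obtain ⟨J, hJ⟩ : ∃ J, n / p = J := ⟨_, rfl⟩
  rw [hJ]
  refine ⟨∑ i ∈ Finset.range (h * m), 2 * ((((h - i / m) * J + (h - i / m + 2) : ℕ) : ℤ) -
        ((2 * (i % m) / p : ℕ) : ℤ)), ?_, ?_⟩
  · unfold SC
    rw [hr]
    have h1 : padicNorm p (∏ i ∈ Finset.range (h * m), sc n h 1 i ^ 2) =
        ∏ i ∈ Finset.range (h * m), padicNorm p (sc n h 1 i ^ 2) := by
      have : ∀ s : Finset ℕ, padicNorm p (∏ i ∈ s, sc n h 1 i ^ 2) = ∏ i ∈ s, padicNorm p (sc n h 1 i ^ 2) := by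
        intro s
        induction s using Finset.induction_on with
        | empty => simp
        | insert a s ha ih => rw [Finset.prod_insert ha, Finset.prod_insert ha, padicNorm.mul, ih]
      exact this _
    rw [h1, ← Finset.sum_neg_distrib, ← zpow_sum' _ _ hp0]
    refine Finset.prod_congr rfl fun i _ => ?_
    rw [hb_pow, norm_sc n h i hn2 hpn hn, hnm, hJ, ← zpow_natCast, ← zpow_mul]
    congr 1
    push_cast
    ring
  · rw [sum_div_mod h m hm0 (fun a j => 2 * ((((h - a) * J + (h - a + 2) : ℕ) : ℤ) - ((2 * j / p : ℕ) : ℤ)))]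
    have h2 := div_sum (p := p) m J hp.out.pos (by rw [← hJ, hm]; congr 1; ring)
    obtain ⟨D, hD⟩ : ∃ D, ∑ j ∈ Finset.range m, ((2 * j / p : ℕ) : ℤ) = D := ⟨_, rfl⟩
    rw [hD] at h2
    have h3 : ∑ a ∈ Finset.range h, ∑ j ∈ Finset.range m,
        2 * ((((h - a) * J + (h - a + 2) : ℕ) : ℤ) - ((2 * j / p : ℕ) : ℤ)) =
        m * ((J + 1) * h * (h + 1)) + 4 * m * h - 2 * h * D := by
      have h4 : ∀ a ∈ Finset.range h, ∑ j ∈ Finset.range m,
        2 * ((((h - a) * J + (h - a + 2) : ℕ) : ℤ) - ((2 * j / p : ℕ) : ℤ)) =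
          (2 * m * (J + 1)) * (h - a) + (4 * m - 2 * D) := by
        intro a ha
        rw [Finset.mem_range] at ha
        rw [← Finset.mul_sum, Finset.sum_sub_distrib, Finset.sum_const, Finset.card_range, nsmul_eq_mul, hD]
        push_cast [ha.le]
        ring
      rw [Finset.sum_congr rfl h4, Finset.sum_add_distrib, ← Finset.mul_sum, Finset.sum_const,
        Finset.card_range, nsmul_eq_mul]
      have h5 : 2 * ∑ a ∈ Finset.range h, ((h : ℤ) - a) = h * (h + 1) := by
        have : ∀ H : ℕ, 2 * ∑ a ∈ Finset.range H, ((H : ℤ) - a) = H * (H + 1) := by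
          intro H
          induction H with
          | zero => simp
          | succ H ih =>
            rw [Finset.sum_range_succ']
            have h6 : ∀ a : ℕ, (((H + 1 : ℕ) : ℤ) - ((a + 1 : ℕ) : ℤ)) = (H : ℤ) - a := by
              intro a; push_cast; ring
            simp only [h6]
            rw [mul_add, ih]
            push_cast
            ring
        exact this h
      have h6 : (2 * m * (J + 1)) * ∑ a ∈ Finset.range h, ((h : ℤ) - a) = m * ((J + 1) * h * (h + 1)) := by
        calc _ = (m * (J + 1)) * (2 * ∑ a ∈ Finset.range h, ((h : ℤ) - a)) := by ring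
          _ = _ := by rw [h5]; ring
      rw [h6]
      ring
    rw [h3]
    have hm' : (n : ℤ) = 2 * m := by rw [hm]; push_cast; ring
    rw [hm']
    push_cast
    have h7 : (0 : ℤ) ≤ h := Int.natCast_nonneg h
    have h8 := mul_le_mul_of_nonneg_left h2 h7
    nlinarith

end

end Pool.Agent.P8H2
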