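import Pool.Agent.P8H2.PH
import Pool.Agent.W165.OZ.PK
import Pool.Agent.W165.OZ.Fin

/-!
# The norm of the determinant
-/

open Polynomial Pool.Agent.H337R2 Pool.Agent.W165.OZ Pool.Agent.W165.OZ.PRaux

namespace Pool.Agent.P8H2

noncomputable section

/-- the primes in `(n/(J+1), n]` -/
def Ps (n J : ℕ) : Finset ℕ := (Finset.range (n + 1)).filter fun p => p.Prime ∧ n < (J + 1) * p

/-- twice the gain at `p` -/
def G2 (h n p : ℕ) : ℤ :=
  if n / p = 1 then (4 * h ^ 2 + 4 * h) * p - (2 * h ^ 2 - 2 * h) * n - (6 * h ^ 2 + 4 * h)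
  else ((n / p : ℕ) : ℤ) * ((n / p : ℕ) + 1) * (h ^ 2 + h) * p + ((4 - ((n / p : ℕ) : ℤ)) * h - ((n / p : ℕ) : ℤ) * h ^ 2) * n -
    (h * (n / p + 1) * (h * (n / p + 1) + 1) + h * (n / p) * (h * (n / p) + 1) : ℕ)

/-- the gain at `p` -/
def gg (h n p : ℕ) : ℤ := G2 h n p / 2

/-- the correction -/
def GX (h n J : ℕ) : ℚ := ∏ p ∈ Ps n J, (p : ℚ) ^ (-gg h n p)

/-- the multiplier -/
def XX (h n J : ℕ) : ℚ := SC n h * GX h n J

lemma GX_pos (h n J : ℕ) : 0 < GX h n J := by
  unfold GX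
  refine Finset.prod_pos fun p hp => ?_
  unfold Ps at hp
  have := (Finset.mem_filter.1 hp).2.1.pos
  positivity

lemma XX_pos (h n J : ℕ) : 0 < XX h n J := mul_pos (SC_pos n h) (GX_pos h n J)

variable {p : ℕ} [hp : Fact p.Prime]

lemma norm_prime_ne {a : ℕ} (ha : a.Prime) (hne : a ≠ p) (e : ℤ) : padicNorm p ((a : ℚ) ^ e) = 1 := by
  have ha0 : (a : ℚ) ≠ 0 := by exact_mod_cast ha.ne_zero
  have h1 : padicNorm p (a : ℚ) = 1 := by
    rw [padicNorm.nat_eq_one_iff]
    intro hd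
    exact hne ((Nat.prime_dvd_prime_iff_eq hp.out ha).1 hd).symm
  have h2 : padicValRat p (a : ℚ) = 0 := by
    rw [padicNorm.eq_zpow_of_nonzero ha0] at h1
    have hp1 : (1 : ℚ) < p := by exact_mod_cast hp.out.one_lt
    have := (zpow_eq_one_iff_right₀ (by linarith) hp1.ne').1 h1
    omega
  rw [padicNorm.eq_zpow_of_nonzero (zpow_ne_zero _ ha0), padicValRat.zpow, h2, mul_zero, neg_zero, zpow_zero]

lemma norm_GX_of_notMem (h n J : ℕ) (hpP : p ∉ Ps n J) : padicNorm p (GX h n J) = 1 := by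
  unfold GX
  have : ∀ s : Finset ℕ, (∀ x ∈ s, x.Prime ∧ x ≠ p) →
      padicNorm p (∏ x ∈ s, (x : ℚ) ^ (-gg h n x)) = 1 := by
    intro s
    induction s using Finset.induction_on with
    | empty => intro _; simp
    | insert a s ha ih =>
      intro hs
      obtain ⟨b1, b2⟩ := hs a (Finset.mem_insert_self _ _)
      rw [Finset.prod_insert ha, padicNorm.mul, ih (fun x hx => hs x (Finset.mem_insert_of_mem hx)),
        norm_prime_ne b1 b2, mul_one]
  apply this
  intro x hx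
  refine ⟨(Finset.mem_filter.1 hx).2.1, ?_⟩
  rintro rfl
  exact hpP hx

lemma norm_GX_of_mem (h n J : ℕ) (hpP : p ∈ Ps n J) : padicNorm p (GX h n J) = (p : ℚ) ^ (gg h n p) := by
  have hp0 : (p : ℚ) ≠ 0 := by exact_mod_cast hp.out.ne_zero
  unfold GX
  rw [← Finset.mul_prod_erase _ _ hpP, padicNorm.mul]
  have : ∀ s : Finset ℕ, (∀ x ∈ s, x.Prime ∧ x ≠ p) →
      padicNorm p (∏ x ∈ s, (x : ℚ) ^ (-gg h n x)) = 1 := by
    intro s
    induction s using Finset.induction_on with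
    | empty => intro _; simp
    | insert a s ha ih =>
      intro hs
      obtain ⟨b1, b2⟩ := hs a (Finset.mem_insert_self _ _)
      rw [Finset.prod_insert ha, padicNorm.mul, ih (fun x hx => hs x (Finset.mem_insert_of_mem hx)),
        norm_prime_ne b1 b2, mul_one]
  rw [this, mul_one, padicNorm.eq_zpow_of_nonzero (zpow_ne_zero _ hp0), padicValRat.zpow,
    padicValRat.self hp.out.one_lt, mul_one, neg_neg]
  intro x hx
  rw [Finset.mem_erase] at hx
  exact ⟨(Finset.mem_filter.1 hx.2).2.1, hx.1⟩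

/-- integrality at one prime -/
theorem int_at {A : Type} [CommRing A] [Algebra ℚ A] (S : Subring A)
    (hS : ∀ x : ℚ, padicNorm p x ≤ 1 → algebraMap ℚ A x ∈ S)
    (n h J : ℕ) (z : ℕ → A) (q : ℕ) (hz : ∀ i, (q : A) * z i ∈ S)
    (hn2 : 2 ≤ n) (he : Even n) (hh : 1 ≤ h) (hJ : (J + 1) ^ 2 ≤ n) :
    algebraMap ℚ A ((q : ℚ) ^ (h * n / 2) * XX h n J) * DH (mo n h 1 w1 z) (h * n / 2) ∈ S := by
  have hp0 : (p : ℚ) ≠ 0 := by exact_mod_cast hp.out.ne_zero
  have hr : 2 * (h * n / 2) ≤ h * n := Nat.mul_div_le _ _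
  obtain ⟨r, hrr⟩ : ∃ r, h * n / 2 = r := ⟨_, rfl⟩
  rw [hrr] at hr ⊢
  by_cases hpP : p ∈ Ps n J
  · have hpP' := hpP
    unfold Ps at hpP'
    rw [Finset.mem_filter, Finset.mem_range] at hpP'
    obtain ⟨a1, a2, a3⟩ := hpP'
    have hpn : p ≤ n := by omega
    have hn : n < p ^ 2 := by
      have b1 : J + 1 ≤ p := by
        by_contra hlt
        have : (J + 1) * p ≤ (J + 1) * (J + 1) := Nat.mul_le_mul_left _ (by omega)
        nlinarith
      nlinarith
    obtain ⟨v, hv1, hv2⟩ := norm_SC (p := p) n h hn2 he hpn hn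
    -- the main step, for any bound `B`
    have main : ∀ B : ℤ, G2 h n p + B ≤ 2 * v →
        (∀ E : ℤ, B ≤ 2 * E → algebraMap ℚ A ((q : ℚ) ^ r * (p : ℚ) ^ E) * DH (mo n h 1 w1 z) r ∈ S) →
        algebraMap ℚ A ((q : ℚ) ^ r * XX h n J) * DH (mo n h 1 w1 z) r ∈ S := by
      intro B hB1 hB2
      obtain ⟨E, hE⟩ : ∃ E : ℤ, (B + 1) / 2 = E := ⟨_, rfl⟩
      have hE1 : B ≤ 2 * E := by omega
      have hE2 : 2 * E ≤ B + 1 := by omega
      have h1 := hB2 E hE1
      have h2 : 2 * gg h n p ≤ G2 h n p := by unfold gg; omega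
      have h3 : gg h n p + E ≤ v := by omega
      have h4 : padicNorm p (XX h n J * (p : ℚ) ^ (-E)) ≤ 1 := by
        unfold XX
        rw [padicNorm.mul, padicNorm.mul, hv1, norm_GX_of_mem h n J hpP,
          padicNorm.eq_zpow_of_nonzero (zpow_ne_zero _ hp0), padicValRat.zpow,
          padicValRat.self hp.out.one_lt, mul_one, neg_neg, ← zpow_add₀ hp0, ← zpow_add₀ hp0]
        apply zpow_le_one_of_nonpos₀
        · exact_mod_cast hp.out.one_lt.le
        · omega
      have h5 : algebraMap ℚ A ((q : ℚ) ^ r * XX h n J) * DH (mo n h 1 w1 z) r =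
          algebraMap ℚ A (XX h n J * (p : ℚ) ^ (-E)) *
          (algebraMap ℚ A ((q : ℚ) ^ r * (p : ℚ) ^ E) * DH (mo n h 1 w1 z) r) := by
        rw [← mul_assoc, ← map_mul]
        congr 2
        rw [zpow_neg]
        field_simp
      rw [h5]
      exact S.mul_mem (hS _ h4) h1
    by_cases hJ1 : n / p = 1
    · have hn2p : n < 2 * p := by
        have := Nat.lt_mul_div_succ n hp.out.pos
        rw [hJ1] at this
        linarith
      apply main (((n - p + 1 : ℕ) : ℤ) * ((2 * h * (2 * h + 1) : ℕ) : ℤ) + ((2 * (h * (h + 1)) : ℕ) : ℤ))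
      · rw [hJ1] at hv2
        unfold G2
        rw [if_pos hJ1]
        push_cast [hpn] at hv2 ⊢
        nlinarith
      · intro E hE
        exact class_int1 S hS n h r z q hz hpn hn2p E hE
    · apply main (((n % p + 1 : ℕ) : ℤ) * ((h * (n / p + 1) * (h * (n / p + 1) + 1) : ℕ) : ℤ) +
        ((p - n % p + 1 : ℕ) : ℤ) * ((h * (n / p) * (h * (n / p) + 1) : ℕ) : ℤ))
      · unfold G2
        rw [if_neg hJ1]
        have en := Nat.div_add_mod n p
        have hlt := Nat.mod_lt n hp.out.pos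
        obtain ⟨j, hj⟩ : ∃ j, n / p = j := ⟨_, rfl⟩
        obtain ⟨ρ, hρ⟩ : ∃ ρ, n % p = ρ := ⟨_, rfl⟩
        rw [hj, hρ] at en
        rw [hρ] at hlt
        rw [hj] at hv2
        rw [hj, hρ]
        have e1 : (n : ℤ) = p * j + ρ := by exact_mod_cast en.symm
        have e2 : ((p - ρ + 1 : ℕ) : ℤ) = p - ρ + 1 := by push_cast [hlt.le]; ring
        rw [e2]
        rw [e1] at hv2 ⊢
        push_cast at hv2 ⊢
        nlinarith
      · intro E hE
        exact class_int S hS n h r z q hz hpn hn E hE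
  · have hG := norm_GX_of_notMem (p := p) h n J hpP
    have hGS : algebraMap ℚ A (GX h n J) ∈ S := hS _ hG.le
    by_cases hpn : p ≤ n
    · have h1 := z_se A p S hS n h 1 w1 z q hz hn2 he hh le_rfl hpn r hr
      have h2 : algebraMap ℚ A ((q : ℚ) ^ r * XX h n J) * DH (mo n h 1 w1 z) r =
          algebraMap ℚ A (GX h n J) * (algebraMap ℚ A ((q : ℚ) ^ r * ∏ i ∈ Finset.range r, sc n h 1 i ^ 2) *
            DH (mo n h 1 w1 z) r) := by
        unfold XX SC
        rw [hrr, map_mul, map_mul, map_mul]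
        ring
      rw [h2]
      exact S.mul_mem hGS h1
    · rw [not_le] at hpn
      have h1 := z_sf A p S hS n h 1 w1 z q hz hn2 hh le_rfl (by omega) hpn r hr
      have h0 : Sp n 1 p = 0 := by
        unfold Sp
        refine Finset.sum_eq_zero fun d hd => Finset.sum_eq_zero fun k hk => ?_
        rw [Finset.mem_Icc] at hd
        rw [Finset.mem_range] at hk
        apply Nat.div_eq_of_lt
        have : d = 1 := by omega
        rw [this]; omega
      rw [h0, mul_zero, pow_zero, mul_one] at h1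
      have hSCS : algebraMap ℚ A (SC n h) ∈ S := by
        apply hS
        have h5' : SC n h ∈ Sring p := by
          unfold SC
          refine Subring.prod_mem _ fun i _ => Subring.pow_mem _ ?_ _
          rw [mem_Sring]
          exact padicNorm_sc p n h 1 i hn2 hpn
        exact h5'
      have h2 : algebraMap ℚ A ((q : ℚ) ^ r * XX h n J) * DH (mo n h 1 w1 z) r =
          algebraMap ℚ A (GX h n J) * (algebraMap ℚ A (SC n h) * (algebraMap ℚ A ((q : ℚ) ^ r) *
            DH (mo n h 1 w1 z) r)) := by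
        unfold XX
        rw [map_mul, map_mul]
        ring
      rw [h2]
      exact S.mul_mem hGS (S.mul_mem hSCS h1)

omit hp in
/-- the norm is at least one -/
theorem norm_ge (K : Type) [Field K] [Algebra ℚ K] [FiniteDimensional ℚ K] (n h J : ℕ)
    (z : ℕ → K) (q : ℕ) (hq : 1 ≤ q) (hz : ∀ i, IsIntegral ℤ ((q : K) * z i))
    (hn2 : 2 ≤ n) (he : Even n) (hh : 1 ≤ h) (hJ : (J + 1) ^ 2 ≤ n)
    (hne : DH (mo n h 1 w1 z) (h * n / 2) ≠ 0) :
    1 ≤ |Algebra.norm ℚ (algebraMap ℚ K ((q : ℚ) ^ (h * n / 2) * XX h n J) * DH (mo n h 1 w1 z) (h * n / 2))| := by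
  have hx : ∀ p : ℕ, [Fact p.Prime] → IsIntegral (Sring p)
      (algebraMap ℚ K ((q : ℚ) ^ (h * n / 2) * XX h n J) * DH (mo n h 1 w1 z) (h * n / 2)) := by
    intro p hp
    let S : Subring K := (integralClosure (Sring p) K).toSubring
    have hmem : ∀ x : K, x ∈ S ↔ IsIntegral (Sring p) x := fun x => Iff.rfl
    have hS : ∀ x : ℚ, padicNorm p x ≤ 1 → algebraMap ℚ K x ∈ S := fun x hx => by
      rw [hmem]
      exact isIntegral_algebraMap (x := (⟨x, hx⟩ : Sring p))
    have hqz : ∀ i, (q : K) * z i ∈ S := by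
      intro i
      rw [hmem]
      exact (hz i).tower_top
    rw [← hmem]
    exact int_at S hS n h J z q hqz hn2 he hh hJ
  have hq0 : 0 < (q : ℚ) := by exact_mod_cast hq
  have hpos : 0 < (q : ℚ) ^ (h * n / 2) * XX h n J := by
    have := XX_pos h n J
    positivity
  apply one_le_abs
  · intro p hp
    exact pk_integral p _ (Algebra.isIntegral_norm ℚ (hx p))
  · rw [Algebra.norm_ne_zero_iff]
    apply mul_ne_zero _ hne
    rw [_root_.map_ne_zero]
    exact hpos.ne'

end

end Pool.Agent.P8H2
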