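import Pool.Agent.P8H2.PI
import Pool.Agent.N334.W.PN

/-!
# The gain at the primes in `(n/(J+1), n]`
-/

open Polynomial Pool.Agent.H337R2 Pool.Agent.W165.OZ Filter Topology
open Pool.Agent.N334.W (PS thm_PN)

namespace Pool.Agent.P8H2

noncomputable section

lemma mem_PSj {n j p : ℕ} (hj : 1 ≤ j) : p ∈ PS (1 / ((j : ℝ) + 1)) (1 / (j : ℝ)) n ↔
    p.Prime ∧ n < (j + 1) * p ∧ j * p ≤ n := by
  have hj0 : (0 : ℝ) < j := by exact_mod_cast hj
  unfold PS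
  rw [Finset.mem_filter, Finset.mem_range]
  have h1 : p < ⌊1 / (j : ℝ) * n⌋₊ + 1 ↔ j * p ≤ n := by
    rw [Nat.lt_succ_iff, Nat.le_floor_iff (by positivity), one_div_mul_eq_div, le_div_iff₀ hj0]
    constructor
    · intro h
      have : ((p * j : ℕ) : ℝ) ≤ (n : ℕ) := by push_cast; exact h
      have := Nat.cast_le.1 this
      linarith
    · intro h
      have : ((j * p : ℕ) : ℝ) ≤ (n : ℕ) := by exact_mod_cast h
      push_cast at this
      linarith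
  have h2 : (1 / ((j : ℝ) + 1)) * n < p ↔ n < (j + 1) * p := by
    rw [one_div_mul_eq_div, div_lt_iff₀ (by positivity)]
    constructor
    · intro h
      have : ((n : ℕ) : ℝ) < (p * (j + 1) : ℕ) := by push_cast; exact h
      have := Nat.cast_lt.1 this
      linarith
    · intro h
      have : ((n : ℕ) : ℝ) < ((j + 1) * p : ℕ) := by exact_mod_cast h
      push_cast at this
      linarith
  rw [h1, h2]
  tauto

lemma div_eq_of_mem {n j p : ℕ} (hj : 1 ≤ j) (h : p ∈ PS (1 / ((j : ℝ) + 1)) (1 / (j : ℝ)) n) : n / p = j := by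
  obtain ⟨a1, a2, a3⟩ := (mem_PSj hj).1 h
  exact Nat.div_eq_of_lt_le a3 a2

/-- the limit of the gain -/
def Lj (h j : ℕ) : ℝ := if j = 1 then (h : ℝ) ^ 2 / 4 + 5 * h / 4
  else ((h : ℝ) ^ 2 / 4 + 9 * h / 4) / (j * (j + 1))

lemma gg_ge (h n p : ℕ) : (G2 h n p : ℝ) / 2 - 1 / 2 ≤ (gg h n p : ℝ) := by
  have h1 : G2 h n p - 1 ≤ 2 * gg h n p := by unfold gg; omega
  have h2 : ((G2 h n p - 1 : ℤ) : ℝ) ≤ ((2 * gg h n p : ℤ) : ℝ) := by exact_mod_cast h1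
  push_cast at h2
  linarith

lemma gain_j (h j : ℕ) (hj : 1 ≤ j) (δ : ℝ) (hδ : 0 < δ) : ∀ᶠ n : ℕ in atTop,
    (Lj h j - δ) * (n : ℝ) ^ 2 ≤
      ∑ p ∈ PS (1 / ((j : ℝ) + 1)) (1 / (j : ℝ)) n, (gg h n p : ℝ) * Real.log p := by
  have hj0 : (0 : ℝ) < j := by exact_mod_cast hj
  have hj1 : (1 : ℝ) ≤ j := by exact_mod_cast hj
  -- the coefficients
  obtain ⟨β, γ, c, hc, hform, hlim⟩ : ∃ β γ c : ℝ, 0 ≤ c ∧
      (∀ n p : ℕ, n / p = j → (G2 h n p : ℝ) / 2 - 1 / 2 = γ * p + β * n - c) ∧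
      (0 * Real.log ((1 / (j : ℝ)) / (1 / ((j : ℝ) + 1))) + β * (1 / (j : ℝ) - 1 / ((j : ℝ) + 1)) +
        γ * (((1 / (j : ℝ)) ^ 2 - (1 / ((j : ℝ) + 1)) ^ 2) / 2)) = Lj h j := by
    by_cases h1 : j = 1
    · refine ⟨-((h : ℝ) ^ 2 - h), 2 * (h : ℝ) ^ 2 + 2 * h, 3 * (h : ℝ) ^ 2 + 2 * h + 1 / 2, by positivity, ?_, ?_⟩
      · intro n p hnp
        unfold G2
        rw [if_pos (by rw [hnp, h1])]
        push_cast
        ring
      · unfold Lj
        rw [if_pos h1, h1]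
        norm_num
        ring
    · refine ⟨((4 - (j : ℝ)) * h - j * (h : ℝ) ^ 2) / 2, (j : ℝ) * (j + 1) * ((h : ℝ) ^ 2 + h) / 2,
        ((h : ℝ) * (j + 1) * (h * (j + 1) + 1) + h * j * (h * j + 1)) / 2 + 1 / 2, by positivity, ?_, ?_⟩
      · intro n p hnp
        unfold G2
        rw [if_neg (by rw [hnp]; exact h1), hnp]
        push_cast
        ring
      · unfold Lj
        rw [if_neg h1]
        field_simp
        ring
  have hlim' : Tendsto (fun n : ℕ => (∑ p ∈ PS (1 / ((j : ℝ) + 1)) (1 / (j : ℝ)) n,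
      (0 * (n : ℝ) ^ 2 / p + (β - δ / 2) * n + γ * p) * Real.log p) / (n : ℝ) ^ 2) atTop
      (𝓝 (0 * Real.log ((1 / (j : ℝ)) / (1 / ((j : ℝ) + 1))) + (β - δ / 2) * (1 / (j : ℝ) - 1 / ((j : ℝ) + 1)) +
        γ * (((1 / (j : ℝ)) ^ 2 - (1 / ((j : ℝ) + 1)) ^ 2) / 2))) :=
    thm_PN (1 / ((j : ℝ) + 1)) (1 / (j : ℝ)) 0 (β - δ / 2) γ (by positivity)
      (by apply one_div_lt_one_div_of_lt hj0; linarith)
  have hval : Lj h j - δ < 0 * Real.log ((1 / (j : ℝ)) / (1 / ((j : ℝ) + 1))) +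
      (β - δ / 2) * (1 / (j : ℝ) - 1 / ((j : ℝ) + 1)) +
        γ * (((1 / (j : ℝ)) ^ 2 - (1 / ((j : ℝ) + 1)) ^ 2) / 2) := by
    rw [← hlim]
    have h3 : 1 / (j : ℝ) - 1 / ((j : ℝ) + 1) ≤ 1 := by
      have : 1 / (j : ℝ) ≤ 1 := by rw [div_le_one hj0]; exact hj1
      have : 0 < 1 / ((j : ℝ) + 1) := by positivity
      linarith
    nlinarith
  have hev := (hlim'.eventually (eventually_gt_nhds hval))
  obtain ⟨N1, hN1⟩ : ∃ N1 : ℕ, 2 * c / δ ≤ N1 := exists_nat_ge _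
  filter_upwards [hev, eventually_ge_atTop N1, eventually_ge_atTop 1] with n hn hn1 hn2
  have hn0 : (0 : ℝ) < n := by exact_mod_cast hn2
  rw [lt_div_iff₀ (by positivity)] at hn
  refine hn.le.trans ?_
  apply Finset.sum_le_sum
  intro p hp
  have h4 := div_eq_of_mem hj hp
  have h5 := (mem_PSj hj).1 hp
  have hlog : 0 ≤ Real.log p := Real.log_nonneg (by exact_mod_cast h5.1.one_lt.le)
  apply mul_le_mul_of_nonneg_right _ hlog
  have h6 := gg_ge h n p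
  rw [hform n p h4] at h6
  have h7 : c ≤ δ / 2 * n := by
    have : 2 * c / δ ≤ n := hN1.trans (by exact_mod_cast hn1)
    rw [div_le_iff₀ hδ] at this
    linarith
  rw [zero_mul, zero_div]
  linarith

lemma sum_Lj (h J : ℕ) (hJ : 1 ≤ J) : ∑ j ∈ Finset.Icc 1 J, Lj h j =
    (3 / 8) * (h : ℝ) ^ 2 + (19 / 8) * h - ((h : ℝ) ^ 2 / 4 + 9 * h / 4) / (J + 1) := by
  induction J, hJ using Nat.le_induction with
  | base =>
    simp [Lj]
    ring
  | succ J hJ ih =>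
    rw [Finset.sum_Icc_succ_top (by omega), ih]
    unfold Lj
    rw [if_neg (by omega)]
    push_cast
    have hJ0 : (0 : ℝ) < J := by exact_mod_cast hJ
    field_simp
    ring

lemma Ps_sum (n J : ℕ) (F : ℕ → ℝ) : ∑ p ∈ Ps n J, F p =
    ∑ j ∈ Finset.Icc 1 J, ∑ p ∈ PS (1 / ((j : ℝ) + 1)) (1 / (j : ℝ)) n, F p := by
  have h1 : ∑ j ∈ Finset.Icc 1 J, ∑ p ∈ (Ps n J).filter (fun p => n / p = j), F p = ∑ p ∈ Ps n J, F p := by
    apply Finset.sum_fiberwise_of_maps_to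
    intro p hp
    unfold Ps at hp
    rw [Finset.mem_filter, Finset.mem_range] at hp
    rw [Finset.mem_Icc]
    have hpos := hp.2.1.pos
    refine ⟨Nat.div_pos (by omega) hpos, ?_⟩
    have := (Nat.div_lt_iff_lt_mul hpos).2 hp.2.2
    omega
  rw [← h1]
  refine Finset.sum_congr rfl fun j hj => ?_
  rw [Finset.mem_Icc] at hj
  congr 1
  ext p
  rw [Finset.mem_filter, mem_PSj hj.1]
  unfold Ps
  rw [Finset.mem_filter, Finset.mem_range]
  constructor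
  · rintro ⟨⟨a1, a2, a3⟩, a4⟩
    have hpos := a2.pos
    refine ⟨a2, ?_, ?_⟩
    · rw [← a4]
      have := Nat.lt_mul_div_succ n hpos
      linarith
    · rw [← a4]
      exact Nat.div_mul_le_self n p
  · rintro ⟨a1, a2, a3⟩
    have hpos := a1.pos
    refine ⟨⟨?_, a1, ?_⟩, Nat.div_eq_of_lt_le a3 a2⟩
    · have : 1 * p ≤ j * p := Nat.mul_le_mul_right _ hj.1
      omega
    · have : (j + 1) * p ≤ (J + 1) * p := Nat.mul_le_mul_right _ (by omega)
      omega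

/-- the size of the correction -/
theorem log_GX (h J : ℕ) (hJ : 1 ≤ J) (δ : ℝ) (hδ : 0 < δ) : ∀ᶠ n : ℕ in atTop,
    Real.log (GX h n J) ≤
      (δ - ((3 / 8) * (h : ℝ) ^ 2 + (19 / 8) * h - ((h : ℝ) ^ 2 / 4 + 9 * h / 4) / (J + 1))) * (n : ℝ) ^ 2 := by
  have hJ0 : (0 : ℝ) < J := by exact_mod_cast hJ
  have h1 : ∀ᶠ n : ℕ in atTop, ∀ j ∈ Finset.Icc 1 J, (Lj h j - δ / J) * (n : ℝ) ^ 2 ≤
      ∑ p ∈ PS (1 / ((j : ℝ) + 1)) (1 / (j : ℝ)) n, (gg h n p : ℝ) * Real.log p := by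
    rw [Filter.eventually_all_finset]
    intro j hj
    rw [Finset.mem_Icc] at hj
    exact gain_j h j hj.1 (δ / J) (by positivity)
  filter_upwards [h1] with n hn
  have h2 : Real.log (GX h n J) = -∑ p ∈ Ps n J, (gg h n p : ℝ) * Real.log p := by
    unfold GX
    push_cast
    rw [Real.log_prod, ← Finset.sum_neg_distrib]
    · refine Finset.sum_congr rfl fun p _ => ?_
      rw [Real.log_zpow]
      push_cast
      ring
    · intro p hp
      unfold Ps at hp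
      have := (Finset.mem_filter.1 hp).2.1.pos
      positivity
  rw [h2, Ps_sum n J (fun p => (gg h n p : ℝ) * Real.log p)]
  have h3 := Finset.sum_le_sum hn
  rw [← Finset.sum_mul, Finset.sum_sub_distrib, Finset.sum_const, Nat.card_Icc, nsmul_eq_mul, sum_Lj h J hJ] at h3
  have h4 : ((J + 1 - 1 : ℕ) : ℝ) * (δ / J) = δ := by
    rw [Nat.add_sub_cancel]
    field_simp
  rw [h4] at h3
  linarith

end

end Pool.Agent.P8H2
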