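import Mathlib

/-!
# A bound for Jacobi polynomials
-/

open Polynomial

namespace Pool.Agent.P8H2

noncomputable section

namespace JB

/-- `(c + s X) ^ a (-s + c X) ^ b` -/
def rot (c s : ℝ) (a b : ℕ) : ℝ[X] := (C c + C s * X) ^ a * (C (-s) + C c * X) ^ b

lemma coeff_lin (c s : ℝ) (a l : ℕ) : ((C c + C s * X : ℝ[X]) ^ a).coeff l = a.choose l * c ^ (a - l) * s ^ l := by
  have h1 : ((C c + C s * X : ℝ[X]) ^ a) = ((X + C c) ^ a).comp (C s * X) := by
    simp [add_comm]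
  rw [h1, Polynomial.comp_C_mul_X_coeff, Polynomial.coeff_X_add_C_pow]
  ring

/-- the rotation is unitary -/
lemma orth_rot (c s : ℝ) (hcs : c ^ 2 + s ^ 2 = 1) (N m : ℕ) :
    ∑ k ∈ Finset.range (N + 1), (N.choose k : ℝ) * (rot c s (N - k) k).coeff m ^ 2 = N.choose m := by
  have h1 : ∑ k ∈ Finset.range (N + 1), C (C (N.choose k : ℝ)) * C (rot c s (N - k) k) * (rot c s (N - k) k).map C =
      ((1 : ℝ[X][X]) + C X * X) ^ N := by
    have h2 : ((1 : ℝ[X][X]) + C X * X) =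
        (C (C (-s) + C c * X) * (C (C (-s)) + C (C c) * X)) + (C (C c + C s * X) * (C (C c) + C (C s) * X)) := by
      have e : (C (C (c ^ 2 + s ^ 2)) : ℝ[X][X]) = 1 := by rw [hcs]; simp
      simp only [map_add, map_mul, map_neg, map_pow] at e ⊢
      linear_combination (-(1 : ℝ[X][X]) - C X * X) * e
    rw [h2, add_pow]
    refine Finset.sum_congr rfl fun k _ => ?_
    unfold rot
    simp only [Polynomial.map_mul, Polynomial.map_pow, Polynomial.map_add, Polynomial.map_C,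
      Polynomial.map_X, map_mul, map_pow, map_add, mul_pow]
    have : (C (C (N.choose k : ℝ)) : ℝ[X][X]) = (N.choose k : ℝ[X][X]) := by
      simp
    rw [this]
    ring
  have h2 := congrArg (fun p : ℝ[X][X] => (p.coeff m).coeff m) h1
  beta_reduce at h2
  rw [Polynomial.finsetSum_coeff, Polynomial.finsetSum_coeff] at h2
  have h3 : ∀ k, ((C (C (N.choose k : ℝ)) * C (rot c s (N - k) k) * (rot c s (N - k) k).map C).coeff m).coeff m =
      (N.choose k : ℝ) * (rot c s (N - k) k).coeff m ^ 2 := by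
    intro k
    rw [mul_assoc, Polynomial.coeff_C_mul, Polynomial.coeff_C_mul, Polynomial.coeff_C_mul, Polynomial.coeff_map,
      Polynomial.coeff_mul_C]
    ring
  rw [Finset.sum_congr rfl fun k _ => h3 k] at h2
  rw [h2]
  have h5 : ((1 : ℝ[X][X]) + C X * X) ^ N = ((1 + X) ^ N).comp (C X * X) := by
    simp
  rw [h5, Polynomial.comp_C_mul_X_coeff, add_comm (1 : ℝ[X][X]) X,
    Polynomial.coeff_X_add_one_pow]
  have h6 : ((N.choose m : ℝ[X]) * X ^ m) = C (N.choose m : ℝ) * X ^ m := by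
    simp
  rw [h6, Polynomial.coeff_C_mul, Polynomial.coeff_X_pow]
  simp

/-- the unnormalised Jacobi polynomial on `[0, 1]` in the Bernstein form -/
def jac (i α β : ℕ) (x : ℝ) : ℝ :=
  ∑ l ∈ Finset.range (i + 1), (-1) ^ l * ((i + β).choose l : ℝ) * ((i + α).choose (i - l) : ℝ) * x ^ l * (1 - x) ^ (i - l)

lemma coeff_rot (c s : ℝ) (i α β : ℕ) : (rot c s (i + β) (i + α)).coeff i =
    (-s) ^ α * c ^ β * ∑ l ∈ Finset.range (i + 1), (-1) ^ l * ((i + β).choose l : ℝ) * ((i + α).choose (i - l) : ℝ) *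
      (s ^ 2) ^ l * (c ^ 2) ^ (i - l) := by
  unfold rot
  rw [Polynomial.coeff_mul, Finset.Nat.sum_antidiagonal_eq_sum_range_succ_mk, Finset.mul_sum]
  refine Finset.sum_congr rfl fun l hl => ?_
  rw [Finset.mem_range] at hl
  simp only
  rw [coeff_lin, coeff_lin]
  have e1 : i + β - l = β + (i - l) := by omega
  have e2 : i + α - (i - l) = α + l := by omega
  rw [e1, e2, pow_add, pow_add, ← pow_mul, ← pow_mul, two_mul, two_mul, pow_add, pow_add, neg_pow s l]
  ring

lemma jac_bound (i α β : ℕ) (x : ℝ) (hx0 : 0 ≤ x) (hx1 : x ≤ 1) :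
    x ^ α * (1 - x) ^ β * jac i α β x ^ 2 ≤ ((2 * i + α + β).choose i : ℝ) / ((2 * i + α + β).choose (i + α) : ℝ) := by
  set s := Real.sqrt x with hs
  set c := Real.sqrt (1 - x) with hc
  have hs2 : s ^ 2 = x := Real.sq_sqrt hx0
  have hc2 : c ^ 2 = 1 - x := Real.sq_sqrt (by linarith)
  have hcs : c ^ 2 + s ^ 2 = 1 := by rw [hs2, hc2]; ring
  have h1 := orth_rot c s hcs (2 * i + α + β) i
  have h2 : ((2 * i + α + β).choose (i + α) : ℝ) * (rot c s (i + β) (i + α)).coeff i ^ 2 ≤ ((2 * i + α + β).choose i : ℝ) := by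
    rw [← h1]
    have e : i + β = 2 * i + α + β - (i + α) := by omega
    rw [e]
    exact Finset.single_le_sum (f := fun k => ((2 * i + α + β).choose k : ℝ) * (rot c s (2 * i + α + β - k) k).coeff i ^ 2)
      (fun k _ => by positivity) (Finset.mem_range.2 (by omega))
  have hpos : (0 : ℝ) < ((2 * i + α + β).choose (i + α) : ℝ) := by
    exact_mod_cast Nat.choose_pos (by omega)
  rw [le_div_iff₀ hpos]
  refine le_trans (le_of_eq ?_) h2
  rw [coeff_rot, hs2, hc2]
  unfold jac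
  rw [mul_pow, mul_pow, ← pow_mul, ← pow_mul, mul_comm α 2, mul_comm β 2, pow_mul, pow_mul c, neg_sq, hs2, hc2]
  ring

/-- the monic polynomial -/
def Jp (i α β : ℕ) (μ : ℝ) : ℝ[X] :=
  ∑ l ∈ Finset.range (i + 1), C ((-1) ^ l * ((i + β).choose l : ℝ) * ((i + α).choose (i - l) : ℝ) / ((i + α).choose i : ℝ) * μ ^ l) *
    (X - C μ) ^ (i - l)

lemma Jp_monic (i α β : ℕ) (μ : ℝ) : (Jp i α β μ).Monic ∧ (Jp i α β μ).natDegree = i := by
  have hC : ((i + α).choose i : ℝ) ≠ 0 := by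
    have := Nat.choose_pos (by omega : i ≤ i + α)
    positivity
  have h0 : Jp i α β μ = (X - C μ) ^ i + ∑ l ∈ Finset.range i,
      C ((-1) ^ (l + 1) * ((i + β).choose (l + 1) : ℝ) * ((i + α).choose (i - (l + 1)) : ℝ) / ((i + α).choose i : ℝ) * μ ^ (l + 1)) *
        (X - C μ) ^ (i - (l + 1)) := by
    unfold Jp
    rw [Finset.sum_range_succ', add_comm]
    congr 1
    simp [div_self hC]
  obtain ⟨T, hT⟩ : ∃ T : ℝ[X], T = ∑ l ∈ Finset.range i,
      C ((-1) ^ (l + 1) * ((i + β).choose (l + 1) : ℝ) * ((i + α).choose (i - (l + 1)) : ℝ) / ((i + α).choose i : ℝ) * μ ^ (l + 1)) *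
        (X - C μ) ^ (i - (l + 1)) := ⟨_, rfl⟩
  rw [← hT] at h0
  have hM : ((X - C μ) ^ i : ℝ[X]).Monic := (monic_X_sub_C μ).pow i
  have hMd : ((X - C μ) ^ i : ℝ[X]).natDegree = i := by
    rw [(monic_X_sub_C μ).natDegree_pow, natDegree_X_sub_C, mul_one]
  rcases Nat.eq_zero_or_pos i with h2 | h2
  · subst h2
    have : T = 0 := by rw [hT]; simp
    rw [h0, this, add_zero]
    exact ⟨hM, hMd⟩
  have hTd : T.natDegree < ((X - C μ) ^ i : ℝ[X]).natDegree := by
    rw [hMd]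
    refine lt_of_le_of_lt (b := i - 1) ?_ (by omega)
    rw [hT]
    apply Polynomial.natDegree_sum_le_of_forall_le
    intro l hl
    rw [Finset.mem_range] at hl
    refine (natDegree_C_mul_le _ _).trans ?_
    rw [(monic_X_sub_C μ).natDegree_pow, natDegree_X_sub_C, mul_one]
    omega
  rw [h0]
  refine ⟨hM.add_of_left (degree_lt_degree hTd), ?_⟩
  rw [natDegree_add_eq_left_of_natDegree_lt hTd, hMd]

lemma Jp_eval (i α β : ℕ) (μ y : ℝ) (hy : y ≠ 0) :
    (Jp i α β μ).eval y = y ^ i * (jac i α β (μ / y) / ((i + α).choose i : ℝ)) := by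
  unfold Jp jac
  rw [Polynomial.eval_finset_sum, Finset.sum_div, Finset.mul_sum]
  refine Finset.sum_congr rfl fun l hl => ?_
  rw [Finset.mem_range] at hl
  simp only [eval_mul, eval_C, eval_pow, eval_sub, eval_X]
  have e : y ^ i = y ^ l * y ^ (i - l) := by rw [← pow_add]; congr 1; omega
  have e2 : y - μ = y * (1 - μ / y) := by field_simp
  rw [e, e2, mul_pow, div_pow]
  field_simp

lemma Jp_bound (i α β : ℕ) (μ y : ℝ) (hμ : 0 ≤ μ) (hy : μ ≤ y) (hy0 : 0 < y) :
    (μ / y) ^ α * (1 - μ / y) ^ β * (Jp i α β μ).eval y ^ 2 ≤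
      y ^ (2 * i) * (((2 * i + α + β).choose i : ℝ) / ((2 * i + α + β).choose (i + α) : ℝ) / ((i + α).choose i : ℝ) ^ 2) := by
  rw [Jp_eval i α β μ y hy0.ne']
  have h1 := jac_bound i α β (μ / y) (by positivity) (by rwa [div_le_one hy0])
  have hC : (0 : ℝ) < ((i + α).choose i : ℝ) := by
    exact_mod_cast Nat.choose_pos (by omega : i ≤ i + α)
  calc (μ / y) ^ α * (1 - μ / y) ^ β * (y ^ i * (jac i α β (μ / y) / ((i + α).choose i : ℝ))) ^ 2
      = y ^ (2 * i) / ((i + α).choose i : ℝ) ^ 2 * ((μ / y) ^ α * (1 - μ / y) ^ β * jac i α β (μ / y) ^ 2) := by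
        rw [mul_pow, div_pow, ← pow_mul, mul_comm i 2]
        ring
    _ ≤ y ^ (2 * i) / ((i + α).choose i : ℝ) ^ 2 * (((2 * i + α + β).choose i : ℝ) / ((2 * i + α + β).choose (i + α) : ℝ)) :=
        mul_le_mul_of_nonneg_left h1 (by positivity)
    _ = _ := by ring

end JB

end

end Pool.Agent.P8H2
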