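import Mathlib

/-!
# A second order refinement of the inequality between the means
-/

open Real

namespace Pool.Agent.P8H2

noncomputable section

namespace JB

lemma conv_pow (a b : ℝ) (ha : 0 ≤ a) (hb : 0 ≤ b) (n : ℕ) :
    b ^ (n + 1) + ((n : ℝ) + 1) * b ^ n * (a - b) ≤ a ^ (n + 1) := by
  induction n with
  | zero => simp
  | succ n ih =>
    have h1 : a * (b ^ (n + 1) + ((n : ℝ) + 1) * b ^ n * (a - b)) ≤ a * a ^ (n + 1) := mul_le_mul_of_nonneg_left ih ha
    have h2 : 0 ≤ ((n : ℝ) + 1) * b ^ n * (a - b) ^ 2 := by positivity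
    have e1 : b ^ (n + 1 + 1) = b ^ n * b * b := by ring
    have e2 : b ^ (n + 1) = b ^ n * b := by ring
    have e3 : a ^ (n + 1 + 1) = a * a ^ (n + 1) := by ring
    rw [e1, e3, e2]
    rw [e2] at h1
    push_cast
    nlinarith

lemma log_pt (a b : ℝ) (ha : 0 ≤ a) (ha1 : a < 1) (hb : 0 < b) (hb1 : b < 1) :
    log (1 - a) ≤ (a / b) * log (1 - b) - a * (a - b) / b ^ 2 * (b / (1 - b) + log (1 - b)) := by
  have h1 := Real.hasSum_pow_div_log_of_abs_lt_one (x := a) (by rw [abs_of_nonneg ha]; exact ha1)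
  have h2 := Real.hasSum_pow_div_log_of_abs_lt_one (x := b) (by rw [abs_of_nonneg hb.le]; exact hb1)
  have h3 := (hasSum_geometric_of_lt_one hb.le hb1).mul_left b
  have h4 := (h1.sub (h2.mul_left (a / b))).sub ((h3.sub h2).mul_left (a * (a - b) / b ^ 2))
  have h5 : ∀ n : ℕ, 0 ≤ a ^ (n + 1) / ((n : ℝ) + 1) - a / b * (b ^ (n + 1) / ((n : ℝ) + 1)) -
      a * (a - b) / b ^ 2 * (b * b ^ n - b ^ (n + 1) / ((n : ℝ) + 1)) := by
    intro n
    rcases n with _ | n
    · simp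
      field_simp
      simp
    · have h6 := conv_pow a b ha hb.le n
      have e : a ^ (n + 1 + 1) / (((n + 1 : ℕ) : ℝ) + 1) - a / b * (b ^ (n + 1 + 1) / (((n + 1 : ℕ) : ℝ) + 1)) -
          a * (a - b) / b ^ 2 * (b * b ^ (n + 1) - b ^ (n + 1 + 1) / (((n + 1 : ℕ) : ℝ) + 1)) =
          a / (((n + 1 : ℕ) : ℝ) + 1) * (a ^ (n + 1) - (b ^ (n + 1) + ((n : ℝ) + 1) * b ^ n * (a - b))) := by
        push_cast
        field_simp
        ring
      rw [e]
      apply mul_nonneg (by positivity)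
      linarith
  have h6 := h4.nonneg h5
  have e : b * (1 - b)⁻¹ = b / (1 - b) := by rw [div_eq_mul_inv]
  rw [e] at h6
  have e2 : b / (1 - b) - -log (1 - b) = b / (1 - b) + log (1 - b) := by ring
  rw [e2] at h6
  linarith

lemma log_sum {ι : Type*} (S : Finset ι) (a : ι → ℝ) (b B : ℝ) (ha : ∀ v ∈ S, 0 ≤ a v) (ha1 : ∀ v ∈ S, a v < 1)
    (hb : 0 < b) (hb1 : b < 1) (h2 : b * ∑ v ∈ S, a v ≤ ∑ v ∈ S, a v ^ 2) (h1 : B * b ≤ 2 * ∑ v ∈ S, a v) :
    2 * ∑ v ∈ S, log (1 - a v) ≤ B * log (1 - b) := by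
  have hl : log (1 - b) ≤ 0 := Real.log_nonpos (by linarith) (by linarith)
  have hk : 0 ≤ b / (1 - b) + log (1 - b) := by
    have h3 := Real.one_sub_inv_le_log_of_pos (show 0 < 1 - b by linarith)
    have h4 : 1 - (1 - b)⁻¹ = -(b / (1 - b)) := by
      have : (1 - b) ≠ 0 := by linarith
      field_simp
      ring
    linarith
  have h3 : ∑ v ∈ S, log (1 - a v) ≤ ∑ v ∈ S, ((a v / b) * log (1 - b) - a v * (a v - b) / b ^ 2 * (b / (1 - b) + log (1 - b))) :=
    Finset.sum_le_sum fun v hv => log_pt (a v) b (ha v hv) (ha1 v hv) hb hb1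
  have h4 : ∑ v ∈ S, ((a v / b) * log (1 - b) - a v * (a v - b) / b ^ 2 * (b / (1 - b) + log (1 - b))) =
      (∑ v ∈ S, a v) / b * log (1 - b) - (∑ v ∈ S, a v ^ 2 - b * ∑ v ∈ S, a v) / b ^ 2 * (b / (1 - b) + log (1 - b)) := by
    rw [Finset.sum_sub_distrib, ← Finset.sum_mul, ← Finset.sum_mul, ← Finset.sum_div, ← Finset.sum_div]
    congr 3
    rw [Finset.mul_sum, ← Finset.sum_sub_distrib]
    refine Finset.sum_congr rfl fun v _ => ?_
    ring
  rw [h4] at h3
  have h5 : 0 ≤ (∑ v ∈ S, a v ^ 2 - b * ∑ v ∈ S, a v) / b ^ 2 * (b / (1 - b) + log (1 - b)) :=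
    mul_nonneg (div_nonneg (by linarith) (by positivity)) hk
  have h6 : B ≤ 2 * ((∑ v ∈ S, a v) / b) := by
    rw [mul_div_assoc', le_div_iff₀ hb]
    exact h1
  have h7 := mul_le_mul_of_nonpos_right h6 hl
  linarith

/-- the product form -/
lemma prod_sq_le (A β : ℕ) (y : ℕ → ℝ) (Y μ : ℝ) (hy : ∀ v < A, 0 ≤ y v) (hY : ∀ v < A, y v < Y) (hμ : 0 < μ)
    (hμY : μ < Y) (h2 : μ * ∑ v ∈ Finset.range A, y v ≤ ∑ v ∈ Finset.range A, y v ^ 2)
    (h1 : (β : ℝ) * μ ≤ 2 * ∑ v ∈ Finset.range A, y v) :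
    (∏ v ∈ Finset.range A, (Y - y v)) ^ 2 ≤ Y ^ (2 * A) * (1 - μ / Y) ^ β := by
  have hY0 : 0 < Y := hμ.trans hμY
  have hb1 : μ / Y < 1 := by rwa [div_lt_one hY0]
  have hpos : ∀ v ∈ Finset.range A, 0 < 1 - y v / Y := by
    intro v hv
    have := hY v (Finset.mem_range.1 hv)
    have h3 : y v / Y < 1 := by rwa [div_lt_one hY0]
    linarith
  have h3 := log_sum (Finset.range A) (fun v => y v / Y) (μ / Y) β
    (fun v hv => div_nonneg (hy v (Finset.mem_range.1 hv)) hY0.le)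
    (fun v hv => by have := hpos v hv; linarith) (div_pos hμ hY0) hb1
    (by
      simp only [div_pow]
      rw [← Finset.sum_div, ← Finset.sum_div]
      have e : μ / Y * ((∑ v ∈ Finset.range A, y v) / Y) = (μ * ∑ v ∈ Finset.range A, y v) / Y ^ 2 := by
        field_simp
      rw [e]
      exact div_le_div_of_nonneg_right h2 (by positivity))
    (by
      rw [← Finset.sum_div]
      have e : (β : ℝ) * (μ / Y) = ((β : ℝ) * μ) / Y := by ring
      have e2 : 2 * ((∑ v ∈ Finset.range A, y v) / Y) = (2 * ∑ v ∈ Finset.range A, y v) / Y := by ring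
      rw [e, e2]
      exact div_le_div_of_nonneg_right h1 hY0.le)
  have h4 : (∏ v ∈ Finset.range A, (1 - y v / Y)) ^ 2 ≤ (1 - μ / Y) ^ β := by
    have hP : 0 < ∏ v ∈ Finset.range A, (1 - y v / Y) := Finset.prod_pos hpos
    rw [← Real.log_le_log_iff (by positivity) (pow_pos (by linarith) _), Real.log_pow, Real.log_pow,
      Real.log_prod (fun v hv => (hpos v hv).ne')]
    exact_mod_cast h3
  have h5 : ∏ v ∈ Finset.range A, (Y - y v) = Y ^ A * ∏ v ∈ Finset.range A, (1 - y v / Y) := by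
    have : Y ^ A = ∏ _v ∈ Finset.range A, Y := by rw [Finset.prod_const, Finset.card_range]
    rw [this, ← Finset.prod_mul_distrib]
    refine Finset.prod_congr rfl fun v _ => ?_
    field_simp
  rw [h5, mul_pow, ← pow_mul, mul_comm A 2]
  exact mul_le_mul_of_nonneg_left h4 (by positivity)

end JB

end

end Pool.Agent.P8H2
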