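import Pool.Agent.P8H2.TC

/-!
# The real determinant, sharper form: the first rows
-/

open Polynomial Pool.Agent.H337R2 Pool.Agent.W165.OZ Filter Topology

namespace Pool.Agent.P8H2

noncomputable section

namespace JB

lemma artanh_le (p p0 : ℝ) (hp : 0 ≤ p) (hpp : p ≤ p0) (hp0 : 0 < p0) (hp1 : p0 < 1) :
    Real.log (1 + p) - Real.log (1 - p) ≤ p / p0 * (Real.log (1 + p0) - Real.log (1 - p0)) := by
  have h1 := Real.hasSum_log_sub_log_of_abs_lt_one (x := p) (by rw [abs_of_nonneg hp]; linarith)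
  have h2 := (Real.hasSum_log_sub_log_of_abs_lt_one (x := p0) (by rw [abs_of_pos hp0]; exact hp1)).mul_left (p / p0)
  refine hasSum_le ?_ h1 h2
  intro k
  have e : p / p0 * (2 * (1 / (2 * (k : ℝ) + 1)) * p0 ^ (2 * k + 1)) = 2 * (1 / (2 * (k : ℝ) + 1)) * (p * p0 ^ (2 * k)) := by
    rw [pow_succ]
    field_simp
  rw [e, pow_succ, mul_comm (p ^ (2 * k)) p]
  apply mul_le_mul_of_nonneg_left _ (by positivity)
  exact mul_le_mul_of_nonneg_left (pow_le_pow_left₀ hp hpp _) hp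

lemma le_artanh (q : ℝ) (hq : 0 ≤ q) (hq1 : q < 1) : 2 * q ≤ Real.log (1 + q) - Real.log (1 - q) := by
  have h1 := Real.hasSum_log_sub_log_of_abs_lt_one (x := q) (by rw [abs_of_nonneg hq]; exact hq1)
  have h2 := sum_le_hasSum {0} (fun k _ => by positivity) h1
  simpa using h2

/-- the normalised term -/
def zt (n h j u : ℕ) : ℝ :=
  yu n u * (∏ v ∈ Finset.range j, (yu n u - yu n v)) / (∏ k ∈ Finset.range n, ((u : ℝ) + 2 + k)) ^ h

lemma yu_sub (n u v : ℕ) : yu n u - yu n v = ((u : ℝ) - v) * ((u : ℝ) + v + n + 3) := by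
  rw [yu_eq, yu_eq]; ring

lemma zt_pos (n h j u : ℕ) (hn : 1 ≤ n) (hu : j ≤ u) : 0 < zt n h j u := by
  unfold zt
  have h1 := yu_pos n u
  have h2 : 0 < ∏ v ∈ Finset.range j, (yu n u - yu n v) := by
    apply Finset.prod_pos
    intro v hv
    rw [Finset.mem_range] at hv
    have := yu_strictMono n hn (by omega : v < u)
    linarith
  have h3 : 0 < ∏ k ∈ Finset.range n, ((u : ℝ) + 2 + k) := Finset.prod_pos fun k _ => by positivity
  positivity

/-- the quotient of two consecutive terms -/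
lemma zt_succ (n h j u : ℕ) (hu : j ≤ u) (hn : 1 ≤ n) :
    zt n h j (u + 1) ≤ zt n h j u * ((((u : ℝ) + n + 3 + j) / ((u : ℝ) + 1 - j)) * (((u : ℝ) + 2) / ((u : ℝ) + 2 + n)) ^ (h + 1)) := by
  have hur : (j : ℝ) ≤ u := by exact_mod_cast hu
  have hu0 : (0 : ℝ) ≤ u := Nat.cast_nonneg u
  have hj0 : (0 : ℝ) ≤ j := Nat.cast_nonneg j
  have hn1 : (1 : ℝ) ≤ n := by exact_mod_cast hn
  have hden : (0 : ℝ) < (u : ℝ) + 1 - j := by linarith
  -- the product of the differences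
  have p1 : ∀ m : ℕ, (m : ℝ) ≤ u → (∏ v ∈ Finset.range m, (((u + 1 : ℕ) : ℝ) - v)) * ((u : ℝ) + 1 - m) =
      ((u : ℝ) + 1) * ∏ v ∈ Finset.range m, ((u : ℝ) - v) := by
    intro m
    induction m with
    | zero => intro _; simp
    | succ m ih =>
      intro hm
      push_cast at hm
      have ih' := ih (by linarith)
      rw [Finset.prod_range_succ, Finset.prod_range_succ]
      push_cast at ih' ⊢
      have e1 : (∏ v ∈ Finset.range m, ((u : ℝ) + 1 - v)) * ((u : ℝ) + 1 - m) * ((u : ℝ) + 1 - (m + 1)) =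
        ((u : ℝ) + 1) * (∏ v ∈ Finset.range m, ((u : ℝ) - v)) * ((u : ℝ) + 1 - (m + 1)) := by rw [ih']
      linear_combination e1
  have p2 : ∀ m : ℕ, (∏ v ∈ Finset.range m, (((u + 1 : ℕ) : ℝ) + v + n + 3)) * ((u : ℝ) + n + 3) =
      ((u : ℝ) + n + 3 + m) * ∏ v ∈ Finset.range m, ((u : ℝ) + v + n + 3) := by
    intro m
    induction m with
    | zero => simp
    | succ m ih =>
      rw [Finset.prod_range_succ, Finset.prod_range_succ]
      push_cast at ih ⊢
      linear_combination ((u : ℝ) + 1 + m + n + 3) * ih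
  have p3 : ∀ m : ℕ, (∏ k ∈ Finset.range m, (((u + 1 : ℕ) : ℝ) + 2 + k)) * ((u : ℝ) + 2) =
      ((u : ℝ) + 2 + m) * ∏ k ∈ Finset.range m, ((u : ℝ) + 2 + k) := by
    intro m
    induction m with
    | zero => simp
    | succ m ih =>
      rw [Finset.prod_range_succ, Finset.prod_range_succ]
      push_cast at ih ⊢
      linear_combination ((u : ℝ) + 1 + 2 + m) * ih
  have hP : ∏ v ∈ Finset.range j, (yu n (u + 1) - yu n v) =
      (∏ v ∈ Finset.range j, (((u + 1 : ℕ) : ℝ) - v)) * ∏ v ∈ Finset.range j, (((u + 1 : ℕ) : ℝ) + v + n + 3) := by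
    rw [← Finset.prod_mul_distrib]
    exact Finset.prod_congr rfl fun v _ => yu_sub n (u + 1) v
  have hP' : ∏ v ∈ Finset.range j, (yu n u - yu n v) =
      (∏ v ∈ Finset.range j, ((u : ℝ) - v)) * ∏ v ∈ Finset.range j, ((u : ℝ) + v + n + 3) := by
    rw [← Finset.prod_mul_distrib]
    exact Finset.prod_congr rfl fun v _ => yu_sub n u v
  have q1 := p1 j hur
  have q2 := p2 j
  have q3 := p3 n
  have hA1pos : 0 < ∏ v ∈ Finset.range j, ((u : ℝ) - v) := by
    apply Finset.prod_pos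
    intro v hv
    rw [Finset.mem_range] at hv
    have : ((v + 1 : ℕ) : ℝ) ≤ u := by exact_mod_cast (by omega : v + 1 ≤ u)
    push_cast at this
    linarith
  have hA2pos : 0 < ∏ v ∈ Finset.range j, ((u : ℝ) + v + n + 3) := Finset.prod_pos fun v _ => by positivity
  have hDpos : 0 < ∏ k ∈ Finset.range n, ((u : ℝ) + 2 + k) := Finset.prod_pos fun k _ => by positivity
  unfold zt
  rw [hP, hP', yu_eq, yu_eq]
  obtain ⟨a1, ha1⟩ : ∃ a, ∏ v ∈ Finset.range j, (((u + 1 : ℕ) : ℝ) - v) = a := ⟨_, rfl⟩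
  obtain ⟨a2, ha2⟩ : ∃ a, ∏ v ∈ Finset.range j, (((u + 1 : ℕ) : ℝ) + v + n + 3) = a := ⟨_, rfl⟩
  obtain ⟨a3, ha3⟩ : ∃ a, ∏ k ∈ Finset.range n, (((u + 1 : ℕ) : ℝ) + 2 + k) = a := ⟨_, rfl⟩
  obtain ⟨b1, hb1⟩ : ∃ a, ∏ v ∈ Finset.range j, ((u : ℝ) - v) = a := ⟨_, rfl⟩
  obtain ⟨b2, hb2⟩ : ∃ a, ∏ v ∈ Finset.range j, ((u : ℝ) + v + n + 3) = a := ⟨_, rfl⟩
  obtain ⟨b3, hb3⟩ : ∃ a, ∏ k ∈ Finset.range n, ((u : ℝ) + 2 + k) = a := ⟨_, rfl⟩
  rw [ha1, hb1] at q1
  rw [ha2, hb2] at q2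
  rw [ha3, hb3] at q3
  rw [hb1] at hA1pos
  rw [hb2] at hA2pos
  rw [hb3] at hDpos
  rw [ha1, ha2, ha3, hb1, hb2, hb3]
  have s1 : a1 = ((u : ℝ) + 1) / ((u : ℝ) + 1 - j) * b1 := by
    rw [div_mul_eq_mul_div, eq_div_iff hden.ne']; exact q1
  have s2 : a2 = ((u : ℝ) + n + 3 + j) / ((u : ℝ) + n + 3) * b2 := by
    rw [div_mul_eq_mul_div, eq_div_iff (by positivity)]; exact q2
  have s3 : a3 = ((u : ℝ) + 2 + n) / ((u : ℝ) + 2) * b3 := by
    rw [div_mul_eq_mul_div, eq_div_iff (by positivity)]; exact q3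
  rw [s1, s2, s3, mul_pow, div_pow]
  push_cast
  -- separate the power
  obtain ⟨w, hw⟩ : ∃ w, w = ((u : ℝ) + 2) / ((u : ℝ) + 2 + n) := ⟨_, rfl⟩
  have hw0 : 0 < w := by rw [hw]; positivity
  have e1 : ((u : ℝ) + 1 + 2) * ((u : ℝ) + 1 + n + 1) * ((((u : ℝ) + 1) / ((u : ℝ) + 1 - j) * b1) *
      (((u : ℝ) + n + 3 + j) / ((u : ℝ) + n + 3) * b2)) / (((u : ℝ) + 2 + n) ^ h / ((u : ℝ) + 2) ^ h * b3 ^ h) =
      (((u : ℝ) + 2) * ((u : ℝ) + n + 1) * (b1 * b2) / b3 ^ h * (((u : ℝ) + n + 3 + j) / ((u : ℝ) + 1 - j)) * w ^ h) *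
      ((((u : ℝ) + 3) * ((u : ℝ) + n + 2) * ((u : ℝ) + 1)) / (((u : ℝ) + 2) * ((u : ℝ) + n + 1) * ((u : ℝ) + n + 3))) := by
    rw [hw, div_pow]
    field_simp
    ring
  rw [e1]
  have e2 : ((((u : ℝ) + 3) * ((u : ℝ) + n + 2) * ((u : ℝ) + 1)) / (((u : ℝ) + 2) * ((u : ℝ) + n + 1) * ((u : ℝ) + n + 3))) ≤ w := by
    rw [hw, div_le_div_iff₀ (by positivity) (by positivity)]
    nlinarith [mul_nonneg hu0 hu0, mul_nonneg hu0 (by linarith : (0 : ℝ) ≤ n),
      mul_nonneg (mul_nonneg hu0 hu0) (by linarith : (0 : ℝ) ≤ n), mul_nonneg hu0 (mul_nonneg (by linarith : (0 : ℝ) ≤ n) (by linarith : (0 : ℝ) ≤ n))]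
  have h0 : 0 ≤ (((u : ℝ) + 2) * ((u : ℝ) + n + 1) * (b1 * b2) / b3 ^ h * (((u : ℝ) + n + 3 + j) / ((u : ℝ) + 1 - j)) * w ^ h) := by
    positivity
  refine (mul_le_mul_of_nonneg_left e2 h0).trans (le_of_eq ?_)
  rw [← hw, pow_succ]
  ring

/-- the supremum is essentially attained at the first node -/
lemma zt_le (n h j : ℕ) (hn : 1 ≤ n) (p0 σ : ℝ) (hp0 : 0 < p0) (hp1 : p0 < 1) (hσ0 : 0 < σ) (hσ1 : σ < 1)
    (hc : (Real.log (1 + p0) - Real.log (1 - p0)) / p0 * (2 * (j : ℝ) + n + 2) ≤ 2 * ((h : ℝ) + 1) * n)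
    (hs : Real.exp (-(2 * ((h : ℝ) + 1) * p0 * n / (2 * (j : ℝ) + n + 2))) ≤ σ) (m : ℕ) :
    zt n h j (j + m) ≤ zt n h j j * (1 / (1 - σ) ^ (2 * j + n + 2 + 1)) := by
  have hn1 : (1 : ℝ) ≤ n := by exact_mod_cast hn
  have hj0 : (0 : ℝ) ≤ j := Nat.cast_nonneg j
  obtain ⟨B, hB⟩ : ∃ B : ℕ, B = 2 * j + n + 2 := ⟨_, rfl⟩
  have hBr : (B : ℝ) = 2 * (j : ℝ) + n + 2 := by rw [hB]; push_cast; ring
  have hB0 : 0 < (B : ℝ) := by rw [hBr]; positivity
  rw [← hB]
  rw [← hBr] at hc hs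
  have hz0 := zt_pos n h j j hn le_rfl
  -- the binomial series
  have hser := hasSum_choose_mul_geometric_of_norm_lt_one (𝕜 := ℝ) B (r := σ) (by
    rw [Real.norm_eq_abs, abs_of_pos hσ0]; exact hσ1)
  have hbin : ∀ m : ℕ, ((m + B).choose B : ℝ) * σ ^ m ≤ 1 / (1 - σ) ^ (B + 1) := by
    intro m
    exact le_hasSum hser m (fun k _ => by positivity)
  -- the parameters
  obtain ⟨P, hP⟩ : ∃ P : ℕ → ℝ, P = fun m : ℕ => (B : ℝ) / (2 * ((j : ℝ) + m + 2) + n) := ⟨_, rfl⟩
  have hquot : ∀ m : ℕ, (((j + m : ℕ) : ℝ) + n + 3 + j) / (((j + m : ℕ) : ℝ) + 1 - j) = ((B : ℝ) + (m + 1)) / (m + 1) := by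
    intro m
    rw [hBr]
    push_cast
    congr 1 <;> ring
  have hw : ∀ m : ℕ, (((j + m : ℕ) : ℝ) + 2) / (((j + m : ℕ) : ℝ) + 2 + n) =
      (1 - n / (2 * ((j : ℝ) + m + 2) + n)) / (1 + n / (2 * ((j : ℝ) + m + 2) + n)) := by
    intro m
    push_cast
    have h1 : (0 : ℝ) < 2 * ((j : ℝ) + m + 2) + n := by positivity
    field_simp
    ring
  -- case 1
  have case1 : ∀ m : ℕ, p0 ≤ P m → ((((j + m : ℕ) : ℝ) + 2) / (((j + m : ℕ) : ℝ) + 2 + n)) ^ (h + 1) ≤ σ := by
    intro m hm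
    rw [hP] at hm
    simp only at hm
    have hT : (0 : ℝ) < 2 * ((j : ℝ) + m + 2) + n := by positivity
    obtain ⟨q, hq⟩ : ∃ q : ℝ, q = n / (2 * ((j : ℝ) + m + 2) + n) := ⟨_, rfl⟩
    have hq0 : 0 < q := by rw [hq]; positivity
    have hq1 : q < 1 := by
      rw [hq, div_lt_one hT]
      have : (0 : ℝ) ≤ m := Nat.cast_nonneg m
      linarith
    rw [hw, ← hq]
    have h1 := le_artanh q hq0.le hq1
    have h2 : Real.log ((1 - q) / (1 + q)) ≤ -(2 * q) := by
      rw [Real.log_div (by linarith) (by linarith)]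
      linarith
    have h3 : (1 - q) / (1 + q) ≤ Real.exp (-(2 * q)) := by
      rw [← Real.log_le_iff_le_exp (div_pos (by linarith) (by linarith))]
      exact h2
    have h4 : ((1 - q) / (1 + q)) ^ (h + 1) ≤ Real.exp (-(2 * q)) ^ (h + 1) :=
      pow_le_pow_left₀ (div_nonneg (by linarith) (by linarith)) h3 _
    refine h4.trans (le_trans ?_ hs)
    rw [← Real.exp_nat_mul]
    apply Real.exp_le_exp.2
    push_cast
    have h5 : p0 * n / B ≤ q := by
      rw [hq, div_le_div_iff₀ hB0 hT]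
      rw [le_div_iff₀ hT] at hm
      nlinarith
    have h6 : 2 * ((h : ℝ) + 1) * p0 * n / B = 2 * (h + 1) * (p0 * n / B) := by ring
    rw [h6]
    nlinarith
  -- case 2
  have case2 : ∀ m : ℕ, P m < p0 → (((j + m : ℕ) : ℝ) + n + 3 + j) / (((j + m : ℕ) : ℝ) + 1 - j) *
      ((((j + m : ℕ) : ℝ) + 2) / (((j + m : ℕ) : ℝ) + 2 + n)) ^ (h + 1) ≤ 1 := by
    intro m hm
    have hT : (0 : ℝ) < 2 * ((j : ℝ) + m + 2) + n := by positivity
    obtain ⟨q, hq⟩ : ∃ q : ℝ, q = n / (2 * ((j : ℝ) + m + 2) + n) := ⟨_, rfl⟩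
    have hq0 : 0 < q := by rw [hq]; positivity
    have hq1 : q < 1 := by
      rw [hq, div_lt_one hT]
      have : (0 : ℝ) ≤ m := Nat.cast_nonneg m
      linarith
    obtain ⟨p, hp⟩ : ∃ p : ℝ, p = P m := ⟨_, rfl⟩
    rw [← hp] at hm
    have hp' : p = (B : ℝ) / (2 * ((j : ℝ) + m + 2) + n) := by rw [hp, hP]
    have hpp : 0 < p := by rw [hp']; positivity
    rw [hquot, hw, ← hq]
    have e1 : ((B : ℝ) + (m + 1)) / (m + 1) = (1 + p) / (1 - p) := by
      have h1 : (1 - p) ≠ 0 := by linarith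
      rw [div_eq_div_iff (by positivity) h1, hp', hBr]
      field_simp
      ring
    rw [e1]
    have h1 := le_artanh q hq0.le hq1
    have h2 := artanh_le p p0 hpp.le hm.le hp0 hp1
    have h3 : p / p0 * (Real.log (1 + p0) - Real.log (1 - p0)) ≤ ((h : ℝ) + 1) * (2 * q) := by
      have h4 : p / p0 * (Real.log (1 + p0) - Real.log (1 - p0)) =
          ((Real.log (1 + p0) - Real.log (1 - p0)) / p0 * B) / (2 * ((j : ℝ) + m + 2) + n) := by
        rw [hp']; ring
      have h5 : ((h : ℝ) + 1) * (2 * q) = (2 * ((h : ℝ) + 1) * n) / (2 * ((j : ℝ) + m + 2) + n) := by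
        rw [hq]; ring
      rw [h4, h5]
      exact div_le_div_of_nonneg_right hc hT.le
    have h4 : ((h : ℝ) + 1) * (2 * q) ≤ ((h : ℝ) + 1) * (Real.log (1 + q) - Real.log (1 - q)) :=
      mul_le_mul_of_nonneg_left h1 (by positivity)
    have hx : 0 < (1 + p) / (1 - p) * ((1 - q) / (1 + q)) ^ (h + 1) := by
      apply mul_pos (div_pos (by linarith) (by linarith))
      exact pow_pos (div_pos (by linarith) (by linarith)) _
    rw [← Real.log_nonpos_iff hx.le, Real.log_mul (div_pos (by linarith) (by linarith)).ne'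
      (pow_pos (div_pos (by linarith) (by linarith)) _).ne', Real.log_pow, Real.log_div (by linarith) (by linarith),
      Real.log_div (by linarith) (by linarith)]
    push_cast
    nlinarith
  -- `P` is decreasing
  have hPmono : ∀ m : ℕ, P (m + 1) ≤ P m := by
    intro m
    rw [hP]
    simp only
    apply div_le_div_of_nonneg_left hB0.le (by positivity)
    push_cast
    linarith
  -- the first range
  have claimA : ∀ m : ℕ, (m = 0 ∨ p0 ≤ P (m - 1)) → zt n h j (j + m) ≤ zt n h j j * (((m + B).choose B : ℝ) * σ ^ m) := by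
    intro m
    induction m with
    | zero => intro _; simp
    | succ m ih =>
      intro hm
      have hm' : p0 ≤ P m := by
        rcases hm with hm | hm
        · omega
        · simpa using hm
      have ih' := ih (by
        rcases Nat.eq_zero_or_pos m with h0 | h0
        · exact Or.inl h0
        · right
          obtain ⟨l, rfl⟩ : ∃ l, m = l + 1 := ⟨m - 1, by omega⟩
          simpa using hm'.trans (hPmono l))
      have h1 := zt_succ n h j (j + m) (by omega) hn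
      have h2 := case1 m hm'
      rw [hquot] at h1
      have hzp := zt_pos n h j (j + m) hn (by omega)
      rw [show j + (m + 1) = j + m + 1 by ring]
      have hch : (((m + 1) + B).choose B : ℝ) * (m + 1) = ((m + B).choose B : ℝ) * ((B : ℝ) + (m + 1)) := by
        have h3 := Nat.add_one_mul_choose_eq (m + B) m
        -- (m+B+1) * C(m+B, m) = C(m+B+1, m+1) * (m+1)
        have e1 : (m + B).choose m = (m + B).choose B := by
          rw [← Nat.choose_symm (by omega : m ≤ m + B)]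
          congr 1
          omega
        have e2 : (m + B).succ.choose m.succ = (m + 1 + B).choose B := by
          have : (m + B).succ = m + 1 + B := by omega
          rw [this, ← Nat.choose_symm (by omega : m.succ ≤ m + 1 + B)]
          congr 1
          omega
        rw [e1, e2] at h3
        have h4 : (((m + B).succ * (m + B).choose B : ℕ) : ℝ) = (((m + 1 + B).choose B * m.succ : ℕ) : ℝ) := by
          exact_mod_cast h3
        push_cast at h4
        linarith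
      calc zt n h j (j + m + 1) ≤ zt n h j (j + m) * (((B : ℝ) + (m + 1)) / (m + 1) *
            ((((j + m : ℕ) : ℝ) + 2) / (((j + m : ℕ) : ℝ) + 2 + n)) ^ (h + 1)) := h1
        _ ≤ (zt n h j j * (((m + B).choose B : ℝ) * σ ^ m)) * (((B : ℝ) + (m + 1)) / (m + 1) * σ) := by
            apply mul_le_mul ih' _ (by positivity) (by positivity)
            exact mul_le_mul_of_nonneg_left h2 (by positivity)
        _ = zt n h j j * ((((m + B).choose B : ℝ) * ((B : ℝ) + (m + 1))) / (m + 1) * (σ ^ m * σ)) := by ring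
        _ = zt n h j j * ((((m + 1) + B).choose B : ℝ) * σ ^ (m + 1)) := by
            rw [← hch, pow_succ]
            field_simp
  -- the whole range
  induction m with
  | zero =>
    have h1 : (1 : ℝ) ≤ 1 / (1 - σ) ^ (B + 1) := by
      have := hbin 0
      simpa using this
    rw [add_zero]
    nlinarith
  | succ m ih =>
    rcases le_or_gt p0 (P m) with hm | hm
    · exact (claimA (m + 1) (Or.inr (by simpa using hm))).trans (mul_le_mul_of_nonneg_left (hbin (m + 1)) hz0.le)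
    · have h1 := zt_succ n h j (j + m) (by omega) hn
      have h2 := case2 m hm
      have hzp := zt_pos n h j (j + m) hn (by omega)
      rw [show j + (m + 1) = j + m + 1 by ring]
      have h3 : zt n h j (j + m + 1) ≤ zt n h j (j + m) := by
        refine h1.trans ?_
        exact mul_le_of_le_one_right hzp.le h2
      exact h3.trans ih

end JB

end

end Pool.Agent.P8H2
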