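import Pool.Agent.P8H2.TC
import Pool.Agent.P8H2.T2A
import Pool.Agent.P8H2.T2B

/-!
# The real determinant, sharper form: the last rows
-/

open Polynomial Pool.Agent.H337R2 Pool.Agent.W165.OZ Filter Topology

namespace Pool.Agent.P8H2

noncomputable section

namespace JB

/-- from a bound of the terms to a bound of the square norm -/
lemma row_gen (n h A : ℕ) (hn2 : 2 ≤ n) (he : Even n) (hh : 1 ≤ h) (Q : ℝ[X])
    (hdeg : 2 * Q.natDegree + 2 ≤ h * n) (B : ℝ) (hB : 0 ≤ B) (hz : ∀ u < A, Q.eval (yu n u) = 0)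
    (hterm : ∀ u, A ≤ u → Ru n h u * (Q.eval (yu n u)) ^ 2 ≤
      B * ((2 * ((u : ℝ) + 2) + (n - 1)) / yu n u ^ 2)) :
    Lf (mu n h) (Q * Q) ≤ CC * B := by
  have hdeg' : (Q * Q).natDegree + 2 ≤ h * n := by
    have := Polynomial.natDegree_mul_le (p := Q) (q := Q)
    omega
  have hs := Lf_hasSum n h hn2 he hh (Q * Q) hdeg'
  have h1 := CC_summable.hasSum.mul_right B
  refine hasSum_le ?_ hs h1
  intro u
  rw [Polynomial.eval_mul, ← pow_two]
  by_cases hu : A ≤ u
  · refine (hterm u hu).trans ?_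
    rw [mul_comm]
    exact mul_le_mul_of_nonneg_right (wt_le n u (by omega)) hB
  · rw [not_le] at hu
    rw [hz u hu]
    have : 0 ≤ 2 / ((u : ℝ) + 1) ^ 2 * B := by positivity
    simpa using this

/-- the constant of a row of the block -/
def rh (i α β : ℕ) : ℝ :=
  ((2 * i + α + β).choose i : ℝ) / ((2 * i + α + β).choose (i + α) : ℝ) / ((i + α).choose i : ℝ) ^ 2

lemma rh_pos (i α β : ℕ) : 0 < rh i α β := by
  unfold rh
  have h1 : (0 : ℝ) < ((2 * i + α + β).choose i : ℝ) := by exact_mod_cast Nat.choose_pos (by omega)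
  have h2 : (0 : ℝ) < ((2 * i + α + β).choose (i + α) : ℝ) := by exact_mod_cast Nat.choose_pos (by omega)
  have h3 : (0 : ℝ) < ((i + α).choose i : ℝ) := by exact_mod_cast Nat.choose_pos (by omega)
  positivity

/-- a row of the block -/
lemma row_blk (n h A M β i : ℕ) (hn2 : 2 ≤ n) (he : Even n) (hh : 1 ≤ h) (hAM : 2 * (A + M) = h * n) (hi : i < M)
    (hA : 1 ≤ A) (μ : ℝ) (hμ : 0 < μ)
    (h2 : μ * ∑ v ∈ Finset.range A, yu n v ≤ ∑ v ∈ Finset.range A, yu n v ^ 2)
    (h1 : (β : ℝ) * μ ≤ 2 * ∑ v ∈ Finset.range A, yu n v) :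
    Lf (mu n h) ((Qn n A * Jp i (2 * (M - 1 - i)) β μ) * (Qn n A * Jp i (2 * (M - 1 - i)) β μ)) ≤
      CC * ((μ⁻¹) ^ (2 * (M - 1 - i)) * rh i (2 * (M - 1 - i)) β) := by
  obtain ⟨α, hα⟩ : ∃ α, 2 * (M - 1 - i) = α := ⟨_, rfl⟩
  rw [hα]
  have hrh := rh_pos i α β
  obtain ⟨hm, hd⟩ := Jp_monic i α β μ
  -- `μ` is smaller than the nodes
  have hμA : μ < yu n A := by
    have h3 : ∀ v ∈ Finset.range A, yu n v ^ 2 ≤ yu n A * yu n v := by
      intro v hv
      rw [Finset.mem_range] at hv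
      have := yu_strictMono n (by omega) hv
      have h0 := yu_pos n v
      nlinarith
    have h4 := Finset.sum_le_sum h3
    rw [← Finset.mul_sum] at h4
    have h5 : 0 < ∑ v ∈ Finset.range A, yu n v := by
      apply Finset.sum_pos (fun v _ => yu_pos n v)
      exact ⟨0, Finset.mem_range.2 (by omega)⟩
    have h6 : ∑ v ∈ Finset.range A, yu n v ^ 2 < yu n A * ∑ v ∈ Finset.range A, yu n v := by
      rw [Finset.mul_sum]
      apply Finset.sum_lt_sum_of_nonempty ⟨0, Finset.mem_range.2 (by omega)⟩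
      intro v hv
      rw [Finset.mem_range] at hv
      have := yu_strictMono n (by omega) hv
      have h0 := yu_pos n v
      nlinarith
    exact lt_of_mul_lt_mul_right (h2.trans_lt h6) h5.le
  apply row_gen n h A hn2 he hh
  · rw [(Qn_monic n A).natDegree_mul hm, hd, Qn_natDegree]
    omega
  · positivity
  · intro u hu
    rw [eval_mul, Qn_eval, Finset.prod_eq_zero (Finset.mem_range.2 hu) (sub_self _), zero_mul]
  · intro u hu
    have hy : yu n A ≤ yu n u := by
      rcases hu.eq_or_lt with h3 | h3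
      · rw [h3]
      · exact (yu_strictMono n (by omega) h3).le
    have hy0 := yu_pos n u
    have hR := Ru_le n h u (by omega)
    have hn1 : (1 : ℝ) ≤ n := by
      have : 1 ≤ n := by omega
      exact_mod_cast this
    have hu0 : (0 : ℝ) ≤ u := Nat.cast_nonneg u
    have hw : 0 ≤ 2 * ((u : ℝ) + 2) + (n - 1) := by linarith
    obtain ⟨y, hyy⟩ : ∃ y, yu n u = y := ⟨_, rfl⟩
    have hprod := prod_sq_le A β (yu n) y μ (fun v _ => (yu_pos n v).le)
      (fun v hv => by
        rw [← hyy]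
        exact (yu_strictMono n (by omega) hv).trans_le hy) hμ (by rw [← hyy]; exact hμA.trans_le hy) h2 h1
    rw [eval_mul, Qn_eval]
    rw [hyy] at hy hy0 hR ⊢
    have hμy : μ < y := hμA.trans_le hy
    have hJ := Jp_bound i α β μ y hμ.le hμy.le hy0
    change _ ≤ y ^ (2 * i) * rh i α β at hJ
    obtain ⟨E, hE⟩ : ∃ E, (Jp i α β μ).eval y = E := ⟨_, rfl⟩
    rw [hE] at hJ ⊢
    obtain ⟨P, hP⟩ : ∃ P, ∏ v ∈ Finset.range A, (y - yu n v) = P := ⟨_, rfl⟩
    rw [hP] at hprod ⊢
    have hq : 0 < 1 - μ / y := by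
      have : μ / y < 1 := by rwa [div_lt_one hy0]
      linarith
    have hN : h * n = (2 * A + 2 * i + α) + 2 := by omega
    have h3 : (1 - μ / y) ^ β * E ^ 2 ≤ y ^ (2 * i + α) * (μ⁻¹) ^ α * rh i α β := by
      have h4 : (1 - μ / y) ^ β * E ^ 2 = (y / μ) ^ α * ((μ / y) ^ α * (1 - μ / y) ^ β * E ^ 2) := by
        have : (y / μ) ^ α * (μ / y) ^ α = 1 := by
          rw [← mul_pow]
          have : y / μ * (μ / y) = 1 := by field_simp
          rw [this, one_pow]
        calc (1 - μ / y) ^ β * E ^ 2 = ((y / μ) ^ α * (μ / y) ^ α) * ((1 - μ / y) ^ β * E ^ 2) := by rw [this, one_mul]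
          _ = _ := by ring
      rw [h4]
      refine (mul_le_mul_of_nonneg_left hJ (by positivity)).trans (le_of_eq ?_)
      rw [div_pow, pow_add, inv_pow]
      field_simp
    calc Ru n h u * (P * E) ^ 2
        ≤ ((2 * ((u : ℝ) + 2) + (n - 1)) / y ^ (h * n)) * (P * E) ^ 2 :=
          mul_le_mul_of_nonneg_right hR (by positivity)
      _ ≤ ((2 * ((u : ℝ) + 2) + (n - 1)) / y ^ (h * n)) * (y ^ (2 * A) * (y ^ (2 * i + α) * (μ⁻¹) ^ α * rh i α β)) := by
          apply mul_le_mul_of_nonneg_left _ (by positivity)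
          rw [mul_pow]
          calc P ^ 2 * E ^ 2 ≤ (y ^ (2 * A) * (1 - μ / y) ^ β) * E ^ 2 := mul_le_mul_of_nonneg_right hprod (by positivity)
            _ = y ^ (2 * A) * ((1 - μ / y) ^ β * E ^ 2) := by ring
            _ ≤ _ := mul_le_mul_of_nonneg_left h3 (by positivity)
      _ = (μ⁻¹) ^ α * rh i α β * ((2 * ((u : ℝ) + 2) + (n - 1)) / y ^ 2) := by
          rw [hN, pow_add, pow_add, pow_add, pow_add]
          field_simp

/-- the family of test polynomials -/
def Qf (n A M β : ℕ) (μ : ℝ) (j : ℕ) : ℝ[X] :=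
  if j < A then Qn n j else Qn n A * Jp (j - A) (2 * (M - 1 - (j - A))) β μ

lemma Qf_monic (n A M β : ℕ) (μ : ℝ) (j : ℕ) : (Qf n A M β μ j).Monic ∧ (Qf n A M β μ j).natDegree = j := by
  unfold Qf
  split_ifs with hj
  · exact ⟨Qn_monic n j, Qn_natDegree n j⟩
  · obtain ⟨hm, hd⟩ := Jp_monic (j - A) (2 * (M - 1 - (j - A))) β μ
    refine ⟨(Qn_monic n A).mul hm, ?_⟩
    rw [(Qn_monic n A).natDegree_mul hm, hd, Qn_natDegree]
    omega

/-- the determinant is bounded by the first rows and the block -/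
theorem DH_le (n h A M β : ℕ) (hn2 : 2 ≤ n) (he : Even n) (hh : 1 ≤ h) (hAM : 2 * (A + M) = h * n)
    (hA : 1 ≤ A) (μ : ℝ) (hμ : 0 < μ)
    (h2 : μ * ∑ v ∈ Finset.range A, yu n v ≤ ∑ v ∈ Finset.range A, yu n v ^ 2)
    (h1 : (β : ℝ) * μ ≤ 2 * ∑ v ∈ Finset.range A, yu n v)
    (b : ℕ → ℝ) (hb : ∀ j < A, Lf (mu n h) (Qn n j * Qn n j) ≤ Real.exp (b j)) :
    0 < DH (mu n h) (A + M) ∧ Real.log (DH (mu n h) (A + M)) ≤ ∑ j ∈ Finset.range A, b j +
      ∑ i ∈ Finset.range M, (Real.log CC - (2 * (M - 1 - i) : ℕ) * Real.log μ + Real.log (rh i (2 * (M - 1 - i)) β)) := by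
  obtain ⟨t1, t2⟩ := T0 n h hn2 he hh (A + M) (by omega) (Qf n A M β μ) (fun j => (Qf_monic n A M β μ j).1)
    (fun j => (Qf_monic n A M β μ j).2)
  refine ⟨t1, ?_⟩
  have hCC : 0 < CC := CC_pos
  have h3 : ∏ j ∈ Finset.range (A + M), Lf (mu n h) (Qf n A M β μ j * Qf n A M β μ j) ≤
      (∏ j ∈ Finset.range A, Real.exp (b j)) *
        ∏ i ∈ Finset.range M, (CC * ((μ⁻¹) ^ (2 * (M - 1 - i)) * rh i (2 * (M - 1 - i)) β)) := by
    have hnn : ∀ j < A + M, 0 ≤ Lf (mu n h) (Qf n A M β μ j * Qf n A M β μ j) := by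
      intro j hj
      have hdeg : (Qf n A M β μ j * Qf n A M β μ j).natDegree + 2 ≤ h * n := by
        have := Polynomial.natDegree_mul_le (p := Qf n A M β μ j) (q := Qf n A M β μ j)
        rw [(Qf_monic n A M β μ j).2] at this
        omega
      have hs := Lf_hasSum n h hn2 he hh _ hdeg
      rw [← hs.tsum_eq]
      apply tsum_nonneg
      intro u
      rw [Polynomial.eval_mul]
      exact mul_nonneg (Ru_pos n h u (by omega)).le (mul_self_nonneg _)
    rw [Finset.prod_range_add]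
    apply mul_le_mul
    · apply Finset.prod_le_prod
      · intro j hj
        rw [Finset.mem_range] at hj
        exact hnn j (by omega)
      · intro j hj
        rw [Finset.mem_range] at hj
        have : Qf n A M β μ j = Qn n j := by unfold Qf; rw [if_pos hj]
        rw [this]
        exact hb j hj
    · apply Finset.prod_le_prod
      · intro i hi
        rw [Finset.mem_range] at hi
        exact hnn (A + i) (by omega)
      · intro i hi
        rw [Finset.mem_range] at hi
        have : Qf n A M β μ (A + i) = Qn n A * Jp i (2 * (M - 1 - i)) β μ := by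
          unfold Qf
          rw [if_neg (by omega), Nat.add_sub_cancel_left]
        rw [this]
        exact row_blk n h A M β i hn2 he hh hAM hi hA μ hμ h2 h1
    · apply Finset.prod_nonneg
      intro i hi
      rw [Finset.mem_range] at hi
      exact hnn (A + i) (by omega)
    · apply Finset.prod_nonneg
      intro j _
      positivity
  have hpos2 : ∀ i ∈ Finset.range M, 0 < CC * ((μ⁻¹) ^ (2 * (M - 1 - i)) * rh i (2 * (M - 1 - i)) β) := by
    intro i _
    have := rh_pos i (2 * (M - 1 - i)) β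
    positivity
  have h4 := Real.log_le_log t1 (t2.trans h3)
  rw [Real.log_mul (Finset.prod_pos fun j _ => Real.exp_pos _).ne' (Finset.prod_pos hpos2).ne',
    Real.log_prod (fun j _ => (Real.exp_pos _).ne'), Real.log_prod (fun i hi => (hpos2 i hi).ne')] at h4
  refine h4.trans (le_of_eq ?_)
  congr 1
  · exact Finset.sum_congr rfl fun j _ => Real.log_exp _
  · refine Finset.sum_congr rfl fun i _ => ?_
    have := rh_pos i (2 * (M - 1 - i)) β
    rw [Real.log_mul hCC.ne' (by positivity), Real.log_mul (by positivity) this.ne', Real.log_pow, Real.log_inv]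
    ring

end JB

end

end Pool.Agent.P8H2
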