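import Pool.Agent.P8H2.T2C
import Pool.Agent.P8H2.T2D
import Pool.Agent.P8H2.KE

/-!
# The real determinant, sharper form: summation
-/

open Polynomial Pool.Agent.H337R2 Pool.Agent.W165.OZ Filter Topology

namespace Pool.Agent.P8H2

noncomputable section

namespace JB

open KR (SF SF_le le_SF)

/-- logarithm of the factorial -/
def LF (m : ℕ) : ℝ := Real.log (m.factorial : ℕ)

lemma LF_nonneg (m : ℕ) : 0 ≤ LF m := Real.log_nonneg (by exact_mod_cast Nat.succ_le_of_lt m.factorial_pos)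

lemma LF_mono {a b : ℕ} (h : a ≤ b) : LF a ≤ LF b :=
  Real.log_le_log (by exact_mod_cast a.factorial_pos) (by exact_mod_cast Nat.factorial_le h)

lemma zt_self_le (n h j : ℕ) (hn : 1 ≤ n) :
    Real.log (zt n h j j) ≤ Real.log 2 + LF (2 * j + n + 2) + ((h : ℝ) + 1) * (LF (j + 1) - LF (j + n + 1)) := by
  have hn1 : (1 : ℝ) ≤ n := by exact_mod_cast hn
  have f1 : ∏ v ∈ Finset.range j, ((j : ℝ) - v) = (j.factorial : ℝ) := by
    rw [← Finset.prod_range_reflect, ← Finset.prod_range_add_one_eq_factorial]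
    push_cast
    refine Finset.prod_congr rfl fun v hv => ?_
    rw [Finset.mem_range] at hv
    rw [Nat.cast_sub (by omega), Nat.cast_sub (by omega)]
    push_cast
    ring
  have f2 : ∀ m c : ℕ, (∏ v ∈ Finset.range m, ((v : ℝ) + 1 + c)) * (c.factorial : ℝ) = ((c + m).factorial : ℝ) := by
    intro m c
    induction m with
    | zero => simp
    | succ m ih =>
      rw [Finset.prod_range_succ, ← Nat.add_assoc, Nat.factorial_succ]
      push_cast
      rw [← ih]
      ring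
  have f3 := f2 j (j + n + 2)
  have f4 := f2 n (j + 1)
  have g3 : ∏ v ∈ Finset.range j, ((j : ℝ) + v + n + 3) = ∏ v ∈ Finset.range j, ((v : ℝ) + 1 + ((j + n + 2 : ℕ) : ℝ)) := by
    refine Finset.prod_congr rfl fun v _ => ?_
    push_cast; ring
  have g4 : ∏ k ∈ Finset.range n, ((j : ℝ) + 2 + k) = ∏ v ∈ Finset.range n, ((v : ℝ) + 1 + ((j + 1 : ℕ) : ℝ)) := by
    refine Finset.prod_congr rfl fun v _ => ?_
    push_cast; ring
  have hP : ∏ v ∈ Finset.range j, (yu n j - yu n v) =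
      (∏ v ∈ Finset.range j, ((j : ℝ) - v)) * ∏ v ∈ Finset.range j, ((j : ℝ) + v + n + 3) := by
    rw [← Finset.prod_mul_distrib]
    exact Finset.prod_congr rfl fun v _ => yu_sub n j v
  have k1 : (0 : ℝ) < (j.factorial : ℝ) := by exact_mod_cast j.factorial_pos
  have k2 : (0 : ℝ) < ((j + n + 2).factorial : ℝ) := by exact_mod_cast Nat.factorial_pos _
  have k3 : (0 : ℝ) < ((j + 1).factorial : ℝ) := by exact_mod_cast Nat.factorial_pos _
  have k4 : (0 : ℝ) < ((2 * j + n + 2).factorial : ℝ) := by exact_mod_cast Nat.factorial_pos _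
  have k5 : (0 : ℝ) < ((j + n + 1).factorial : ℝ) := by exact_mod_cast Nat.factorial_pos _
  have e3 : ∏ v ∈ Finset.range j, ((j : ℝ) + v + n + 3) = ((2 * j + n + 2).factorial : ℝ) / ((j + n + 2).factorial : ℝ) := by
    rw [g3, eq_div_iff k2.ne', f3]
    congr 2
    omega
  have e4 : ∏ k ∈ Finset.range n, ((j : ℝ) + 2 + k) = ((j + n + 1).factorial : ℝ) / ((j + 1).factorial : ℝ) := by
    rw [g4, eq_div_iff k3.ne', f4]
    congr 2
    omega
  have e5 : zt n h j j ≤ 2 * ((2 * j + n + 2).factorial : ℝ) * (((j + 1).factorial : ℝ) / ((j + n + 1).factorial : ℝ)) ^ (h + 1) := by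
    unfold zt
    rw [hP, f1, e3, e4, yu_eq]
    have e6 : ((j + n + 2).factorial : ℝ) = ((j : ℝ) + n + 2) * ((j + n + 1).factorial : ℝ) := by
      rw [show j + n + 2 = (j + n + 1) + 1 by ring, Nat.factorial_succ]; push_cast; ring
    have e7 : ((j + 1).factorial : ℝ) = ((j : ℝ) + 1) * (j.factorial : ℝ) := by
      rw [Nat.factorial_succ]; push_cast; ring
    have e8 : ((j : ℝ) + 2) * ((j : ℝ) + n + 1) * ((j.factorial : ℝ) * (((2 * j + n + 2).factorial : ℝ) / ((j + n + 2).factorial : ℝ))) ≤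
        2 * ((2 * j + n + 2).factorial : ℝ) * (((j + 1).factorial : ℝ) / ((j + n + 1).factorial : ℝ)) := by
      rw [e6, e7]
      have h1 : ((j : ℝ) + 2) * ((j : ℝ) + n + 1) * ((j.factorial : ℝ) * (((2 * j + n + 2).factorial : ℝ) / (((j : ℝ) + n + 2) * ((j + n + 1).factorial : ℝ)))) =
        (((j : ℝ) + 2) * ((j : ℝ) + n + 1) / ((j : ℝ) + n + 2)) * ((j.factorial : ℝ) * ((2 * j + n + 2).factorial : ℝ) / ((j + n + 1).factorial : ℝ)) := by
        field_simp
      have h2 : 2 * ((2 * j + n + 2).factorial : ℝ) * ((((j : ℝ) + 1) * (j.factorial : ℝ)) / ((j + n + 1).factorial : ℝ)) =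
        (2 * ((j : ℝ) + 1)) * ((j.factorial : ℝ) * ((2 * j + n + 2).factorial : ℝ) / ((j + n + 1).factorial : ℝ)) := by
        ring
      rw [h1, h2]
      apply mul_le_mul_of_nonneg_right _ (by positivity)
      rw [div_le_iff₀ (by positivity)]
      have hj0 : (0 : ℝ) ≤ j := Nat.cast_nonneg j
      nlinarith [mul_nonneg hj0 hj0, mul_nonneg hj0 (by linarith : (0 : ℝ) ≤ n)]
    rw [div_pow]
    calc ((j : ℝ) + 2) * ((j : ℝ) + n + 1) * ((j.factorial : ℝ) * (((2 * j + n + 2).factorial : ℝ) / ((j + n + 2).factorial : ℝ))) /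
          (((j + n + 1).factorial : ℝ) ^ h / ((j + 1).factorial : ℝ) ^ h)
        ≤ (2 * ((2 * j + n + 2).factorial : ℝ) * (((j + 1).factorial : ℝ) / ((j + n + 1).factorial : ℝ))) /
          (((j + n + 1).factorial : ℝ) ^ h / ((j + 1).factorial : ℝ) ^ h) :=
          div_le_div_of_nonneg_right e8 (by positivity)
      _ = 2 * ((2 * j + n + 2).factorial : ℝ) * (((j + 1).factorial : ℝ) / ((j + n + 1).factorial : ℝ)) ^ (h + 1) := by
          rw [div_pow, pow_succ, pow_succ]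
          field_simp
  have hz := zt_pos n h j j hn le_rfl
  have h9 := Real.log_le_log hz e5
  rw [Real.log_mul (by positivity) (by positivity), Real.log_mul (by norm_num) k4.ne', Real.log_pow,
    Real.log_div k3.ne' k5.ne'] at h9
  unfold LF
  push_cast at h9 ⊢
  exact h9

/-- the bound of a first row -/
lemma row_first (n h j : ℕ) (hn2 : 2 ≤ n) (he : Even n) (hh : 1 ≤ h) (hj : 2 * j + 2 ≤ h * n) (p0 σ : ℝ)
    (hp0 : 0 < p0) (hp1 : p0 < 1) (hσ0 : 0 < σ) (hσ1 : σ < 1)
    (hc : (Real.log (1 + p0) - Real.log (1 - p0)) / p0 * (2 * (j : ℝ) + n + 2) ≤ 2 * ((h : ℝ) + 1) * n)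
    (hs : Real.exp (-(2 * ((h : ℝ) + 1) * p0 * n / (2 * (j : ℝ) + n + 2))) ≤ σ) :
    Lf (mu n h) (Qn n j * Qn n j) ≤ Real.exp (Real.log CC + 2 * (Real.log 2 + LF (2 * j + n + 2) +
      ((h : ℝ) + 1) * (LF (j + 1) - LF (j + n + 1))) - 2 * (2 * (j : ℝ) + n + 3) * Real.log (1 - σ)) := by
  obtain ⟨W, hW⟩ : ∃ W, W = zt n h j j * (1 / (1 - σ) ^ (2 * j + n + 2 + 1)) := ⟨_, rfl⟩
  have hz := zt_pos n h j j (by omega) le_rfl
  have h1σ : 0 < 1 - σ := by linarith
  have hWpos : 0 < W := by rw [hW]; positivity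
  have h1 := row_of_terms n h j hn2 he hh hj (W ^ 2) (by positivity) (by
    intro u hu
    obtain ⟨m, rfl⟩ : ∃ m, u = j + m := ⟨u - j, by omega⟩
    have h2 := zt_le n h j (by omega) p0 σ hp0 hp1 hσ0 hσ1 hc hs m
    rw [← hW] at h2
    have h3 := zt_pos n h j (j + m) (by omega) (by omega)
    have h4 : Ru n h (j + m) * (∏ v ∈ Finset.range j, (yu n (j + m) - yu n v)) ^ 2 =
        zt n h j (j + m) ^ 2 * ((2 * (((j + m : ℕ) : ℝ) + 2) + (n - 1)) / yu n (j + m) ^ 2) := by
      have h5 := (yu_pos n (j + m)).ne'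
      have h6 : (∏ k ∈ Finset.range n, (((j + m : ℕ) : ℝ) + 2 + k)) ≠ 0 :=
        (Finset.prod_pos fun k _ => by positivity).ne'
      unfold zt Ru Rv
      obtain ⟨D, hD⟩ : ∃ D, (∏ k ∈ Finset.range n, (((j + m : ℕ) : ℝ) + 2 + k)) = D := ⟨_, rfl⟩
      rw [hD] at h6 ⊢
      obtain ⟨E, hE⟩ : ∃ E, (∏ v ∈ Finset.range j, (yu n (j + m) - yu n v)) = E := ⟨_, rfl⟩
      rw [hE]
      rw [show 2 * h = h + h by ring, pow_add]
      field_simp
    rw [h4]
    apply mul_le_mul_of_nonneg_right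
    · exact pow_le_pow_left₀ h3.le h2 2
    · apply div_nonneg _ (sq_nonneg _)
      have : (0 : ℝ) ≤ ((j + m : ℕ) : ℝ) := Nat.cast_nonneg _
      have hn1 : (1 : ℝ) ≤ n := by
        have : 1 ≤ n := by omega
        exact_mod_cast this
      linarith)
  refine h1.trans ?_
  rw [← Real.log_le_iff_le_exp (by have := CC_pos; positivity), Real.log_mul CC_pos.ne' (by positivity), Real.log_pow, hW,
    Real.log_mul hz.ne' (by positivity), Real.log_div one_ne_zero (by positivity), Real.log_one, Real.log_pow]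
  have h7 := zt_self_le n h j (by omega)
  push_cast
  nlinarith

lemma rh_log (M β i : ℕ) (hi : i < M) : Real.log (rh i (2 * (M - 1 - i)) β) =
    LF i + LF (i + β) + 2 * LF (2 * (M - 1 - i)) - LF (M - 1 + (M - 1 - i)) - LF (M - 1 + β + (M - 1 - i)) := by
  obtain ⟨α, hα⟩ : ∃ α, 2 * (M - 1 - i) = α := ⟨_, rfl⟩
  have e1 : M - 1 + (M - 1 - i) = i + α := by omega
  have e2 : M - 1 + β + (M - 1 - i) = i + α + β := by omega
  rw [e1, e2, hα]
  have c1 : ((2 * i + α + β).choose i : ℝ) = ((2 * i + α + β).factorial : ℝ) / ((i.factorial : ℝ) * ((i + α + β).factorial : ℝ)) := by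
    rw [Nat.cast_choose ℝ (by omega), show 2 * i + α + β - i = i + α + β by omega]
  have c2 : ((2 * i + α + β).choose (i + α) : ℝ) = ((2 * i + α + β).factorial : ℝ) / (((i + α).factorial : ℝ) * ((i + β).factorial : ℝ)) := by
    rw [Nat.cast_choose ℝ (by omega), show 2 * i + α + β - (i + α) = i + β by omega]
  have c3 : ((i + α).choose i : ℝ) = ((i + α).factorial : ℝ) / ((i.factorial : ℝ) * (α.factorial : ℝ)) := by
    rw [Nat.cast_choose ℝ (by omega), show i + α - i = α by omega]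
  have p : ∀ m : ℕ, (0 : ℝ) < (m.factorial : ℝ) := fun m => by exact_mod_cast m.factorial_pos
  have e : rh i α β = ((i.factorial : ℝ) * ((i + β).factorial : ℝ) * (α.factorial : ℝ) ^ 2) /
      (((i + α).factorial : ℝ) * ((i + α + β).factorial : ℝ)) := by
    unfold rh
    rw [c1, c2, c3]
    have p1 := (p i).ne'
    have p2 := (p α).ne'
    have p3 := (p (i + α)).ne'
    have p4 := (p (i + β)).ne'
    have p5 := (p (i + α + β)).ne'
    have p6 := (p (2 * i + α + β)).ne'
    field_simp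
  rw [e]
  have p1 := p i
  have p2 := p α
  have p3 := p (i + α)
  have p4 := p (i + β)
  have p5 := p (i + α + β)
  rw [Real.log_div (by positivity) (by positivity), Real.log_mul (by positivity) (by positivity),
    Real.log_mul (by positivity) (by positivity), Real.log_mul (by positivity) (by positivity), Real.log_pow]
  unfold LF
  push_cast
  ring

lemma SF_shift (c m : ℕ) : ∑ k ∈ Finset.range m, LF (c + k) = SF (c + m) - SF c := by
  unfold SF LF
  rw [Finset.sum_range_add]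
  ring

lemma SF_succ (m : ℕ) : SF (m + 1) = SF m + LF m := by
  unfold SF LF
  rw [Finset.sum_range_succ]

lemma sum_double (c m : ℕ) : ∑ k ∈ Finset.range m, 2 * LF (c + 2 * k) ≤ SF (c + 2 * m) - SF c := by
  induction m with
  | zero => simp
  | succ m ih =>
    rw [Finset.sum_range_succ, show c + 2 * (m + 1) = (c + 2 * m + 1) + 1 by ring, SF_succ, SF_succ]
    have := LF_mono (show c + 2 * m ≤ c + 2 * m + 1 by omega)
    linarith

/-- the sum over the block -/
lemma sum_rh (M β : ℕ) (hM : 1 ≤ M) : ∑ i ∈ Finset.range M, Real.log (rh i (2 * (M - 1 - i)) β) ≤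
    SF M + (SF (M + β) - SF β) + SF (2 * M) - (SF (2 * M - 1) - SF (M - 1)) - (SF (2 * M - 1 + β) - SF (M - 1 + β)) := by
  have h1 : ∑ i ∈ Finset.range M, Real.log (rh i (2 * (M - 1 - i)) β) =
      ∑ i ∈ Finset.range M, LF (0 + i) + ∑ i ∈ Finset.range M, LF (β + i) +
      ∑ i ∈ Finset.range M, 2 * LF (0 + 2 * (M - 1 - i)) - ∑ i ∈ Finset.range M, LF (M - 1 + (M - 1 - i)) -
      ∑ i ∈ Finset.range M, LF (M - 1 + β + (M - 1 - i)) := by
    rw [← Finset.sum_add_distrib, ← Finset.sum_add_distrib, ← Finset.sum_sub_distrib, ← Finset.sum_sub_distrib]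
    refine Finset.sum_congr rfl fun i hi => ?_
    rw [Finset.mem_range] at hi
    rw [rh_log M β i hi, zero_add, zero_add, add_comm β i]
  rw [h1, Finset.sum_range_reflect (fun k => 2 * LF (0 + 2 * k)) M,
    Finset.sum_range_reflect (fun k => LF (M - 1 + k)) M,
    Finset.sum_range_reflect (fun k => LF (M - 1 + β + k)) M, SF_shift, SF_shift, SF_shift, SF_shift]
  have h2 := sum_double 0 M
  have e1 : M - 1 + M = 2 * M - 1 := by omega
  have e2 : M - 1 + β + M = 2 * M - 1 + β := by omega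
  have e3 : SF 0 = 0 := by simp [SF]
  rw [e1, e2]
  rw [zero_add, e3] at h2
  rw [zero_add, e3, add_comm β M]
  linarith

/-- the determinant in terms of superfactorials -/
theorem DH_sf (n h A M β : ℕ) (hn2 : 2 ≤ n) (he : Even n) (hh : 1 ≤ h) (hAM : 2 * (A + M) = h * n)
    (hA : 1 ≤ A) (hM : 1 ≤ M) (μ : ℝ) (hμ : 0 < μ)
    (h2 : μ * ∑ v ∈ Finset.range A, yu n v ≤ ∑ v ∈ Finset.range A, yu n v ^ 2)
    (h1 : (β : ℝ) * μ ≤ 2 * ∑ v ∈ Finset.range A, yu n v)
    (p0 σ : ℝ) (hp0 : 0 < p0) (hp1 : p0 < 1) (hσ0 : 0 < σ) (hσ1 : σ < 1)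
    (hc : (Real.log (1 + p0) - Real.log (1 - p0)) / p0 * (2 * (A : ℝ) + n) ≤ 2 * ((h : ℝ) + 1) * n)
    (hs : Real.exp (-(2 * ((h : ℝ) + 1) * p0 * n / (2 * (A : ℝ) + n))) ≤ σ) :
    0 < DH (mu n h) (A + M) ∧ Real.log (DH (mu n h) (A + M)) ≤
      ((A : ℝ) + M) * Real.log CC + 2 * A * Real.log 2 + (SF (n + 2 + 2 * A) - SF (n + 2)) +
      2 * ((h : ℝ) + 1) * (SF (A + 1) - (SF (n + 1 + A) - SF (n + 1)))
      - 2 * ((A : ℝ) ^ 2 + (n + 2) * A) * Real.log (1 - σ) - (M : ℝ) * (M - 1) * Real.log μ +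
      (SF M + (SF (M + β) - SF β) + SF (2 * M) - (SF (2 * M - 1) - SF (M - 1)) - (SF (2 * M - 1 + β) - SF (M - 1 + β))) := by
  have hn0 : (0 : ℝ) < n := by
    have : 0 < n := by omega
    exact_mod_cast this
  have hrow : ∀ j < A, Lf (mu n h) (Qn n j * Qn n j) ≤ Real.exp (Real.log CC + 2 * (Real.log 2 + LF (2 * j + n + 2) +
      ((h : ℝ) + 1) * (LF (j + 1) - LF (j + n + 1))) - 2 * (2 * (j : ℝ) + n + 3) * Real.log (1 - σ)) := by
    intro j hj
    have hjA : (j : ℝ) + 1 ≤ A := by exact_mod_cast hj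
    have hj0 : (0 : ℝ) ≤ j := Nat.cast_nonneg j
    apply row_first n h j hn2 he hh (by omega) p0 σ hp0 hp1 hσ0 hσ1
    · refine le_trans ?_ hc
      apply mul_le_mul_of_nonneg_left (by linarith)
      apply div_nonneg _ hp0.le
      have := le_artanh p0 hp0.le hp1
      linarith
    · refine le_trans ?_ hs
      apply Real.exp_le_exp.2
      apply neg_le_neg
      apply div_le_div_of_nonneg_left (by positivity) (by positivity) (by linarith)
  obtain ⟨d1, d2⟩ := DH_le n h A M β hn2 he hh hAM hA μ hμ h2 h1 _ hrow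
  refine ⟨d1, d2.trans ?_⟩
  have s1 : ∑ j ∈ Finset.range A, (Real.log CC + 2 * (Real.log 2 + LF (2 * j + n + 2) +
      ((h : ℝ) + 1) * (LF (j + 1) - LF (j + n + 1))) - 2 * (2 * (j : ℝ) + n + 3) * Real.log (1 - σ)) =
      (A : ℝ) * Real.log CC + 2 * A * Real.log 2 + ∑ j ∈ Finset.range A, 2 * LF (n + 2 + 2 * j) +
      2 * ((h : ℝ) + 1) * (∑ j ∈ Finset.range A, LF (1 + j) - ∑ j ∈ Finset.range A, LF (n + 1 + j))
      - 2 * ((A : ℝ) ^ 2 + (n + 2) * A) * Real.log (1 - σ) := by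
    have a1 : ∀ B : ℕ, ∑ j ∈ Finset.range B, (2 * (j : ℝ) + n + 3) = (B : ℝ) ^ 2 + (n + 2) * B := by
      intro B
      induction B with
      | zero => simp
      | succ B ih => rw [Finset.sum_range_succ, ih]; push_cast; ring
    rw [← a1 A, ← Finset.sum_sub_distrib, Finset.mul_sum, Finset.mul_sum, Finset.sum_mul]
    have a2 : (A : ℝ) * Real.log CC + 2 * A * Real.log 2 = ∑ _j ∈ Finset.range A, (Real.log CC + 2 * Real.log 2) := by
      rw [Finset.sum_const, Finset.card_range, nsmul_eq_mul]; ring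
    rw [a2, ← Finset.sum_add_distrib, ← Finset.sum_add_distrib, ← Finset.sum_sub_distrib]
    refine Finset.sum_congr rfl fun j _ => ?_
    rw [show 2 * j + n + 2 = n + 2 + 2 * j by ring, show j + 1 = 1 + j by ring, show j + n + 1 = n + 1 + j by ring]
    ring
  have s2 : ∑ i ∈ Finset.range M, (Real.log CC - (2 * (M - 1 - i) : ℕ) * Real.log μ + Real.log (rh i (2 * (M - 1 - i)) β)) =
      (M : ℝ) * Real.log CC - (M : ℝ) * (M - 1) * Real.log μ + ∑ i ∈ Finset.range M, Real.log (rh i (2 * (M - 1 - i)) β) := by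
    rw [Finset.sum_add_distrib, Finset.sum_sub_distrib, Finset.sum_const, Finset.card_range, nsmul_eq_mul, ← Finset.sum_mul]
    have a1 : ∑ i ∈ Finset.range M, ((2 * (M - 1 - i) : ℕ) : ℝ) = (M : ℝ) * (M - 1) := by
      rw [Finset.sum_range_reflect (fun k => ((2 * k : ℕ) : ℝ)) M]
      have : ∀ B : ℕ, ∑ k ∈ Finset.range B, ((2 * k : ℕ) : ℝ) = (B : ℝ) * (B - 1) := by
        intro B
        induction B with
        | zero => simp
        | succ B ih => rw [Finset.sum_range_succ, ih]; push_cast; ring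
      exact this M
    rw [a1]
  rw [s1, s2, SF_shift, SF_shift]
  have s3 := sum_double (n + 2) A
  have s4 := sum_rh M β hM
  have e1 : SF 1 = 0 := by simp [SF]
  rw [e1, add_comm 1 A]
  linarith

end JB

end

end Pool.Agent.P8H2
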