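import Pool.Agent.P8H2.T2E

/-!
# The real determinant, sharper form: the rate
-/

open Polynomial Pool.Agent.H337R2 Pool.Agent.W165.OZ Filter Topology

namespace Pool.Agent.P8H2

noncomputable section

namespace JB

open KR (SF SF_le le_SF)

/-- the quadratic part of the superfactorial -/
def Qc (c : ℝ) : ℝ := c ^ 2 / 2 * Real.log c - 3 / 4 * c ^ 2

/-- the error term -/
def EE (K ν : ℕ) : ℝ := K * ν * Real.log (K * ν + 1) + 2 * (K * ν)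

lemma EE_nonneg (K ν : ℕ) : 0 ≤ EE K ν := by
  unfold EE
  have h1 : 0 ≤ Real.log ((K : ℝ) * ν + 1) := Real.log_nonneg (by
    have : (0 : ℝ) ≤ (K : ℝ) * ν := by positivity
    linarith)
  positivity

lemma LF_le (K ν m : ℕ) (hm : m ≤ K * ν) : LF m ≤ EE K ν := by
  have h1 : LF m ≤ m * Real.log (m + 1) := by
    unfold LF
    have h2 : ((m.factorial : ℕ) : ℝ) ≤ ((m : ℝ) + 1) ^ m := by
      have h3 := Nat.factorial_le_pow m
      calc ((m.factorial : ℕ) : ℝ) ≤ ((m ^ m : ℕ) : ℝ) := by exact_mod_cast h3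
        _ = (m : ℝ) ^ m := by push_cast; ring
        _ ≤ ((m : ℝ) + 1) ^ m := pow_le_pow_left₀ (Nat.cast_nonneg m) (by linarith) m
    have h3 := Real.log_le_log (by exact_mod_cast m.factorial_pos) h2
    rwa [Real.log_pow] at h3
  have hmr : (m : ℝ) ≤ (K : ℝ) * ν := by exact_mod_cast hm
  have hm0 : (0 : ℝ) ≤ m := Nat.cast_nonneg m
  have h2 : Real.log ((m : ℝ) + 1) ≤ Real.log ((K : ℝ) * ν + 1) := Real.log_le_log (by linarith) (by linarith)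
  have h3 : 0 ≤ Real.log ((m : ℝ) + 1) := Real.log_nonneg (by linarith)
  unfold EE
  have h4 : (m : ℝ) * Real.log (m + 1) ≤ (K : ℝ) * ν * Real.log ((K : ℝ) * ν + 1) :=
    mul_le_mul hmr h2 h3 (by linarith)
  linarith

lemma SFu (c K ν : ℕ) (hc : c ≤ K) (hc1 : 1 ≤ c) (hν : 1 ≤ ν) :
    SF (c * ν) ≤ Qc c * (ν : ℝ) ^ 2 + (c : ℝ) ^ 2 / 2 * ((ν : ℝ) ^ 2 * Real.log ν) + EE K ν := by
  have h1 := SF_le (c * ν)
  have hcr : (1 : ℝ) ≤ c := by exact_mod_cast hc1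
  have hνr : (1 : ℝ) ≤ ν := by exact_mod_cast hν
  have hmr : ((c * ν : ℕ) : ℝ) ≤ (K : ℝ) * ν := by exact_mod_cast Nat.mul_le_mul_right ν hc
  have hm0 : (0 : ℝ) ≤ ((c * ν : ℕ) : ℝ) := Nat.cast_nonneg _
  have h2 : Real.log (((c * ν : ℕ) : ℝ) + 1) ≤ Real.log ((K : ℝ) * ν + 1) := Real.log_le_log (by linarith) (by linarith)
  have h3 : 0 ≤ Real.log (((c * ν : ℕ) : ℝ) + 1) := Real.log_nonneg (by linarith)
  have h4 : ((c * ν : ℕ) : ℝ) * Real.log (((c * ν : ℕ) : ℝ) + 1) ≤ (K : ℝ) * ν * Real.log ((K : ℝ) * ν + 1) :=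
    mul_le_mul hmr h2 h3 (by linarith)
  have h5 : Real.log ((c * ν : ℕ) : ℝ) = Real.log c + Real.log ν := by
    push_cast
    exact Real.log_mul (by positivity) (by positivity)
  rw [h5] at h1
  unfold Qc EE
  push_cast at h1 h4 hmr hm0 ⊢
  nlinarith

lemma SFl (c K ν : ℕ) (hc : c ≤ K) (hc1 : 1 ≤ c) (hν : 1 ≤ ν) :
    Qc c * (ν : ℝ) ^ 2 + (c : ℝ) ^ 2 / 2 * ((ν : ℝ) ^ 2 * Real.log ν) - EE K ν ≤ SF (c * ν) := by
  have h1 := le_SF (c * ν)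
  have hcr : (1 : ℝ) ≤ c := by exact_mod_cast hc1
  have hνr : (1 : ℝ) ≤ ν := by exact_mod_cast hν
  have hmr : ((c * ν : ℕ) : ℝ) ≤ (K : ℝ) * ν := by exact_mod_cast Nat.mul_le_mul_right ν hc
  have hm0 : (0 : ℝ) ≤ ((c * ν : ℕ) : ℝ) := Nat.cast_nonneg _
  have h2 : Real.log (((c * ν : ℕ) : ℝ) + 1) ≤ Real.log ((K : ℝ) * ν + 1) := Real.log_le_log (by linarith) (by linarith)
  have h3 : 0 ≤ Real.log (((c * ν : ℕ) : ℝ) + 1) := Real.log_nonneg (by linarith)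
  have h4 : ((c * ν : ℕ) : ℝ) * Real.log (((c * ν : ℕ) : ℝ) + 1) ≤ (K : ℝ) * ν * Real.log ((K : ℝ) * ν + 1) :=
    mul_le_mul hmr h2 h3 (by linarith)
  have h5 : Real.log ((c * ν : ℕ) : ℝ) = Real.log c + Real.log ν := by
    push_cast
    exact Real.log_mul (by positivity) (by positivity)
  rw [h5] at h1
  unfold Qc EE
  push_cast at h1 h4 hmr hm0 ⊢
  nlinarith

lemma S1_eq (n J : ℕ) : ∑ v ∈ Finset.range J, yu n v =
    (J : ℝ) ^ 3 / 3 + n * (J : ℝ) ^ 2 / 2 + (J : ℝ) ^ 2 + 3 * n * J / 2 + 2 / 3 * J := by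
  induction J with
  | zero => simp
  | succ J ih =>
    rw [Finset.sum_range_succ, ih, yu_eq]
    push_cast
    ring

lemma S2_ge (n J : ℕ) : (J : ℝ) ^ 5 / 5 - (J : ℝ) ^ 4 / 2 + 2 * n * ((J : ℝ) ^ 4 / 4 - (J : ℝ) ^ 3 / 2) +
    (n : ℝ) ^ 2 * ((J : ℝ) ^ 3 / 3 - (J : ℝ) ^ 2 / 2) ≤ ∑ v ∈ Finset.range J, yu n v ^ 2 := by
  have h1 : ∀ J : ℕ, ∑ v ∈ Finset.range J, ((v : ℝ) * (v + n)) ^ 2 = (J : ℝ) ^ 5 / 5 - (J : ℝ) ^ 4 / 2 + (J : ℝ) ^ 3 / 3 - J / 30 +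
      2 * n * ((J : ℝ) ^ 4 / 4 - (J : ℝ) ^ 3 / 2 + (J : ℝ) ^ 2 / 4) +
      (n : ℝ) ^ 2 * ((J : ℝ) ^ 3 / 3 - (J : ℝ) ^ 2 / 2 + J / 6) := by
    intro J
    induction J with
    | zero => simp
    | succ J ih =>
      rw [Finset.sum_range_succ, ih]
      push_cast
      ring
  have h2 : ∑ v ∈ Finset.range J, ((v : ℝ) * (v + n)) ^ 2 ≤ ∑ v ∈ Finset.range J, yu n v ^ 2 := by
    apply Finset.sum_le_sum
    intro v _
    rw [yu_eq]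
    apply pow_le_pow_left₀ (by positivity)
    have hv : (0 : ℝ) ≤ v := Nat.cast_nonneg v
    have hn : (0 : ℝ) ≤ n := Nat.cast_nonneg n
    nlinarith
  rw [h1] at h2
  refine le_trans ?_ h2
  rcases Nat.eq_zero_or_pos J with h0 | h0
  · subst h0; simp
  · have hJ : (1 : ℝ) ≤ J := by exact_mod_cast h0
    have hn : (0 : ℝ) ≤ n := Nat.cast_nonneg n
    have e1 : (J : ℝ) / 30 ≤ (J : ℝ) ^ 3 / 3 := by nlinarith [mul_nonneg (by linarith : (0 : ℝ) ≤ J - 1) (by linarith : (0 : ℝ) ≤ J + 1), mul_nonneg (mul_nonneg (by linarith : (0 : ℝ) ≤ J - 1) (by linarith : (0 : ℝ) ≤ J + 1)) (by linarith : (0 : ℝ) ≤ (J : ℝ))]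
    have e2 : 0 ≤ 2 * (n : ℝ) * ((J : ℝ) ^ 2 / 4) := by positivity
    have e3 : 0 ≤ (n : ℝ) ^ 2 * (J / 6) := by positivity
    nlinarith

/-- the limit value -/
def VV (h a m b : ℕ) (μ σ : ℝ) : ℝ :=
  Qc (10 + 2 * a) - Qc 10 + 2 * ((h : ℝ) + 1) * (Qc a - Qc (a + 10) + Qc 10)
    - 2 * ((a : ℝ) ^ 2 + 10 * a) * Real.log (1 - σ) - (m : ℝ) ^ 2 * Real.log μ +
    2 * Qc m + 2 * Qc (m + b) - Qc b - Qc (2 * m + b)

/-- the bound for every `ν` -/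
lemma DH_nu (h a m b ν : ℕ) (hh : 1 ≤ h) (ham : a + m = 5 * h) (ha : 1 ≤ a) (hm : 1 ≤ m) (hb : 1 ≤ b) (hν : 1 ≤ ν)
    (μ : ℝ) (hμ : 0 < μ) (h1 : (b : ℝ) * μ ≤ 2 * ((a : ℝ) ^ 3 / 3 + 5 * (a : ℝ) ^ 2))
    (h2 : μ * (((a : ℝ) ^ 3 / 3 + 5 * (a : ℝ) ^ 2) * ν + (((a : ℝ) ^ 2 + 15 * a) + 2 / 3 * a)) ≤
      ((a : ℝ) ^ 5 / 5 + 5 * (a : ℝ) ^ 4 + 100 * (a : ℝ) ^ 3 / 3) * ν - ((a : ℝ) ^ 4 / 2 + 10 * (a : ℝ) ^ 3 + 50 * (a : ℝ) ^ 2))
    (p0 σ : ℝ) (hp0 : 0 < p0) (hp1 : p0 < 1) (hσ0 : 0 < σ) (hσ1 : σ < 1)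
    (hc : (Real.log (1 + p0) - Real.log (1 - p0)) / p0 * (2 * (a : ℝ) + 10) ≤ 20 * ((h : ℝ) + 1))
    (hs : Real.exp (-(20 * ((h : ℝ) + 1) * p0 / (2 * (a : ℝ) + 10))) ≤ σ) (K : ℕ) (hK1 : 11 + 2 * a ≤ K) (hK2 : 2 * m + b ≤ K) :
    0 < DH (mu (10 * ν) h) (5 * (h * ν)) ∧ Real.log (DH (mu (10 * ν) h) (5 * (h * ν))) ≤
      VV h a m b μ σ * (ν : ℝ) ^ 2 - 50 * (h : ℝ) ^ 2 * ((ν : ℝ) ^ 2 * Real.log ν) +
      (12 + 10 * ((h : ℝ) + 1)) * EE K ν +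
      (((a : ℝ) + m) * Real.log CC + 2 * a * Real.log 2 - 4 * a * Real.log (1 - σ) + m * Real.log μ + 2 * m * Real.log ν) * ν := by
  have hνr : (1 : ℝ) ≤ ν := by exact_mod_cast hν
  have har : (1 : ℝ) ≤ a := by exact_mod_cast ha
  have hmr : (1 : ℝ) ≤ m := by exact_mod_cast hm
  have hbr : (1 : ℝ) ≤ b := by exact_mod_cast hb
  have hh0 : (1 : ℝ) ≤ h := by exact_mod_cast hh
  have hν2 : (0 : ℝ) < (ν : ℝ) ^ 2 := by positivity
  have haν : 1 ≤ a * ν := Nat.mul_pos ha hν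
  have hmν : 1 ≤ m * ν := Nat.mul_pos hm hν
  have S1 := S1_eq (10 * ν) (a * ν)
  have S2 := S2_ge (10 * ν) (a * ν)
  push_cast at S1 S2
  have key := DH_sf (10 * ν) h (a * ν) (m * ν) (b * ν) (by omega) ⟨5 * ν, by ring⟩ hh
    (by
      calc 2 * (a * ν + m * ν) = 2 * ((a + m) * ν) := by ring
        _ = 2 * (5 * h * ν) := by rw [ham]
        _ = h * (10 * ν) := by ring) haν hmν (μ * (ν : ℝ) ^ 2) (by positivity)
    (by
      refine le_trans ?_ S2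
      rw [S1]
      have h3 : μ * (ν : ℝ) ^ 2 * (((a : ℝ) * ν) ^ 3 / 3 + 10 * ν * ((a : ℝ) * ν) ^ 2 / 2 + ((a : ℝ) * ν) ^ 2 +
          3 * (10 * ν) * (a * ν) / 2 + 2 / 3 * (a * ν)) ≤
          (ν : ℝ) ^ 4 * (μ * (((a : ℝ) ^ 3 / 3 + 5 * (a : ℝ) ^ 2) * ν + (((a : ℝ) ^ 2 + 15 * a) + 2 / 3 * a))) := by
        have h4 : μ * (ν : ℝ) ^ 2 * (((a : ℝ) * ν) ^ 3 / 3 + 10 * ν * ((a : ℝ) * ν) ^ 2 / 2 + ((a : ℝ) * ν) ^ 2 +
          3 * (10 * ν) * (a * ν) / 2 + 2 / 3 * (a * ν)) =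
          (ν : ℝ) ^ 4 * (μ * (((a : ℝ) ^ 3 / 3 + 5 * (a : ℝ) ^ 2) * ν + ((a : ℝ) ^ 2 + 15 * a))) +
            (ν : ℝ) ^ 3 * (μ * (2 / 3 * a)) := by ring
        have h5 : (ν : ℝ) ^ 3 * (μ * (2 / 3 * a)) ≤ (ν : ℝ) ^ 4 * (μ * (2 / 3 * a)) := by
          apply mul_le_mul_of_nonneg_right _ (by positivity)
          exact pow_le_pow_right₀ hνr (by norm_num)
        rw [h4]
        nlinarith
      have h6 := mul_le_mul_of_nonneg_left h2 (show (0 : ℝ) ≤ (ν : ℝ) ^ 4 by positivity)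
      refine h3.trans (h6.trans (le_of_eq ?_))
      ring)
    (by
      rw [S1]
      have h3 := mul_le_mul_of_nonneg_right h1 (show (0 : ℝ) ≤ (ν : ℝ) ^ 3 by positivity)
      have h4 : 0 ≤ ((a : ℝ) * ν) ^ 2 + 3 * (10 * ν) * (a * ν) / 2 + 2 / 3 * (a * ν) := by positivity
      push_cast
      nlinarith)
    p0 σ hp0 hp1 hσ0 hσ1
    (by
      have h3 := mul_le_mul_of_nonneg_right hc (show (0 : ℝ) ≤ (ν : ℝ) by positivity)
      push_cast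
      linarith)
    (by
      refine le_trans (le_of_eq ?_) hs
      congr 2
      push_cast
      field_simp
      norm_num)
  have e1 : a * ν + m * ν = 5 * (h * ν) := by
    rw [← Nat.add_mul, ham]; ring
  rw [e1] at key
  refine ⟨key.1, key.2.trans ?_⟩
  -- the shifts
  have hKν : ∀ c : ℕ, c ≤ K → c * ν ≤ K * ν := fun c hc => Nat.mul_le_mul_right ν hc
  have t1 : SF (10 * ν + 2 + 2 * (a * ν)) ≤ SF ((10 + 2 * a) * ν) + 2 * EE K ν := by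
    rw [show 10 * ν + 2 + 2 * (a * ν) = ((10 + 2 * a) * ν + 1) + 1 by ring, SF_succ, SF_succ]
    have i1 : (10 + 2 * a) * ν + 1 ≤ K * ν := by
      calc (10 + 2 * a) * ν + 1 ≤ (10 + 2 * a) * ν + ν := by omega
        _ = (11 + 2 * a) * ν := by ring
        _ ≤ K * ν := hKν _ hK1
    have i2 := LF_le K ν _ i1
    have i3 := LF_le K ν ((10 + 2 * a) * ν) (by omega)
    linarith
  have t2 : SF (10 * ν) ≤ SF (10 * ν + 2) := by
    rw [show 10 * ν + 2 = (10 * ν + 1) + 1 by ring, SF_succ, SF_succ]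
    have i2 := LF_nonneg (10 * ν + 1)
    have i3 := LF_nonneg (10 * ν)
    linarith
  have t3 : SF (a * ν + 1) ≤ SF (a * ν) + EE K ν := by
    rw [SF_succ]
    have := LF_le K ν (a * ν) (hKν a (by omega))
    linarith
  have t4 : SF ((a + 10) * ν) ≤ SF (10 * ν + 1 + a * ν) := by
    rw [show 10 * ν + 1 + a * ν = (a + 10) * ν + 1 by ring, SF_succ]
    have := LF_nonneg ((a + 10) * ν)
    linarith
  have t5 : SF (10 * ν + 1) ≤ SF (10 * ν) + EE K ν := by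
    rw [SF_succ]
    have := LF_le K ν (10 * ν) (hKν 10 (by omega))
    linarith
  have t6 : SF (2 * (m * ν)) ≤ SF (2 * (m * ν) - 1) + EE K ν := by
    obtain ⟨q, hq⟩ : ∃ q, 2 * (m * ν) = q + 1 := ⟨2 * (m * ν) - 1, by omega⟩
    rw [hq, Nat.add_sub_cancel, SF_succ]
    have := LF_le K ν q (by
      have : 2 * (m * ν) ≤ K * ν := by
        calc 2 * (m * ν) = (2 * m) * ν := by ring
          _ ≤ K * ν := hKν _ (by omega)
      omega)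
    linarith
  have t7 : SF (m * ν - 1) ≤ SF (m * ν) := by
    obtain ⟨q, hq⟩ : ∃ q, m * ν = q + 1 := ⟨m * ν - 1, by omega⟩
    rw [hq, Nat.add_sub_cancel, SF_succ]
    have := LF_nonneg q
    linarith
  have t8 : SF ((2 * m + b) * ν) ≤ SF (2 * (m * ν) - 1 + b * ν) + EE K ν := by
    obtain ⟨q, hq⟩ : ∃ q, (2 * m + b) * ν = q + 1 := ⟨(2 * m + b) * ν - 1, by
      have : 1 ≤ (2 * m + b) * ν := Nat.mul_pos (by omega) hν
      omega⟩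
    have i0 : 2 * (m * ν) - 1 + b * ν = q := by
      have : (2 * m + b) * ν = 2 * (m * ν) + b * ν := by ring
      omega
    rw [i0, hq, SF_succ]
    have := LF_le K ν q (by
      have := hKν _ hK2
      omega)
    linarith
  have t9 : SF (m * ν - 1 + b * ν) ≤ SF ((m + b) * ν) := by
    obtain ⟨q, hq⟩ : ∃ q, (m + b) * ν = q + 1 := ⟨(m + b) * ν - 1, by
      have : 1 ≤ (m + b) * ν := Nat.mul_pos (by omega) hν
      omega⟩
    have i0 : m * ν - 1 + b * ν = q := by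
      have : (m + b) * ν = m * ν + b * ν := by ring
      omega
    rw [i0, hq, SF_succ]
    have := LF_nonneg q
    linarith
  have t10 : SF (m * ν + b * ν) = SF ((m + b) * ν) := by rw [Nat.add_mul]
  -- the superfactorials
  have u1 := SFu (10 + 2 * a) K ν (by omega) (by omega) hν
  have u2 := SFl 10 K ν (by omega) (by omega) hν
  have u3 := SFu a K ν (by omega) ha hν
  have u4 := SFl (a + 10) K ν (by omega) (by omega) hν
  have u5 := SFu 10 K ν (by omega) (by omega) hν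
  have u6 := SFu m K ν (by omega) hm hν
  have u7 := SFu (m + b) K ν (by omega) (by omega) hν
  have u8 := SFl b K ν (by omega) hb hν
  have u9 := SFl (2 * m + b) K ν (by omega) (by omega) hν
  have hE := EE_nonneg K ν
  have hlogμ : Real.log (μ * (ν : ℝ) ^ 2) = Real.log μ + 2 * Real.log ν := by
    rw [Real.log_mul hμ.ne' hν2.ne', Real.log_pow]; push_cast; ring
  rw [hlogμ, t10]
  have hmid : SF (a * ν + 1) - (SF (10 * ν + 1 + a * ν) - SF (10 * ν + 1)) ≤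
      (Qc a - Qc (a + 10) + Qc 10) * (ν : ℝ) ^ 2 + ((a : ℝ) ^ 2 / 2 - ((a : ℝ) + 10) ^ 2 / 2 + 50) * ((ν : ℝ) ^ 2 * Real.log ν) + 5 * EE K ν := by
    push_cast at u3 u4 u5
    linarith
  have hmid2 := mul_le_mul_of_nonneg_left hmid (show (0 : ℝ) ≤ 2 * ((h : ℝ) + 1) by positivity)
  have hmr5 : (m : ℝ) = 5 * h - a := by
    have : ((a + m : ℕ) : ℝ) = ((5 * h : ℕ) : ℝ) := by rw [ham]
    push_cast at this
    linarith
  unfold VV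
  push_cast at u1 u2 u6 u7 u8 u9 ⊢
  obtain ⟨L, hL⟩ : ∃ L, (ν : ℝ) ^ 2 * Real.log ν = L := ⟨_, rfl⟩
  rw [hL] at u1 u2 u6 u7 u8 u9 hmid2 ⊢
  -- the coefficient of `L`
  have hcoef : ((10 + 2 * (a : ℝ)) ^ 2 / 2 - 10 ^ 2 / 2) * L + 2 * ((h : ℝ) + 1) * (((a : ℝ) ^ 2 / 2 - ((a : ℝ) + 10) ^ 2 / 2 + 50) * L) +
      (2 * ((m : ℝ) ^ 2 / 2) + 2 * (((m : ℝ) + b) ^ 2 / 2) - (b : ℝ) ^ 2 / 2 - (2 * (m : ℝ) + b) ^ 2 / 2) * L - 2 * (m : ℝ) ^ 2 * L =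
      -(50 * (h : ℝ) ^ 2 * L) := by
    rw [hmr5]; ring
  have hlast : (m : ℝ) * ν * ((m : ℝ) * ν - 1) * (Real.log μ + 2 * Real.log ν) =
      (m : ℝ) ^ 2 * Real.log μ * (ν : ℝ) ^ 2 + 2 * (m : ℝ) ^ 2 * L - (m * Real.log μ + 2 * m * Real.log ν) * ν := by
    rw [← hL]; ring
  rw [hlast]
  linarith

end JB

end

end Pool.Agent.P8H2
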