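import Pool.Agent.P8H2.T2F

/-!
# The real determinant, sharper form: the theorem
-/

open Polynomial Pool.Agent.H337R2 Pool.Agent.W165.OZ Filter Topology

namespace Pool.Agent.P8H2

noncomputable section

namespace JB

theorem ST_gen (h a m b : ℕ) (hh : 1 ≤ h) (ham : a + m = 5 * h) (ha : 1 ≤ a) (hm : 1 ≤ m) (hb : 1 ≤ b)
    (μ : ℝ) (hμ : 0 < μ) (h1 : (b : ℝ) * μ ≤ 2 * ((a : ℝ) ^ 3 / 3 + 5 * (a : ℝ) ^ 2))
    (h2 : μ * ((a : ℝ) ^ 3 / 3 + 5 * (a : ℝ) ^ 2) < (a : ℝ) ^ 5 / 5 + 5 * (a : ℝ) ^ 4 + 100 * (a : ℝ) ^ 3 / 3)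
    (p0 σ : ℝ) (hp0 : 0 < p0) (hp1 : p0 < 1) (hσ0 : 0 < σ) (hσ1 : σ < 1)
    (hc : (Real.log (1 + p0) - Real.log (1 - p0)) / p0 * (2 * (a : ℝ) + 10) ≤ 20 * ((h : ℝ) + 1))
    (hs : Real.exp (-(20 * ((h : ℝ) + 1) * p0 / (2 * (a : ℝ) + 10))) ≤ σ)
    (t : ℝ) (hV : VV h a m b μ σ ≤ (t - 1 / 2 * Real.log 10) * (100 * (h : ℝ) ^ 2)) : S_T h t := by
  intro ε hε
  have hh1 : (1 : ℝ) ≤ h := by exact_mod_cast hh
  obtain ⟨K, hK⟩ : ∃ K : ℕ, K = 11 + 2 * a + (2 * m + b) := ⟨_, rfl⟩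
  have hK1 : (1 : ℝ) ≤ K := by
    have : 1 ≤ K := by omega
    exact_mod_cast this
  -- logarithms are small
  have elog : ∀ c : ℝ, 0 < c → ∀ᶠ n : ℕ in atTop, Real.log ((n : ℝ) + 1) ≤ c * n := by
    intro c hc
    have h1 := Real.isLittleO_log_id_atTop.def (show 0 < c / 2 by positivity)
    have h3 := (tendsto_add_atTop_iff_nat (f := fun n : ℕ => (n : ℝ)) 1).2 (tendsto_natCast_atTop_atTop (R := ℝ))
    have h4 : ∀ᶠ n : ℕ in atTop, ‖Real.log ((n + 1 : ℕ) : ℝ)‖ ≤ c / 2 * ‖id ((n + 1 : ℕ) : ℝ)‖ := by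
      exact h3.eventually h1
    filter_upwards [h4, eventually_ge_atTop 1] with n hn hn1
    have hnr : (1 : ℝ) ≤ n := by exact_mod_cast hn1
    push_cast at hn
    rw [Real.norm_eq_abs, Real.norm_eq_abs, id, abs_of_nonneg (Real.log_nonneg (by linarith)),
      abs_of_nonneg (by positivity)] at hn
    nlinarith
  have econst : ∀ c C : ℝ, 0 < c → ∀ᶠ n : ℕ in atTop, C ≤ c * n := by
    intro c C hc
    have := tendsto_natCast_atTop_atTop (R := ℝ)
    filter_upwards [this.eventually_ge_atTop (C / c)] with n hn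
    rw [div_le_iff₀ hc] at hn
    linarith
  obtain ⟨X, hX⟩ : ∃ X : ℝ, X = (a : ℝ) ^ 3 / 3 + 5 * (a : ℝ) ^ 2 := ⟨_, rfl⟩
  obtain ⟨Y, hY⟩ : ∃ Y : ℝ, Y = (a : ℝ) ^ 5 / 5 + 5 * (a : ℝ) ^ 4 + 100 * (a : ℝ) ^ 3 / 3 := ⟨_, rfl⟩
  obtain ⟨c1, hc1⟩ : ∃ c1 : ℝ, c1 = ((a : ℝ) + m) * Real.log CC + 2 * a * Real.log 2 - 4 * a * Real.log (1 - σ) + m * Real.log μ := ⟨_, rfl⟩
  obtain ⟨C3, hC3⟩ : ∃ C3 : ℝ, C3 = (22 + 10 * (h : ℝ)) * K + 2 * m := ⟨_, rfl⟩
  obtain ⟨C2, hC2⟩ : ∃ C2 : ℝ, C2 = (22 + 10 * (h : ℝ)) * K * (Real.log K + 2) + |c1| := ⟨_, rfl⟩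
  have hC3pos : 0 < C3 := by rw [hC3]; positivity
  have f1 := econst (Y - μ * X) (μ * (((a : ℝ) ^ 2 + 15 * a) + 2 / 3 * a) + ((a : ℝ) ^ 4 / 2 + 10 * (a : ℝ) ^ 3 + 50 * (a : ℝ) ^ 2))
    (by rw [hX, hY]; linarith)
  have f2 := econst (50 * (h : ℝ) ^ 2 * ε) C2 (by positivity)
  have f3 := elog (50 * (h : ℝ) ^ 2 * ε / C3) (by positivity)
  obtain ⟨ν0, hν0⟩ := eventually_atTop.1 (f1.and (f2.and (f3.and (eventually_ge_atTop 1))))
  refine ⟨10 * ν0, fun n hn hdvd => ?_⟩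
  obtain ⟨ν, rfl⟩ := hdvd
  obtain ⟨g1, g2, g3, hν⟩ := hν0 ν (by omega)
  have hνr : (1 : ℝ) ≤ ν := by exact_mod_cast hν
  have hr : h * (10 * ν) / 2 = 5 * (h * ν) := by
    rw [show h * (10 * ν) = 2 * (5 * (h * ν)) by ring]
    exact Nat.mul_div_cancel_left _ (by norm_num)
  rw [hr]
  have key := DH_nu h a m b ν hh ham ha hm hb hν μ hμ h1 (by rw [← hX, ← hY]; linarith) p0 σ hp0 hp1 hσ0 hσ1 hc hs K
    (by omega) (by omega)
  have hfin : Real.log (DH (mu (10 * ν) h) (5 * (h * ν))) ≤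
      (t + ε - 1 / 2 * Real.log ((10 * ν : ℕ) : ℝ)) * ((h : ℝ) * ((10 * ν : ℕ) : ℝ)) ^ 2 → 0 < DH (mo (A := ℝ) (10 * ν) h 1 w1 zz) (5 * (h * ν)) ∧
      DH (mo (A := ℝ) (10 * ν) h 1 w1 zz) (5 * (h * ν)) ≤
        Real.exp ((t + ε - 1 / 2 * Real.log ((10 * ν : ℕ) : ℝ)) * ((h : ℝ) * ((10 * ν : ℕ) : ℝ)) ^ 2) :=
    fun hle => ⟨key.1, (Real.log_le_iff_le_exp key.1).1 hle⟩
  apply hfin
  refine key.2.trans ?_
  rw [← hc1]
  have hl : Real.log ((10 * ν : ℕ) : ℝ) = Real.log 10 + Real.log ν := by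
    push_cast
    exact Real.log_mul (by norm_num) (by positivity)
  rw [hl]
  have hl0 : 0 ≤ Real.log (ν : ℝ) := Real.log_nonneg hνr
  have hl1 : Real.log (ν : ℝ) ≤ Real.log ((ν : ℝ) + 1) := Real.log_le_log (by linarith) (by linarith)
  obtain ⟨l, hl'⟩ : ∃ l, Real.log (ν : ℝ) = l := ⟨_, rfl⟩
  obtain ⟨l1, hl1'⟩ : ∃ l, Real.log ((ν : ℝ) + 1) = l := ⟨_, rfl⟩
  rw [hl1'] at g3 hl1
  rw [hl'] at hl0 hl1 ⊢
  have hEE : EE K ν ≤ K * ν * (Real.log K + l1) + 2 * (K * ν) := by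
    unfold EE
    have h3 : Real.log ((K : ℝ) * ν + 1) ≤ Real.log K + l1 := by
      rw [← hl1', ← Real.log_mul (by positivity) (by positivity)]
      apply Real.log_le_log (by positivity)
      linarith
    have h4 : (K : ℝ) * ν * Real.log ((K : ℝ) * ν + 1) ≤ K * ν * (Real.log K + l1) :=
      mul_le_mul_of_nonneg_left h3 (by positivity)
    linarith
  have hEE2 := mul_le_mul_of_nonneg_left hEE (show (0 : ℝ) ≤ 12 + 10 * ((h : ℝ) + 1) by positivity)
  have g3' : C3 * l1 ≤ 50 * (h : ℝ) ^ 2 * ε * ν := by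
    have h3 := mul_le_mul_of_nonneg_left g3 hC3pos.le
    have h4 : C3 * (50 * (h : ℝ) ^ 2 * ε / C3 * ν) = 50 * (h : ℝ) ^ 2 * ε * ν := by field_simp
    linarith
  have g4 : (C2 + C3 * l1) * ν ≤ (100 * (h : ℝ) ^ 2 * ε * ν) * ν := mul_le_mul_of_nonneg_right (by linarith) (by linarith)
  have g5 : (12 + 10 * ((h : ℝ) + 1)) * (K * ν * (Real.log K + l1) + 2 * (K * ν)) + (c1 + 2 * m * l) * ν ≤ (C2 + C3 * l1) * ν := by
    have h3 : (C2 + C3 * l1) * ν - ((12 + 10 * ((h : ℝ) + 1)) * (K * ν * (Real.log K + l1) + 2 * (K * ν)) + (c1 + 2 * m * l) * ν) =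
        ((|c1| - c1) + 2 * m * (l1 - l)) * ν := by
      rw [hC2, hC3]; ring
    have h4 : 0 ≤ ((|c1| - c1) + 2 * m * (l1 - l)) * ν := by
      have h5 := le_abs_self c1
      have h6 : 0 ≤ 2 * (m : ℝ) * (l1 - l) := mul_nonneg (by positivity) (by linarith)
      exact mul_nonneg (by linarith) (by linarith)
    linarith
  have g6 := mul_le_mul_of_nonneg_right hV (show (0 : ℝ) ≤ (ν : ℝ) ^ 2 by positivity)
  push_cast
  nlinarith

lemma log7 : 1.9459 < Real.log 7 ∧ Real.log 7 < 1.94592 := by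
  have l2 := Real.log_two_gt_d9
  have l2' := Real.log_two_lt_d9
  have l3 := Real.log_three_gt_d9
  have l5' := Real.log_five_lt_d9
  have e1 : 2 * Real.log 7 = 4 * Real.log 2 + Real.log 3 + Real.log (1 + 1 / 48) := by
    rw [show (2 : ℝ) * Real.log 7 = Real.log (7 ^ 2) by rw [Real.log_pow]; norm_num,
      show (4 : ℝ) * Real.log 2 = Real.log (2 ^ 4) by rw [Real.log_pow]; norm_num,
      ← Real.log_mul (by norm_num) (by norm_num), ← Real.log_mul (by norm_num) (by norm_num)]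
    norm_num
  have e2 : Real.log 2 + 2 * Real.log 5 = 2 * Real.log 7 + Real.log (1 + 1 / 49) := by
    rw [show (2 : ℝ) * Real.log 7 = Real.log (7 ^ 2) by rw [Real.log_pow]; norm_num,
      show (2 : ℝ) * Real.log 5 = Real.log (5 ^ 2) by rw [Real.log_pow]; norm_num,
      ← Real.log_mul (by norm_num) (by norm_num), ← Real.log_mul (by norm_num) (by norm_num)]
    norm_num
  have e3 := Real.le_log_one_add_of_nonneg (show (0 : ℝ) ≤ 1 / 48 by norm_num)
  have e4 := Real.le_log_one_add_of_nonneg (show (0 : ℝ) ≤ 1 / 49 by norm_num)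
  norm_num at e3 e4
  norm_num at e1 e2
  constructor
  · linarith
  · linarith

/-- the rate for `h = 12` -/
theorem ST12 : S_T 12 (-(47 / 100)) := by
  have l2 := Real.log_two_gt_d9
  have l2' := Real.log_two_lt_d9
  have l3 := Real.log_three_gt_d9
  have l3' := Real.log_three_lt_d9
  have l5 := Real.log_five_gt_d9
  have l5' := Real.log_five_lt_d9
  obtain ⟨l7, l7'⟩ := log7
  apply ST_gen 12 30 30 40 (by norm_num) (by norm_num) (by norm_num) (by norm_num) (by norm_num) 675 (by norm_num)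
    (by norm_num) (by norm_num) (15 / 16) (1 / 32) (by norm_num) (by norm_num) (by norm_num) (by norm_num)
  · have e1 : Real.log (1 + 15 / 16) - Real.log (1 - 15 / 16) ≤ 5 * Real.log 2 := by
      rw [← Real.log_div (by norm_num) (by norm_num)]
      have : (5 : ℝ) * Real.log 2 = Real.log 32 := by
        rw [show (32 : ℝ) = 2 ^ 5 by norm_num, Real.log_pow]; norm_num
      rw [this]
      apply Real.log_le_log (by norm_num) (by norm_num)
    have e2 := mul_le_mul_of_nonneg_right e1 (show (0 : ℝ) ≤ (16 / 15 * 70) by norm_num)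
    norm_num at e2 ⊢
    linarith
  · rw [← Real.le_log_iff_exp_le (by norm_num)]
    have : Real.log (1 / 32 : ℝ) = -(5 * Real.log 2) := by
      rw [Real.log_div (by norm_num) (by norm_num), Real.log_one, show (32 : ℝ) = 2 ^ 5 by norm_num, Real.log_pow]
      norm_num
    rw [this]
    norm_num
    linarith
  · have e1 : Real.log 10 = Real.log 2 + Real.log 5 := by
      rw [← Real.log_mul (by norm_num) (by norm_num)]; norm_num
    have e2 : Real.log 70 = Real.log 2 + Real.log 5 + Real.log 7 := by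
      rw [← Real.log_mul (by norm_num) (by norm_num), ← Real.log_mul (by norm_num) (by norm_num)]; norm_num
    have e3 : Real.log 30 = Real.log 2 + Real.log 3 + Real.log 5 := by
      rw [← Real.log_mul (by norm_num) (by norm_num), ← Real.log_mul (by norm_num) (by norm_num)]; norm_num
    have e4 : Real.log 40 = 3 * Real.log 2 + Real.log 5 := by
      rw [show (3 : ℝ) * Real.log 2 = Real.log (2 ^ 3) by rw [Real.log_pow]; norm_num,
        ← Real.log_mul (by norm_num) (by norm_num)]; norm_num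
    have e5 : Real.log 100 = 2 * Real.log 2 + 2 * Real.log 5 := by
      rw [show (2 : ℝ) * Real.log 2 = Real.log (2 ^ 2) by rw [Real.log_pow]; norm_num,
        show (2 : ℝ) * Real.log 5 = Real.log (5 ^ 2) by rw [Real.log_pow]; norm_num,
        ← Real.log_mul (by norm_num) (by norm_num)]; norm_num
    have e6 : Real.log 675 = 3 * Real.log 3 + 2 * Real.log 5 := by
      rw [show (3 : ℝ) * Real.log 3 = Real.log (3 ^ 3) by rw [Real.log_pow]; norm_num,
        show (2 : ℝ) * Real.log 5 = Real.log (5 ^ 2) by rw [Real.log_pow]; norm_num,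
        ← Real.log_mul (by norm_num) (by norm_num)]; norm_num
    have e7 : -(1 / 31) ≤ Real.log (31 / 32) := by
      have h1 := Real.log_le_sub_one_of_pos (show (0 : ℝ) < 32 / 31 by norm_num)
      have h2 : Real.log (31 / 32) = - Real.log (32 / 31) := by
        rw [← Real.log_inv]; norm_num
      rw [h2]
      linarith
    unfold VV Qc
    norm_num
    rw [e1, e2, e3, e4, e5, e6]
    linarith

end JB

end

end Pool.Agent.P8H2
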