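import Pool.Agent.P8H2.Stm
import Pool.Agent.W165.OZ.Fin

/-!
# The real determinant: positivity and the product bound
-/

open Polynomial Pool.Agent.H337R2 Pool.Agent.W165.OZ Filter Topology

namespace Pool.Agent.P8H2

noncomputable section

/-- a positive definite matrix has determinant at most the product of the diagonal -/
theorem det_le_diag {r : ℕ} (G : Matrix (Fin r) (Fin r) ℝ) (hG : G.PosDef) :
    0 < G.det ∧ G.det ≤ ∏ i, G i i := by
  refine ⟨hG.det_pos, ?_⟩
  have hd : ∀ i, 0 < G i i := fun i => hG.diag_pos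
  obtain ⟨s, hs⟩ : ∃ s : Fin r → ℝ, s = fun i => (Real.sqrt (G i i))⁻¹ := ⟨_, rfl⟩
  have hs0 : ∀ i, 0 < s i := by
    intro i
    rw [hs]
    exact inv_pos.2 (Real.sqrt_pos.2 (hd i))
  have hs2 : ∀ i, s i * G i i * s i = 1 := by
    intro i
    rw [hs]
    have h1 := Real.mul_self_sqrt (hd i).le
    have h2 := (Real.sqrt_pos.2 (hd i)).ne'
    simp only
    field_simp
    nlinarith
  obtain ⟨G', hG'⟩ : ∃ G' : Matrix (Fin r) (Fin r) ℝ,
      G' = (Matrix.diagonal s).conjTranspose * G * Matrix.diagonal s := ⟨_, rfl⟩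
  have hinj : Function.Injective (Matrix.diagonal s).mulVec := by
    rw [Matrix.mulVec_injective_iff_isUnit, Matrix.isUnit_iff_isUnit_det, Matrix.det_diagonal, isUnit_iff_ne_zero]
    exact (Finset.prod_pos fun i _ => hs0 i).ne'
  have hpd : G'.PosDef := by
    rw [hG']
    exact hG.conjTranspose_mul_mul_same hinj
  have hent : ∀ i, G' i i = 1 := by
    intro i
    rw [hG', Matrix.diagonal_conjTranspose, Matrix.mul_diagonal, Matrix.diagonal_mul]
    simpa using hs2 i
  have htr : G'.trace = r := by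
    unfold Matrix.trace
    simp [hent]
  have heig := hpd.eigenvalues_pos
  have h1 : G'.det = ∏ i, hpd.isHermitian.eigenvalues i := by
    rw [hpd.isHermitian.det_eq_prod_eigenvalues]
    simp
  have h2 : G'.trace = ∑ i, hpd.isHermitian.eigenvalues i := by
    rw [hpd.isHermitian.trace_eq_sum_eigenvalues]
    simp
  have h3 : Real.log G'.det ≤ 0 := by
    rw [h1, Real.log_prod (fun i _ => (heig i).ne')]
    have h4 : ∑ i, Real.log (hpd.isHermitian.eigenvalues i) ≤ ∑ i, (hpd.isHermitian.eigenvalues i - 1) :=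
      Finset.sum_le_sum fun i _ => Real.log_le_sub_one_of_pos (heig i)
    rw [Finset.sum_sub_distrib, ← h2, htr] at h4
    simpa using h4
  have h5 : G'.det ≤ 1 := by
    by_contra hlt
    rw [not_le] at hlt
    have := Real.log_pos hlt
    linarith
  have h6 : G'.det = (∏ i, s i) * G.det * (∏ i, s i) := by
    rw [hG', Matrix.diagonal_conjTranspose, Matrix.det_mul, Matrix.det_mul, Matrix.det_diagonal, Matrix.det_diagonal]
    simp
  have h7 : (∏ i, s i) * (∏ i, G i i) * (∏ i, s i) = 1 := by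
    rw [← Finset.prod_mul_distrib, ← Finset.prod_mul_distrib]
    exact Finset.prod_eq_one fun i _ => hs2 i
  have hsp : 0 < ∏ i, s i := Finset.prod_pos fun i _ => hs0 i
  rw [h6] at h5
  have h8 : (∏ i, s i) * G.det * (∏ i, s i) ≤ (∏ i, s i) * (∏ i, G i i) * (∏ i, s i) := by
    rw [h7]; exact h5
  have h9 := le_of_mul_le_mul_right h8 hsp
  exact le_of_mul_le_mul_left h9 hsp

/-- the nodes -/
def yu (n u : ℕ) : ℝ := yv n ((u : ℝ) + 2)

/-- the weights -/
def Ru (n h u : ℕ) : ℝ := Rv n h ((u : ℝ) + 2)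

/-- the moments -/
def mu (n h : ℕ) : ℕ → ℝ := mo (A := ℝ) n h 1 w1 zz

lemma Ru_pos (n h u : ℕ) (hn : 1 ≤ n) : 0 < Ru n h u := by
  have hn' : (1 : ℝ) ≤ n := by exact_mod_cast hn
  unfold Ru Rv
  apply div_pos
  · have : (0 : ℝ) ≤ u := Nat.cast_nonneg u
    linarith
  · apply pow_pos
    refine Finset.prod_pos fun k _ => ?_
    positivity

lemma yu_strictMono (n : ℕ) (hn : 1 ≤ n) : StrictMono (yu n) := by
  have hn' : (1 : ℝ) ≤ n := by exact_mod_cast hn
  intro a b hab
  have h1 : (a : ℝ) < b := by exact_mod_cast hab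
  have ha : (0 : ℝ) ≤ a := Nat.cast_nonneg a
  unfold yu yv
  nlinarith

lemma mu_hasSum (n h : ℕ) (hn2 : 2 ≤ n) (he : Even n) (hh : 1 ≤ h) (k : ℕ) (hk : k + 2 ≤ h * n) :
    HasSum (fun u : ℕ => Ru n h u * yu n u ^ k) (mu n h k) := by
  obtain ⟨h1, h2⟩ := z_rm n h 1 w1 hn2 he hh k hk
  have h3 := h1 1 (by simp)
  have e : ∀ u : ℕ, ((u : ℝ) + ((1 : ℕ) : ℝ) + 1) / ((1 : ℕ) : ℝ) = (u : ℝ) + 2 := by
    intro u; push_cast; ring
  simp only [e] at h3 h2
  rw [Finset.Icc_self, Finset.sum_singleton] at h2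
  simp only [e] at h2
  have h4 := h3.hasSum
  have h5 : mu n h k = ∑' u : ℕ, Rv n h ((u : ℝ) + 2) * yv n ((u : ℝ) + 2) ^ k := by
    unfold mu
    rw [h2]
    simp
  rw [h5]
  exact h4

lemma Lf_hasSum (n h : ℕ) (hn2 : 2 ≤ n) (he : Even n) (hh : 1 ≤ h) (Q : ℝ[X]) (hQ : Q.natDegree + 2 ≤ h * n) :
    HasSum (fun u : ℕ => Ru n h u * Q.eval (yu n u)) (Lf (mu n h) Q) := by
  rw [Lf_apply (mu n h) Q (Q.natDegree + 1) (by omega)]
  have h1 : ∀ u : ℕ, Ru n h u * Q.eval (yu n u) =
      ∑ k ∈ Finset.range (Q.natDegree + 1), Q.coeff k * (Ru n h u * yu n u ^ k) := by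
    intro u
    rw [Polynomial.eval_eq_sum_range, Finset.mul_sum]
    refine Finset.sum_congr rfl fun k _ => ?_
    ring
  simp only [h1]
  apply hasSum_sum
  intro k hk
  rw [Finset.mem_range] at hk
  exact (mu_hasSum n h hn2 he hh k (by omega)).mul_left _

/-- the determinant is positive and bounded by the product of the square norms -/
theorem T0 (n h : ℕ) (hn2 : 2 ≤ n) (he : Even n) (hh : 1 ≤ h) (r : ℕ) (hr : 2 * r ≤ h * n)
    (Q : ℕ → ℝ[X]) (hm : ∀ i, (Q i).Monic) (hd : ∀ i, (Q i).natDegree = i) :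
    0 < DH (mu n h) r ∧ DH (mu n h) r ≤
      ∏ j ∈ Finset.range r, Lf (mu n h) (Q j * Q j) := by
  have hn1 : 1 ≤ n := by omega
  have hb := t_bas ℝ ℝ (Lf (mu n h)) Q hm hd r
  have hb2 : DH (fun k => Lf (mu n h) (X ^ k)) r = DH (mu n h) r := by
    congr 1
    funext k
    exact Lf_X_pow _ _
  rw [hb2] at hb
  obtain ⟨G, hG⟩ : ∃ G : Matrix (Fin r) (Fin r) ℝ,
    G = Matrix.of fun i j : Fin r => Lf (mu n h) (Q i.1 * Q j.1) := ⟨_, rfl⟩
  rw [← hG] at hb
  have hlin : LinearIndependent ℝ (fun i : Fin r => Q i.1) := by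
    let S : Polynomial.Sequence ℝ := ⟨Q, fun i => by
      rw [Polynomial.degree_eq_natDegree (hm i).ne_zero, hd]⟩
    have h1 : LinearIndependent ℝ Q := S.linearIndependent
    exact h1.comp (fun i : Fin r => i.1) Fin.val_injective
  have hpd : G.PosDef := by
    apply Matrix.PosDef.of_dotProduct_mulVec_pos
    · rw [Matrix.IsHermitian]
      ext i j
      rw [Matrix.conjTranspose_apply, hG, Matrix.of_apply, Matrix.of_apply, mul_comm (Q j.1)]
      simp
    · intro x hx
      obtain ⟨P, hP⟩ : ∃ P : ℝ[X], P = ∑ i : Fin r, x i • Q i.1 := ⟨_, rfl⟩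
      have hP0 : P ≠ 0 := by
        intro h0
        apply hx
        have := Fintype.linearIndependent_iff.1 hlin x (by rw [← hP]; exact h0)
        funext i
        exact this i
      have hPdeg : ∀ i : Fin r, (Q i.1).natDegree ≤ r - 1 := by
        intro i
        rw [hd]
        have := i.2
        omega
      have hPd : P.natDegree ≤ r - 1 := by
        rw [hP]
        apply Polynomial.natDegree_sum_le_of_forall_le
        intro i _
        exact (Polynomial.natDegree_smul_le _ _).trans (hPdeg i)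
      have e1 : star x ⬝ᵥ G.mulVec x = Lf (mu n h) (P * P) := by
        rw [hP, Finset.sum_mul_sum, map_sum]
        unfold dotProduct Matrix.mulVec dotProduct
        refine Finset.sum_congr rfl fun i _ => ?_
        rw [map_sum, Finset.mul_sum]
        refine Finset.sum_congr rfl fun j _ => ?_
        rw [hG]
        simp only [Matrix.of_apply]
        rw [smul_mul_smul_comm, map_smul, smul_eq_mul]
        simp
        ring
      rw [e1]
      have hr1 : 1 ≤ r := by
        by_contra h0
        have : r = 0 := by omega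
        subst this
        exact hx (by funext i; exact i.elim0)
      have hdeg : (P * P).natDegree + 2 ≤ h * n := by
        have := Polynomial.natDegree_mul_le (p := P) (q := P)
        omega
      have hs := Lf_hasSum n h hn2 he hh (P * P) hdeg
      have hnn : ∀ u, 0 ≤ Ru n h u * (P * P).eval (yu n u) := by
        intro u
        rw [Polynomial.eval_mul]
        exact mul_nonneg (Ru_pos n h u hn1).le (mul_self_nonneg _)
      obtain ⟨u, hu⟩ : ∃ u : ℕ, P.eval (yu n u) ≠ 0 := by
        by_contra hall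
        push Not at hall
        apply hP0
        apply Polynomial.eq_zero_of_infinite_isRoot
        refine Set.Infinite.mono ?_ (Set.infinite_range_of_injective (yu_strictMono n hn1).injective)
        rintro _ ⟨u, rfl⟩
        exact hall u
      have h2 := hs.summable.tsum_pos hnn u (by
        rw [Polynomial.eval_mul]
        exact mul_pos (Ru_pos n h u hn1) (mul_self_pos.2 hu))
      rw [hs.tsum_eq] at h2
      exact h2
  obtain ⟨a1, a2⟩ := det_le_diag G hpd
  rw [hb] at a1 a2
  refine ⟨a1, a2.trans (le_of_eq ?_)⟩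
  rw [Finset.prod_range]
  refine Finset.prod_congr rfl fun i _ => ?_
  rw [hG, Matrix.of_apply]

end

end Pool.Agent.P8H2
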