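import Pool.Agent.P8H2.TA

/-!
# The square norms of the test polynomials
-/

open Polynomial Pool.Agent.H337R2 Pool.Agent.W165.OZ Filter Topology

namespace Pool.Agent.P8H2

noncomputable section

/-- the test polynomials: the zeros are the first nodes -/
def Qn (n j : ℕ) : ℝ[X] := ∏ v ∈ Finset.range j, (X - C (yu n v))

lemma Qn_monic (n j : ℕ) : (Qn n j).Monic := Polynomial.monic_prod_of_monic _ _ fun _ _ => monic_X_sub_C _

lemma Qn_natDegree (n j : ℕ) : (Qn n j).natDegree = j := by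
  unfold Qn
  rw [Polynomial.natDegree_prod_of_monic _ _ fun _ _ => monic_X_sub_C _]
  simp

lemma Qn_eval (n j : ℕ) (y : ℝ) : (Qn n j).eval y = ∏ v ∈ Finset.range j, (y - yu n v) := by
  unfold Qn
  rw [Polynomial.eval_prod]
  simp

lemma yu_eq (n u : ℕ) : yu n u = ((u : ℝ) + 2) * ((u : ℝ) + n + 1) := by
  unfold yu yv; ring

lemma yu_pos (n u : ℕ) : 0 < yu n u := by
  rw [yu_eq]; positivity

/-- the product over the poles -/
lemma prod_ge (n u : ℕ) (hn : 1 ≤ n) : yu n u ^ n ≤ (∏ k ∈ Finset.range n, ((u : ℝ) + 2 + k)) ^ 2 := by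
  have h1 : (∏ k ∈ Finset.range n, ((u : ℝ) + 2 + k)) ^ 2 =
      ∏ k ∈ Finset.range n, (((u : ℝ) + 2 + k) * ((u : ℝ) + 2 + (n - 1 - k : ℕ))) := by
    rw [Finset.prod_mul_distrib, Finset.prod_range_reflect (fun k => ((u : ℝ) + 2 + (k : ℕ))) n, pow_two]
  rw [h1]
  have h2 : yu n u ^ n = ∏ _k ∈ Finset.range n, yu n u := by
    rw [Finset.prod_const, Finset.card_range]
  rw [h2]
  apply Finset.prod_le_prod
  · intro k _
    exact (yu_pos n u).le
  · intro k hk
    rw [Finset.mem_range] at hk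
    rw [yu_eq]
    have e : ((n - 1 - k : ℕ) : ℝ) = (n : ℝ) - 1 - k := by
      rw [Nat.cast_sub (by omega), Nat.cast_sub hn]; push_cast; ring
    rw [e]
    have hk' : (k : ℝ) ≤ n - 1 := by
      have : k + 1 ≤ n := hk
      have : ((k + 1 : ℕ) : ℝ) ≤ n := by exact_mod_cast this
      push_cast at this
      linarith
    have hk0 : (0 : ℝ) ≤ k := Nat.cast_nonneg k
    nlinarith [mul_nonneg hk0 (by linarith : (0 : ℝ) ≤ n - 1 - k)]

/-- the product of the distances -/
lemma prod_le (n j : ℕ) (y : ℝ) (hy : yu n j ≤ y) :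
    0 ≤ ∏ v ∈ Finset.range j, (y - yu n v) ∧
    ∏ v ∈ Finset.range j, (y - yu n v) ≤ (y - yu n j / 3) ^ j := by
  have hnn : ∀ v ∈ Finset.range j, 0 ≤ y - yu n v := by
    intro v hv
    rw [Finset.mem_range] at hv
    have h1 : yu n v ≤ yu n j := by
      rw [yu_eq, yu_eq]
      have : (v : ℝ) ≤ j := by exact_mod_cast hv.le
      have : (0 : ℝ) ≤ v := Nat.cast_nonneg v
      have : (0 : ℝ) ≤ n := Nat.cast_nonneg n
      nlinarith
    linarith
  refine ⟨Finset.prod_nonneg hnn, ?_⟩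
  have hpos := yu_pos n j
  have hd : 0 < y - yu n j / 3 := by linarith
  obtain ⟨d, hdd⟩ : ∃ d, y - yu n j / 3 = d := ⟨_, rfl⟩
  rw [hdd] at hd ⊢
  have h1 : ∏ v ∈ Finset.range j, (y - yu n v) = d ^ j * ∏ v ∈ Finset.range j, ((y - yu n v) / d) := by
    rw [Finset.prod_div_distrib, Finset.prod_const, Finset.card_range]
    field_simp
  have h2 : ∏ v ∈ Finset.range j, ((y - yu n v) / d) ≤ 1 := by
    calc ∏ v ∈ Finset.range j, ((y - yu n v) / d)
        ≤ ∏ v ∈ Finset.range j, Real.exp ((y - yu n v) / d - 1) := by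
          apply Finset.prod_le_prod
          · intro v hv
            exact div_nonneg (hnn v hv) hd.le
          · intro v _
            have := Real.add_one_le_exp ((y - yu n v) / d - 1)
            linarith
      _ = Real.exp (∑ v ∈ Finset.range j, ((y - yu n v) / d - 1)) := (Real.exp_sum _ _).symm
      _ ≤ Real.exp 0 := by
          apply Real.exp_le_exp.2
          have h3 : ∑ v ∈ Finset.range j, ((y - yu n v) / d - 1) =
              (∑ v ∈ Finset.range j, (yu n j / 3 - yu n v)) / d := by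
            rw [Finset.sum_div]
            refine Finset.sum_congr rfl fun v _ => ?_
            rw [div_sub_one hd.ne']
            congr 1
            linarith
          rw [h3]
          apply div_nonpos_of_nonpos_of_nonneg _ hd.le
          have h4 : ∀ J : ℕ, ∑ v ∈ Finset.range J, yu n v =
              (J : ℝ) * (J - 1) * (2 * J - 1) / 6 + ((n : ℝ) + 3) * (J * (J - 1) / 2) + 2 * (n + 1) * J := by
            intro J
            induction J with
            | zero => simp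
            | succ J ih =>
              rw [Finset.sum_range_succ, ih, yu_eq]
              push_cast
              ring
          rw [Finset.sum_sub_distrib, h4, Finset.sum_const, Finset.card_range, nsmul_eq_mul, yu_eq]
          have hj : (0 : ℝ) ≤ j := Nat.cast_nonneg j
          have hn : (0 : ℝ) ≤ n := Nat.cast_nonneg n
          nlinarith [mul_nonneg hj hn, mul_nonneg (mul_nonneg hj hj) hn]
      _ = 1 := Real.exp_zero
  rw [h1]
  exact mul_le_of_le_one_right (by positivity) h2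

/-- the elementary inequality -/
lemma elem {a y : ℝ} (ha : 0 < a) (hy : a ≤ y) (j e N : ℕ) (h1 : e ≤ j) (h2 : e + 2 * j + 2 ≤ N) :
    (y - a / 3) ^ (2 * j) * a ^ (N - 2 * j - 2) ≤ (4 / 9) ^ e * y ^ (N - 2) := by
  have hy0 : 0 < y := by linarith
  have hd : 0 ≤ y - a / 3 := by linarith
  have hs : a * (y - a / 3) ^ 2 ≤ 4 / 9 * y ^ 3 := by nlinarith [mul_nonneg (sq_nonneg (y - a)) (by linarith : (0 : ℝ) ≤ 4 * y - a)]
  have hs2 : (y - a / 3) ^ 2 ≤ y ^ 2 := by
    apply pow_le_pow_left₀ hd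
    linarith
  obtain ⟨f, rfl⟩ : ∃ f, j = e + f := ⟨j - e, by omega⟩
  obtain ⟨g, hg⟩ : ∃ g, N = 2 * (e + f) + 2 + (e + g) := ⟨N - (2 * (e + f) + 2) - e, by omega⟩
  have e1 : N - 2 * (e + f) - 2 = e + g := by omega
  have e2 : N - 2 = 3 * e + 2 * f + g := by omega
  rw [e1, e2]
  calc (y - a / 3) ^ (2 * (e + f)) * a ^ (e + g)
      = (a * (y - a / 3) ^ 2) ^ e * ((y - a / 3) ^ 2) ^ f * a ^ g := by
        rw [mul_pow, ← pow_mul, ← pow_mul, pow_add a, mul_add, pow_add]; ring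
    _ ≤ (4 / 9 * y ^ 3) ^ e * (y ^ 2) ^ f * y ^ g := by
        gcongr
    _ = (4 / 9) ^ e * y ^ (3 * e + 2 * f + g) := by
        rw [mul_pow, ← pow_mul, ← pow_mul, pow_add, pow_add]; ring

/-- the constant -/
def CC : ℝ := ∑' u : ℕ, 2 / ((u : ℝ) + 1) ^ 2

lemma CC_summable : Summable (fun u : ℕ => 2 / ((u : ℝ) + 1) ^ 2) := by
  have h1 := (Real.summable_one_div_nat_pow (p := 2)).2 (by norm_num)
  have h2 := (summable_nat_add_iff 1).2 h1
  have h3 := h2.mul_left 2
  refine h3.congr fun u => ?_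
  push_cast
  ring

lemma CC_pos : 0 < CC := by
  unfold CC
  apply CC_summable.tsum_pos (fun u => by positivity) 0
  norm_num

/-- the weight function -/
lemma wt_le (n u : ℕ) (hn : 1 ≤ n) : (2 * ((u : ℝ) + 2) + (n - 1)) / yu n u ^ 2 ≤ 2 / ((u : ℝ) + 1) ^ 2 := by
  have hu : (0 : ℝ) ≤ u := Nat.cast_nonneg u
  have hn' : (1 : ℝ) ≤ n := by exact_mod_cast hn
  rw [yu_eq, div_le_div_iff₀ (by positivity) (by positivity)]
  have h1 : (2 * ((u : ℝ) + 2) + (n - 1)) ≤ 2 * ((u : ℝ) + n + 1) := by linarith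
  have h2 : ((u : ℝ) + 1) ^ 2 ≤ ((u : ℝ) + 2) ^ 2 := by nlinarith
  have h3 : (1 : ℝ) ≤ (u : ℝ) + n + 1 := by linarith
  calc (2 * ((u : ℝ) + 2) + (n - 1)) * ((u : ℝ) + 1) ^ 2
      ≤ (2 * ((u : ℝ) + n + 1)) * ((u : ℝ) + 2) ^ 2 := by
        apply mul_le_mul h1 h2 (by positivity) (by positivity)
    _ ≤ (2 * ((u : ℝ) + n + 1)) * ((u : ℝ) + 2) ^ 2 * ((u : ℝ) + n + 1) :=
        le_mul_of_one_le_right (by positivity) h3
    _ = 2 * (((u : ℝ) + 2) * ((u : ℝ) + n + 1)) ^ 2 := by ring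

/-- from a bound for the terms to a bound for the norm -/
lemma row_of_terms (n h j : ℕ) (hn2 : 2 ≤ n) (he : Even n) (hh : 1 ≤ h) (hj : 2 * j + 2 ≤ h * n) (B : ℝ)
    (hB : 0 ≤ B)
    (hterm : ∀ u, j ≤ u → Ru n h u * (∏ v ∈ Finset.range j, (yu n u - yu n v)) ^ 2 ≤
      B * ((2 * ((u : ℝ) + 2) + (n - 1)) / yu n u ^ 2)) :
    Lf (mu n h) (Qn n j * Qn n j) ≤ CC * B := by
  have hdeg : (Qn n j * Qn n j).natDegree + 2 ≤ h * n := by
    have := Polynomial.natDegree_mul_le (p := Qn n j) (q := Qn n j)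
    rw [Qn_natDegree] at this
    omega
  have hs := Lf_hasSum n h hn2 he hh (Qn n j * Qn n j) hdeg
  have h1 := CC_summable.hasSum.mul_right B
  refine hasSum_le ?_ hs h1
  intro u
  rw [Polynomial.eval_mul, Qn_eval, ← pow_two]
  by_cases hu : j ≤ u
  · refine (hterm u hu).trans ?_
    rw [mul_comm]
    exact mul_le_mul_of_nonneg_right (wt_le n u (by omega)) hB
  · rw [not_le] at hu
    rw [Finset.prod_eq_zero (Finset.mem_range.2 hu) (sub_self _)]
    have : 0 ≤ 2 / ((u : ℝ) + 1) ^ 2 * B := by positivity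
    simpa using this

lemma Ru_le (n h u : ℕ) (hn : 1 ≤ n) : Ru n h u ≤ (2 * ((u : ℝ) + 2) + (n - 1)) / yu n u ^ (h * n) := by
  have hn' : (1 : ℝ) ≤ n := by exact_mod_cast hn
  have hu : (0 : ℝ) ≤ u := Nat.cast_nonneg u
  unfold Ru Rv
  apply div_le_div_of_nonneg_left (by linarith) (pow_pos (yu_pos n u) _)
  have h1 := prod_ge n u hn
  calc yu n u ^ (h * n) = (yu n u ^ n) ^ h := by rw [← pow_mul]; congr 1; ring
    _ ≤ ((∏ k ∈ Finset.range n, ((u : ℝ) + 2 + k)) ^ 2) ^ h :=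
        pow_le_pow_left₀ (pow_nonneg (yu_pos n u).le _) h1 h
    _ = _ := by rw [← pow_mul]

/-- the simple row bound -/
theorem row1 (n h j e : ℕ) (hn2 : 2 ≤ n) (he : Even n) (hh : 1 ≤ h) (h1 : e ≤ j) (h2 : e + 2 * j + 2 ≤ h * n) :
    Lf (mu n h) (Qn n j * Qn n j) ≤ CC * ((4 / 9) ^ e / yu n j ^ (h * n - 2 * j - 2)) := by
  have ha := yu_pos n j
  apply row_of_terms n h j hn2 he hh (by omega) _ (by positivity)
  intro u hu
  have hy : yu n j ≤ yu n u := by
    rcases hu.eq_or_lt with h3 | h3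
    · rw [h3]
    · exact (yu_strictMono n (by omega) h3).le
  have hy0 := yu_pos n u
  obtain ⟨p0, p1⟩ := prod_le n j (yu n u) hy
  have hel := elem ha hy j e (h * n) h1 h2
  have hR := Ru_le n h u (by omega)
  have hn1 : (1 : ℝ) ≤ n := by
    have : 1 ≤ n := by omega
    exact_mod_cast this
  have hu0 : (0 : ℝ) ≤ u := Nat.cast_nonneg u
  have hw : 0 ≤ 2 * ((u : ℝ) + 2) + (n - 1) := by linarith
  obtain ⟨y, hyy⟩ : ∃ y, yu n u = y := ⟨_, rfl⟩
  obtain ⟨a, haa⟩ : ∃ a, yu n j = a := ⟨_, rfl⟩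
  rw [hyy] at hy hy0 p0 p1 hel hR ⊢
  rw [haa] at hy ha p1 hel ⊢
  have hN : h * n = (h * n - 2) + 2 := by omega
  calc Ru n h u * (∏ v ∈ Finset.range j, (y - yu n v)) ^ 2
      ≤ ((2 * ((u : ℝ) + 2) + (n - 1)) / y ^ (h * n)) * ((y - a / 3) ^ j) ^ 2 := by
        apply mul_le_mul hR (pow_le_pow_left₀ p0 p1 2) (by positivity) (by positivity)
    _ = (2 * ((u : ℝ) + 2) + (n - 1)) / y ^ 2 * ((y - a / 3) ^ (2 * j) / y ^ (h * n - 2)) := by
        rw [← pow_mul, mul_comm j 2]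
        conv_lhs => rw [hN]
        rw [pow_add]
        field_simp
    _ ≤ (2 * ((u : ℝ) + 2) + (n - 1)) / y ^ 2 * ((4 / 9) ^ e / a ^ (h * n - 2 * j - 2)) := by
        apply mul_le_mul_of_nonneg_left _ (by positivity)
        rw [div_le_div_iff₀ (by positivity) (by positivity)]
        exact hel
    _ = _ := by ring

end

end Pool.Agent.P8H2
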