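import Pool.Agent.P8H2.TB
import Pool.Agent.W165.OZ.SI

/-!
# Logarithmic sums
-/

open Polynomial Pool.Agent.H337R2 Pool.Agent.W165.OZ Filter Topology

namespace Pool.Agent.P8H2

noncomputable section

lemma log_succ_le {x : ℝ} (hx : 0 < x) : Real.log (x + 1) ≤ Real.log x + 1 / x := by
  have h1 : Real.log (x + 1) = Real.log x + Real.log (1 + 1 / x) := by
    rw [← Real.log_mul hx.ne' (by positivity)]
    congr 1
    field_simp
  have h2 := Real.log_le_sub_one_of_pos (show (0 : ℝ) < 1 + 1 / x by positivity)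
  linarith

lemma log_succ_ge {x : ℝ} (hx : 0 < x) : Real.log x + 1 / (x + 1) ≤ Real.log (x + 1) := by
  have h1 : Real.log x = Real.log (x + 1) + Real.log (x / (x + 1)) := by
    rw [← Real.log_mul (by positivity) (by positivity)]
    congr 1
    field_simp
  have h2 := Real.log_le_sub_one_of_pos (show (0 : ℝ) < x / (x + 1) by positivity)
  have h3 : x / (x + 1) - 1 = -(1 / (x + 1)) := by field_simp; ring
  linarith

/-- lower bound for `∑ k log k` -/
lemma klogk_ge (r : ℕ) (hr : 1 ≤ r) : (1 / 2) * (r : ℝ) ^ 2 * Real.log r - (r : ℝ) ^ 2 / 4 - r * (Real.log r + 3) ≤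
    ∑ k ∈ Finset.range r, (k : ℝ) * Real.log k := by
  induction r, hr using Nat.le_induction with
  | base => simp; norm_num
  | succ m hm ih =>
    rw [Finset.sum_range_succ]
    have hm0 : (0 : ℝ) < m := by exact_mod_cast hm
    have hm1 : (1 : ℝ) ≤ m := by exact_mod_cast hm
    push_cast
    have h1 := log_succ_le hm0
    have h1' := log_succ_ge hm0
    have h1'' : 0 < 1 / ((m : ℝ) + 1) := by positivity
    obtain ⟨l, hl⟩ : ∃ l, Real.log (m : ℝ) = l := ⟨_, rfl⟩
    obtain ⟨e, he⟩ : ∃ e, Real.log ((m : ℝ) + 1) = l + e := ⟨Real.log ((m : ℝ) + 1) - l, by ring⟩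
    rw [hl] at ih h1 h1' ⊢
    rw [he] at h1 h1' ⊢
    have h2 : e ≤ 1 / m := by linarith
    have h3 : 0 ≤ e := by linarith
    have h4 : (m : ℝ) * e ≤ 1 := by
      calc (m : ℝ) * e ≤ m * (1 / m) := mul_le_mul_of_nonneg_left h2 hm0.le
        _ = 1 := by field_simp
    have h5 : (m : ℝ) ^ 2 * e ≤ m := by
      calc (m : ℝ) ^ 2 * e = m * (m * e) := by ring
        _ ≤ m * 1 := mul_le_mul_of_nonneg_left h4 hm0.le
        _ = m := mul_one _
    have h6 : e ≤ 1 := h2.trans (by rw [div_le_one hm0]; exact hm1)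
    have hl0 : 0 ≤ l := by rw [← hl]; exact Real.log_nonneg hm1
    nlinarith

/-- upper bound for `∑ k log k` -/
lemma klogk_le (r : ℕ) (hr : 1 ≤ r) : ∑ k ∈ Finset.range r, (k : ℝ) * Real.log k ≤
    (1 / 2) * (r : ℝ) ^ 2 * Real.log r - (r : ℝ) ^ 2 / 4 + 1 / 4 := by
  induction r, hr using Nat.le_induction with
  | base => simp
  | succ m hm ih =>
    rw [Finset.sum_range_succ]
    have hm0 : (0 : ℝ) < m := by exact_mod_cast hm
    have hm1 : (1 : ℝ) ≤ m := by exact_mod_cast hm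
    push_cast
    have h1' := log_succ_ge hm0
    obtain ⟨l, hl⟩ : ∃ l, Real.log (m : ℝ) = l := ⟨_, rfl⟩
    obtain ⟨e, he⟩ : ∃ e, Real.log ((m : ℝ) + 1) = l + e := ⟨Real.log ((m : ℝ) + 1) - l, by ring⟩
    rw [hl] at ih h1' ⊢
    rw [he] at h1' ⊢
    have h3 : 1 / ((m : ℝ) + 1) ≤ e := by linarith
    have hl0 : 0 ≤ l := by rw [← hl]; exact Real.log_nonneg hm1
    have h5 : (m : ℝ) + 1 ≤ ((m : ℝ) + 1) ^ 2 * e := by
      calc (m : ℝ) + 1 = ((m : ℝ) + 1) ^ 2 * (1 / ((m : ℝ) + 1)) := by field_simp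
        _ ≤ _ := mul_le_mul_of_nonneg_left h3 (by positivity)
    nlinarith

lemma log_asc_fact (c r : ℕ) : ∑ j ∈ Finset.range r, Real.log ((j : ℝ) + 1 + c) =
    Real.log ((c + r).factorial : ℝ) - Real.log (c.factorial : ℝ) := by
  induction r with
  | zero => simp
  | succ r ih =>
    rw [Finset.sum_range_succ, ih, ← Nat.add_assoc, Nat.factorial_succ]
    push_cast
    rw [Real.log_mul (by positivity) (by positivity)]
    have : (r : ℝ) + 1 + c = (c : ℝ) + r + 1 := by ring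
    rw [this]
    ring

lemma Bsum_eq (c r : ℕ) : ∑ j ∈ Finset.range r, ((r : ℝ) - 1 - j) * Real.log ((j : ℝ) + 1 + c) =
    ∑ k ∈ Finset.range r, (Real.log ((c + k).factorial : ℝ) - Real.log (c.factorial : ℝ)) := by
  induction r with
  | zero => simp
  | succ r ih =>
    rw [Finset.sum_range_succ (n := r), Finset.sum_range_succ (n := r), ← ih, ← log_asc_fact]
    have h1 : (((r + 1 : ℕ) : ℝ) - 1 - r) * Real.log ((r : ℝ) + 1 + c) = 0 := by push_cast; ring
    rw [h1, add_zero, ← Finset.sum_add_distrib]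
    refine Finset.sum_congr rfl fun j _ => ?_
    push_cast
    ring

lemma Bsum_ge0 (r : ℕ) (hr : 1 ≤ r) :
    (1 / 2) * (r : ℝ) ^ 2 * Real.log r - (3 / 4) * (r : ℝ) ^ 2 - r * (Real.log r + 3) ≤
    ∑ j ∈ Finset.range r, ((r : ℝ) - 1 - j) * Real.log ((j : ℝ) + 1) := by
  have h1 := Bsum_eq 0 r
  simp only [Nat.cast_zero, add_zero, zero_add, Nat.factorial_zero, Nat.cast_one, Real.log_one, sub_zero] at h1
  rw [h1]
  have h2 : ∑ k ∈ Finset.range r, ((k : ℝ) * Real.log k - k) ≤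
      ∑ k ∈ Finset.range r, Real.log ((k.factorial : ℕ) : ℝ) :=
    Finset.sum_le_sum fun k _ => si_fact_ge k
  rw [Finset.sum_sub_distrib] at h2
  have h3 := klogk_ge r hr
  have h4 : ∑ k ∈ Finset.range r, (k : ℝ) = r * (r - 1) / 2 := by
    have : ∀ H : ℕ, ∑ j ∈ Finset.range H, (j : ℝ) = H * (H - 1) / 2 := by
      intro H
      induction H with
      | zero => simp
      | succ H ih => rw [Finset.sum_range_succ, ih]; push_cast; ring
    exact this r
  rw [h4] at h2
  have hr0 : (0 : ℝ) ≤ r := Nat.cast_nonneg r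
  nlinarith

lemma Bsum_ge (c r : ℕ) (hc : 1 ≤ c) (hr : 1 ≤ r) :
    (1 / 2) * ((c : ℝ) + r) ^ 2 * Real.log (c + r) - (1 / 2) * (c : ℝ) ^ 2 * Real.log c - r * c * Real.log c
      - (1 / 4) * ((c : ℝ) + r) ^ 2 + (1 / 4) * (c : ℝ) ^ 2 - (r : ℝ) ^ 2 / 2
      - ((c : ℝ) + r) * (Real.log (c + r) + 3) - 1 / 4 - r * (Real.log c + 1) ≤
    ∑ j ∈ Finset.range r, ((r : ℝ) - 1 - j) * Real.log ((j : ℝ) + 1 + c) := by
  rw [Bsum_eq]
  have h2 : ∑ k ∈ Finset.range r, ((((c + k : ℕ) : ℝ) * Real.log ((c + k : ℕ) : ℝ) - ((c + k : ℕ) : ℝ)) -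
      (c * Real.log c - c + Real.log c + 1)) ≤
      ∑ k ∈ Finset.range r, (Real.log ((c + k).factorial : ℝ) - Real.log (c.factorial : ℝ)) := by
    apply Finset.sum_le_sum
    intro k _
    have a1 := si_fact_ge (c + k)
    have a2 := si_fact_le c hc
    linarith
  refine le_trans ?_ h2
  rw [Finset.sum_sub_distrib, Finset.sum_sub_distrib, Finset.sum_const, Finset.card_range, nsmul_eq_mul]
  have h3 : ∑ k ∈ Finset.range r, ((c + k : ℕ) : ℝ) * Real.log ((c + k : ℕ) : ℝ) =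
      ∑ k ∈ Finset.range (c + r), (k : ℝ) * Real.log k - ∑ k ∈ Finset.range c, (k : ℝ) * Real.log k := by
    rw [Finset.sum_range_add (fun k : ℕ => (k : ℝ) * Real.log k) c r]
    ring
  have h4 : ∑ k ∈ Finset.range r, ((c + k : ℕ) : ℝ) = c * r + r * (r - 1) / 2 := by
    have : ∀ H : ℕ, ∑ k ∈ Finset.range H, ((c + k : ℕ) : ℝ) = c * H + H * (H - 1) / 2 := by
      intro H
      induction H with
      | zero => simp
      | succ H ih => rw [Finset.sum_range_succ, ih]; push_cast; ring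
    exact this r
  rw [h3, h4]
  have h5 := klogk_ge (c + r) (by omega)
  have h6 := klogk_le c hc
  push_cast at h5
  have hr0 : (0 : ℝ) ≤ r := Nat.cast_nonneg r
  nlinarith

/-- the exponents -/
def ej (r j : ℕ) : ℕ := min j (2 * (r - 1 - j))

lemma ej_sum (r : ℕ) (hr : 1 ≤ r) : (r : ℝ) ^ 2 / 3 - r ≤ ∑ j ∈ Finset.range r, (ej r j : ℝ) := by
  obtain ⟨K, hK⟩ : ∃ K, K = 2 * (r - 1) / 3 + 1 := ⟨_, rfl⟩
  have hKr : K ≤ r := by omega
  obtain ⟨s, hs⟩ : ∃ s, r = K + s := ⟨r - K, by omega⟩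
  have h1 : ∑ j ∈ Finset.range r, (ej r j : ℝ) =
      ∑ j ∈ Finset.range K, (j : ℝ) + ∑ i ∈ Finset.range s, (2 * ((s : ℝ) - 1 - i)) := by
    rw [hs, Finset.sum_range_add]
    congr 1
    · refine Finset.sum_congr rfl fun j hj => ?_
      rw [Finset.mem_range] at hj
      unfold ej
      have : min j (2 * (K + s - 1 - j)) = j := by omega
      rw [this]
    · refine Finset.sum_congr rfl fun i hi => ?_
      rw [Finset.mem_range] at hi
      unfold ej
      have : min (K + i) (2 * (K + s - 1 - (K + i))) = 2 * (s - 1 - i) := by omega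
      rw [this]
      push_cast [Nat.cast_sub (show i ≤ s - 1 by omega), Nat.cast_sub (show 1 ≤ s by omega)]
      ring
  have h2 : ∑ j ∈ Finset.range K, (j : ℝ) = K * (K - 1) / 2 := by
    have : ∀ H : ℕ, ∑ j ∈ Finset.range H, (j : ℝ) = H * (H - 1) / 2 := by
      intro H
      induction H with
      | zero => simp
      | succ H ih => rw [Finset.sum_range_succ, ih]; push_cast; ring
    exact this K
  have h3 : ∑ i ∈ Finset.range s, (2 * ((s : ℝ) - 1 - i)) = s * (s - 1) := by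
    have : ∀ H : ℕ, ∑ i ∈ Finset.range H, (2 * ((H : ℝ) - 1 - i)) = H * (H - 1) := by
      intro H
      induction H with
      | zero => simp
      | succ H ih =>
        rw [Finset.sum_range_succ']
        have h6 : ∀ a : ℕ, 2 * (((H + 1 : ℕ) : ℝ) - 1 - ((a + 1 : ℕ) : ℝ)) = 2 * ((H : ℝ) - 1 - a) := by
          intro a; push_cast; ring
        simp only [h6]
        rw [ih]
        push_cast
        ring
    exact this s
  rw [h1, h2, h3, hs]
  push_cast
  have hs0 : (0 : ℝ) ≤ s := Nat.cast_nonneg s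
  have hK0 : (1 : ℝ) ≤ K := by
    have : 1 ≤ K := by omega
    exact_mod_cast this
  nlinarith [sq_nonneg ((K : ℝ) - 2 * s)]

end

end Pool.Agent.P8H2
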